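import Pool.Agent.P.MP_2b866c_nt.Decouple

/-!
The forward block lemma on initial segments.
-/

set_option autoImplicit false

open Finset

namespace Pool.Agent.P.MP_2b866c_nt

lemma T_pos {n : ℕ} (h : 1 ≤ n) : 1 ≤ T n ∨ False := by
  left; unfold T; split_ifs <;> omega

lemma iter_pos (t : ℕ) {n : ℕ} (h : 1 ≤ n) : 1 ≤ T^[t] n := by
  induction t with
  | zero => exact h
  | succ t ih => rw [Function.iterate_succ_apply']; simpa using T_pos ih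

lemma iter_zero (t : ℕ) : T^[t] 0 = 0 := Function.iterate_fixed (by simp [T]) t

lemma Ft_bits_le (t N : ℕ) : Ft (bits t N) ≤ 3 ^ t := by
  have := Ft_le (bits t N); rw [length_bits] at this
  exact le_trans (Nat.le_add_right _ _) this

/-- Weighted sum over the integers in `[1, x]`. -/
noncomputable def Sm (Φ g : ℕ → ℝ) (x : ℝ) : ℝ := ∑ Y ∈ Icc 1 ⌊x⌋₊, g Y * Φ Y

lemma sum_gj (t j B : ℕ) (h Φ : ℕ → ℝ) (s : Finset ℕ) (hs : ∀ Y ∈ s, 2 ^ t * Y < B) :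
    2 ^ t / 3 ^ j * ∑ Y ∈ s, gj t j h Y * Φ Y
      = ∑ N ∈ range B, if J t N = j ∧ T^[t] N ∈ s then h N * Φ (T^[t] N) else 0 := by
  have h1 : ∀ Y ∈ s, 2 ^ t / 3 ^ j * (gj t j h Y * Φ Y) = ∑ N ∈ range B,
      if T^[t] N = Y then (if J t N = j then h N * Φ (T^[t] N) else 0) else 0 := by
    intro Y hY
    rw [gj, Lop_eq_sum t _ h Y B (hs Y hY), sum_mul, mul_sum]
    refine sum_congr rfl fun N _ => ?_
    by_cases a : T^[t] N = Y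
    · by_cases b : J t N = j
      · have b' : ones (bits t N) = j := b
        simp only [a, b, b', if_true]; field_simp
      · have b' : ¬ ones (bits t N) = j := b
        simp [b, b']
    · simp [a]
  rw [mul_sum, sum_congr rfl h1, sum_comm]
  refine sum_congr rfl fun N _ => ?_
  rw [sum_ite_eq]
  by_cases a : T^[t] N ∈ s <;> by_cases b : J t N = j <;> simp [a, b]

lemma block {m t j : ℕ} (hj : j ≤ t) {h Φ : ℕ → ℝ} (hh : Per m h) (h0 : ∀ Y, 0 ≤ h Y)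
    (hΦ0 : ∀ Y, 0 ≤ Φ Y) (hΦ1 : ∀ Y, Φ Y ≤ 1) (x : ℝ) (hx : 0 ≤ x) :
    |(∑ N ∈ Icc 1 ⌊x⌋₊, if J t N = j then h N * Φ (T^[t] N) else 0)
      - 2 ^ t / 3 ^ j * Sm Φ (gj t j h) (3 ^ j * x / 2 ^ t)|
      ≤ 2 ^ t * (3 ^ t + 1 + 3 ^ (t + m)) * (pb t j * avg m h) := by
  set y : ℝ := 3 ^ j * x / 2 ^ t with hy
  have hy0 : 0 ≤ y := by positivity
  set B := 2 ^ t * (⌊y⌋₊ + 3 ^ t) + ⌊x⌋₊ + 1 with hB
  have e1 := sum_gj t j B h Φ (Icc 1 ⌊y⌋₊) (fun Y hY => by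
    have : 2 ^ t * Y ≤ 2 ^ t * (⌊y⌋₊ + 3 ^ t) :=
      Nat.mul_le_mul_left _ ((mem_Icc.1 hY).2.trans (Nat.le_add_right _ _))
    omega)
  have e2 := sum_gj t j B h Φ (Ioc ⌊y⌋₊ (⌊y⌋₊ + 3 ^ t)) (fun Y hY => by
    have : 2 ^ t * Y ≤ 2 ^ t * (⌊y⌋₊ + 3 ^ t) := Nat.mul_le_mul_left _ (mem_Ioc.1 hY).2
    omega)
  have e3 : (∑ N ∈ Icc 1 ⌊x⌋₊, if J t N = j then h N * Φ (T^[t] N) else 0)
      = ∑ N ∈ range B, if J t N = j ∧ N ∈ Icc 1 ⌊x⌋₊ then h N * Φ (T^[t] N) else 0 := by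
    rw [← sum_filter, ← sum_filter]
    congr 1
    ext N
    simp only [mem_filter, mem_range, mem_Icc]
    constructor
    · rintro ⟨a, b⟩; exact ⟨by omega, b, a⟩
    · rintro ⟨_, b, a⟩; exact ⟨a, b⟩
  have hf : ∀ N, J t N = j → (2 : ℝ) ^ t * (T^[t] N : ℕ) = 3 ^ j * N + (Ft (bits t N) : ℕ) := by
    intro N hN
    have := iter_formula t N
    rw [hN] at this
    exact_mod_cast this
  have i1 : ∀ N, J t N = j → T^[t] N ∈ Icc 1 ⌊y⌋₊ → N ∈ Icc 1 ⌊x⌋₊ := by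
    intro N hN hY
    rw [mem_Icc] at hY ⊢
    refine ⟨?_, Nat.le_floor ?_⟩
    · rcases Nat.eq_zero_or_pos N with rfl | h
      · rw [iter_zero] at hY; omega
      · exact h
    · have a1 := (Nat.le_floor_iff hy0).1 hY.2
      rw [hy, le_div_iff₀ (by positivity)] at a1
      have a2 := hf N hN
      have a3 : (3 : ℝ) ^ j * N ≤ 3 ^ j * x := by
        linarith [Nat.cast_nonneg (α := ℝ) (Ft (bits t N))]
      exact le_of_mul_le_mul_left a3 (by positivity)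
  have i2 : ∀ N, J t N = j → N ∈ Icc 1 ⌊x⌋₊ →
      T^[t] N ∈ Icc 1 ⌊y⌋₊ ∨ T^[t] N ∈ Ioc ⌊y⌋₊ (⌊y⌋₊ + 3 ^ t) := by
    intro N hN hY
    rw [mem_Icc] at hY ⊢
    rw [mem_Ioc]
    have a0 := iter_pos t hY.1
    have a1 := (Nat.le_floor_iff hx).1 hY.2
    have a2 := hf N hN
    have a3 : ((Ft (bits t N) : ℕ) : ℝ) ≤ 3 ^ t := by exact_mod_cast Ft_bits_le t N
    have a4 : ((T^[t] N : ℕ) : ℝ) ≤ y + 3 ^ t := by
      have b1 : (3 : ℝ) ^ j * N ≤ 3 ^ j * x := by gcongr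
      have b2 : (1 : ℝ) ≤ 2 ^ t := one_le_pow₀ (by norm_num)
      have b3 : (2 : ℝ) ^ t * y = 3 ^ j * x := by rw [hy]; field_simp
      have b4 : (3 : ℝ) ^ t ≤ 2 ^ t * 3 ^ t := le_mul_of_one_le_left (by positivity) b2
      have : (2 : ℝ) ^ t * (T^[t] N : ℕ) ≤ 2 ^ t * (y + 3 ^ t) := by rw [mul_add]; linarith
      exact le_of_mul_le_mul_left this (by positivity)
    have a5 : T^[t] N < ⌊y⌋₊ + 1 + 3 ^ t := by
      have := Nat.lt_floor_add_one y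
      have : ((T^[t] N : ℕ) : ℝ) < ((⌊y⌋₊ + 1 + 3 ^ t : ℕ) : ℝ) := by push_cast; linarith
      exact_mod_cast this
    omega
  have hp : ∀ N, 0 ≤ h N * Φ (T^[t] N) := fun N => mul_nonneg (h0 _) (hΦ0 _)
  have e4 : 2 ^ t / 3 ^ j * ∑ Y ∈ Ioc ⌊y⌋₊ (⌊y⌋₊ + 3 ^ t), gj t j h Y * Φ Y
      ≤ 2 ^ t * (3 ^ t + 1 + 3 ^ (t + m)) * (pb t j * avg m h) := by
    have a1 := sum_le_of_interval (gj_per (t := t) hh (show m + j ≤ t + m by omega))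
      (gj_nonneg t j h0) (Ioc ⌊y⌋₊ (⌊y⌋₊ + 3 ^ t)) ⌊y⌋₊ (3 ^ t) (by positivity) (fun Y hY => by
        rw [mem_Ioc] at hY
        exact ⟨by exact_mod_cast hY.1.le, by exact_mod_cast hY.2⟩)
    rw [avg_gj hh (by omega)] at a1
    have a2 : ∑ Y ∈ Ioc ⌊y⌋₊ (⌊y⌋₊ + 3 ^ t), gj t j h Y * Φ Y
        ≤ ∑ Y ∈ Ioc ⌊y⌋₊ (⌊y⌋₊ + 3 ^ t), gj t j h Y :=
      sum_le_sum fun Y _ => mul_le_of_le_one_right (gj_nonneg t j h0 Y) (hΦ1 Y)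
    have a3 : (2 : ℝ) ^ t / 3 ^ j ≤ 2 ^ t := div_le_self (by positivity) (one_le_pow₀ (by norm_num))
    have a4 : 0 ≤ ∑ Y ∈ Ioc ⌊y⌋₊ (⌊y⌋₊ + 3 ^ t), gj t j h Y * Φ Y :=
      sum_nonneg fun Y _ => mul_nonneg (gj_nonneg t j h0 Y) (hΦ0 Y)
    rw [mul_assoc]
    exact mul_le_mul a3 (a2.trans a1) a4 (by positivity)
  rw [Sm, e1, e3, ← sum_sub_distrib]
  refine le_trans ?_ e4
  rw [e2]
  refine (abs_sum_le_sum_abs _ _).trans (sum_le_sum fun N _ => ?_)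
  by_cases a : J t N = j
  · by_cases b : T^[t] N ∈ Icc 1 ⌊y⌋₊
    · rw [if_pos ⟨a, i1 N a b⟩, if_pos ⟨a, b⟩, sub_self, abs_zero]
      split_ifs
      · exact hp N
      · rfl
    · rw [if_neg (fun hc => b hc.2 : ¬ (J t N = j ∧ T^[t] N ∈ Icc 1 ⌊y⌋₊)), sub_zero]
      by_cases c : N ∈ Icc 1 ⌊x⌋₊
      · rw [if_pos ⟨a, c⟩, if_pos ⟨a, (i2 N a c).resolve_left b⟩, abs_of_nonneg (hp N)]
      · rw [if_neg (fun hc => c hc.2 : ¬ (J t N = j ∧ N ∈ Icc 1 ⌊x⌋₊)), abs_zero]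
        split_ifs
        · exact hp N
        · rfl
  · simp [a]

lemma Sm_le {N : ℕ} {g Φ : ℕ → ℝ} (hg : Per N g) (h0 : ∀ Y, 0 ≤ g Y) (hΦ1 : ∀ Y, Φ Y ≤ 1)
    (y : ℝ) (hy : 0 ≤ y) : Sm Φ g y ≤ (y + 1 + 3 ^ N) * avg N g := by
  refine le_trans ?_ (sum_le_of_interval hg h0 (Icc 1 ⌊y⌋₊) 0 y hy (fun Y hY => ?_))
  · exact sum_le_sum fun Y _ => mul_le_of_le_one_right (h0 Y) (hΦ1 Y)
  · rw [zero_add]
    exact ⟨Nat.cast_nonneg _, (Nat.le_floor_iff hy).1 (mem_Icc.1 hY).2⟩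

lemma Sm_nonneg {g Φ : ℕ → ℝ} (h0 : ∀ Y, 0 ≤ g Y) (hΦ0 : ∀ Y, 0 ≤ Φ Y) (y : ℝ) :
    0 ≤ Sm Φ g y := sum_nonneg fun Y _ => mul_nonneg (h0 Y) (hΦ0 Y)

lemma Sm_sub_le {N : ℕ} {g g' Φ : ℕ → ℝ} (hg : Per N g) (hg' : Per N g')
    (hΦ0 : ∀ Y, 0 ≤ Φ Y) (hΦ1 : ∀ Y, Φ Y ≤ 1) (y : ℝ) (hy : 0 ≤ y) :
    |Sm Φ g y - Sm Φ g' y| ≤ (y + 1 + 3 ^ N) * avg N (fun Y => |g Y - g' Y|) := by
  have := Sm_le (Φ := Φ) (N := N) (g := fun Y => |g Y - g' Y|) (fun Y => by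
    simp only [hg Y, hg' Y]) (fun Y => abs_nonneg _) hΦ1 y hy
  refine le_trans ?_ this
  unfold Sm
  rw [← sum_sub_distrib]
  refine (abs_sum_le_sum_abs _ _).trans (sum_le_sum fun Y _ => ?_)
  rw [← sub_mul, abs_mul, abs_of_nonneg (hΦ0 Y)]

lemma Sm_mul (c : ℝ) (g Φ : ℕ → ℝ) (y : ℝ) : Sm Φ (fun Y => c * g Y) y = c * Sm Φ g y := by
  simp only [Sm, mul_sum, mul_assoc]

lemma sum_split_J (t : ℕ) (s : Finset ℕ) (F : ℕ → ℕ → ℝ) :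
    ∑ N ∈ s, F (J t N) N = ∑ j ∈ range (t + 1), ∑ N ∈ s, if J t N = j then F j N else 0 := by
  rw [sum_comm]
  refine sum_congr rfl fun N _ => ?_
  rw [sum_ite_eq, if_pos (mem_range.2 (by have := J_le t N; omega))]

lemma err_le {t m : ℕ} {L : ℝ} (ht : (t : ℝ) ≤ L / 10) (hm : m ≤ t) :
    (2 : ℝ) ^ t * (3 ^ t + 1 + 3 ^ (t + m)) ≤ 3 * Real.exp (3 / 10 * L) := by
  have a1 : (3 : ℝ) ^ (t + m) ≤ 9 ^ t := by
    rw [show (9 : ℝ) = 3 ^ 2 by norm_num, ← pow_mul]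
    exact pow_le_pow_right₀ (by norm_num) (by omega)
  have a2 : (3 : ℝ) ^ t ≤ 9 ^ t := by gcongr; norm_num
  have a3 : (1 : ℝ) ≤ 9 ^ t := one_le_pow₀ (by norm_num)
  have a4 : (18 : ℝ) ^ t ≤ Real.exp (3 / 10 * L) := by
    have b1 : (18 : ℝ) ≤ Real.exp 1 ^ 3 := by
      have := Real.exp_one_gt_d9
      calc (18 : ℝ) ≤ 2.7 ^ 3 := by norm_num
        _ ≤ _ := by gcongr; linarith
    calc (18 : ℝ) ^ t ≤ (Real.exp 1 ^ 3) ^ t := by gcongr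
      _ = Real.exp (3 * t) := by rw [← pow_mul, Real.exp_one_pow]; push_cast; ring_nf
      _ ≤ _ := Real.exp_le_exp.2 (by linarith)
  have a5 : (18 : ℝ) ^ t = 2 ^ t * 9 ^ t := by rw [← mul_pow]; norm_num
  have a6 : (2 : ℝ) ^ t * (3 ^ t + 1 + 3 ^ (t + m)) ≤ 2 ^ t * (3 * 9 ^ t) := by
    gcongr; linarith
  linarith

lemma lam_ge : 1 / 4 ≤ Real.log (4 / 3) := by
  have := Real.one_sub_inv_le_log_of_pos (show (0 : ℝ) < 4 / 3 by norm_num)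
  linarith [show (4 / 3 : ℝ)⁻¹ = 3 / 4 by norm_num]

lemma lam_le : Real.log (4 / 3) ≤ 1 / 3 := by
  have := Real.log_le_sub_one_of_pos (show (0 : ℝ) < 4 / 3 by norm_num)
  linarith

lemma log_three_eq : Real.log 3 = 2 * Real.log 2 - Real.log (4 / 3) := by
  rw [Real.log_div (by norm_num) (by norm_num), show (4 : ℝ) = 2 ^ 2 by norm_num, Real.log_pow]
  push_cast; ring

lemma log_scale (j t : ℕ) {x : ℝ} (hx : 0 < x) :
    Real.log (3 ^ j * x / 2 ^ t) = Real.log x + j * Real.log 3 - t * Real.log 2 := by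
  rw [Real.log_div (by positivity) (by positivity), Real.log_mul (by positivity) hx.ne',
    Real.log_pow, Real.log_pow]; ring

end Pool.Agent.P.MP_2b866c_nt
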