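import Pool.Agent.P.MP_2b866c_nt.Walk

/-!
Superpolynomial decay of the survival probability of the killed walk.
-/

set_option autoImplicit false

open Finset

namespace Pool.Agent.P.MP_2b866c_nt

open Classical in
lemma sv_succ_le (N : ℕ) (ε : ℝ) (hε : 0 ≤ ε) (i : ℕ) (z : ZMod (3 ^ N)) :
    sv N (i + 1) z ≤ (1 - ε ^ 2) * sv N i z
      + ε ^ 2 * Bn (2 * i) (fun e => if black N ε (mv N e i z) then 1 else 0) := by
  rw [sv_add]
  have h1 : (Pk N)^[i] (sv N 1) z ≤ (Pk N)^[i]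
      (fun y => (1 - ε ^ 2) * 1 + ε ^ 2 * (if black N ε y then 1 else 0)) z := by
    refine Pk_mono N i _ _ z fun e _ => ?_
    set y := mv N e i z
    have : sv N 1 y = 1 / 2 + kap N y / 2 := by simp [sv, Pk]; ring
    rw [this]
    split_ifs with h
    · linarith [kap_le_one N y]
    · linarith [kap_white N ε hε y h]
  rw [Pk_lin N i _ _ (fun _ => 1) (fun y => if black N ε y then 1 else 0)] at h1
  have h2 := Pk_le_Bn N i (fun y => if black N ε y then (1 : ℝ) else 0)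
    (fun y => by split_ifs <;> norm_num) z
  have : ε ^ 2 * (Pk N)^[i] (fun y => if black N ε y then (1 : ℝ) else 0) z
      ≤ ε ^ 2 * Bn (2 * i) (fun e => if black N ε (mv N e i z) then 1 else 0) := by gcongr
  have e : (Pk N)^[i] (fun _ => (1 : ℝ)) z = sv N i z := rfl
  rw [e] at h1
  linarith

lemma three_four_le {e i : ℕ} (h : 4 * e ≤ 5 * i) : 3 ^ e ≤ 4 ^ i := by
  have h1 : (3 ^ e) ^ 20 ≤ (4 ^ i) ^ 20 := by
    calc (3 ^ e) ^ 20 = 3 ^ (5 * (4 * e)) := by ring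
      _ ≤ 2 ^ (8 * (4 * e)) := three_five_le _
      _ ≤ 2 ^ (40 * i) := Nat.pow_le_pow_right (by norm_num) (by omega)
      _ = (4 ^ i) ^ 20 := by
          rw [show (4 : ℕ) = 2 ^ 2 by norm_num, ← pow_mul, ← pow_mul]; congr 1; ring
  exact (Nat.pow_le_pow_iff_left (by norm_num)).1 h1

open Classical in
lemma black_prob (N : ℕ) (ε : ℝ) (hε : 0 ≤ ε) (z : ZMod (3 ^ N)) (hz : black N ε z) (u : ℕ)
    (r : ℤ) (hr : Odd r) (hzr : z.valMinAbs = 2 ^ u * r) (i n : ℕ) (hi : 2 * i = u + (n + 2)) :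
    Bn (2 * i) (fun e => if black N ε (mv N e i z) then 1 else 0)
      ≤ 16 * ε + 2 ^ n * (2 / √(u + 1)) + Real.exp (-(u / 32)) := by
  set P : ℕ → Prop := fun e => ∃ C : ℤ, Odd C ∧ |(C : ℝ)| ≤ 2 * ε * 2 ^ (n + 2) ∧
      (2 : ℤ) ^ (n + 2) ∣ 3 ^ N * C + 3 ^ e * r with hP
  have h1 : Bn (2 * i) (fun e => if black N ε (mv N e i z) then 1 else 0)
      ≤ Bn (2 * i) (fun e => (if P e then 1 else 0) + (if 5 * i < 4 * e then 1 else 0)) := by
    refine Bn_mono fun e _ => ?_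
    by_cases hb : black N ε (mv N e i z)
    · by_cases h5 : 5 * i < 4 * e
      · simp only [hb, h5, if_true]; split_ifs <;> norm_num
      · have : P e := key_cong N ε z hz u r hr hzr i (n + 2) e hi (by omega)
          (three_four_le (by omega)) hb
        simp [hb, h5, this]
    · simp only [hb, if_false]; split_ifs <;> norm_num
  rw [Bn_add] at h1
  have h2 := Bn_window (2 * i) (2 ^ n) (by positivity) P (16 * ε)
    (fun e => window_count N n ε hε r hr e P (fun _ h => h))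
  have hi0 : (0 : ℝ) < i := by
    have : 0 < i := by omega
    exact_mod_cast this
  have hu : (u : ℝ) ≤ 2 * i := by
    have : u ≤ 2 * i := by omega
    exact_mod_cast this
  have h3 := hoeff_up (2 * i) (2 * i) (i / 4) (by push_cast; rfl) (by positivity) (by positivity)
    (fun e => 5 * i < 4 * e) (fun e he => by
      have : (5 * i : ℝ) < 4 * e := by exact_mod_cast he
      push_cast; linarith)
  have h4 : Real.exp (-(2 * ((i : ℝ) / 4) ^ 2 / (2 * i))) ≤ Real.exp (-(u / 32)) := by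
    apply Real.exp_le_exp.2
    have : 2 * ((i : ℝ) / 4) ^ 2 / (2 * i) = i / 16 := by field_simp; norm_num
    rw [this]; linarith
  have h5 : ((2 ^ n : ℕ) : ℝ) * (2 / √(((2 * i : ℕ) : ℝ) + 1)) ≤ 2 ^ n * (2 / √(u + 1)) := by
    push_cast
    gcongr
  linarith

lemma tall_bound (N : ℕ) (ε : ℝ) (hε : 0 ≤ ε) (hε1 : ε ≤ 1) (z : ZMod (3 ^ N))
    (hz : black N ε z) (u : ℕ) (r : ℤ) (hr : Odd r) (hzr : z.valMinAbs = 2 ^ u * r)
    (T U : ℕ) (hU : U ≤ u) :
    sv N (u / 2 + 2 + T) z ≤ (1 - ε ^ 2) ^ T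
      + (16 * ε + 2 ^ (2 * T + 2) * (2 / √(U + 1)) + Real.exp (-(U / 32))) := by
  set γ := 16 * ε + 2 ^ (2 * T + 2) * (2 / √((U : ℝ) + 1)) + Real.exp (-(U / 32)) with hγ
  have hγ0 : 0 ≤ γ := by positivity
  have he2 : 0 ≤ 1 - ε ^ 2 := by nlinarith
  have hUu : (U : ℝ) ≤ u := by exact_mod_cast hU
  have key : ∀ k ≤ T, sv N (u / 2 + 2 + k) z ≤ (1 - ε ^ 2) ^ k + γ := by
    intro k hk
    induction k with
    | zero => have := sv_le_one N (u / 2 + 2 + 0) z; simp only [pow_zero]; linarith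
    | succ k ih =>
      have h1 := ih (by omega)
      have h2 := sv_succ_le N ε hε (u / 2 + 2 + k) z
      obtain ⟨n, hn⟩ : ∃ n, 2 * (u / 2 + 2 + k) = u + (n + 2) :=
        ⟨2 * (u / 2 + 2 + k) - u - 2, by omega⟩
      have h3 := black_prob N ε hε z hz u r hr hzr (u / 2 + 2 + k) n hn
      have h4 : (2 : ℝ) ^ n * (2 / √(u + 1)) ≤ 2 ^ (2 * T + 2) * (2 / √(U + 1)) := by
        gcongr
        · norm_num
        · omega
      have h5 : Real.exp (-((u : ℝ) / 32)) ≤ Real.exp (-(U / 32)) := by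
        apply Real.exp_le_exp.2; linarith
      have h6 := h3.trans (show _ ≤ γ by rw [hγ]; linarith)
      have h7 : (1 - ε ^ 2) * sv N (u / 2 + 2 + k) z ≤ (1 - ε ^ 2) * ((1 - ε ^ 2) ^ k + γ) := by
        gcongr
      have h8 := mul_le_mul_of_nonneg_left h6 (sq_nonneg ε)
      rw [← add_assoc, pow_succ]
      nlinarith
  exact key T le_rfl

lemma white_bound (N : ℕ) (ε : ℝ) (hε : 0 ≤ ε) (i : ℕ) (z : ZMod (3 ^ N))
    (hz : ¬ black N ε (mv N 0 i z)) : sv N (i + 1) z ≤ 1 - ε ^ 2 / 4 ^ i := by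
  induction i generalizing z with
  | zero =>
    rw [mv_zero] at hz
    have : sv N 1 z = 1 / 2 + kap N z / 2 := by simp [sv, Pk]; ring
    rw [zero_add, this]
    have := kap_white N ε hε z hz
    simp only [pow_zero, div_one]; linarith
  | succ i ih =>
    have h1 := ih (w N ^ 2 * z) (by rwa [mv_a])
    have h2 := sv_le_one N (i + 1) (3 * w N ^ 2 * z)
    have h2' := sv_nonneg N (i + 1) (3 * w N ^ 2 * z)
    have h3 := sv_le_one N (i + 1) (9 * w N ^ 2 * z)
    have h4 := kap_le_one N z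
    have h5 := kap_nonneg N z
    unfold sv at *
    rw [Pk_succ]
    have h6 : kap N z * (Pk N)^[i + 1] (fun _ => 1) (3 * w N ^ 2 * z) ≤ 1 := by nlinarith
    have h7 : ε ^ 2 / 4 ^ (i + 1) = ε ^ 2 / 4 ^ i / 4 := by rw [pow_succ (4 : ℝ), div_div]
    linarith

lemma short_bound (N : ℕ) (ε : ℝ) (hε : 0 ≤ ε) (hε1 : ε < 1 / 8) (z : ZMod (3 ^ N)) (u : ℕ)
    (r : ℤ) (hr : Odd r) (hzr : z.valMinAbs = 2 ^ u * r) (U : ℕ)
    (h : ¬ black N ε z ∨ u < U) : sv N (U + 1) z ≤ 1 - ε ^ 2 / 4 ^ U := by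
  obtain ⟨i, hi, hw⟩ : ∃ i ≤ U, ¬ black N ε (mv N 0 i z) := by
    by_cases hb : black N ε z
    · have hu : u < U := by tauto
      refine ⟨u / 2 + 1, by omega, fun hb' => ?_⟩
      obtain ⟨t, ht⟩ : ∃ t, 2 * (u / 2 + 1) = u + t := ⟨2 * (u / 2 + 1) - u, by omega⟩
      obtain ⟨C, h1, h2, _⟩ := key_cong N ε z hb u r hr hzr (u / 2 + 1) t 0 ht (by omega)
        (Nat.one_le_pow _ _ (by norm_num)) hb'
      have h3 : (2 : ℝ) ^ t ≤ 2 ^ 2 := pow_le_pow_right₀ (by norm_num) (by omega)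
      have h4 : |(C : ℝ)| < 1 := by nlinarith
      have h5 : |C| < 1 := by exact_mod_cast h4
      have h6 : C = 0 := by rwa [Int.abs_lt_one_iff] at h5
      rw [h6] at h1; exact absurd h1 (by decide)
    · exact ⟨0, Nat.zero_le _, by rwa [mv_zero]⟩
  have h1 := white_bound N ε hε i z hw
  have h2 := sv_anti N (show i + 1 ≤ U + 1 by omega) z
  have h3 : ε ^ 2 / 4 ^ U ≤ ε ^ 2 / 4 ^ i := by
    gcongr
    norm_num
  linarith

lemma exp_neg_le (c : ℝ) (hc : 0 < c) (A : ℕ) (x : ℝ) (hx : 0 < x) :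
    Real.exp (-(c * x)) ≤ (A.factorial / c ^ A) / x ^ A := by
  have h := Real.pow_div_factorial_le_exp (c * x) (by positivity) A
  rw [Real.exp_neg, inv_le_comm₀ (Real.exp_pos _) (by positivity)]
  refine le_trans (le_of_eq ?_) h
  rw [mul_pow]; field_simp

/-- Single scale gain. -/
lemma single_scale (δ : ℝ) (hδ : 0 < δ) : ∃ ν₀ : ℕ, ∀ (N : ℕ) (z : ZMod (3 ^ N)),
    ν₀ ≤ lev N z → sv N (9 * lev N z / 10) z ≤ δ := by
  wlog hδ1 : δ ≤ 1 generalizing δ
  · obtain ⟨ν₀, h⟩ := this 1 one_pos le_rfl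
    exact ⟨ν₀, fun N z hz => (h N z hz).trans (by linarith)⟩
  set ε := δ / 100 with hε
  have hε0 : 0 < ε := by positivity
  have hε2 : ε ^ 2 < 1 := by nlinarith
  obtain ⟨T, hT⟩ := exists_pow_lt_of_lt_one (show 0 < δ / 8 by positivity)
    (show 1 - ε ^ 2 < 1 by nlinarith)
  obtain ⟨U, hU⟩ : ∃ U : ℕ, (2 : ℝ) ^ (2 * T + 2) * (2 / √((U : ℝ) + 1)) ≤ δ / 16 ∧
      Real.exp (-((U : ℝ) / 32)) ≤ δ / 16 := by
    obtain ⟨U, hU⟩ := exists_nat_ge (max ((2 ^ (2 * T + 2) * 32 / δ) ^ 2) (512 / δ))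
    have h1 := (le_max_left _ _).trans hU
    have h2 := (le_max_right _ _).trans hU
    have hU0 : (0 : ℝ) < U := lt_of_lt_of_le (by positivity) h2
    refine ⟨U, ?_, ?_⟩
    · have h3 : 2 ^ (2 * T + 2) * 32 / δ ≤ √((U : ℝ) + 1) :=
        Real.le_sqrt_of_sq_le (by linarith)
      have h4 : 0 < √((U : ℝ) + 1) := Real.sqrt_pos.2 (by positivity)
      rw [div_le_iff₀ hδ] at h3
      rw [← mul_div_assoc, div_le_div_iff₀ h4 (by norm_num)]
      linarith
    · have h3 := exp_neg_le (1 / 32) (by norm_num) 1 U hU0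
      rw [show (1 / 32 : ℝ) * U = U / 32 by ring] at h3
      refine h3.trans ?_
      rw [div_le_iff₀ hδ] at h2
      simp only [Nat.factorial_one, Nat.cast_one, pow_one]
      rw [div_le_div_iff₀ hU0 (by norm_num)]
      linarith
  have hq0 : 0 < ε ^ 2 / 4 ^ U := by positivity
  have hq1 : ε ^ 2 / 4 ^ U ≤ 1 := by
    rw [div_le_one (by positivity)]
    exact hε2.le.trans (one_le_pow₀ (by norm_num))
  set q := ε ^ 2 / 4 ^ U with hq
  obtain ⟨ρ, hρ⟩ := exists_pow_lt_of_lt_one (show 0 < δ / 2 by positivity)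
    (show 1 - q < 1 by linarith)
  refine ⟨10 * (T + 4 + (U + 1) * ρ), fun N z hz => ?_⟩
  set ν := lev N z with hν
  have claim : ∀ k : ℕ, ∀ y : ZMod (3 ^ N), 2 * ((U + 1) * k) < lev N y → lev N y ≤ ν →
      sv N ((U + 1) * k + (4 * ν / 5 + T + 3)) y ≤ δ / 2 + (1 - q) ^ k := by
    intro k
    induction k with
    | zero =>
      intro y _ _
      have := sv_le_one N ((U + 1) * 0 + (4 * ν / 5 + T + 3)) y
      simp only [pow_zero]; linarith
    | succ k ih =>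
      intro y hy1 hy2
      obtain ⟨u, r, hr, hyr, hu⟩ := exists_odd_part N y (by omega)
      have hp : 0 ≤ (1 - q) ^ k := pow_nonneg (by linarith) _
      by_cases htall : black N ε y ∧ U ≤ u
      · have h1 := tall_bound N ε hε0.le (by linarith) y htall.1 u r hr hyr T U htall.2
        have h2 := sv_anti N (show u / 2 + 2 + T ≤ (U + 1) * (k + 1) + (4 * ν / 5 + T + 3) by
          omega) y
        have hp' : 0 ≤ (1 - q) ^ (k + 1) := pow_nonneg (by linarith) _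
        linarith [hU.1, hU.2]
      · have h1 := short_bound N ε hε0.le (by linarith) y u r hr hyr U (by
          by_cases hb : black N ε y
          · right; by_contra hc; exact htall ⟨hb, by omega⟩
          · left; exact hb)
        rw [show (U + 1) * (k + 1) + (4 * ν / 5 + T + 3)
          = (U + 1) + ((U + 1) * k + (4 * ν / 5 + T + 3)) by ring, sv_add]
        have h2 := Pk_le_mul_sv N (U + 1) (sv N ((U + 1) * k + (4 * ν / 5 + T + 3))) y
          (δ / 2 + (1 - q) ^ k) (fun e he => ih _ (by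
            rw [lev_mv]; rw [mul_add (U + 1), mul_one] at hy1; omega) (by rw [lev_mv]; omega))
        have h3 : (δ / 2 + (1 - q) ^ k) * sv N (U + 1) y ≤ (δ / 2 + (1 - q) ^ k) * (1 - q) := by
          gcongr
        rw [pow_succ]
        nlinarith
  have h1 := claim ρ z (by omega) le_rfl
  have h2 := sv_anti N (show (U + 1) * ρ + (4 * ν / 5 + T + 3) ≤ 9 * ν / 10 by omega) z
  linarith

/-- Decay over all scales. -/
lemma decay (A : ℕ) : ∃ C : ℝ, 1 ≤ C ∧ ∀ (N μ σ : ℕ) (z : ZMod (3 ^ N)), 1 ≤ μ → 1 ≤ lev N z →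
    (Pk N)^[σ] (fun y => if lev N y ≤ μ then 1 else 0) z ≤ C * ((μ : ℝ) / lev N z) ^ A := by
  obtain ⟨ν₀, hν₀⟩ := single_scale (1 / (2 * 20 ^ A)) (by positivity)
  set K : ℝ := A.factorial / (1 / 360) ^ A with hK
  have hK0 : 0 ≤ K := by positivity
  have hp1 : (1 : ℝ) ≤ (ν₀ + 20) ^ A := one_le_pow₀ (by linarith [Nat.cast_nonneg (α := ℝ) ν₀])
  refine ⟨(ν₀ + 20) ^ A + 2 * K, by linarith, fun N μ σ => ?_⟩
  set C : ℝ := (ν₀ + 20) ^ A + 2 * K with hC
  have hC0 : 0 ≤ C := by linarith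
  have hf0 : ∀ y : ZMod (3 ^ N), (0 : ℝ) ≤ if lev N y ≤ μ then 1 else 0 := fun y => by
    split_ifs <;> norm_num
  have hf1 : ∀ y : ZMod (3 ^ N), (if lev N y ≤ μ then (1 : ℝ) else 0) ≤ 1 := fun y => by
    split_ifs <;> norm_num
  induction σ using Nat.strong_induction_on with
  | _ σ ih =>
  intro z hμ hz
  set ν := lev N z with hν
  have hν0 : (0 : ℝ) < ν := by exact_mod_cast hz
  have hμ1 : (1 : ℝ) ≤ μ := by exact_mod_cast hμ
  by_cases hsmall : ν ≤ ν₀ ∨ ν ≤ 20 * μ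
  · refine (Pk_le_const N σ _ hf0 1 hf1 z).trans ?_
    have h1 : (1 : ℝ) ≤ (ν₀ + 20) * (μ / ν) := by
      rw [← mul_div_assoc, le_div_iff₀ hν0]
      rcases hsmall with h | h
      · have : (ν : ℝ) ≤ ν₀ := by exact_mod_cast h
        nlinarith [Nat.cast_nonneg (α := ℝ) ν₀]
      · have : (ν : ℝ) ≤ 20 * μ := by exact_mod_cast h
        nlinarith [Nat.cast_nonneg (α := ℝ) ν₀]
    calc (1 : ℝ) ≤ ((ν₀ + 20) * (μ / ν)) ^ A := one_le_pow₀ h1
      _ = (ν₀ + 20) ^ A * (μ / ν) ^ A := mul_pow _ _ _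
      _ ≤ _ := by gcongr; linarith
  push Not at hsmall
  obtain ⟨hs1, hs2⟩ := hsmall
  have tail : ∀ s : ℕ, s ≤ 9 * ν / 10 → ∀ (P : ℕ → Prop) [DecidablePred P],
      (∀ e, P e → 19 * ν ≤ 20 * e) →
      Bn (2 * s) (fun e => if P e then 1 else 0) ≤ C / 2 * ((μ : ℝ) / ν) ^ A := by
    intro s hs P _ hP
    have hs' : (10 : ℝ) * s ≤ 9 * ν := by
      have : 10 * s ≤ 9 * ν := by omega
      exact_mod_cast this
    have h1 := hoeff_up (2 * s) (9 * ν / 5) (ν / 20) (by push_cast; linarith) (by positivity)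
      (by positivity) P (fun e he => by
        have : (19 : ℝ) * ν ≤ 20 * e := by exact_mod_cast hP e he
        push_cast; linarith)
    have h2 : 2 * ((ν : ℝ) / 20) ^ 2 / (9 * ν / 5) = 1 / 360 * ν := by field_simp; norm_num
    rw [h2] at h1
    have h3 := exp_neg_le (1 / 360) (by norm_num) A ν hν0
    rw [← hK] at h3
    have h4 : K / (ν : ℝ) ^ A ≤ C / 2 * ((μ : ℝ) / ν) ^ A := by
      rw [div_pow, ← mul_div_assoc]
      gcongr
      have : (1 : ℝ) ≤ μ ^ A := one_le_pow₀ hμ1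
      nlinarith
    linarith
  have hpos : 0 ≤ C / 2 * ((μ : ℝ) / ν) ^ A := by positivity
  by_cases hσ : σ < 9 * ν / 10
  · have h1 := Pk_le_Bn N σ _ hf0 z
    have h2 := tail σ hσ.le (fun e => lev N (mv N e σ z) ≤ μ) (fun e he => by
      rw [lev_mv] at he; omega)
    linarith
  · push Not at hσ
    obtain ⟨d, hd⟩ := Nat.exists_eq_add_of_le hσ
    set σ₀ := 9 * ν / 10 with hσ₀
    rw [hd, Function.iterate_add_apply]
    set M := C * (20 * (μ : ℝ) / ν) ^ A with hM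
    have hM0 : 0 ≤ M := by positivity
    have h1 : (Pk N)^[σ₀] ((Pk N)^[d] fun y => if lev N y ≤ μ then (1 : ℝ) else 0) z
        ≤ (Pk N)^[σ₀] (fun y => M * 1 + 1 * (if 20 * lev N y < ν then 1 else 0)) z := by
      refine Pk_mono N σ₀ _ _ z fun e _ => ?_
      set y := mv N e σ₀ z
      by_cases hy : 20 * lev N y < ν
      · have := Pk_le_const N d _ hf0 1 hf1 y
        simp only [hy, if_true]; linarith
      · have hy0 : 1 ≤ lev N y := by omega
        have := ih d (by omega) y hμ hy0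
        simp only [hy, if_false]
        have hy' : (ν : ℝ) ≤ 20 * lev N y := by
          have : ν ≤ 20 * lev N y := by omega
          exact_mod_cast this
        have hy1 : (0 : ℝ) < lev N y := by exact_mod_cast hy0
        have h2 : (μ : ℝ) / lev N y ≤ 20 * μ / ν := by
          rw [div_le_div_iff₀ hy1 hν0]; nlinarith
        have h3 : C * ((μ : ℝ) / lev N y) ^ A ≤ M := by rw [hM]; gcongr
        linarith
    rw [Pk_lin N σ₀ M 1 (fun _ => 1) (fun y => if 20 * lev N y < ν then 1 else 0)] at h1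
    have h2 : (Pk N)^[σ₀] (fun _ => (1 : ℝ)) z ≤ 1 / (2 * 20 ^ A) := hν₀ N z hs1.le
    have h3 := Pk_le_Bn N σ₀ (fun y => if 20 * lev N y < ν then (1 : ℝ) else 0)
      (fun y => by split_ifs <;> norm_num) z
    have h4 := tail σ₀ le_rfl (fun e => 20 * lev N (mv N e σ₀ z) < ν) (fun e he => by
      rw [lev_mv] at he; omega)
    have h5 : M * (Pk N)^[σ₀] (fun _ => (1 : ℝ)) z ≤ M * (1 / (2 * 20 ^ A)) := by gcongr
    have h6 : M * (1 / (2 * 20 ^ A)) = C / 2 * ((μ : ℝ) / ν) ^ A := by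
      rw [hM, mul_div_assoc, mul_pow]; field_simp
    linarith

end Pool.Agent.P.MP_2b866c_nt
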