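import Pool.Agent.P.MP_2b866c_nt.Mixing

/-!
Decoupling of the residue class from the number of odd steps, and near stationarity.
-/

set_option autoImplicit false

open Finset

namespace Pool.Agent.P.MP_2b866c_nt

/-- Normalised indicator of the residue class attached to a word. -/
noncomputable def dl (m : ℕ) (x : List Bool) (Y : ℕ) : ℝ :=
  if 2 ^ x.length * Y ≡ Ft x [MOD 3 ^ m] then 3 ^ m else 0

/-- The reference density. -/
noncomputable def sg (r m : ℕ) (Y : ℕ) : ℝ := Ex r (fun x => dl m x Y)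

lemma dl_nonneg (m : ℕ) (x : List Bool) (Y : ℕ) : 0 ≤ dl m x Y := by
  unfold dl; split_ifs <;> positivity

lemma sg_nonneg (r m Y : ℕ) : 0 ≤ sg r m Y := Ex_nonneg fun x _ => dl_nonneg m x Y

lemma dl_per (m : ℕ) (x : List Bool) : Per m (dl m x) := by
  intro Y; simp [dl, Nat.ModEq, mul_add]

lemma sg_per (r m : ℕ) : Per m (sg r m) := fun Y => Ex_congr fun x _ => dl_per m x Y

lemma two_pow_cancel {m l a b : ℕ} : 2 ^ l * a ≡ 2 ^ l * b [MOD 3 ^ m] ↔ a ≡ b [MOD 3 ^ m] :=
  ⟨fun h => Nat.ModEq.cancel_left_of_coprime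
    (Nat.Coprime.pow _ _ (by norm_num : Nat.Coprime 3 2)) h, fun h => h.mul_left _⟩

lemma avg_dl {m N : ℕ} (hm : m ≤ N) (x : List Bool) : avg N (dl m x) = 1 := by
  rw [← class_avg hm (w N ^ x.length * (Ft x : ZMod (3 ^ N))).val]
  refine avg_congr fun Y => ?_
  have c1 := (two_pow_val N x.length (Ft x)).of_dvd (pow_dvd_pow 3 hm)
  unfold dl
  refine if_congr ?_ rfl rfl
  rw [← two_pow_cancel (l := x.length) (b := Y)]
  exact ⟨fun h => c1.trans h.symm, fun h => h.symm.trans c1⟩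

lemma avg_sg {m N : ℕ} (hm : m ≤ N) (r : ℕ) : avg N (sg r m) = 1 := by
  unfold sg
  rw [avg_Ex N r (fun x Y => dl m x Y)]
  simp only [avg_dl hm, Ex_const]

lemma Pr_Wt {m m' N : ℕ} {G : ℕ → ℝ} (hG : Per m G) (x : List Bool) (hx : m + ones x ≤ N)
    (hm' : m' ≤ ones x) (Y : ℕ) : Pr N m' (Wt x G) Y = avg m G * dl m' x Y := by
  have hd : 3 ^ m' ∣ 3 ^ N := pow_dvd_pow 3 (by omega)
  have h1 := dual hG x hx (fun z => if z.val ≡ Y [MOD 3 ^ m'] then (3 : ℝ) ^ m' else 0)
  simp only [smul_eq_mul] at h1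
  have h2 : ∀ U : ℕ, (if (phi N x U).val ≡ Y [MOD 3 ^ m'] then (3 : ℝ) ^ m' else 0)
      = dl m' x Y := by
    intro U
    unfold dl
    refine if_congr ?_ rfl rfl
    have c1 := (two_pow_val N x.length (3 ^ ones x * U + Ft x)).of_dvd hd
    have c2 : 3 ^ ones x * U + Ft x ≡ Ft x [MOD 3 ^ m'] := by
      have : 3 ^ ones x * U ≡ 0 [MOD 3 ^ m'] :=
        (Nat.modEq_zero_iff_dvd).2 ((pow_dvd_pow 3 hm').mul_right _)
      simpa using this.add_right (Ft x)
    have c3 := c1.trans c2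
    push_cast at c3
    rw [← two_pow_cancel (l := x.length) (b := Y)]
    exact ⟨fun h => h.symm.trans c3, fun h => c3.trans h.symm⟩
  simp only [h2, ← sum_mul] at h1
  rw [← avg_eq hG (show m ≤ N by omega)]
  unfold Pr avg
  rw [div_mul_eq_mul_div, ← h1]
  congr 1
  refine sum_congr rfl fun U hU => ?_
  rw [ZMod.val_natCast_of_lt (mem_range.1 hU)]

lemma dec0 {m m' N : ℕ} {G : ℕ → ℝ} (hG : Per m G) (h0 : ∀ Y, 0 ≤ G Y) (x : List Bool)
    (hx : m + ones x ≤ N) (hm' : m' ≤ N) :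
    avg N (fun Y => |Pr N m' (Wt x G) Y - avg m G * dl m' x Y|)
      ≤ 2 * avg m G * if ones x < m' then 1 else 0 := by
  split_ifs with h
  · have := avg_abs_sub_le N (Pr_nonneg N m' (Wt_nonneg x h0))
      (g' := fun Y => avg m G * dl m' x Y)
      (fun Y => mul_nonneg (avg_nonneg h0) (dl_nonneg _ _ _))
    rw [avg_Pr hm', avg_Wt hG x hx, avg_mul, avg_dl hm'] at this
    linarith
  · simp [Pr_Wt hG x hx (by omega : m' ≤ ones x), avg_const]

lemma shift_tv (r s i : ℕ) (hi : i ≤ r) :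
    ∑ j ∈ range (r + s + 1), |Bn s (fun e => if i + e = j then 1 else 0) - pb (r + s) j|
      ≤ 4 * r / √(s + 1) := by
  set S : ℕ → ℝ := fun j => if 0 ≤ Bn s (fun e => if i + e = j then 1 else 0) - pb (r + s) j
    then 1 else -1 with hS
  have hS1 : ∀ j, |S j| ≤ 1 := fun j => by simp only [hS]; split_ifs <;> simp
  have h1 : ∀ j, |Bn s (fun e => if i + e = j then 1 else 0) - pb (r + s) j|
      = S j * Bn s (fun e => if i + e = j then 1 else 0) - pb (r + s) j * S j := by
    intro j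
    simp only [hS]
    split_ifs with h
    · rw [abs_of_nonneg h]; ring
    · rw [abs_of_neg (by linarith)]; ring
  simp only [h1, sum_sub_distrib, ← Bn_mul_left]
  rw [← Bn_sum, ← Bn_eq_sum _ _ (by omega), Bn_append]
  have h2 : Bn s (fun e => ∑ j ∈ range (r + s + 1), S j * if i + e = j then 1 else 0)
      = Bn s (fun e => S (i + e)) := by
    refine Bn_congr fun e he => ?_
    simp only [mul_ite, mul_one, mul_zero, sum_ite_eq, mem_range]
    rw [if_pos (by omega)]
  rw [h2, ← Bn_const r (Bn s (fun e => S (i + e))), ← Bn_sub]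
  refine Bn_le_const fun i' hi' => ?_
  have a1 := (abs_le.1 (Bn_shift_iter s i S 1 hS1)).2
  have a2 := (abs_le.1 (Bn_shift_iter s i' S 1 hS1)).1
  have b1 : (i : ℝ) ≤ r := by exact_mod_cast hi
  have b2 : (i' : ℝ) ≤ r := by exact_mod_cast hi'
  have c0 : 0 ≤ 2 * 1 / √((s : ℝ) + 1) := by positivity
  have c1 := mul_le_mul_of_nonneg_right b1 c0
  have c2 := mul_le_mul_of_nonneg_right b2 c0
  have c3 : 4 * (r : ℝ) / √(s + 1) = 2 * (r * (2 * 1 / √((s : ℝ) + 1))) := by ring
  linarith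

lemma decouple {m m' r s : ℕ} {h : ℕ → ℝ} (hh : Per m h) (h0 : ∀ Y, 0 ≤ h Y)
    (hm' : m' ≤ r + s + m) :
    ∑ j ∈ range (r + s + 1), avg (r + s + m) (fun Y =>
      |Pr (r + s + m) m' (gj (r + s) j h) Y - pb (r + s) j * avg m h * sg r m' Y|)
      ≤ avg m h * (2 * Bn r (fun e => if e < m' then 1 else 0) + 4 * r / √(s + 1)) := by
  set N := r + s + m with hN
  set M := avg m h with hM
  have hM0 : 0 ≤ M := avg_nonneg h0
  set q : ℕ → ℕ → ℝ := fun i j => Bn s (fun e => if i + e = j then 1 else 0) with hq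
  have h1 : ∀ j, avg N (fun Y =>
      |Pr N m' (gj (r + s) j h) Y - pb (r + s) j * M * sg r m' Y|)
      ≤ Ex r (fun x => 2 * (q (ones x) j * M) * (if ones x < m' then 1 else 0)
        + M * |q (ones x) j - pb (r + s) j|) := by
    intro j
    set G : List Bool → ℕ → ℝ := fun x => Gf s (fun e => if ones x + e = j then 1 else 0) h
      with hG
    have e1 : gj (r + s) j h = fun Y => Ex r (fun x => Wt x (G x) Y) := by
      funext Y; rw [gj, Lop_append]; simp only [ones_append, hG, Gf]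
    have hp : ∀ x, Per (m + s) (G x) := fun x => Lop_per hh fun y hy _ => by
      have := ones_le y; omega
    have hn : ∀ x Y, 0 ≤ G x Y := fun x => Lop_nonneg (fun y => by
      beta_reduce; split_ifs <;> norm_num) h0
    have ha : ∀ x, avg (m + s) (G x) = q (ones x) j * M := fun x => avg_Lop hh fun y hy _ => by
      have := ones_le y; omega
    calc _ ≤ avg N (fun Y => Ex r (fun x =>
          |Pr N m' (Wt x (G x)) Y - avg (m + s) (G x) * dl m' x Y|
            + M * |q (ones x) j - pb (r + s) j| * dl m' x Y)) := by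
          refine avg_mono fun Y => ?_
          rw [e1, Pr_Ex N m' r (fun x => Wt x (G x)), sg, ← Ex_mul_left, ← Ex_sub]
          refine (abs_Ex_le _ _).trans (Ex_mono fun x _ => ?_)
          refine (abs_sub_le _ (avg (m + s) (G x) * dl m' x Y) _).trans ?_
          gcongr
          rw [ha, ← sub_mul, ← sub_mul, abs_mul, abs_mul, abs_of_nonneg hM0,
            abs_of_nonneg (dl_nonneg _ _ _)]
          exact le_of_eq (by ring)
      _ ≤ _ := by
          rw [avg_Ex]
          refine Ex_mono fun x hx => ?_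
          have := dec0 (hp x) (hn x) x (show m + s + ones x ≤ N by
            have := ones_le x; omega) hm'
          rw [avg_add, avg_mul, avg_dl hm', mul_one]
          rw [ha] at this ⊢
          linarith
  refine (sum_le_sum fun j _ => h1 j).trans ?_
  rw [← Ex_sum]
  calc _ ≤ Ex r (fun x => M * (2 * (if ones x < m' then 1 else 0) + 4 * r / √(s + 1))) := by
        refine Ex_mono fun x hx => ?_
        have hi : ones x ≤ r := hx ▸ ones_le x
        rw [sum_add_distrib, ← mul_sum, ← sum_mul, ← mul_sum, ← sum_mul]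
        have a1 : ∑ j ∈ range (r + s + 1), q (ones x) j = 1 := by
          simp only [hq]
          rw [← Bn_sum]
          refine (Bn_congr fun e he => ?_).trans (Bn_const s 1)
          rw [sum_ite_eq, if_pos (mem_range.2 (by omega))]
        have a2 := mul_le_mul_of_nonneg_left (shift_tv r s (ones x) hi) hM0
        rw [a1]
        linarith
    _ = _ := by rw [Ex_mul_left, Ex_add, Ex_mul_left, Ex_const]; rfl

/-- The full transfer operator. -/
noncomputable def Lf (t : ℕ) (h : ℕ → ℝ) : ℕ → ℝ := Lop t (fun _ => 1) h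

lemma Lf_eq_sum (t : ℕ) (h : ℕ → ℝ) (Y : ℕ) : Lf t h Y = ∑ j ∈ range (t + 1), gj t j h Y := by
  unfold gj Lf
  rw [← Lop_sum]
  refine Ex_congr fun x hx => ?_
  beta_reduce
  rw [sum_ite_eq, if_pos (mem_range.2 (by have := ones_le x; omega))]

lemma Lf_add (s t : ℕ) (h : ℕ → ℝ) : Lf (s + t) h = Lf s (Lf t h) := by
  funext Y
  rw [Lf, Lop_append]
  simp [Lf, Lop]

lemma Lf_nonneg (t : ℕ) {h : ℕ → ℝ} (h0 : ∀ Y, 0 ≤ h Y) (Y : ℕ) : 0 ≤ Lf t h Y :=
  Lop_nonneg (fun _ => zero_le_one) h0 Y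

lemma Lf_per {m : ℕ} (t : ℕ) {h : ℕ → ℝ} (hh : Per m h) : Per (t + m) (Lf t h) :=
  Lop_per hh fun x hx _ => by have := ones_le x; omega

lemma avg_Lf {m : ℕ} (t : ℕ) {h : ℕ → ℝ} (hh : Per m h) : avg (t + m) (Lf t h) = avg m h := by
  rw [Lf, avg_Lop hh fun x hx _ => by have := ones_le x; omega, Ex_const, one_mul]

lemma Lf_close (A : ℕ) : ∃ C : ℝ, 0 ≤ C ∧ ∀ (t m : ℕ) (h : ℕ → ℝ), 1 ≤ t → m ^ 2 ≤ t →
    (∀ Y, 0 ≤ h Y) → Per m h → avg m h = 1 →
    avg (t + m) (fun Y => |Lf t h Y - sg t (t / 4 + 1) Y|) ≤ C / t ^ A := by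
  obtain ⟨C, hC0, hC⟩ := mix A
  set K : ℝ := A.factorial / (1 / 8) ^ A with hK
  have hK0 : 0 ≤ K := by positivity
  refine ⟨C + 2 * K, by positivity, fun t m h ht hm h0 hh h1 => ?_⟩
  have ht0 : (0 : ℝ) < t := by positivity
  have hm' : t / 4 + 1 ≤ t + m := by omega
  have a1 := hC t m (t / 4 + 1) h ht hm (by
    have : 2 ^ 3 ≤ (t / 4 + 1 + 1) ^ 3 := Nat.pow_le_pow_left (by omega) 3
    rw [pow_succ]
    have : 8 * (t / 4 + 1 + 1) ≤ (t / 4 + 1 + 1) ^ 3 * (t / 4 + 1 + 1) :=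
      Nat.mul_le_mul_right _ this
    omega) hm' h0 hh
  rw [h1, mul_one, ← avg_sum] at a1
  have a2 : avg (t + m) (fun Y => |Pr (t + m) (t / 4 + 1) (Lf t h) Y - sg t (t / 4 + 1) Y|)
      ≤ 2 * Bn t (fun e => if e < t / 4 + 1 then 1 else 0) := by
    have e1 : Lf t h = fun Y => Ex t (fun x => Wt x h Y) := by funext Y; simp [Lf, Lop]
    calc _ ≤ avg (t + m) (fun Y => Ex t (fun x =>
          |Pr (t + m) (t / 4 + 1) (Wt x h) Y - avg m h * dl (t / 4 + 1) x Y|)) := by
          refine avg_mono fun Y => ?_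
          rw [e1, Pr_Ex _ _ t (fun x => Wt x h), sg, ← Ex_sub, h1]
          simp only [one_mul]
          exact abs_Ex_le _ _
      _ ≤ _ := by
          rw [avg_Ex, Bn, ← Ex_mul_left]
          refine Ex_mono fun x hx => ?_
          have := dec0 hh h0 x (show m + ones x ≤ t + m by have := ones_le x; omega) hm'
          rw [h1] at this ⊢
          rwa [mul_one] at this
  have a3 := hoeff_down t t (t / 4) le_rfl ht0 (by positivity) (fun e => e < t / 4 + 1)
    (fun e he => by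
      have : 4 * e ≤ t := by omega
      have : (4 : ℝ) * e ≤ t := by exact_mod_cast this
      linarith)
  have a4 : 2 * ((t : ℝ) / 4) ^ 2 / t = 1 / 8 * t := by field_simp; norm_num
  rw [a4] at a3
  have a5 := exp_neg_le (1 / 8) (by norm_num) A t ht0
  rw [← hK] at a5
  have a6 : avg (t + m) (fun Y => |Lf t h Y - sg t (t / 4 + 1) Y|)
      ≤ avg (t + m) (fun Y => ∑ j ∈ range (t + 1),
          |gj t j h Y - Pr (t + m) (t / 4 + 1) (gj t j h) Y|)
        + avg (t + m) (fun Y => |Pr (t + m) (t / 4 + 1) (Lf t h) Y - sg t (t / 4 + 1) Y|) := by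
    rw [← avg_add]
    refine avg_mono fun Y => ?_
    refine (abs_sub_le _ (Pr (t + m) (t / 4 + 1) (Lf t h) Y) _).trans ?_
    gcongr
    rw [funext (Lf_eq_sum t h), Pr_sum, ← sum_sub_distrib]
    exact abs_sum_le_sum_abs _ _
  rw [add_div, mul_div_assoc]
  linarith

/-- The density after `s` steps started from the uniform density. -/
noncomputable def sig (s : ℕ) : ℕ → ℝ := Lf s (fun _ => 1)

lemma per_const (c : ℝ) : Per 0 (fun _ : ℕ => c) := fun _ => rfl

lemma sig_nonneg (s Y : ℕ) : 0 ≤ sig s Y := Lf_nonneg s (fun _ => zero_le_one) Y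

lemma sig_per (s : ℕ) : Per s (sig s) := Lf_per s (per_const 1)

lemma avg_sig (s : ℕ) : avg s (sig s) = 1 := by
  have := avg_Lf s (per_const 1)
  rwa [avg_const] at this

lemma sig_add (s t : ℕ) : sig (s + t) = Lf s (sig t) := Lf_add s t _

lemma sig_close (A : ℕ) : ∃ C : ℝ, 0 ≤ C ∧ ∀ s : ℕ, 1 ≤ s →
    avg (s + 1) (fun Y => |sig (s + 1) Y - sig s Y|) ≤ C / s ^ A := by
  obtain ⟨C, hC0, hC⟩ := Lf_close A
  refine ⟨2 * C, by positivity, fun s hs => ?_⟩
  have a1 := hC s 1 (sig 1) hs (by simpa using hs) (sig_nonneg 1) (sig_per 1) (avg_sig 1)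
  have a2 := hC s 1 (fun _ => 1) hs (by simpa using hs) (fun _ => zero_le_one)
    ((per_const 1).mono (by norm_num)) (avg_const 1 1)
  rw [← sig_add] at a1
  have a3 : avg (s + 1) (fun Y => |sig (s + 1) Y - sig s Y|)
      ≤ avg (s + 1) (fun Y => |sig (s + 1) Y - sg s (s / 4 + 1) Y|)
        + avg (s + 1) (fun Y => |sig s Y - sg s (s / 4 + 1) Y|) := by
    rw [← avg_add]
    refine avg_mono fun Y => ?_
    rw [abs_sub_comm (sig s Y)]
    exact abs_sub_le _ _ _
  unfold sig at *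
  rw [mul_div_assoc]
  linarith

end Pool.Agent.P.MP_2b866c_nt
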