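import Mathlib

set_option autoImplicit false

namespace Pool.Agent.P.MP_2b866c_nt

/-- The map `C(m) = (3m+1) / 2^{e(m)}`, where `2^{e(m)}` is the largest power of two dividing
`3m+1`. -/
def Cmap (m : ℕ) : ℕ := (3 * m + 1) / 2 ^ padicValNat 2 (3 * m + 1)

/-- `m` has finite height: some iterate `C^k(m)` with `k ≥ 1` equals `1`. -/
def FiniteHeight (m : ℕ) : Prop := ∃ k : ℕ, 1 ≤ k ∧ Cmap^[k] m = 1

/-- The height `h(m)`: the least `k ≥ 1` with `C^k(m) = 1` (only used when it exists). -/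
noncomputable def height (m : ℕ) : ℕ := sInf {k : ℕ | 1 ≤ k ∧ Cmap^[k] m = 1}

end Pool.Agent.P.MP_2b866c_nt
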