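import Pool.Agent.P.MP_2b866c_nt.Words

/-!
The shortcut map `T`, parity words, the offset `Ft`, inverse weights `Wt`.
-/

set_option autoImplicit false

open Finset

namespace Pool.Agent.P.MP_2b866c_nt

/-- The shortcut Collatz map. -/
def T (n : ℕ) : ℕ := if n % 2 = 0 then n / 2 else (3 * n + 1) / 2

/-- Parity word of the first `t` steps, last step first. -/
def bits : ℕ → ℕ → List Bool
  | 0, _ => []
  | t + 1, N => decide (T^[t] N % 2 = 1) :: bits t N

@[simp] lemma length_bits (t N : ℕ) : (bits t N).length = t := by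
  induction t with
  | zero => rfl
  | succ t ih => simp [bits, ih]

/-- Number of odd steps among the first `t`. -/
def J (t N : ℕ) : ℕ := ones (bits t N)

lemma J_le (t N : ℕ) : J t N ≤ t := by
  have := ones_le (bits t N); rwa [length_bits] at this

lemma bits_add (s t N : ℕ) : bits (s + t) N = bits s (T^[t] N) ++ bits t N := by
  induction s with
  | zero => simp [bits]
  | succ s ih =>
    rw [show s + 1 + t = (s + t) + 1 by ring, bits, bits, ih, Function.iterate_add_apply]
    rfl

lemma J_add (s t N : ℕ) : J (s + t) N = J s (T^[t] N) + J t N := by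
  simp [J, bits_add, ones_append]

/-- The offset. -/
def Ft : List Bool → ℕ
  | [] => 0
  | false :: x => Ft x
  | true :: x => 3 * Ft x + 2 ^ x.length

lemma Ft_append (x y : List Bool) : Ft (x ++ y) = 2 ^ y.length * Ft x + 3 ^ ones x * Ft y := by
  induction x with
  | nil => simp [Ft]
  | cons b x ih =>
    cases b
    · simp [Ft, ih]
    · simp only [List.cons_append, Ft, ih, ones_true, List.length_append, pow_add, pow_succ]
      ring

lemma Ft_le (x : List Bool) : Ft x + 2 ^ x.length ≤ 3 ^ x.length := by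
  induction x with
  | nil => simp [Ft]
  | cons b x ih =>
    have h2 : 2 ^ x.length ≤ 3 ^ x.length := Nat.pow_le_pow_left (by norm_num) _
    cases b <;> simp only [Ft, List.length_cons, pow_succ] <;> omega

lemma iter_formula (t N : ℕ) : 2 ^ t * T^[t] N = 3 ^ J t N * N + Ft (bits t N) := by
  induction t with
  | zero => simp [J, bits, Ft]
  | succ t ih =>
    rw [Function.iterate_succ_apply']
    unfold J at *
    rcases Nat.mod_two_eq_zero_or_one (T^[t] N) with h | h
    · have hb : bits (t + 1) N = false :: bits t N := by simp [bits, h]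
      rw [hb, ones_false, Ft, ← ih, T, if_pos h, pow_succ, mul_assoc]
      congr 1; omega
    · have hb : bits (t + 1) N = true :: bits t N := by simp [bits, h]
      have e : 2 * ((3 * T^[t] N + 1) / 2) = 3 * T^[t] N + 1 := by omega
      rw [hb, ones_true, Ft, T, if_neg (by omega), pow_succ, mul_assoc, e, length_bits, pow_succ]
      nlinarith

lemma Ft_inj (t : ℕ) : ∀ x y : List Bool, x.length = t → y.length = t → ones x = ones y →
    Ft x = Ft y → x = y := by
  induction t with
  | zero =>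
    intro x y hx hy _ _
    rw [List.length_eq_zero_iff.1 hx, List.length_eq_zero_iff.1 hy]
  | succ t ih =>
    intro x y hx hy ho hF
    obtain ⟨x', b, rfl⟩ : ∃ x' b, x = x' ++ [b] := by
      rcases List.eq_nil_or_concat x with h | ⟨l, b, h⟩
      · simp [h] at hx
      · exact ⟨l, b, by simpa using h⟩
    obtain ⟨y', c, rfl⟩ : ∃ y' c, y = y' ++ [c] := by
      rcases List.eq_nil_or_concat y with h | ⟨l, b, h⟩
      · simp [h] at hy
      · exact ⟨l, b, by simpa using h⟩
    have hx' : x'.length = t := by simpa using hx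
    have hy' : y'.length = t := by simpa using hy
    have o1 : ∀ k : ℕ, 3 ^ k % 2 = 1 := fun k => by simp [Nat.pow_mod]
    rw [Ft_append, Ft_append] at hF
    rw [ones_append, ones_append] at ho
    cases b <;> cases c
    · simp [Ft] at hF ho
      rw [ih x' y' hx' hy' ho hF]
    · simp [Ft] at hF ho
      have := o1 (ones y'); omega
    · simp [Ft] at hF ho
      have := o1 (ones x'); omega
    · simp [Ft] at hF ho
      rw [ho] at hF
      rw [ih x' y' hx' hy' ho (by omega)]

lemma Ex_sqrt_F (t : ℕ) : Ex t (fun x => √((Ft x : ℝ) / 2 ^ x.length)) ≤ 11 := by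
  induction t with
  | zero => simp [Ft]
  | succ t ih =>
    rw [Ex_succ]
    have a1 : √(1 / 2 : ℝ) ≤ 0.7072 := by
      rw [Real.sqrt_le_left (by norm_num)]; norm_num
    have a2 : √(3 / 2 : ℝ) ≤ 1.2248 := by
      rw [Real.sqrt_le_left (by norm_num)]; norm_num
    have h1 : Ex t (fun x => √((Ft (false :: x) : ℝ) / 2 ^ (false :: x).length))
        ≤ Ex t (fun x => 0.7072 * √((Ft x : ℝ) / 2 ^ x.length)) := by
      refine Ex_mono fun x _ => ?_
      have : (Ft (false :: x) : ℝ) / 2 ^ (false :: x).length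
          = 1 / 2 * ((Ft x : ℝ) / 2 ^ x.length) := by
        simp only [Ft, List.length_cons, pow_succ]; field_simp
      rw [this, Real.sqrt_mul (by norm_num)]
      gcongr
    have h2 : Ex t (fun x => √((Ft (true :: x) : ℝ) / 2 ^ (true :: x).length))
        ≤ Ex t (fun x => 1.2248 * √((Ft x : ℝ) / 2 ^ x.length) + 0.7072) := by
      refine Ex_mono fun x _ => ?_
      have : (Ft (true :: x) : ℝ) / 2 ^ (true :: x).length
          = 3 / 2 * ((Ft x : ℝ) / 2 ^ x.length) + 1 / 2 := by
        simp only [Ft, List.length_cons, pow_succ]; push_cast; field_simp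
      rw [this]
      have hx : (0 : ℝ) ≤ (Ft x : ℝ) / 2 ^ x.length := by positivity
      have h3 : √(3 / 2 * ((Ft x : ℝ) / 2 ^ x.length) + 1 / 2)
          ≤ √(3 / 2 * ((Ft x : ℝ) / 2 ^ x.length)) + √(1 / 2) := by
        rw [Real.sqrt_le_left (by positivity), add_sq, Real.sq_sqrt (by positivity),
          Real.sq_sqrt (by norm_num)]
        have : 0 ≤ 2 * √(3 / 2 * ((Ft x : ℝ) / 2 ^ x.length)) * √(1 / 2 : ℝ) := by positivity
        linarith
      rw [Real.sqrt_mul (by norm_num)] at h3
      have : √(3 / 2 : ℝ) * √((Ft x : ℝ) / 2 ^ x.length)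
          ≤ 1.2248 * √((Ft x : ℝ) / 2 ^ x.length) := by gcongr
      linarith
    rw [Ex_mul_left] at h1
    rw [Ex_add, Ex_mul_left, Ex_const] at h2
    linarith

/-- Tail bound for the normalised offset. -/
lemma Ft_tail (t : ℕ) (R : ℝ) (hR : 0 < R) (P : List Bool → Prop) [DecidablePred P]
    (hP : ∀ x, x.length = t → P x → R * 2 ^ t ≤ Ft x) :
    Ex t (fun x => if P x then (1 : ℝ) else 0) ≤ 11 / √R := by
  have hs : 0 < √R := Real.sqrt_pos.2 hR
  calc Ex t (fun x => if P x then (1 : ℝ) else 0)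
      ≤ Ex t (fun x => √((Ft x : ℝ) / 2 ^ x.length) / √R) := by
        refine Ex_mono fun x hx => ?_
        split_ifs with h
        · rw [le_div_iff₀ hs, one_mul]
          apply Real.sqrt_le_sqrt
          rw [le_div_iff₀ (by positivity), hx]
          exact hP x hx h
        · positivity
    _ ≤ 11 / √R := by
        rw [Ex_div]; gcongr; exact Ex_sqrt_F t

/-- Weighted evaluation at the preimage along the word `x`. -/
noncomputable def Wt : List Bool → (ℕ → ℝ) → ℕ → ℝ
  | [], g, Y => g Y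
  | false :: x, g, Y => Wt x g (2 * Y)
  | true :: x, g, Y => if Y % 3 = 2 then 3 * Wt x g ((2 * Y - 1) / 3) else 0

lemma Wt_append (x y : List Bool) (g : ℕ → ℝ) (Y : ℕ) :
    Wt (x ++ y) g Y = Wt x (Wt y g) Y := by
  induction x generalizing Y with
  | nil => rfl
  | cons b x ih => cases b <;> simp [Wt, ih]

lemma Wt_cases (x : List Bool) (Y : ℕ) :
    (∃ N, bits x.length N = x ∧ T^[x.length] N = Y ∧ ∀ g, Wt x g Y = 3 ^ ones x * g N) ∨
    ((∀ N, ¬ (bits x.length N = x ∧ T^[x.length] N = Y)) ∧ ∀ g, Wt x g Y = 0) := by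
  induction x generalizing Y with
  | nil => left; exact ⟨Y, rfl, rfl, fun g => by simp [Wt]⟩
  | cons b x ih =>
    cases b
    · rcases ih (2 * Y) with ⟨N, h1, h2, h3⟩ | ⟨h1, h2⟩
      · left
        refine ⟨N, ?_, ?_, fun g => by simp [Wt, h3]⟩
        · simp [bits, h1, h2]
        · rw [List.length_cons, Function.iterate_succ_apply', h2]; simp [T]
      · right
        refine ⟨fun N ⟨h3, h4⟩ => h1 N ?_, fun g => by simp [Wt, h2]⟩
        rw [List.length_cons] at h3 h4
        rw [Function.iterate_succ_apply'] at h4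
        simp only [bits, List.cons.injEq, decide_eq_false_iff_not] at h3
        refine ⟨h3.2, ?_⟩
        rw [T, if_pos (by omega)] at h4
        omega
    · by_cases hY : Y % 3 = 2
      · rcases ih ((2 * Y - 1) / 3) with ⟨N, h1, h2, h3⟩ | ⟨h1, h2⟩
        · left
          refine ⟨N, ?_, ?_, fun g => by simp [Wt, h3, hY, pow_succ]; ring⟩
          · simp only [List.length_cons, bits, h1, h2, List.cons.injEq, decide_eq_true_eq,
              and_true]
            omega
          · rw [List.length_cons, Function.iterate_succ_apply', h2, T, if_neg (by omega)]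
            omega
        · right
          refine ⟨fun N ⟨h3, h4⟩ => h1 N ?_, fun g => by simp [Wt, h2]⟩
          rw [List.length_cons] at h3 h4
          rw [Function.iterate_succ_apply'] at h4
          simp only [bits, List.cons.injEq, decide_eq_true_eq] at h3
          refine ⟨h3.2, ?_⟩
          rw [T, if_neg (by omega)] at h4
          omega
      · right
        refine ⟨fun N ⟨h3, h4⟩ => ?_, fun g => by simp [Wt, hY]⟩
        rw [List.length_cons] at h3 h4
        rw [Function.iterate_succ_apply'] at h4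
        simp only [bits, List.cons.injEq, decide_eq_true_eq] at h3
        rw [T, if_neg (by omega)] at h4
        omega

lemma pre_unique {t N N' : ℕ} (h1 : bits t N = bits t N') (h2 : T^[t] N = T^[t] N') :
    N = N' := by
  have a := iter_formula t N
  have b := iter_formula t N'
  unfold J at a b
  rw [h1, h2, b] at a
  have : 3 ^ ones (bits t N') * N' = 3 ^ ones (bits t N') * N := by omega
  exact (Nat.eq_of_mul_eq_mul_left (by positivity) this).symm

lemma pre_le (t N : ℕ) : N ≤ 2 ^ t * T^[t] N := by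
  rw [iter_formula]
  have : 1 ≤ 3 ^ J t N := Nat.one_le_pow _ _ (by norm_num)
  nlinarith

lemma Wt_eq_sum (x : List Bool) (g : ℕ → ℝ) (Y B : ℕ) (hB : 2 ^ x.length * Y < B) :
    Wt x g Y = ∑ N ∈ range B, if bits x.length N = x ∧ T^[x.length] N = Y
      then 3 ^ ones x * g N else 0 := by
  rcases Wt_cases x Y with ⟨N, h1, h2, h3⟩ | ⟨h1, h2⟩
  · rw [sum_eq_single N]
    · simp [h1, h2, h3]
    · intro N' _ hne
      rw [if_neg]
      rintro ⟨a, b⟩
      exact hne (pre_unique (a.trans h1.symm) (b.trans h2.symm))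
    · intro hN
      exfalso; apply hN
      have := pre_le x.length N
      rw [h2] at this
      exact mem_range.2 (by omega)
  · rw [h2, sum_eq_zero]
    intro N _
    rw [if_neg (h1 N)]

lemma Wt_nonneg (x : List Bool) {g : ℕ → ℝ} (hg : ∀ Y, 0 ≤ g Y) (Y : ℕ) : 0 ≤ Wt x g Y := by
  rcases Wt_cases x Y with ⟨N, _, _, h3⟩ | ⟨_, h2⟩
  · rw [h3]; have := hg N; positivity
  · rw [h2]

lemma Wt_mono (x : List Bool) {g g' : ℕ → ℝ} (hg : ∀ Y, g Y ≤ g' Y) (Y : ℕ) :
    Wt x g Y ≤ Wt x g' Y := by
  rcases Wt_cases x Y with ⟨N, _, _, h3⟩ | ⟨_, h2⟩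
  · rw [h3, h3]; have := hg N; gcongr
  · rw [h2, h2]

lemma Wt_add (x : List Bool) (g g' : ℕ → ℝ) (Y : ℕ) :
    Wt x (fun U => g U + g' U) Y = Wt x g Y + Wt x g' Y := by
  rcases Wt_cases x Y with ⟨N, _, _, h3⟩ | ⟨_, h2⟩
  · simp only [h3]; ring
  · simp [h2]

lemma Wt_mul (x : List Bool) (c : ℝ) (g : ℕ → ℝ) (Y : ℕ) :
    Wt x (fun U => c * g U) Y = c * Wt x g Y := by
  rcases Wt_cases x Y with ⟨N, _, _, h3⟩ | ⟨_, h2⟩
  · simp only [h3]; ring
  · simp [h2]

lemma Wt_Ex (x : List Bool) (t : ℕ) (G : List Bool → ℕ → ℝ) (Y : ℕ) :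
    Wt x (fun U => Ex t (fun y => G y U)) Y = Ex t (fun y => Wt x (G y) Y) := by
  rcases Wt_cases x Y with ⟨N, _, _, h3⟩ | ⟨_, h2⟩
  · simp only [h3, Ex_mul_left]
  · simp [h2, Ex_const]

/-- The transfer operator over `t` steps with path weight `τ`. -/
noncomputable def Lop (t : ℕ) (τ : List Bool → ℝ) (g : ℕ → ℝ) (Y : ℕ) : ℝ :=
  Ex t (fun x => τ x * Wt x g Y)

lemma Lop_eq_sum (t : ℕ) (τ : List Bool → ℝ) (g : ℕ → ℝ) (Y B : ℕ) (hB : 2 ^ t * Y < B) :
    Lop t τ g Y = ∑ N ∈ range B, if T^[t] N = Y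
      then τ (bits t N) * (3 ^ J t N / 2 ^ t) * g N else 0 := by
  have h1 : Lop t τ g Y = Ex t (fun x => ∑ N ∈ range B, if bits t N = x ∧ T^[t] N = Y
      then τ x * (3 ^ ones x * g N) else 0) := by
    refine Ex_congr fun x hx => ?_
    rw [Wt_eq_sum x g Y B (by rwa [hx]), mul_sum, hx]
    refine sum_congr rfl fun N _ => ?_
    split_ifs <;> simp
  rw [h1, Ex_sum]
  refine sum_congr rfl fun N _ => ?_
  unfold Ex
  rw [sum_eq_single (bits t N)]
  · by_cases h : T^[t] N = Y
    · simp only [h, and_self, if_true, J]; ring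
    · simp [h]
  · intro x _ hne
    rw [if_neg]; rintro ⟨a, _⟩; exact hne a.symm
  · intro h; exact absurd (mem_W.2 (length_bits t N)) h

lemma Lop_nonneg {t : ℕ} {τ : List Bool → ℝ} {g : ℕ → ℝ} (hτ : ∀ x, 0 ≤ τ x)
    (hg : ∀ Y, 0 ≤ g Y) (Y : ℕ) : 0 ≤ Lop t τ g Y :=
  Ex_nonneg fun x _ => mul_nonneg (hτ x) (Wt_nonneg x hg Y)

lemma Lop_append (s t : ℕ) (τ : List Bool → ℝ) (g : ℕ → ℝ) (Y : ℕ) :
    Lop (s + t) τ g Y = Ex s (fun x => Wt x (Lop t (fun y => τ (x ++ y)) g) Y) := by
  unfold Lop
  rw [Ex_append]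
  refine Ex_congr fun x _ => ?_
  rw [Wt_Ex x t (fun y U => τ (x ++ y) * Wt y g U)]
  refine Ex_congr fun y _ => ?_
  rw [Wt_mul, Wt_append]

end Pool.Agent.P.MP_2b866c_nt
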