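import Pool.Agent.P.MP_2b866c_nt.Local

/-!
Existence and positivity of the natural density of an invariant function (flux argument).
-/

set_option autoImplicit false

open Finset Filter Topology MeasureTheory

namespace Pool.Agent.P.MP_2b866c_nt

variable {f : ℕ → ℝ} {K : ℕ}

/-- Weighted density on the logarithmic scale. -/
noncomputable def bg (f g : ℕ → ℝ) (u : ℝ) : ℝ := aS f g (Real.exp u)

lemma bg_int (hf : TInv K f) {g : ℕ → ℝ} (h0 : ∀ Y, 0 ≤ g Y) (c a b : ℝ) :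
    IntervalIntegrable (fun u => bg f g (u + c)) volume a b := by
  have h1 : Monotone (fun u => Sm f g (Real.exp (u + c))) := fun u v huv =>
    sum_le_sum_of_subset_of_nonneg
      (Icc_subset_Icc_right (Nat.floor_le_floor (Real.exp_le_exp.2 (by linarith))))
      (fun Y _ _ => mul_nonneg (h0 Y) (hf.nonneg Y))
  have h2 : Continuous (fun u : ℝ => (Real.exp (u + c))⁻¹) :=
    Continuous.inv₀ (by fun_prop) (fun u => (Real.exp_pos _).ne')
  exact (h1.intervalIntegrable (μ := volume) (a := a) (b := b)).mul_continuousOn h2.continuousOn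

/-- Primitive of `bg`. -/
noncomputable def Pg (f g : ℕ → ℝ) (u : ℝ) : ℝ := ∫ v in (0 : ℝ)..u, bg f g v

lemma int_bg (hf : TInv K f) {g : ℕ → ℝ} (h0 : ∀ Y, 0 ≤ g Y) (c a b : ℝ) :
    ∫ v in a..b, bg f g (v + c) = Pg f g (b + c) - Pg f g (a + c) := by
  have h := bg_int hf h0 0
  simp only [add_zero] at h
  rw [intervalIntegral.integral_comp_add_right (fun v => bg f g v) c, Pg, Pg,
    intervalIntegral.integral_interval_sub_left (h _ _) (h _ _)]

lemma int_close {F G : ℝ → ℝ} {a b c : ℝ} (hF : IntervalIntegrable F volume a b)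
    (hG : IntervalIntegrable G volume a b) (hab : a ≤ b)
    (h : ∀ v, a ≤ v → v ≤ b → |F v - G v| ≤ c) :
    |(∫ v in a..b, F v) - ∫ v in a..b, G v| ≤ c * (b - a) := by
  rw [← intervalIntegral.integral_sub hF hG]
  have := intervalIntegral.norm_integral_le_of_norm_le_const (a := a) (b := b) (C := c)
    (f := fun v => F v - G v) (fun v hv => by
      rw [Set.uIoc_of_le hab] at hv
      exact h v hv.1.le hv.2)
  rwa [abs_of_nonneg (by linarith : 0 ≤ b - a)] at this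

lemma Pg_close (hf : TInv K f) {g g' : ℕ → ℝ} (h0 : ∀ Y, 0 ≤ g Y) (h0' : ∀ Y, 0 ≤ g' Y)
    {a b c : ℝ} (hab : a ≤ b) (h : ∀ v, a ≤ v → v ≤ b → |bg f g v - bg f g' v| ≤ c) :
    |(Pg f g b - Pg f g a) - (Pg f g' b - Pg f g' a)| ≤ c * (b - a) := by
  have := int_close (bg_int hf h0 0 a b) (bg_int hf h0' 0 a b) hab (c := c) (by simpa using h)
  rw [int_bg hf h0, int_bg hf h0'] at this
  simpa using this

lemma Pg_const (hf : TInv K f) {g : ℕ → ℝ} (h0 : ∀ Y, 0 ≤ g Y) {a b c B : ℝ} (hab : a ≤ b)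
    (h : ∀ v, a ≤ v → v ≤ b → |bg f g v - B| ≤ c) :
    |(Pg f g b - Pg f g a) - B * (b - a)| ≤ c * (b - a) := by
  have := int_close (bg_int hf h0 0 a b) (G := fun _ => B) intervalIntegrable_const hab (c := c)
    (by simpa using h)
  rw [int_bg hf h0, intervalIntegral.integral_const, smul_eq_mul, mul_comm (b - a)] at this
  simpa using this

lemma pb_one_zero : pb 1 0 = 1 / 2 := by simp [pb, Bn_succ]
lemma pb_one_one : pb 1 1 = 1 / 2 := by simp [pb, Bn_succ]

lemma one_step (hf : TInv K f) {m : ℕ} {h : ℕ → ℝ} (hh : Per m h) (h0 : ∀ Y, 0 ≤ h Y) {x : ℝ}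
    (hx : 0 < x) : |aS f h x - (aS f (gj 1 0 h) (x / 2) + aS f (gj 1 1 h) (3 / 2 * x))|
      ≤ (2 * (4 + 3 ^ (m + 1)) + (2 * K + 1 + 3 ^ m)) / x * avg m h := by
  have h1 := block (t := 1) (j := 0) (by omega) hh h0 hf.nonneg hf.le_one x hx.le
  have h2 := block (t := 1) (j := 1) (by omega) hh h0 hf.nonneg hf.le_one x hx.le
  have h3 := Sm_eq_blocks hf 1 hh h0 x
  rw [sum_range_succ, sum_range_one] at h3
  rw [pb_one_zero] at h1
  rw [pb_one_one] at h2
  rw [show (3 : ℝ) ^ 0 * x / 2 ^ 1 = x / 2 by ring, add_comm 1 m] at h1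
  rw [show (3 : ℝ) ^ 1 * x / 2 ^ 1 = 3 / 2 * x by ring, add_comm 1 m] at h2
  have e : aS f h x - (aS f (gj 1 0 h) (x / 2) + aS f (gj 1 1 h) (3 / 2 * x))
      = (Sm f h x - 2 * Sm f (gj 1 0 h) (x / 2) - 2 / 3 * Sm f (gj 1 1 h) (3 / 2 * x)) / x := by
    unfold aS; field_simp; ring
  rw [e, abs_div, abs_of_pos hx, div_mul_eq_mul_div _ x, div_le_div_iff_of_pos_right hx]
  rw [abs_le] at h1 h2 h3 ⊢
  simp only [pow_one, pow_zero, div_one] at h1 h2 h3
  constructor <;> linarith [h1.1, h1.2, h2.1, h2.2, h3.1, h3.2]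

lemma aS_sub_le (hf : TInv K f) {N : ℕ} {g g' : ℕ → ℝ} (hg : Per N g) (hg' : Per N g') {x : ℝ}
    (hx : 1 + 3 ^ N ≤ x) : |aS f g x - aS f g' x| ≤ 2 * avg N (fun Y => |g Y - g' Y|) := by
  have hx0 : 0 < x := lt_of_lt_of_le (by positivity) hx
  have h1 := Sm_sub_le hg hg' hf.nonneg hf.le_one x hx0.le
  have h2 : 0 ≤ avg N (fun Y => |g Y - g' Y|) := avg_nonneg fun _ => abs_nonneg _
  rw [aS, aS, ← sub_div, abs_div, abs_of_pos hx0, div_le_iff₀ hx0]
  nlinarith

lemma big {s : ℕ} {v : ℝ} (hv : 19 * ((s : ℝ) + 2) ^ 2 ≤ v) :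
    10 * 3 ^ (s + 2) * ((s : ℝ) + 1) ^ 3 ≤ Real.exp v := by
  have h1 : (10 : ℝ) ≤ Real.exp 9 := by linarith [Real.add_one_le_exp 9]
  have h2 : (3 : ℝ) ≤ Real.exp 2 := by linarith [Real.add_one_le_exp 2]
  have h3 := Real.add_one_le_exp (s : ℝ)
  have h4 : (0 : ℝ) ≤ s := Nat.cast_nonneg s
  calc _ ≤ Real.exp 9 * Real.exp 2 ^ (s + 2) * Real.exp s ^ 3 := by gcongr
    _ = Real.exp (9 + (s + 2 : ℕ) * 2 + (3 : ℕ) * s) := by
      rw [Real.exp_add, Real.exp_add, Real.exp_nat_mul, Real.exp_nat_mul]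
    _ ≤ _ := by
      apply Real.exp_le_exp.2
      push_cast; nlinarith

lemma gj_sub_le (t j : ℕ) (h h' : ℕ → ℝ) (Y : ℕ) :
    |gj t j h Y - gj t j h' Y| ≤ gj t j (fun U => |h U - h' U|) Y := by
  have hτ : ∀ x : List Bool, (0 : ℝ) ≤ if ones x = j then 1 else 0 := fun x => by
    split_ifs <;> norm_num
  have a1 := Lop_le_add (t := t) hτ h h' Y
  have a2 := Lop_le_add (t := t) hτ h' h Y
  simp only [abs_sub_comm (h' _)] at a1
  unfold gj
  rw [abs_le]; constructor <;> linarith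

/-- The flux through the level `e^u`, computed with the weight `sig s`. -/
noncomputable def Psi (f : ℕ → ℝ) (s : ℕ) (u : ℝ) : ℝ :=
  (Pg f (gj 1 0 (sig s)) u - Pg f (gj 1 0 (sig s)) (u - Real.log 2))
    - (Pg f (gj 1 1 (sig s)) (u + Real.log (3 / 2)) - Pg f (gj 1 1 (sig s)) u)

lemma l2_le : Real.log 2 ≤ 3 / 4 := by linarith [Real.log_two_lt_d9]
lemma l2_pos : 0 < Real.log 2 := Real.log_pos (by norm_num)
lemma l32_le : Real.log (3 / 2) ≤ 1 / 2 := by
  linarith [Real.log_le_sub_one_of_pos (show (0 : ℝ) < 3 / 2 by norm_num)]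
lemma l32_pos : 0 < Real.log (3 / 2) := Real.log_pos (by norm_num)

lemma flux (hf : TInv K f) : ∃ C : ℝ, 0 ≤ C ∧ ∀ s : ℕ, 1 ≤ s →
    (∀ U V : ℝ, 20 * ((s : ℝ) + 2) ^ 2 ≤ U → U ≤ V →
      |Psi f s V - Psi f s U| ≤ C / s ^ 3 * (V - U)) ∧
    ∀ u : ℝ, 20 * ((s : ℝ) + 2) ^ 2 ≤ u → |Psi f (s + 1) u - Psi f s u| ≤ C / s ^ 3 := by
  obtain ⟨C, hC0, hC⟩ := sig_close 3
  refine ⟨2 * C + (K + 1), by positivity, fun s hs => ?_⟩
  have hs1 : (1 : ℝ) ≤ s := by exact_mod_cast hs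
  have hC' := hC s hs
  have g0 : ∀ i r Y, 0 ≤ gj 1 i (sig r) Y := fun i r => gj_nonneg 1 i (sig_nonneg r)
  have p3 : (1 : ℝ) ≤ 3 ^ s := one_le_pow₀ (by norm_num)
  have p4 : (1 : ℝ) ≤ (s + 1) ^ 3 := one_le_pow₀ (by linarith)
  have p5 : (s : ℝ) ^ 3 ≤ (s + 1) ^ 3 := by gcongr; linarith
  have p6 : (0 : ℝ) < s ^ 3 := by positivity
  have hb : ∀ v : ℝ, 19 * ((s : ℝ) + 2) ^ 2 ≤ v → 1 + 3 ^ (s + 2) ≤ Real.exp v := by
    intro v hv
    refine le_trans ?_ (big hv)
    rw [pow_add]; nlinarith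
  refine ⟨fun U V hU hUV => ?_, fun u hu => ?_⟩
  · have := int_close ((bg_int hf (g0 0 s) 0 U V).add (bg_int hf (g0 1 s) 0 U V))
      ((bg_int hf (g0 0 s) (-Real.log 2) U V).add (bg_int hf (g0 1 s) (Real.log (3 / 2)) U V))
      hUV (c := (2 * C + (K + 1)) / s ^ 3) (fun v hv _ => by
        have hx := Real.exp_pos v
        have a1 := one_step hf (sig_per s) (sig_nonneg s) hx
        have b1 := hb v (by nlinarith)
        have b2 := big (s := s) (v := v) (by nlinarith)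
        have a2 := aS_sub_le hf (sig_per (s + 1)) ((sig_per s).mono (Nat.le_succ s))
          (x := Real.exp v) (le_trans (by gcongr <;> norm_num) b1)
        have a3 : aS f (sig (s + 1)) (Real.exp v) = aS f (gj 1 0 (sig s)) (Real.exp v)
            + aS f (gj 1 1 (sig s)) (Real.exp v) := by
          rw [add_comm s 1, sig_add]
          simp only [aS, Sm, Lf_eq_sum, sum_range_succ, sum_range_zero, zero_add, add_mul,
            sum_add_distrib, add_div]
        have a4 : (2 * (4 + 3 ^ (s + 1)) + (2 * K + 1 + 3 ^ s)) / Real.exp v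
            ≤ (K + 1) / (s : ℝ) ^ 3 := by
          rw [div_le_div_iff₀ hx p6]
          have : (2 : ℝ) * (4 + 3 ^ (s + 1)) + (2 * K + 1 + 3 ^ s)
              ≤ (K + 1) * (10 * 3 ^ (s + 2)) := by
            rw [pow_add, pow_add]; nlinarith [Nat.cast_nonneg (α := ℝ) K]
          calc _ ≤ (K + 1) * (10 * 3 ^ (s + 2)) * ((s : ℝ) + 1) ^ 3 := by gcongr
            _ ≤ _ := by rw [mul_assoc]; gcongr
        rw [avg_sig, mul_one] at a1
        simp only [bg, add_zero]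
        rw [Real.exp_add, Real.exp_add, Real.exp_neg, Real.exp_log (by norm_num),
          Real.exp_log (by norm_num), ← div_eq_mul_inv, mul_comm _ (3 / 2 : ℝ), ← a3,
          show (2 * C + (K + 1)) / (s : ℝ) ^ 3 = 2 * (C / s ^ 3) + (K + 1) / s ^ 3 by ring]
        rw [abs_le] at a1 a2 ⊢
        constructor <;> linarith [a1.1, a1.2, a2.1, a2.2])
    rw [intervalIntegral.integral_add (bg_int hf (g0 0 s) _ U V) (bg_int hf (g0 1 s) _ U V),
      intervalIntegral.integral_add (bg_int hf (g0 0 s) _ U V) (bg_int hf (g0 1 s) _ U V),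
      int_bg hf (g0 0 s), int_bg hf (g0 0 s), int_bg hf (g0 1 s), int_bg hf (g0 1 s)] at this
    simp only [add_zero, ← sub_eq_add_neg] at this
    refine le_trans (le_of_eq ?_) this
    congr 1; unfold Psi; ring
  · have key : ∀ i, i ≤ 1 → pb 1 i = 1 / 2 → ∀ v, u - 1 ≤ v →
        |bg f (gj 1 i (sig (s + 1))) v - bg f (gj 1 i (sig s)) v| ≤ C / s ^ 3 := by
      intro i hi hp v hv
      have a1 := aS_sub_le hf (gj_per (t := 1) (N := s + 2) (sig_per (s + 1)) (j := i) (by omega))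
        (gj_per (t := 1) (sig_per s) (j := i) (by omega)) (hb v (by nlinarith))
      have a2 : Per (s + 1) (fun U => |sig (s + 1) U - sig s U|) := fun Y => by
        simp only [sig_per (s + 1) Y, (sig_per s).mono (Nat.le_succ s) Y]
      have a3 := avg_mono (N := s + 2) (gj_sub_le 1 i (sig (s + 1)) (sig s))
      have a4 := avg_gj (t := 1) (N := s + 2) (j := i) a2 (by omega)
      rw [hp] at a4
      change _ ≤ avg (s + 2) (gj 1 i _) at a3
      unfold bg
      linarith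
    have a1 := Pg_close hf (g0 0 (s + 1)) (g0 0 s) (a := u - Real.log 2) (b := u)
      (by linarith [l2_pos]) (fun v hv _ => key 0 (by omega) pb_one_zero v (by linarith [l2_le]))
    have a2 := Pg_close hf (g0 1 (s + 1)) (g0 1 s) (a := u) (b := u + Real.log (3 / 2))
      (by linarith [l32_pos]) (fun v hv _ => key 1 le_rfl pb_one_one v (by linarith))
    have c0 : 0 ≤ C / (s : ℝ) ^ 3 := by positivity
    have c1 := mul_le_mul_of_nonneg_left l2_le c0
    have c2 := mul_le_mul_of_nonneg_left l32_le c0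
    have c3 : (0 : ℝ) ≤ (K + 1) / s ^ 3 := by positivity
    rw [show (2 * C + (K + 1)) / (s : ℝ) ^ 3 = 2 * (C / s ^ 3) + (K + 1) / s ^ 3 by ring]
    rw [abs_le] at a1 a2 ⊢
    unfold Psi
    constructor <;> linarith [a1.1, a1.2, a2.1, a2.2]

lemma Psi_approx (hf : TInv K f) (δ : ℝ) (hδ : 0 < δ) : ∀ᶠ u in atTop, ∀ s : ℕ,
    20 * ((s : ℝ) + 2) ^ 2 ≤ u → |Psi f s u - bb f u * (Real.log (4 / 3) / 2)| ≤ δ := by
  obtain ⟨U, hU⟩ := core hf (δ / 2) (by positivity)
  filter_upwards [bb_unif hf (δ / 2) (by positivity), eventually_ge_atTop (U + 1)]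
    with u h1 h2 s hs
  have hs0 : (0 : ℝ) ≤ s := Nat.cast_nonneg s
  have g0 : ∀ i Y, 0 ≤ gj 1 i (sig s) Y := fun i => gj_nonneg 1 i (sig_nonneg s)
  have key : ∀ i, i ≤ 1 → pb 1 i = 1 / 2 → ∀ v, u - 3 / 4 ≤ v → v ≤ u + 3 / 4 →
      |bg f (gj 1 i (sig s)) v - bb f u / 2| ≤ δ / 2 := by
    intro i hi hp v hv1 hv2
    have a1 := (hU (Real.exp v) (Real.exp_pos v) (by rw [Real.log_exp]; linarith)).2.2 (s + 1)
      (gj 1 i (sig s)) (by rw [Real.log_exp]; push_cast; nlinarith) (g0 i)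
      (gj_per (sig_per s) (by omega))
    rw [avg_gj (sig_per s) (by omega), hp, avg_sig] at a1
    have a2 := h1 (v - u) (by rw [abs_le]; constructor <;> linarith)
    rw [add_sub_cancel] at a2
    change |bg f _ v - _ * bb f v| ≤ _ at a1
    rw [abs_le] at a1 a2 ⊢
    constructor <;> linarith [a1.1, a1.2, a2.1, a2.2]
  have a1 := Pg_const hf (g0 0) (a := u - Real.log 2) (b := u) (by linarith [l2_pos])
    (fun v hv hv' => key 0 (by omega) pb_one_zero v (by linarith [l2_le]) (by linarith))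
  have a2 := Pg_const hf (g0 1) (a := u) (b := u + Real.log (3 / 2)) (by linarith [l32_pos])
    (fun v hv hv' => key 1 le_rfl pb_one_one v (by linarith) (by linarith [l32_le]))
  have e : Real.log (4 / 3) = Real.log 2 - Real.log (3 / 2) := by
    rw [← Real.log_div (by norm_num) (by norm_num)]; norm_num
  have c1 := mul_le_mul_of_nonneg_left l2_le hδ.le
  have c2 := mul_le_mul_of_nonneg_left l32_le hδ.le
  rw [e]
  rw [abs_le] at a1 a2 ⊢
  unfold Psi
  constructor <;> linarith [a1.1, a1.2, a2.1, a2.2]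

lemma bb_tendsto (hf : TInv K f) : ∃ d, Tendsto (bb f) atTop (𝓝 d) := by
  obtain ⟨C, hC0, hC⟩ := flux hf
  set ψ : ℕ → ℝ := fun n => Psi f (n + 1) (20 * ((n : ℝ) + 3) ^ 2) with hψ
  have h1 : ∀ (n : ℕ) (u : ℝ), 20 * ((n : ℝ) + 3) ^ 2 ≤ u → u ≤ 20 * ((n : ℝ) + 4) ^ 2 →
      |Psi f (n + 1) u - ψ n| ≤ 140 * C / ((n : ℝ) + 1) ^ 2 := by
    intro n u hu1 hu2
    have hn : (0 : ℝ) ≤ n := Nat.cast_nonneg n
    have := (hC (n + 1) (by omega)).1 _ u (le_of_eq (by push_cast; ring)) hu1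
    refine this.trans ?_
    push_cast
    calc _ ≤ C / ((n : ℝ) + 1) ^ 3 * (140 * (n + 1)) := by gcongr; nlinarith
      _ = _ := by field_simp
  have h2 : ∀ n : ℕ, dist (ψ n) (ψ (n + 1)) ≤ 141 * C / ((n : ℝ) + 1) ^ 2 := by
    intro n
    have hn : (0 : ℝ) ≤ n := Nat.cast_nonneg n
    have a1 := h1 n _ (by nlinarith) le_rfl
    have a2 := (hC (n + 1) (by omega)).2 (20 * ((n : ℝ) + 4) ^ 2) (by push_cast; nlinarith)
    have a3 : C / ((n + 1 : ℕ) : ℝ) ^ 3 ≤ C / ((n : ℝ) + 1) ^ 2 := by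
      push_cast; gcongr
      · linarith
      · norm_num
    have a4 : ψ (n + 1) = Psi f (n + 1 + 1) (20 * ((n : ℝ) + 4) ^ 2) := by
      simp only [hψ]; congr 1; push_cast; ring
    rw [Real.dist_eq, a4, show 141 * C / ((n : ℝ) + 1) ^ 2
      = 140 * C / ((n : ℝ) + 1) ^ 2 + C / ((n : ℝ) + 1) ^ 2 by ring]
    rw [abs_le] at a1 a2 ⊢
    constructor <;> linarith [a1.1, a1.2, a2.1, a2.2]
  have h3 : Summable (fun n : ℕ => 1 / ((n : ℝ) + 1) ^ 2) := by
    have := (summable_nat_add_iff 1).2 (Real.summable_one_div_nat_pow.2 (show 1 < 2 by norm_num))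
    simpa using this
  have h4 : ∀ K : ℝ, Summable (fun n : ℕ => K / ((n : ℝ) + 1) ^ 2) := fun K => by
    simpa [div_eq_mul_inv] using h3.mul_left K
  obtain ⟨L, hL⟩ := cauchySeq_tendsto_of_complete (cauchySeq_of_dist_le_of_summable _ h2 (h4 _))
  have lam := lam_ge
  refine ⟨L / (Real.log (4 / 3) / 2), ?_⟩
  suffices h : Tendsto (fun u => bb f u * (Real.log (4 / 3) / 2)) atTop (𝓝 L) by
    refine (h.div_const (Real.log (4 / 3) / 2)).congr fun u => ?_
    field_simp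
  rw [Metric.tendsto_nhds]
  intro δ hδ
  obtain ⟨n₀, hn₀⟩ := eventually_atTop.1 (((Metric.tendsto_nhds.1 hL) (δ / 3) (by positivity)).and
    ((h4 (140 * C)).tendsto_atTop_zero.eventually (ge_mem_nhds (show 0 < δ / 3 by positivity))))
  filter_upwards [Psi_approx hf (δ / 3) (by positivity),
    eventually_ge_atTop (20 * ((n₀ : ℝ) + 3) ^ 2)] with u hu1 hu2
  have hu0 : 0 ≤ u / 20 := by nlinarith [sq_nonneg ((n₀ : ℝ) + 3)]
  obtain ⟨n, hn⟩ : ∃ n, ⌊√(u / 20)⌋₊ = n + 3 ∧ n₀ ≤ n := by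
    have : n₀ + 3 ≤ ⌊√(u / 20)⌋₊ := Nat.le_floor (Real.le_sqrt_of_sq_le (by push_cast; linarith))
    exact ⟨⌊√(u / 20)⌋₊ - 3, by omega, by omega⟩
  have b1 := Nat.floor_le (Real.sqrt_nonneg (u / 20))
  have b2 := (Nat.lt_floor_add_one (√(u / 20))).le
  rw [hn.1] at b1 b2
  push_cast at b1 b2
  have b3 := (Real.le_sqrt (by positivity) hu0).1 b1
  have b4 := (Real.sqrt_le_left (by positivity)).1 b2
  have a1 := h1 n u (by linarith) (by nlinarith)
  have a2 := hu1 (n + 1) (by push_cast; nlinarith)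
  obtain ⟨a3, a4⟩ := hn₀ n hn.2
  rw [Real.dist_eq, abs_lt] at a3 ⊢
  rw [abs_le] at a1 a2
  constructor <;> linarith [a1.1, a1.2, a2.1, a2.2, a3.1, a3.2]

lemma dyadic {K' : ℕ} (hf : TInv K' f) (K : ℕ) : ∑ N ∈ range (2 ^ K), f N / N
    ≤ 2 * ∑ i ∈ range K, aS f (fun _ => 1) (2 ^ (i + 1)) := by
  induction K with
  | zero => simp
  | succ K ih =>
    have h1 : 2 ^ K ≤ 2 ^ (K + 1) := Nat.pow_le_pow_right (by norm_num) (by omega)
    have h0 : 0 < 2 ^ K := by positivity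
    rw [← sum_range_add_sum_Ico _ h1, sum_range_succ, mul_add]
    refine add_le_add ih ?_
    calc _ ≤ ∑ N ∈ Ico (2 ^ K) (2 ^ (K + 1)), 1 * f N / 2 ^ K := by
          refine sum_le_sum fun N hN => ?_
          rw [one_mul]
          gcongr
          · exact hf.nonneg N
          · exact_mod_cast (mem_Ico.1 hN).1
      _ ≤ ∑ N ∈ Icc 1 (2 ^ (K + 1)), 1 * f N / 2 ^ K := by
          refine sum_le_sum_of_subset_of_nonneg (fun N hN => ?_) fun N _ _ => ?_
          · rw [mem_Ico] at hN; rw [mem_Icc]; omega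
          · have := hf.nonneg N
            positivity
      _ = _ := by
          rw [aS, Sm, ← sum_div, show ((2 : ℝ) ^ (K + 1)) = ((2 ^ (K + 1) : ℕ) : ℝ) by norm_num,
            Nat.floor_natCast]
          push_cast; field_simp; ring

theorem density (hf : TInv K f) {m : ℕ} (hm : K ≤ m) (hm1 : f (3 * m + 1) = 1) :
    ∃ d, 0 < d ∧ Tendsto (aS f (fun _ => 1)) atTop (𝓝 d) := by
  obtain ⟨d, hd⟩ := bb_tendsto hf
  have h1 : Tendsto (aS f (fun _ => 1)) atTop (𝓝 d) := by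
    refine (hd.comp Real.tendsto_log_atTop).congr' ?_
    filter_upwards [eventually_gt_atTop 0] with x hx
    simp only [Function.comp, bb, Real.exp_log hx]
  refine ⟨d, ?_, h1⟩
  obtain ⟨c, hc⟩ := hf.tree hm hm1
  obtain ⟨a, k, ha, h⟩ := log_mass hf.nonneg hc
  have ha' : (0 : ℝ) < a := by exact_mod_cast ha
  have h2 : Tendsto (fun i : ℕ => (2 : ℝ) ^ (i + 1)) atTop atTop :=
    (tendsto_pow_atTop_atTop_of_one_lt one_lt_two).comp (tendsto_add_atTop_nat 1)
  have h3 : Tendsto (fun n : ℕ => 2 * n + k) atTop atTop :=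
    tendsto_atTop_mono (fun n => by simp only [id]; omega) tendsto_id
  have h4 := (h1.comp h2).cesaro.comp h3
  refine lt_of_lt_of_le (show 0 < 1 / (24 * (a : ℝ)) by positivity) (ge_of_tendsto h4 ?_)
  filter_upwards [eventually_ge_atTop (k + 1)] with n hn
  have b1 := (h n).trans (dyadic hf (2 * n + k))
  have b2 : (k : ℝ) + 1 ≤ n := by exact_mod_cast hn
  have b3 : (0 : ℝ) ≤ k := Nat.cast_nonneg k
  simp only [Function.comp]
  rw [inv_mul_eq_div, le_div_iff₀ (by push_cast; linarith)]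
  push_cast
  have b4 : 1 / (24 * (a : ℝ)) * (2 * n + k) ≤ 1 / (24 * (a : ℝ)) * (3 * n) := by
    gcongr; linarith
  have b5 : 1 / (24 * (a : ℝ)) * (3 * n) = n / (4 * a) / 2 := by field_simp; ring
  linarith

end Pool.Agent.P.MP_2b866c_nt
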