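import Pool.Agent.P.MP_2b866c_nt.Height

/-!
After one block of steps the initial periodic weight is forgotten.
-/

set_option autoImplicit false

open Finset

namespace Pool.Agent.P.MP_2b866c_nt

lemma gj_ref (A : ℕ) : ∃ C : ℝ, 0 ≤ C ∧ ∀ (t m : ℕ) (h : ℕ → ℝ), 1 ≤ t → m ^ 2 ≤ t →
    (∀ Y, 0 ≤ h Y) → Per m h →
    ∑ j ∈ range (t + 1), avg (t + m) (fun Y => |gj t j h Y - avg m h *
      Ex t (fun x => (if ones x = j then 1 else 0) * dl (t / 4 + 1) x Y)|)
      ≤ C / t ^ A * avg m h := by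
  obtain ⟨C, hC0, hC⟩ := mix A
  set K : ℝ := A.factorial / (1 / 8) ^ A with hK
  have hK0 : 0 ≤ K := by positivity
  refine ⟨C + 2 * K, by positivity, fun t m h ht hm h0 hh => ?_⟩
  have ht0 : (0 : ℝ) < t := by positivity
  have hm' : t / 4 + 1 ≤ t + m := by omega
  set M := avg m h with hM
  have hM0 : 0 ≤ M := avg_nonneg h0
  have a1 := hC t m (t / 4 + 1) h ht hm (by
    have : 2 ^ 3 ≤ (t / 4 + 1 + 1) ^ 3 := Nat.pow_le_pow_left (by omega) 3
    rw [pow_succ]
    have : 8 * (t / 4 + 1 + 1) ≤ (t / 4 + 1 + 1) ^ 3 * (t / 4 + 1 + 1) :=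
      Nat.mul_le_mul_right _ this
    omega) hm' h0 hh
  have a2 : ∀ j ∈ range (t + 1), avg (t + m) (fun Y => |Pr (t + m) (t / 4 + 1) (gj t j h) Y -
      M * Ex t (fun x => (if ones x = j then 1 else 0) * dl (t / 4 + 1) x Y)|)
      ≤ Ex t (fun x => (if ones x = j then 1 else 0) *
        (2 * M * if ones x < t / 4 + 1 then 1 else 0)) := by
    intro j _
    set τ : List Bool → ℝ := fun x => if ones x = j then 1 else 0 with hτ
    have hτ0 : ∀ x, 0 ≤ τ x := fun x => by simp only [hτ]; split_ifs <;> norm_num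
    have e1 : gj t j h = fun Y => Ex t (fun x => Wt x (fun U => τ x * h U) Y) := by
      funext Y; simp only [gj, Lop, Wt_mul, hτ]
    calc _ ≤ avg (t + m) (fun Y => Ex t (fun x =>
          |Pr (t + m) (t / 4 + 1) (Wt x (fun U => τ x * h U)) Y
            - avg m (fun U => τ x * h U) * dl (t / 4 + 1) x Y|)) := by
          refine avg_mono fun Y => ?_
          rw [e1, Pr_Ex _ _ t (fun x => Wt x (fun U => τ x * h U)), ← Ex_mul_left, ← Ex_sub]
          refine (abs_Ex_le _ _).trans (le_of_eq (Ex_congr fun x _ => ?_))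
          rw [avg_mul]; congr 2; ring
      _ ≤ _ := by
          rw [avg_Ex]
          refine Ex_mono fun x hx => ?_
          have := dec0 (G := fun U => τ x * h U) (m := m) (fun Y => by simp only [hh Y])
            (fun Y => mul_nonneg (hτ0 x) (h0 Y)) x
            (show m + ones x ≤ t + m by have := ones_le x; omega) hm'
          refine this.trans (le_of_eq ?_)
          rw [avg_mul]; ring
  have a2' := sum_le_sum a2
  rw [← Ex_sum, Ex_congr (G := fun x => 2 * M * if ones x < t / 4 + 1 then 1 else 0)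
    (fun x hx => by
      rw [← sum_mul, sum_ite_eq, if_pos (mem_range.2 (by have := ones_le x; omega)), one_mul]),
    Ex_mul_left] at a2'
  have a3 := hoeff_down t t (t / 4) le_rfl ht0 (by positivity) (fun e => e < t / 4 + 1)
    (fun e he => by
      have : 4 * e ≤ t := by omega
      have : (4 : ℝ) * e ≤ t := by exact_mod_cast this
      linarith)
  have a4 : 2 * ((t : ℝ) / 4) ^ 2 / t = 1 / 8 * t := by field_simp; norm_num
  rw [a4] at a3
  have a5 := exp_neg_le (1 / 8) (by norm_num) A t ht0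
  rw [← hK] at a5
  have a6 := mul_le_mul_of_nonneg_left (a3.trans a5) (show 0 ≤ 2 * M by positivity)
  calc _ ≤ ∑ j ∈ range (t + 1), (avg (t + m) (fun Y =>
        |gj t j h Y - Pr (t + m) (t / 4 + 1) (gj t j h) Y|) + avg (t + m) (fun Y =>
        |Pr (t + m) (t / 4 + 1) (gj t j h) Y -
          M * Ex t (fun x => (if ones x = j then 1 else 0) * dl (t / 4 + 1) x Y)|)) := by
        refine sum_le_sum fun j _ => ?_
        rw [← avg_add]
        exact avg_mono fun Y => abs_sub_le _ _ _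
    _ ≤ C / t ^ A * M + 2 * M * (K / t ^ A) := by
        rw [sum_add_distrib]
        unfold Bn at a6
        linarith
    _ = _ := by ring

lemma gj_close (A : ℕ) : ∃ C : ℝ, 0 ≤ C ∧ ∀ (t m : ℕ) (h : ℕ → ℝ), 1 ≤ t → m ^ 2 ≤ t →
    (∀ Y, 0 ≤ h Y) → Per m h →
    ∑ j ∈ range (t + 1), avg (t + m) (fun Y => |gj t j h Y - avg m h * gj t j (fun _ => 1) Y|)
      ≤ C / t ^ A * avg m h := by
  obtain ⟨C, hC0, hC⟩ := gj_ref A
  refine ⟨2 * C, by positivity, fun t m h ht hm h0 hh => ?_⟩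
  have a1 := hC t m h ht hm h0 hh
  have a2 := hC t m (fun _ => 1) ht hm (fun _ => zero_le_one) (fun _ => rfl)
  have hM0 : 0 ≤ avg m h := avg_nonneg h0
  rw [avg_const, mul_one] at a2
  have a3 := mul_le_mul_of_nonneg_left a2 hM0
  rw [mul_sum] at a3
  refine le_trans (sum_le_sum fun j _ => ?_) (le_trans (le_of_eq (sum_add_distrib ..))
    ((add_le_add a1 a3).trans (le_of_eq (by ring))))
  rw [← avg_mul, ← avg_add]
  refine avg_mono fun Y => (abs_sub_le _ _ _).trans (add_le_add le_rfl (le_of_eq ?_))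
  rw [one_mul, ← mul_sub, abs_mul, abs_of_nonneg hM0, abs_sub_comm]

/-- The error term of the block lemma. -/
def Er (t m : ℕ) : ℝ := 2 ^ t * (3 ^ t + 1 + 3 ^ (t + m))

lemma Er_pow (A : ℕ) : ∃ K : ℝ, 0 ≤ K ∧ ∀ (t m : ℕ) (y : ℝ), 1 ≤ t → m ≤ t → 0 < y →
    (t : ℝ) ≤ Real.log y / 10 → Er t m ≤ K / t ^ A * y ∧ Er t m ≤ y := by
  refine ⟨3 * (A.factorial / (7 / 10) ^ A), by positivity, fun t m y ht hm hy hL => ?_⟩
  set L := Real.log y
  have ht1 : (1 : ℝ) ≤ t := by exact_mod_cast ht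
  have hE1 : Er t m ≤ 3 * Real.exp (3 / 10 * L) := err_le hL hm
  have hxL : y = Real.exp L := (Real.exp_log hy).symm
  constructor
  · have a1 := exp_neg_le (7 / 10) (by norm_num) A t (by linarith)
    have a2 : Real.exp (3 / 10 * L) ≤ Real.exp (-(7 / 10 * t)) * y := by
      rw [hxL, ← Real.exp_add]; exact Real.exp_le_exp.2 (by linarith)
    have a3 := mul_le_mul_of_nonneg_right a1 hy.le
    rw [mul_div_assoc, mul_assoc]
    linarith
  · have a1 : (3 : ℝ) ≤ Real.exp (7 / 10 * L) := by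
      linarith [Real.add_one_le_exp (7 / 10 * L)]
    have a2 : y = Real.exp (7 / 10 * L) * Real.exp (3 / 10 * L) := by
      rw [hxL, ← Real.exp_add]; congr 1; ring
    have := Real.exp_pos (3 / 10 * L)
    nlinarith

lemma scale_le (t j m : ℕ) (x : ℝ) :
    (2 : ℝ) ^ t / 3 ^ j * (3 ^ j * x / 2 ^ t + 1 + 3 ^ (t + m)) ≤ x + Er t m := by
  have c2 : (2 : ℝ) ^ t / 3 ^ j * (3 ^ j * x / 2 ^ t) = x := by field_simp
  have d1 : (2 : ℝ) ^ t / 3 ^ j ≤ 2 ^ t := div_le_self (by positivity) (one_le_pow₀ (by norm_num))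
  have d2 : (2 : ℝ) ^ t / 3 ^ j * (1 + 3 ^ (t + m)) ≤ Er t m := by
    rw [Er]; gcongr; linarith [show (0 : ℝ) ≤ 3 ^ t by positivity]
  rw [add_assoc, mul_add, c2]; linarith

lemma forget (A : ℕ) : ∃ C : ℝ, 0 ≤ C ∧ ∀ (t m : ℕ) (h : ℕ → ℝ) (y : ℝ) (φ : ℕ → ℕ → ℝ),
    1 ≤ t → m ^ 2 ≤ t → 0 < y → (t : ℝ) ≤ Real.log y / 10 → (∀ Y, 0 ≤ h Y) → Per m h →
    (∀ j Y, 0 ≤ φ j Y) → (∀ j Y, φ j Y ≤ 1) →
    ∑ N ∈ Icc 1 ⌊y⌋₊, h N * φ (J t N) (T^[t] N)
      ≤ avg m h * (∑ N ∈ Icc 1 ⌊y⌋₊, φ (J t N) (T^[t] N) + C / t ^ A * y) := by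
  obtain ⟨C, hC0, hC⟩ := gj_close A
  obtain ⟨K, hK0, hK⟩ := Er_pow A
  refine ⟨2 * K + 2 * C, by positivity, fun t m h x φ ht hm hx hL h0 hh hφ0 hφ1 => ?_⟩
  set M := avg m h with hM
  have hM0 : 0 ≤ M := avg_nonneg h0
  obtain ⟨e1, e2⟩ := hK t m x ht (le_trans (Nat.le_self_pow (by norm_num) m) hm) hx hL
  have s : ∀ j ∈ range (t + 1), (∑ N ∈ Icc 1 ⌊x⌋₊,
      if J t N = j then h N * φ j (T^[t] N) else 0) ≤ M * (∑ N ∈ Icc 1 ⌊x⌋₊,
      if J t N = j then 1 * φ j (T^[t] N) else 0) + 2 * Er t m * M * pb t j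
      + 2 * x * avg (t + m) (fun Y => |gj t j h Y - M * gj t j (fun _ => 1) Y|) := by
    intro j hj
    have hj' : j ≤ t := by simpa [Nat.lt_succ_iff] using hj
    have c1 := (abs_le.1 (block hj' hh h0 (hφ0 j) (hφ1 j) x hx.le)).2
    have c2 := (abs_le.1 (block (m := m) (h := fun _ => 1) hj' (fun _ => rfl)
      (fun _ => zero_le_one) (hφ0 j) (hφ1 j) x hx.le)).1
    rw [avg_const] at c2
    have c3 := (abs_le.1 (Sm_sub_le (g' := fun Y => M * gj t j (fun _ => 1) Y)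
      (gj_per (t := t) hh (show m + j ≤ t + m by omega)) (fun Y => by
        simp only [gj_per (t := t) (per_const 1) (show 0 + j ≤ t + m by omega) Y])
      (hφ0 j) (hφ1 j) (3 ^ j * x / 2 ^ t) (by positivity))).2
    rw [Sm_mul] at c3
    have c4 := mul_le_mul_of_nonneg_left c3 (show (0 : ℝ) ≤ 2 ^ t / 3 ^ j by positivity)
    have c5 := mul_le_mul_of_nonneg_right ((scale_le t j m x).trans (by linarith : _ ≤ 2 * x))
      (avg_nonneg (N := t + m) fun Y => abs_nonneg (gj t j h Y - M * gj t j (fun _ => 1) Y))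
    have c6 := mul_le_mul_of_nonneg_left c2 hM0
    unfold Er
    linarith
  have s2 := sum_le_sum s
  rw [sum_add_distrib, sum_add_distrib, ← mul_sum, ← mul_sum, ← mul_sum, sum_pb t _ (by omega),
    ← sum_split_J t _ (fun j N => h N * φ j (T^[t] N)),
    ← sum_split_J t _ (fun j N => 1 * φ j (T^[t] N))] at s2
  simp only [one_mul] at s2
  have s3 := mul_le_mul_of_nonneg_left (hC t m h ht hm h0 hh) (show 0 ≤ 2 * x by positivity)
  have s4 := mul_le_mul_of_nonneg_right e1 hM0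
  rw [add_div, mul_div_assoc, mul_div_assoc]
  linarith

end Pool.Agent.P.MP_2b866c_nt
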