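import Pool.Agent.P.MP_2b866c_nt.Decay

/-!
Fourier analysis modulo `3^N`, projections onto `3^n`-periodic functions.
-/

set_option autoImplicit false

open Finset

namespace Pool.Agent.P.MP_2b866c_nt

/-- Normalised Fourier transform. -/
noncomputable def ft (N : ℕ) (g : ℕ → ℝ) (ξ : ZMod (3 ^ N)) : ℂ :=
  (∑ Y ∈ range (3 ^ N), (g Y : ℂ) * psi N (ξ * Y)) / 3 ^ N

lemma conj_psi (N : ℕ) (a : ZMod (3 ^ N)) : (starRingEnd ℂ) (psi N a) = psi N (-a) := by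
  have h1 : psi N a * psi N (-a) = 1 := by rw [← psi_add, add_neg_cancel, psi_zero]
  have h2 : psi N a * (starRingEnd ℂ) (psi N a) = 1 := by
    rw [Complex.mul_conj, Complex.normSq_eq_norm_sq, norm_psi]; simp
  have h3 : psi N a ≠ 0 := left_ne_zero_of_mul_eq_one h1
  exact mul_left_cancel₀ h3 (h2.trans h1.symm)

lemma sum_psi (N : ℕ) (b : ZMod (3 ^ N)) :
    ∑ ξ : ZMod (3 ^ N), psi N (ξ * b) = if b = 0 then (3 ^ N : ℂ) else 0 := by
  have := AddChar.sum_mulShift b (ZMod.isPrimitive_stdAddChar (3 ^ N))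
  unfold psi
  rw [this, ZMod.card]
  split_ifs <;> simp

lemma plancherel (N : ℕ) (D : ℕ → ℝ) :
    ∑ ξ : ZMod (3 ^ N), ‖ft N D ξ‖ ^ 2 = avg N (fun Y => D Y ^ 2) := by
  apply Complex.ofReal_injective
  have hq : (3 ^ N : ℂ) ≠ 0 := pow_ne_zero _ (by norm_num)
  have h1 : ∀ ξ : ZMod (3 ^ N), ((‖ft N D ξ‖ ^ 2 : ℝ) : ℂ)
      = (∑ Y ∈ range (3 ^ N), ∑ Z ∈ range (3 ^ N),
        (D Y : ℂ) * D Z * psi N (ξ * ((Y : ZMod (3 ^ N)) - Z))) / (3 ^ N * 3 ^ N) := by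
    intro ξ
    rw [← Complex.normSq_eq_norm_sq, ← Complex.mul_conj, ft, map_div₀, map_sum,
      div_mul_div_comm, sum_mul_sum]
    congr 1
    · refine sum_congr rfl fun Y _ => sum_congr rfl fun Z _ => ?_
      rw [map_mul, conj_psi, Complex.conj_ofReal, mul_sub, sub_eq_add_neg, psi_add]; ring
    · simp [map_ofNat]
  rw [Complex.ofReal_sum]
  simp_rw [h1]
  rw [← sum_div, sum_comm]
  have h2 : ∀ Y ∈ range (3 ^ N), ∑ ξ : ZMod (3 ^ N), ∑ Z ∈ range (3 ^ N),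
      (D Y : ℂ) * D Z * psi N (ξ * ((Y : ZMod (3 ^ N)) - Z)) = (D Y : ℂ) ^ 2 * 3 ^ N := by
    intro Y hY
    rw [sum_comm, sum_eq_single Y]
    · rw [← mul_sum, sum_psi]; simp; ring
    · intro Z hZ hne
      rw [← mul_sum, sum_psi, if_neg, mul_zero]
      rw [sub_eq_zero, ZMod.natCast_eq_natCast_iff]
      intro h
      exact hne (Nat.ModEq.eq_of_lt_of_lt h (mem_range.1 hY) (mem_range.1 hZ)).symm
    · intro h; exact absurd hY h
  rw [sum_congr rfl h2, ← sum_mul, avg]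
  push_cast
  field_simp

lemma avg_abs_le_sqrt (N : ℕ) (D : ℕ → ℝ) :
    avg N (fun Y => |D Y|) ≤ √(avg N (fun Y => D Y ^ 2)) := by
  apply Real.le_sqrt_of_sq_le
  unfold avg
  have h := sq_sum_le_card_mul_sum_sq (s := range (3 ^ N)) (f := fun Y => |D Y|)
  simp only [card_range, sq_abs] at h
  push_cast at h
  have hq : (0 : ℝ) < 3 ^ N := by positivity
  rw [div_pow, div_le_div_iff₀ (by positivity) hq]
  nlinarith

lemma norm_ft_le (N : ℕ) (g : ℕ → ℝ) (ξ : ZMod (3 ^ N)) :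
    ‖ft N g ξ‖ ≤ avg N (fun Y => |g Y|) := by
  unfold ft avg
  rw [norm_div, norm_pow, Complex.norm_ofNat]
  gcongr
  refine (norm_sum_le _ _).trans (le_of_eq (sum_congr rfl fun Y _ => ?_))
  rw [norm_mul, norm_psi, mul_one, Complex.norm_real, Real.norm_eq_abs]

lemma ft_sub (N : ℕ) (g g' : ℕ → ℝ) (ξ : ZMod (3 ^ N)) :
    ft N (fun Y => g Y - g' Y) ξ = ft N g ξ - ft N g' ξ := by
  simp [ft, sub_mul, sum_sub_distrib, sub_div]

lemma ft_mul (N : ℕ) (c : ℝ) (g : ℕ → ℝ) (ξ : ZMod (3 ^ N)) :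
    ft N (fun Y => c * g Y) ξ = c * ft N g ξ := by
  simp [ft, mul_assoc, ← mul_sum, mul_div_assoc]

lemma ft_Ex (N t : ℕ) (g : List Bool → ℕ → ℝ) (ξ : ZMod (3 ^ N)) :
    ft N (fun Y => Ex t (fun x => g x Y)) ξ = Ex t (fun x => ft N (g x) ξ) := by
  simp only [ft, Ex_div, ofReal_Ex, ← Ex_mul_right]
  rw [← Ex_sum]

lemma ft_per_zero {N n : ℕ} (hn : n ≤ N) {g : ℕ → ℝ} (hg : Per n g) {ξ : ZMod (3 ^ N)}
    (hξ : (3 : ZMod (3 ^ N)) ^ n * ξ ≠ 0) : ft N g ξ = 0 := by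
  unfold ft
  set H : ℕ → ℂ := fun Y => (g Y : ℂ) * psi N (ξ * Y) with hH
  have hp : ∀ Y, H (Y + 3 ^ N) = H Y := fun Y => by
    simp only [hH, hg.mono hn Y]; congr 2; push_cast; rw [three_pow_cast, add_zero]
  have h1 := sum_per_shift hp (3 ^ n)
  have h2 : ∑ i ∈ range (3 ^ N), H (i + 3 ^ n) = psi N (3 ^ n * ξ) * ∑ i ∈ range (3 ^ N), H i := by
    rw [mul_sum]
    refine sum_congr rfl fun i _ => ?_
    simp only [hH, hg i]
    push_cast
    rw [mul_add, psi_add, mul_comm ξ (3 ^ n)]; ring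
  have h3 : psi N (3 ^ n * ξ) ≠ 1 := by
    intro h
    rw [← psi_zero N] at h
    exact hξ (ZMod.injective_stdAddChar h)
  have h4 : (psi N (3 ^ n * ξ) - 1) * ∑ i ∈ range (3 ^ N), H i = 0 := by
    rw [sub_mul, ← h2, h1]; ring
  rw [(mul_eq_zero.1 h4).resolve_left (sub_ne_zero.2 h3), zero_div]

lemma class_count {E : Type*} [Field E] {N n : ℕ} (hn : n ≤ N) (U : ℕ) (c : E) :
    ∑ Y ∈ range (3 ^ N), (if U ≡ Y [MOD 3 ^ n] then c else 0) = 3 ^ (N - n) * c := by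
  obtain ⟨k, rfl⟩ := Nat.exists_eq_add_of_le hn
  rw [pow_add, mul_comm, sum_per_mul (g := fun Y => if U ≡ Y [MOD 3 ^ n] then c else 0)
    (fun Y => by simp [Nat.ModEq])]
  rw [sum_eq_single (U % 3 ^ n)]
  · simp [Nat.ModEq]
  · intro b hb hne
    rw [if_neg]
    intro h
    apply hne
    rw [Nat.ModEq, Nat.mod_eq_of_lt (mem_range.1 hb)] at h
    exact h.symm
  · intro h; exact absurd (mem_range.2 (Nat.mod_lt _ (by positivity))) h

lemma mul_cast_eq {N n : ℕ} {ξ : ZMod (3 ^ N)} (hξ : (3 : ZMod (3 ^ N)) ^ n * ξ = 0) {U Y : ℕ}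
    (h : U ≡ Y [MOD 3 ^ n]) : ξ * Y = ξ * U := by
  obtain ⟨k, hk⟩ := h.dvd
  have : ((Y : ℤ) : ZMod (3 ^ N)) - (U : ℤ) = 3 ^ n * k := by
    rw [← Int.cast_sub, hk]; push_cast; ring
  push_cast at this
  linear_combination ξ * this + k * hξ

lemma class_sum {N n : ℕ} (hn : n ≤ N) {ξ : ZMod (3 ^ N)}
    (hξ : (3 : ZMod (3 ^ N)) ^ n * ξ = 0) (U : ℕ) :
    ft N (fun Y => if U ≡ Y [MOD 3 ^ n] then 3 ^ n else 0) ξ = psi N (ξ * U) := by
  unfold ft
  have : ∀ Y ∈ range (3 ^ N), (((if U ≡ Y [MOD 3 ^ n] then 3 ^ n else 0 : ℝ)) : ℂ) * psi N (ξ * Y)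
      = if U ≡ Y [MOD 3 ^ n] then 3 ^ n * psi N (ξ * U) else 0 := by
    intro Y _
    split_ifs with h
    · rw [mul_cast_eq hξ h]; simp
    · simp
  rw [sum_congr rfl this, class_count hn, ← mul_assoc, ← pow_add, Nat.sub_add_cancel hn]
  field_simp

lemma class_avg {N n : ℕ} (hn : n ≤ N) (U : ℕ) :
    avg N (fun Y => if U ≡ Y [MOD 3 ^ n] then 3 ^ n else 0) = 1 := by
  unfold avg
  rw [class_count hn, ← pow_add, Nat.sub_add_cancel hn]
  field_simp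

/-- Conditional expectation onto functions periodic modulo `3^n`. -/
noncomputable def Pr (N n : ℕ) (g : ℕ → ℝ) (Y : ℕ) : ℝ :=
  avg N (fun U => g U * if U ≡ Y [MOD 3 ^ n] then 3 ^ n else 0)

lemma Pr_per (N n : ℕ) (g : ℕ → ℝ) : Per n (Pr N n g) := by
  intro Y; simp [Pr, Nat.ModEq]

lemma Pr_nonneg (N n : ℕ) {g : ℕ → ℝ} (hg : ∀ Y, 0 ≤ g Y) (Y : ℕ) : 0 ≤ Pr N n g Y :=
  avg_nonneg fun U => mul_nonneg (hg U) (by split_ifs <;> positivity)

lemma avg_comm (N : ℕ) (F : ℕ → ℕ → ℝ) :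
    avg N (fun Y => avg N (fun U => F U Y)) = avg N (fun U => avg N (fun Y => F U Y)) := by
  simp only [avg, ← sum_div]; rw [sum_comm]

lemma avg_Pr {N n : ℕ} (hn : n ≤ N) (g : ℕ → ℝ) : avg N (Pr N n g) = avg N g := by
  unfold Pr
  rw [avg_comm N (fun U Y => g U * if U ≡ Y [MOD 3 ^ n] then 3 ^ n else 0)]
  refine avg_congr fun U => ?_
  rw [avg_mul, class_avg hn, mul_one]

lemma Pr_of_per {N n : ℕ} (hn : n ≤ N) {g : ℕ → ℝ} (hg : Per n g) (Y : ℕ) :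
    Pr N n g Y = g Y := by
  unfold Pr
  have : ∀ U, (g U * if U ≡ Y [MOD 3 ^ n] then 3 ^ n else 0)
      = g Y * if Y ≡ U [MOD 3 ^ n] then 3 ^ n else 0 := by
    intro U
    by_cases h : U ≡ Y [MOD 3 ^ n]
    · rw [if_pos h, if_pos h.symm, hg.modEq h]
    · rw [if_neg h, if_neg (fun h' => h h'.symm)]; simp
  rw [avg_congr this, avg_mul, class_avg hn, mul_one]

lemma Pr_add (N n : ℕ) (g g' : ℕ → ℝ) (Y : ℕ) :
    Pr N n (fun U => g U + g' U) Y = Pr N n g Y + Pr N n g' Y := by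
  simp only [Pr, add_mul, avg_add]

lemma Pr_sum {ι : Type*} (N n : ℕ) (s : Finset ι) (g : ι → ℕ → ℝ) (Y : ℕ) :
    Pr N n (fun U => ∑ i ∈ s, g i U) Y = ∑ i ∈ s, Pr N n (g i) Y := by
  simp only [Pr, sum_mul, avg_sum]

lemma Pr_Ex (N n t : ℕ) (g : List Bool → ℕ → ℝ) (Y : ℕ) :
    Pr N n (fun U => Ex t (fun x => g x U)) Y = Ex t (fun x => Pr N n (g x) Y) := by
  simp only [Pr, ← Ex_mul_right, avg_Ex]

lemma ft_avg (N : ℕ) (F : ℕ → ℕ → ℝ) (ξ : ZMod (3 ^ N)) :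
    ft N (fun Y => avg N (fun U => F U Y)) ξ = (∑ U ∈ range (3 ^ N), ft N (F U) ξ) / 3 ^ N := by
  simp only [ft, avg]
  push_cast
  simp only [div_mul_eq_mul_div, sum_mul, ← sum_div]
  rw [sum_comm]

lemma ft_Pr {N n : ℕ} (hn : n ≤ N) (g : ℕ → ℝ) (ξ : ZMod (3 ^ N)) :
    ft N (Pr N n g) ξ = if lev N ξ ≤ n then ft N g ξ else 0 := by
  split_ifs with h
  · rw [lev_le_iff] at h
    unfold Pr
    rw [ft_avg N (fun U Y => g U * if U ≡ Y [MOD 3 ^ n] then 3 ^ n else 0)]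
    simp only [ft_mul, class_sum hn h]
    rfl
  · rw [lev_le_iff] at h
    exact ft_per_zero hn (Pr_per N n g) h

lemma ft_Wt {m N : ℕ} {h : ℕ → ℝ} (hh : Per m h) (x : List Bool) (hx : m + ones x ≤ N)
    (ξ : ZMod (3 ^ N)) : ft N (Wt x h) ξ
      = psi N (ξ * (w N ^ x.length * Ft x)) * ft N h (3 ^ ones x * w N ^ x.length * ξ) := by
  have := dual hh x hx (fun z => psi N (ξ * z))
  simp only [Complex.real_smul] at this
  unfold ft
  rw [this, ← mul_div_assoc, mul_sum]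
  congr 1
  refine sum_congr rfl fun U _ => ?_
  rw [mul_left_comm, ← psi_add, phi]
  congr 2; ring

/-- Transfer with a weight depending on the number of odd steps. -/
noncomputable def Gf (t : ℕ) (f : ℕ → ℝ) (h : ℕ → ℝ) : ℕ → ℝ := Lop t (fun x => f (ones x)) h

lemma Gf_per {m t N : ℕ} {h : ℕ → ℝ} (hh : Per m h) {f : ℕ → ℝ}
    (hf : ∀ e, f e ≠ 0 → m + e ≤ N) : Per N (Gf t f h) :=
  Lop_per hh fun _ _ hx => hf _ hx

lemma ft_Gf_le {m N : ℕ} (hN : 2 ≤ N) {h : ℕ → ℝ} (hh : Per m h) (h0 : ∀ Y, 0 ≤ h Y) (σ : ℕ)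
    (f : ℕ → ℝ) (hf1 : ∀ e, |f e| ≤ 1) (hf : ∀ e, f e ≠ 0 → m + e ≤ N) (ζ : ZMod (3 ^ N)) :
    ‖ft N (Gf (2 * σ) f h) ζ‖
      ≤ avg m h * (Pk N)^[σ] (fun y => if lev N y ≤ m then 1 else 0) (w N ^ 2 * ζ) := by
  have hM := avg_nonneg (N := m) h0
  induction σ generalizing f ζ with
  | zero =>
    have e : Gf (2 * 0) f h = fun Y => f 0 * h Y := by funext Y; simp [Gf, Lop, Wt]
    rw [e, ft_mul, norm_mul]
    by_cases h00 : f 0 = 0
    · simp only [h00, Complex.ofReal_zero, norm_zero, zero_mul, Function.iterate_zero, id]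
      split_ifs <;> simp [hM]
    have hm : m ≤ N := by simpa using hf 0 h00
    have hl : lev N (w N ^ 2 * ζ) = lev N ζ := by simpa using lev_mul N 0 2 ζ
    simp only [Function.iterate_zero, id, hl]
    split_ifs with hz
    · have h1 := norm_ft_le N h ζ
      rw [avg_congr (fun Y => abs_of_nonneg (h0 Y)), avg_eq hh hm] at h1
      have h2 : ‖((f 0 : ℝ) : ℂ)‖ ≤ 1 := by rw [Complex.norm_real]; exact hf1 0
      calc _ ≤ 1 * avg m h := by gcongr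
        _ = _ := by ring
    · rw [lev_le_iff] at hz
      rw [ft_per_zero hm hh hz]; simp
  | succ σ ih =>
    have e : Gf (2 * (σ + 1)) f h
        = fun Y => Ex 2 (fun x => Wt x (Gf (2 * σ) (fun e => f (ones x + e)) h) Y) := by
      funext Y
      rw [show 2 * (σ + 1) = 2 + 2 * σ by ring, Gf, Lop_append]
      simp only [ones_append, Gf]
    have hw : ∀ x : List Bool, ones x ≤ 2 →
        ft N (Wt x (Gf (2 * σ) (fun e => f (ones x + e)) h)) ζ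
        = psi N (ζ * (w N ^ x.length * Ft x)) *
          ft N (Gf (2 * σ) (fun e => f (ones x + e)) h) (3 ^ ones x * w N ^ x.length * ζ) := by
      intro x hx
      refine ft_Wt (m := N - ones x) (Gf_per hh fun e he => ?_) x (by omega) ζ
      have := hf _ he; omega
    have hi : ∀ k : ℕ, ‖ft N (Gf (2 * σ) (fun e => f (k + e)) h) (3 ^ k * w N ^ 2 * ζ)‖
        ≤ avg m h * (Pk N)^[σ] (fun y => if lev N y ≤ m then 1 else 0)
          (3 ^ k * w N ^ 2 * (w N ^ 2 * ζ)) := by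
      intro k
      have := ih (fun e => f (k + e)) (fun e => hf1 _) (fun e he => by
        have := hf _ he; omega) (3 ^ k * w N ^ 2 * ζ)
      rwa [show w N ^ 2 * (3 ^ k * w N ^ 2 * ζ) = 3 ^ k * w N ^ 2 * (w N ^ 2 * ζ) by ring] at this
    rw [e, ft_Ex, Ex_succ, Ex_succ, Ex_succ]
    simp only [Ex_zero]
    rw [hw _ (by simp), hw _ (by simp), hw _ (by simp), hw _ (by simp)]
    simp only [ones_false, ones_true, ones_nil, List.length_cons, List.length_nil, Ft, zero_add]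
    have h0' := hi 0
    have h1' := hi 1
    have h2' := hi 2
    simp only [pow_zero, one_mul, pow_one, zero_add] at h0' h1' h2' ⊢
    rw [Pk_succ]
    set z := w N ^ 2 * ζ with hz
    set a := ft N (Gf (2 * σ) (fun e => f e) h) z
    set b := ft N (Gf (2 * σ) (fun e => f (1 + e)) h) (3 * w N ^ 2 * ζ)
    set c := ft N (Gf (2 * σ) (fun e => f (2 + e)) h) (3 ^ 2 * w N ^ 2 * ζ)
    have e1 : ζ * (w N ^ (1 + 1) * ((3 * 0 + 1 : ℕ) : ZMod (3 ^ N))) = z := by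
      rw [hz]; push_cast; ring
    have e2 : ζ * (w N ^ (1 + 1) * ((3 * 0 + 2 : ℕ) : ZMod (3 ^ N))) = z + z := by
      rw [hz]; push_cast; ring
    rw [e1, e2, psi_add]
    set p0 := psi N (ζ * (w N ^ (1 + 1) * ((0 : ℕ) : ZMod (3 ^ N))))
    set p2 := psi N (ζ * (w N ^ (1 + 1) * ((3 * (3 * 0 + 1) + 2 : ℕ) : ZMod (3 ^ N))))
    have e3 : ((p0 * a + psi N z * b) / 2 + (psi N z * psi N z * b + p2 * c) / 2) / 2
        = p0 * a / 4 + psi N z * (1 + psi N z) * b / 4 + p2 * c / 4 := by ring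
    have n0 : ‖p0‖ = 1 := norm_psi _ _
    have n2 : ‖p2‖ = 1 := norm_psi _ _
    have e4 : ‖p0 * a / 4 + psi N z * (1 + psi N z) * b / 4 + p2 * c / 4‖
        ≤ ‖a‖ / 4 + kap N z * ‖b‖ / 2 + ‖c‖ / 4 := by
      refine (norm_add₃_le).trans (le_of_eq ?_)
      simp only [norm_div, norm_mul, n0, n2, norm_psi, Complex.norm_ofNat, kap]
      ring
    have hk := kap_nonneg N z
    have h1'' := mul_le_mul_of_nonneg_left h1' hk
    norm_num at h2'
    calc _ = ‖p0 * a / 4 + psi N z * (1 + psi N z) * b / 4 + p2 * c / 4‖ := by rw [← e3]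
      _ ≤ _ := e4
      _ ≤ _ := by linarith

end Pool.Agent.P.MP_2b866c_nt
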