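import Pool.Agent.P.MP_2b866c_nt.Normal
import Pool.Agent.P.MP_2b866c_nt.Defs

/-!
Translation between the shortcut map and the height; normal order of the height.
-/

set_option autoImplicit false

open Finset Filter Topology

namespace Pool.Agent.P.MP_2b866c_nt

lemma halve (i b : ℕ) : T^[i] (2 ^ i * b) = b ∧ J i (2 ^ i * b) = 0 := by
  induction i with
  | zero => simp [J, bits]
  | succ i ih =>
    have h1 : T (2 ^ (i + 1) * b) = 2 ^ i * b := by
      rw [pow_succ, mul_right_comm]; unfold T; rw [if_pos (by omega)]; omega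
    refine ⟨by rw [Function.iterate_succ_apply, h1, ih.1], ?_⟩
    rw [J_add i 1, Function.iterate_one, h1, ih.2]
    have : (2 ^ (i + 1) * b) % 2 = 0 := by rw [pow_succ, mul_right_comm]; omega
    simp [J, bits, this]

lemma C_step {m : ℕ} (hm : Odd m) : Odd (Cmap m) ∧ ∃ e, 1 ≤ e ∧ T^[e] m = Cmap m ∧ J e m = 1 ∧
    (1 < m → ∀ i < e, T^[i] m ≠ 1) := by
  have hm2 : m % 2 = 1 := Nat.odd_iff.1 hm
  obtain ⟨e, c, hc, hec⟩ := Nat.exists_eq_two_pow_mul_odd (show 3 * m + 1 ≠ 0 by omega)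
  have hv : padicValNat 2 (3 * m + 1) = e := by
    rw [hec, padicValNat.mul (by positivity) hc.pos.ne', padicValNat.prime_pow,
      padicValNat.eq_zero_of_not_dvd (by rw [← even_iff_two_dvd]; exact Nat.not_even_iff_odd.2 hc),
      add_zero]
  have hC : Cmap m = c := by
    rw [Cmap, hv, hec, Nat.mul_div_cancel_left _ (by positivity)]
  obtain ⟨d, rfl⟩ : ∃ d, e = d + 1 := by
    rcases e with _ | d
    · have := Nat.odd_iff.1 hc
      simp at hec; omega
    · exact ⟨d, rfl⟩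
  have hT : T m = 2 ^ d * c := by
    rw [pow_succ, mul_right_comm] at hec
    unfold T; rw [if_neg (by omega)]; omega
  refine ⟨hC ▸ hc, d + 1, by omega, ?_, ?_, ?_⟩
  · rw [Function.iterate_succ_apply, hT, (halve d c).1, hC]
  · rw [J_add d 1, Function.iterate_one, hT, (halve d c).2]
    simp [J, bits, hm2]
  · intro h1 i hi
    rcases i with _ | i
    · simpa using h1.ne'
    · obtain ⟨k, rfl⟩ : ∃ k, d = i + (k + 1) := ⟨d - i - 1, by omega⟩
      rw [Function.iterate_succ_apply, hT, pow_add, mul_assoc, (halve i _).1, pow_succ,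
        mul_right_comm]
      omega

/-- `τ` is the first time the orbit of `N` under `T` visits `1`. -/
def First (N τ : ℕ) : Prop := T^[τ] N = 1 ∧ ∀ i < τ, T^[i] N ≠ 1

lemma first_of_C (k : ℕ) : ∀ m, Odd m → 1 < m → Cmap^[k] m = 1 →
    (∀ i < k, 1 ≤ i → Cmap^[i] m ≠ 1) → ∃ τ, First m τ ∧ J τ m = k := by
  induction k with
  | zero => intro m _ h1 h2; simp at h2; omega
  | succ k ih =>
    intro m hm h1 h2 h3
    obtain ⟨ho, e, _, e2, e3, e4⟩ := C_step hm
    by_cases hc : Cmap m = 1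
    · have : k = 0 := by
        by_contra hk
        exact h3 1 (by omega) le_rfl (by simpa using hc)
      exact ⟨e, ⟨e2.trans hc, e4 h1⟩, by omega⟩
    · have hc' : 1 < Cmap m := by have := ho.pos; omega
      obtain ⟨τ, ⟨t1, t2⟩, t3⟩ := ih (Cmap m) ho hc' h2 (fun i hi _ => h3 (i + 1) (by omega)
        (by omega))
      refine ⟨τ + e, ⟨by rw [Function.iterate_add_apply, e2, t1], fun i hi => ?_⟩, ?_⟩
      · by_cases hie : i < e
        · exact e4 h1 i hie
        · obtain ⟨d, rfl⟩ : ∃ d, i = d + e := ⟨i - e, by omega⟩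
          rw [Function.iterate_add_apply, e2]
          exact t2 d (by omega)
      · rw [J_add, e2, t3, e3]

lemma first_of_finite {m : ℕ} (hm : Odd m) (h1 : 1 < m) (hf : FiniteHeight m) :
    ∃ τ, First m τ ∧ J τ m = height m := by
  have h2 := Nat.sInf_mem (s := {k : ℕ | 1 ≤ k ∧ Cmap^[k] m = 1}) hf
  exact first_of_C _ m hm h1 h2.2 fun i hi hi1 hc => Nat.notMem_of_lt_sInf hi ⟨hi1, hc⟩

lemma finite_of_reach (τ : ℕ) : ∀ m, Odd m → T^[τ] m = 1 → FiniteHeight m := by
  induction τ using Nat.strong_induction_on with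
  | _ τ ih =>
  intro m hm h
  by_cases h1 : m = 1
  · subst h1
    refine ⟨1, le_rfl, ?_⟩
    have : padicValNat 2 (2 ^ 2) = 2 := padicValNat.prime_pow 2
    simp only [Function.iterate_one, Cmap]
    norm_num at this ⊢
    rw [this]; norm_num
  · have h1' : 1 < m := by have := hm.pos; omega
    obtain ⟨ho, e, e1, e2, _, e4⟩ := C_step hm
    have he : e ≤ τ := by
      by_contra hc
      exact e4 h1' τ (by omega) h
    obtain ⟨d, rfl⟩ : ∃ d, τ = d + e := ⟨τ - e, by omega⟩
    rw [Function.iterate_add_apply, e2] at h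
    obtain ⟨k, _, k2⟩ := ih d (by omega) _ ho h
    exact ⟨k + 1, by omega, k2⟩

lemma finite_iff {m : ℕ} (hm : Odd m) : FiniteHeight m ↔ ∃ τ, T^[τ] m = 1 := by
  constructor
  · intro hf
    by_cases h1 : m = 1
    · exact ⟨0, h1⟩
    · obtain ⟨τ, h, _⟩ := first_of_finite hm (by have := hm.pos; omega) hf
      exact ⟨τ, h.1⟩
  · rintro ⟨τ, h⟩; exact finite_of_reach τ m hm h

lemma iter_one_le (k : ℕ) : T^[k] 1 = 1 ∨ T^[k] 1 = 2 := by
  induction k with
  | zero => left; rfl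
  | succ k ih =>
    rw [Function.iterate_succ_apply']
    rcases ih with h | h <;> rw [h] <;> simp [T]

lemma first_split {N τ k : ℕ} (h : First N τ) (hk : 3 ≤ T^[k] N) :
    ∃ d, τ = d + k ∧ First (T^[k] N) d := by
  have : k ≤ τ := by
    by_contra hc
    obtain ⟨d, rfl⟩ : ∃ d, k = d + τ := ⟨k - τ, by omega⟩
    rw [Function.iterate_add_apply, h.1] at hk
    rcases iter_one_le d with a | a <;> omega
  obtain ⟨d, rfl⟩ : ∃ d, τ = d + k := ⟨τ - k, by omega⟩
  refine ⟨d, rfl, by rw [← Function.iterate_add_apply]; exact h.1, fun i hi => ?_⟩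
  rw [← Function.iterate_add_apply]
  exact h.2 _ (by omega)

lemma exists_first_bound (x₀ : ℕ) : ∃ H : ℕ, ∀ Y ≤ x₀, ∀ d, First Y d → d ≤ H := by
  refine ⟨∑ Y ∈ range (x₀ + 1), sInf {k | T^[k] Y = 1}, fun Y hY d hd => ?_⟩
  have h1 : d ≤ sInf {k | T^[k] Y = 1} := by
    by_contra hc
    exact hd.2 _ (by omega) (Nat.sInf_mem (s := {k | T^[k] Y = 1}) ⟨d, hd.1⟩)
  exact h1.trans (single_le_sum (f := fun Y => sInf {k | T^[k] Y = 1})
    (fun _ _ => Nat.zero_le _) (mem_range.2 (by omega)))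

lemma log_16_9 : Real.log (16 / 9) = 2 * Real.log (4 / 3) := by
  rw [show (16 / 9 : ℝ) = (4 / 3) ^ 2 by norm_num, Real.log_pow]; norm_num

lemma height_of_succ {ε : ℝ} {x₀ H m : ℕ} (hH : ∀ Y ≤ x₀, ∀ d, First Y d → d ≤ H)
    (hm : Odd m) (h1 : 1 < m) (hf : FiniteHeight m) (hs : Succ ε x₀ m) :
    |(height m : ℝ) - 2 * Real.log m / Real.log (16 / 9)|
      ≤ 4 * (ε * Real.log m + Real.log x₀) + H := by
  obtain ⟨τ, t1, t2⟩ := first_of_finite hm h1 hf
  obtain ⟨k, k1, k2, k3⟩ := hs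
  obtain ⟨d, rfl, d2⟩ := first_split t1 k1
  have a1 : J d (T^[k] m) ≤ H := (J_le _ _).trans (hH _ k2 d d2)
  have a2 : ((J d (T^[k] m) : ℕ) : ℝ) ≤ H := by exact_mod_cast a1
  rw [← t2, J_add, log_16_9]
  have l3 := lam_ge
  set b := Real.log (4 / 3)
  have hb : 0 < b := by linarith
  have e1 : ((J d (T^[k] m) + J k m : ℕ) : ℝ) - 2 * Real.log m / (2 * b)
      = J d (T^[k] m) + (b * J k m - Real.log m) / b := by push_cast; field_simp; ring
  rw [e1]
  refine (abs_add_le _ _).trans ?_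
  rw [abs_div, abs_of_pos hb, Nat.abs_cast]
  have a3 : |b * J k m - Real.log m| / b ≤ 4 * |b * J k m - Real.log m| := by
    rw [div_le_iff₀ hb]
    nlinarith [abs_nonneg (b * J k m - Real.log m)]
  linarith

open Classical in
theorem normal_order (ε : ℝ) (hε : 0 < ε) :
    Tendsto (fun x : ℕ => (((Icc 1 x).filter (fun m => Odd m ∧ FiniteHeight m ∧
      ε * Real.log m < |(height m : ℝ) - 2 * Real.log m / Real.log (16 / 9)|)).card : ℝ) / x)
      atTop (𝓝 0) := by
  set ε' := min (ε / 8) 1 with hε'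
  have hε'0 : 0 < ε' := lt_min (by positivity) one_pos
  obtain ⟨C, hC0, X, hC⟩ := descent hε'0 (min_le_right _ _) 1 le_rfl
  rw [Metric.tendsto_atTop]
  intro δ hδ
  set x₀ := max X ⌈Real.exp (3 * C / δ + 1)⌉₊ with hx₀
  have hl : 3 * C / δ + 1 ≤ Real.log x₀ := by
    have h1 : Real.exp (3 * C / δ + 1) ≤ x₀ :=
      (Nat.le_ceil _).trans (by exact_mod_cast le_max_right _ _)
    rwa [Real.le_log_iff_exp_le ((Real.exp_pos _).trans_le h1)]
  have hl0 : 0 < Real.log x₀ := lt_of_lt_of_le (by positivity) hl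
  obtain ⟨H, hH⟩ := exists_first_bound x₀
  set M₀ := ⌈Real.exp (2 * (4 * Real.log x₀ + H) / ε)⌉₊ + 2 with hM₀
  refine ⟨max x₀ (⌈3 * M₀ / δ⌉₊ + 1), fun x hx => ?_⟩
  have hx1 : x₀ ≤ x := (le_max_left _ _).trans hx
  have hx2 : ⌈3 * M₀ / δ⌉₊ + 1 ≤ x := (le_max_right _ _).trans hx
  have hx0 : (0 : ℝ) < x := by exact_mod_cast (by omega : 0 < x)
  have hx3 : 3 * M₀ / δ ≤ x :=
    (Nat.le_ceil _).trans (Nat.cast_le.2 (le_trans (Nat.le_succ _) hx2))
  have h1 := hC x₀ (le_max_left _ _) x (by exact_mod_cast hx1)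
  rw [Real.dist_eq, sub_zero, abs_of_nonneg (by positivity), div_lt_iff₀ hx0]
  have h2 : (((Icc 1 x).filter (fun m => Odd m ∧ FiniteHeight m ∧
      ε * Real.log m < |(height m : ℝ) - 2 * Real.log m / Real.log (16 / 9)|)).card : ℝ)
      ≤ ∑ m ∈ Icc 1 x, ((if m < M₀ then 1 else 0) + 1 * fl ε' x₀ m) := by
    rw [card_filter]
    push_cast
    refine sum_le_sum fun m _ => ?_
    have f0 := fl_nonneg ε' x₀ m
    split_ifs with a b b
    · linarith
    · by_cases hs : Succ ε' x₀ m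
      · exfalso
        have c1 := height_of_succ hH a.1 (by omega) a.2.1 hs
        have c2 : Real.exp (2 * (4 * Real.log x₀ + H) / ε) ≤ m :=
          (Nat.le_ceil _).trans (by exact_mod_cast (by omega))
        rw [← Real.le_log_iff_exp_le ((Real.exp_pos _).trans_le c2), div_le_iff₀ hε] at c2
        have c3 : 0 ≤ Real.log m := Real.log_natCast_nonneg m
        have c4 : ε' * Real.log m ≤ ε / 8 * Real.log m := by
          gcongr; exact min_le_left _ _
        linarith [a.2.2]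
      · simp [fl, hs]
    · linarith
    · linarith
  rw [sum_add_distrib] at h2
  have h3 : ∑ m ∈ Icc 1 x, (if m < M₀ then (1 : ℝ) else 0) ≤ M₀ := by
    rw [← sum_filter, sum_const, nsmul_eq_mul, mul_one]
    have : ((Icc 1 x).filter (fun m => m < M₀)).card ≤ (range M₀).card :=
      card_le_card fun m hm => mem_range.2 (mem_filter.1 hm).2
    rw [card_range] at this
    exact_mod_cast this
  rw [Sm, Nat.floor_natCast, pow_one] at h1
  have h4 : C / Real.log x₀ ≤ δ / 3 := by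
    rw [div_le_iff₀ hl0]
    have : 3 * C / δ ≤ Real.log x₀ := by linarith
    rw [div_le_iff₀ hδ] at this
    linarith
  have h5 := mul_le_mul_of_nonneg_right h4 hx0.le
  rw [div_le_iff₀ hδ] at hx3
  nlinarith

end Pool.Agent.P.MP_2b866c_nt
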