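import Pool.Agent.P.MP_2b866c_nt.Positive

/-!
The density function of an invariant function is asymptotically locally constant.
-/

set_option autoImplicit false

open Finset Filter Topology

namespace Pool.Agent.P.MP_2b866c_nt

variable {f : ℕ → ℝ} {K : ℕ}

/-- Weighted density up to `x` of an invariant function `f`. -/
noncomputable def aS (f g : ℕ → ℝ) (x : ℝ) : ℝ := Sm f g x / x

/-- The reference average. -/
noncomputable def Bt (f : ℕ → ℝ) (t q : ℕ) (x : ℝ) : ℝ :=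
  Bn t (fun j => aS f (sg (3 * q) q) (3 ^ j * x / 2 ^ t))

lemma Sm_eq_blocks (hf : TInv K f) (t : ℕ) {m : ℕ} {h : ℕ → ℝ} (hh : Per m h)
    (h0 : ∀ Y, 0 ≤ h Y) (x : ℝ) : |Sm f h x - ∑ j ∈ range (t + 1),
    ∑ N ∈ Icc 1 ⌊x⌋₊, if J t N = j then h N * f (T^[t] N) else 0|
      ≤ (2 ^ t * K + 1 + 3 ^ m) * avg m h := by
  rw [← sum_split_J t _ (fun _ N => h N * f (T^[t] N)), Sm, ← sum_sub_distrib]
  refine (abs_sum_le_sum_abs _ _).trans (le_trans ?_ (sum_le_of_interval hh h0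
    ((Icc 1 ⌊x⌋₊).filter (fun N => N < 2 ^ t * K)) 0 (2 ^ t * K) (by positivity) fun Y hY => ?_))
  · rw [sum_filter]
    refine sum_le_sum fun N _ => ?_
    split_ifs with hN
    · rw [← mul_sub, abs_mul, abs_of_nonneg (h0 N)]
      refine mul_le_of_le_one_right (h0 N) ?_
      rw [abs_le]
      constructor <;> linarith [hf.nonneg N, hf.le_one N, hf.nonneg (T^[t] N), hf.le_one (T^[t] N)]
    · rw [hf.iter t N (not_lt.1 hN)]; simp
  · rw [zero_add]
    exact ⟨Nat.cast_nonneg _, by exact_mod_cast (mem_filter.1 hY).2.le⟩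

lemma err_le' {t m : ℕ} {x : ℝ} (hx : 0 < x) (ht : (t : ℝ) ≤ Real.log x / 10) (hm : m ≤ t)
    (ht1 : 1 ≤ t) : (2 : ℝ) ^ t * (3 ^ t + 1 + 3 ^ (t + m)) ≤ 1 / t * x := by
  refine (err_le ht hm).trans ?_
  have ht0 : (0 : ℝ) < t := by exact_mod_cast ht1
  have ht1' : (1 : ℝ) ≤ t := by exact_mod_cast ht1
  have h1 : x = Real.exp (7 / 10 * Real.log x) * Real.exp (3 / 10 * Real.log x) := by
    rw [← Real.exp_add, ← add_mul]; norm_num; exact (Real.exp_log hx).symm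
  have h2 := Real.add_one_le_exp (7 / 10 * Real.log x)
  have h3 : 3 * (t : ℝ) ≤ Real.exp (7 / 10 * Real.log x) := by linarith
  rw [one_div, inv_mul_eq_div, le_div_iff₀ ht0]
  have := Real.exp_pos (3 / 10 * Real.log x)
  nlinarith

lemma approx_Bt (hf : TInv K f) : ∃ C : ℝ, 0 ≤ C ∧ ∀ (q t m : ℕ) (h : ℕ → ℝ) (x : ℝ), 2 ≤ q → q ^ 4 ≤ t →
    t ≤ (q + 1) ^ 4 → 0 < x → (t : ℝ) ≤ Real.log x / 10 → m ^ 2 ≤ t → (∀ Y, 0 ≤ h Y) → Per m h →
    |aS f h x - avg m h * Bt f t q x| ≤ C / q * avg m h := by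
  obtain ⟨C, hC0, hC⟩ := mix 1
  refine ⟨(K + 1) + 1 + 2 * C + 2 * (12 + 24), by positivity, ?_⟩
  intro q t m h x hq hq1 hq2 hx ht hm h0 hh
  set M := avg m h with hM
  have hM0 : 0 ≤ M := avg_nonneg h0
  have hq8 : 8 * q ≤ t := by
    have : 2 ^ 3 ≤ q ^ 3 := Nat.pow_le_pow_left hq 3
    rw [pow_succ] at hq1; nlinarith
  have hmt : m ≤ t := le_trans (Nat.le_self_pow (by norm_num) m) hm
  have ht0 : (0 : ℝ) < t := by exact_mod_cast (by omega : 0 < t)
  have hq0 : (0 : ℝ) < q := by exact_mod_cast (by omega : 0 < q)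
  have hqt : (q : ℝ) ≤ t := by exact_mod_cast (by omega : q ≤ t)
  have hE := err_le' hx ht hmt (by omega)
  set E : ℝ := 2 ^ t * (3 ^ t + 1 + 3 ^ (t + m)) with hEdef
  have hE3 : E ≤ x := hE.trans (mul_le_of_le_one_left hx.le (by
    rw [div_le_one ht0]; exact_mod_cast (by omega : 1 ≤ t)))
  obtain ⟨s, hs⟩ : ∃ s, t = 3 * q + s := ⟨t - 3 * q, by omega⟩
  have h1 := hC t m q h (by omega) hm hq2 (by omega) h0 hh
  have h2 := decouple (m' := q) (r := 3 * q) (s := s) hh h0 (by omega)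
  rw [← hs] at h2
  have h3 : ∀ j ∈ range (t + 1), |(∑ N ∈ Icc 1 ⌊x⌋₊,
      if J t N = j then h N * f (T^[t] N) else 0)
        - x * M * (pb t j * aS f (sg (3 * q) q) (3 ^ j * x / 2 ^ t))|
      ≤ E * M * pb t j
        + 2 * x * avg (t + m) (fun Y => |gj t j h Y - Pr (t + m) q (gj t j h) Y|)
        + 2 * x * avg (t + m) (fun Y =>
          |Pr (t + m) q (gj t j h) Y - pb t j * M * sg (3 * q) q Y|) := by
    intro j hj
    have hj' : j ≤ t := by simpa [Nat.lt_succ_iff] using hj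
    have c1 := block hj' hh h0 hf.nonneg hf.le_one x hx.le
    set y : ℝ := 3 ^ j * x / 2 ^ t with hy
    have hy0 : 0 < y := by positivity
    have c2 : (2 : ℝ) ^ t / 3 ^ j * y = x := by rw [hy]; field_simp
    have c3 : (2 : ℝ) ^ t / 3 ^ j * (y + 1 + 3 ^ (t + m)) ≤ 2 * x := by
      have d1 : (2 : ℝ) ^ t / 3 ^ j ≤ 2 ^ t :=
        div_le_self (by positivity) (one_le_pow₀ (by norm_num))
      have d2 : (2 : ℝ) ^ t / 3 ^ j * (1 + 3 ^ (t + m)) ≤ E := by
        rw [hEdef]; gcongr; linarith [show (0 : ℝ) ≤ 3 ^ t by positivity]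
      rw [add_assoc, mul_add, c2]; linarith
    have hg := gj_per (t := t) hh (show m + j ≤ t + m by omega)
    have hP := (Pr_per (t + m) q (gj t j h)).mono (show q ≤ t + m by omega)
    have hS : Per (t + m) (fun Y => pb t j * M * sg (3 * q) q Y) := fun Y => by
      simp only [(sg_per (3 * q) q).mono (show q ≤ t + m by omega) Y]
    have d1 := Sm_sub_le hg hP hf.nonneg hf.le_one y hy0.le
    have d2 := Sm_sub_le hP hS hf.nonneg hf.le_one y hy0.le
    rw [Sm_mul] at d2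
    set e1 := avg (t + m) (fun Y => |gj t j h Y - Pr (t + m) q (gj t j h) Y|)
    set e2 := avg (t + m) (fun Y => |Pr (t + m) q (gj t j h) Y - pb t j * M * sg (3 * q) q Y|)
    have e10 : 0 ≤ e1 := avg_nonneg fun _ => abs_nonneg _
    have e20 : 0 ≤ e2 := avg_nonneg fun _ => abs_nonneg _
    have q3 : (0 : ℝ) < 2 ^ t / 3 ^ j := by positivity
    have d3 : x * M * (pb t j * aS f (sg (3 * q) q) y)
        = 2 ^ t / 3 ^ j * (pb t j * M * Sm f (sg (3 * q) q) y) := by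
      rw [aS, ← c2]; field_simp
    have d4 := mul_le_mul_of_nonneg_right c3 e10
    have d5 := mul_le_mul_of_nonneg_right c3 e20
    rw [abs_le] at c1 d1 d2 ⊢
    have f1 := mul_le_mul_of_nonneg_left d1.1 q3.le
    have f2 := mul_le_mul_of_nonneg_left d1.2 q3.le
    have f3 := mul_le_mul_of_nonneg_left d2.1 q3.le
    have f4 := mul_le_mul_of_nonneg_left d2.2 q3.le
    rw [d3]
    constructor <;> linarith [c1.1, c1.2]
  have h4 := (abs_sum_le_sum_abs _ _).trans (sum_le_sum h3)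
  rw [sum_sub_distrib, ← mul_sum, ← Bn_eq_sum t _ (by omega), sum_add_distrib,
    sum_add_distrib, ← mul_sum, ← mul_sum, ← mul_sum, sum_pb t _ (by omega)] at h4
  have b1 := hoeff_down (3 * q) (3 * q) (q / 2) (by push_cast; rfl) (by positivity)
    (by positivity) (fun e => e < q) (fun e he => by
      have : (e : ℝ) ≤ q := by exact_mod_cast he.le
      push_cast; linarith)
  have b2 : 2 * ((q : ℝ) / 2) ^ 2 / (3 * q) = 1 / 6 * q := by field_simp; norm_num
  rw [b2] at b1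
  have b3 := exp_neg_le (1 / 6) (by norm_num) 1 q hq0
  have b4 : Bn (3 * q) (fun e => if e < q then 1 else 0) ≤ 6 / q := by
    refine (b1.trans b3).trans (le_of_eq ?_); norm_num
  have b5 : 4 * ((3 * q : ℕ) : ℝ) / √(s + 1) ≤ 24 / q := by
    have c1 : (q : ℝ) ^ 2 / 2 ≤ √(s + 1) := by
      apply Real.le_sqrt_of_sq_le
      have : (q : ℝ) ^ 4 ≤ 4 * s := by exact_mod_cast (by omega : q ^ 4 ≤ 4 * s)
      nlinarith
    calc _ ≤ 4 * ((3 * q : ℕ) : ℝ) / ((q : ℝ) ^ 2 / 2) := by gcongr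
      _ = _ := by push_cast; field_simp; norm_num
  have b6 : C / (t : ℝ) ^ 1 ≤ C / q := by rw [pow_one]; gcongr
  have b7 : 1 / (t : ℝ) ≤ 1 / q := by gcongr
  have g1 : E * M * 1 ≤ 1 / q * x * M := by
    rw [mul_one]; gcongr; exact hE.trans (by gcongr)
  have g0 : |Sm f h x - _| ≤ (K + 1) * (1 / q * x * M) :=
    (Sm_eq_blocks hf t hh h0 x).trans (by
      refine le_trans ?_ (mul_le_mul_of_nonneg_left g1 (by positivity))
      rw [mul_one, ← mul_assoc]
      gcongr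
      have c1 : (1 : ℝ) ≤ 2 ^ t := one_le_pow₀ (by norm_num)
      have c2 : (3 : ℝ) ^ m ≤ 3 ^ (t + m) := pow_le_pow_right₀ (by norm_num) (by omega)
      have c3 : (0 : ℝ) ≤ 3 ^ t := by positivity
      have c4 : (0 : ℝ) ≤ 3 ^ m := by positivity
      have c5 : (2 : ℝ) ^ t ≤ E := le_mul_of_one_le_right (by positivity) (by linarith)
      have c6 : 1 + (3 : ℝ) ^ m ≤ E := le_trans (by linarith)
        (le_mul_of_one_le_left (by positivity) c1)
      have c7 := mul_le_mul_of_nonneg_right c5 (Nat.cast_nonneg K)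
      linarith)
  have g2 := mul_le_mul_of_nonneg_left (h1.trans (mul_le_mul_of_nonneg_right b6 hM0))
    (by positivity : 0 ≤ 2 * x)
  have g3 := mul_le_mul_of_nonneg_left (h2.trans (mul_le_mul_of_nonneg_left
    (add_le_add (mul_le_mul_of_nonneg_left b4 zero_le_two) b5) hM0)) (by positivity : 0 ≤ 2 * x)
  have e : aS f h x - M * Bt f t q x = (Sm f h x - x * M * Bt f t q x) / x := by
    rw [aS]; field_simp
  rw [e, abs_div, abs_of_pos hx, div_le_iff₀ hx]
  calc _ ≤ (K + 1) * (1 / q * x * M) + 1 / q * x * M + 2 * x * (C / q * M)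
        + 2 * x * (M * (2 * (6 / q) + 24 / q)) := by
        unfold Bt; rw [abs_le] at g0 h4 ⊢; constructor <;> linarith [g0.1, g0.2, h4.1, h4.2]
    _ = _ := by ring

lemma aS_sg_le (hf : TInv K f) {t q : ℕ} {x : ℝ} (hx : 0 < x) (ht : (t : ℝ) ≤ Real.log x / 10) (hq : q ≤ t)
    (ht1 : 1 ≤ t) (j : ℕ) : |aS f (sg (3 * q) q) (3 ^ j * x / 2 ^ t)| ≤ 2 := by
  set y : ℝ := 3 ^ j * x / 2 ^ t with hy
  have hy0 : 0 < y := by positivity
  have h1 := Sm_le (sg_per (3 * q) q) (sg_nonneg _ _) hf.le_one y hy0.le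
  rw [avg_sg le_rfl, mul_one] at h1
  have h2 := Sm_nonneg (sg_nonneg (3 * q) q) hf.nonneg y
  have h3 := err_le' hx ht (Nat.zero_le t) ht1
  have h4 : 1 / (t : ℝ) * x ≤ x := mul_le_of_le_one_left hx.le (by
    rw [div_le_one (by exact_mod_cast ht1)]; exact_mod_cast ht1)
  have h5 : (1 : ℝ) + 3 ^ q ≤ y := by
    rw [hy, le_div_iff₀ (by positivity)]
    have a1 : (3 : ℝ) ^ q ≤ 3 ^ t := pow_le_pow_right₀ (by norm_num) hq
    have a2 : x ≤ 3 ^ j * x := le_mul_of_one_le_left hx.le (one_le_pow₀ (by norm_num))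
    have a3 : ((1 : ℝ) + 3 ^ q) * 2 ^ t ≤ 2 ^ t * (3 ^ t + 1 + 3 ^ (t + 0)) := by
      have : (1 : ℝ) + 3 ^ q ≤ 3 ^ t + 1 + 3 ^ (t + 0) := by
        linarith [show (0 : ℝ) ≤ 3 ^ (t + 0) by positivity]
      rw [mul_comm]; exact mul_le_mul_of_nonneg_left this (by positivity)
    linarith
  rw [aS, abs_of_nonneg (by positivity), div_le_iff₀ hy0]
  linarith

lemma quarter_root_lt (t : ℕ) : t < (Nat.sqrt (Nat.sqrt t) + 1) ^ 4 := by
  have h1 := Nat.lt_succ_sqrt t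
  have h2 := Nat.lt_succ_sqrt (Nat.sqrt t)
  simp only [Nat.succ_eq_add_one] at h1 h2
  have h3 : Nat.sqrt t + 1 ≤ (Nat.sqrt (Nat.sqrt t) + 1) * (Nat.sqrt (Nat.sqrt t) + 1) := h2
  calc t < (Nat.sqrt t + 1) * (Nat.sqrt t + 1) := h1
    _ ≤ _ := Nat.mul_le_mul h3 h3
    _ = _ := by ring

lemma quarter_root_le (t : ℕ) : Nat.sqrt (Nat.sqrt t) ^ 4 ≤ t := by
  have a1 := Nat.sqrt_le' (Nat.sqrt t)
  have a2 := Nat.sqrt_le' t
  calc _ = (Nat.sqrt (Nat.sqrt t) ^ 2) ^ 2 := by ring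
    _ ≤ Nat.sqrt t ^ 2 := Nat.pow_le_pow_left a1 2
    _ ≤ t := a2

lemma core (hf : TInv K f) (δ : ℝ) (hδ : 0 < δ) : ∃ U : ℝ, ∀ x : ℝ, 0 < x → U ≤ Real.log x →
    |aS f (fun _ => 1) (3 * x) - aS f (fun _ => 1) x| ≤ δ ∧
    |aS f (fun _ => 1) (2 * x) - aS f (fun _ => 1) x| ≤ δ ∧
    ∀ (m : ℕ) (h : ℕ → ℝ), (m : ℝ) ^ 2 ≤ Real.log x / 20 → (∀ Y, 0 ≤ h Y) → Per m h →
      |aS f h x - avg m h * aS f (fun _ => 1) x| ≤ δ * avg m h := by
  obtain ⟨C, hC0, hC⟩ := approx_Bt hf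
  set Q : ℕ := ⌈(2 * C + 4) / δ⌉₊ + 2 with hQ
  refine ⟨10 * (Q ^ 4 + 4), fun x hx hU => ?_⟩
  set L := Real.log x with hL
  have hQ4 : (0 : ℝ) ≤ (Q : ℝ) ^ 4 := by positivity
  obtain ⟨t, ht⟩ : ∃ t, ⌊L / 10⌋₊ = t + 1 := by
    have : 1 ≤ ⌊L / 10⌋₊ := Nat.le_floor (by push_cast; linarith)
    exact ⟨⌊L / 10⌋₊ - 1, by omega⟩
  have ht1 : ((t + 1 : ℕ) : ℝ) ≤ L / 10 := by rw [← ht]; exact Nat.floor_le (by linarith)
  have ht2 : L / 10 < ((t + 1 : ℕ) : ℝ) + 1 := by rw [← ht]; exact Nat.lt_floor_add_one _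
  push_cast at ht2
  have ht3 : (t : ℝ) ≤ L / 10 := by push_cast at ht1; linarith
  have hQt : Q ^ 4 ≤ t := by exact_mod_cast (by linarith : (Q : ℝ) ^ 4 ≤ t)
  set q := Nat.sqrt (Nat.sqrt t) with hq
  have q1 := quarter_root_lt t
  have q2 := quarter_root_le t
  rw [← hq] at q1 q2
  have hQq : Q ≤ q := by
    by_contra hc
    have : (q + 1) ^ 4 ≤ Q ^ 4 := Nat.pow_le_pow_left (by omega) 4
    omega
  have hqt : q ≤ t := le_trans (Nat.le_self_pow (by norm_num) q) q2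
  have hq0 : (0 : ℝ) < q := by exact_mod_cast (by omega : 0 < q)
  have hδq : (2 * C + 4) / q ≤ δ := by
    rw [div_le_iff₀ hq0, mul_comm δ, ← div_le_iff₀ hδ]
    exact (Nat.le_ceil _).trans (by exact_mod_cast (by omega))
  have hsq : 2 * 2 / √((t : ℝ) + 1) ≤ 4 / q := by
    have : (q : ℝ) ≤ √((t : ℝ) + 1) := by
      apply Real.le_sqrt_of_sq_le
      have : q ^ 2 ≤ q ^ 4 := Nat.pow_le_pow_right (by omega) (by norm_num)
      have : (q : ℝ) ^ 2 ≤ t := by exact_mod_cast (by omega : q ^ 2 ≤ t)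
      linarith
    norm_num
    gcongr
  have one : ∀ (t' : ℕ) (y : ℝ), t ≤ t' → t' ≤ t + 1 → x ≤ y →
      |aS f (fun _ => 1) y - Bt f t' q y| ≤ C / q := by
    intro t' y h1 h2 h3
    have a1 : (t' : ℝ) ≤ Real.log y / 10 := by
      have : (t' : ℝ) ≤ ((t + 1 : ℕ) : ℝ) := by exact_mod_cast h2
      have := Real.log_le_log hx h3
      linarith
    have := hC q t' 0 (fun _ => 1) y (by omega) (by omega) (by omega) (by linarith) a1 (by simp)
      (fun _ => zero_le_one) (per_const 1)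
    simpa [avg_const] using this
  have sh := Bn_shift t (fun j => aS f (sg (3 * q) q) (3 ^ j * x / 2 ^ t)) 2
    (aS_sg_le hf hx ht3 hqt (by omega))
  have e3 : Bt f t q (3 * x) = Bn t (fun j => aS f (sg (3 * q) q) (3 ^ (j + 1) * x / 2 ^ t)) := by
    unfold Bt; simp only [pow_succ, mul_assoc]
  have e2 : Bt f (t + 1) q (2 * x) = (Bt f t q x + Bt f t q (3 * x)) / 2 := by
    rw [e3]; unfold Bt
    rw [Bn_succ]
    congr 2 <;> refine Bn_congr fun j _ => ?_ <;> congr 1 <;> rw [pow_succ (2 : ℝ)] <;> field_simp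
  rw [← e3] at sh
  have a1 := one t x le_rfl (by omega) le_rfl
  have a2 := one t (3 * x) le_rfl (by omega) (by linarith)
  have a3 := one (t + 1) (2 * x) (by omega) le_rfl (by linarith)
  have e4 : (2 * C + 4) / q = C / q + C / q + 4 / q := by ring
  have p4 : (0 : ℝ) ≤ 4 / q := by positivity
  change |Bt f t q (3 * x) - Bt f t q x| ≤ _ at sh
  rw [abs_le] at a1 a2 a3 sh
  refine ⟨by rw [abs_le]; constructor <;> linarith, by rw [abs_le]; constructor <;> linarith,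
    fun m h hm h0 hh => ?_⟩
  have hM0 : 0 ≤ avg m h := avg_nonneg h0
  have a4 := hC q t m h x (by omega) q2 q1.le hx ht3 (by
    exact_mod_cast (by linarith : (m : ℝ) ^ 2 ≤ t)) h0 hh
  have b1 := mul_le_mul_of_nonneg_left a1.1 hM0
  have b2 := mul_le_mul_of_nonneg_left a1.2 hM0
  have b3 := mul_le_mul_of_nonneg_right (show C / q + C / q ≤ δ by linarith) hM0
  rw [abs_le] at a4 ⊢
  constructor <;> linarith

/-- The density function on the logarithmic scale. -/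
noncomputable def bb (f : ℕ → ℝ) (u : ℝ) : ℝ := aS f (fun _ => 1) (Real.exp u)

lemma count_lip (hf : TInv K f) {x y : ℝ} (hx : 0 < x) (hxy : x ≤ y) :
    |aS f (fun _ => 1) y - aS f (fun _ => 1) x| ≤ (y - x + 1) / y := by
  have hy : 0 < y := by linarith
  have hfl : ⌊x⌋₊ ≤ ⌊y⌋₊ := Nat.floor_le_floor hxy
  have h1 : Sm f (fun _ => 1) y = Sm f (fun _ => 1) x + ∑ Y ∈ Ioc ⌊x⌋₊ ⌊y⌋₊, 1 * f Y := by
    unfold Sm
    rw [show Icc 1 ⌊y⌋₊ = Ioc 0 ⌊y⌋₊ from rfl, show Icc 1 ⌊x⌋₊ = Ioc 0 ⌊x⌋₊ from rfl,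
      sum_Ioc_consecutive _ (Nat.zero_le _) hfl]
  have cnt : ∀ a b : ℕ, a ≤ b → ∑ Y ∈ Ioc a b, 1 * f Y ≤ b - a := by
    intro a b hab
    calc _ ≤ ∑ Y ∈ Ioc a b, (1 : ℝ) := sum_le_sum fun Y _ => by rw [one_mul]; exact hf.le_one Y
      _ = _ := by simp [Nat.cast_sub hab]
  have h2 := cnt _ _ hfl
  have h3 : Sm f (fun _ => 1) x ≤ x := by
    have := cnt 0 ⌊x⌋₊ (Nat.zero_le _)
    rw [Nat.cast_zero, sub_zero] at this
    exact this.trans (Nat.floor_le hx.le)
  have h4 := Sm_nonneg (g := fun _ => 1) (fun _ => zero_le_one) hf.nonneg x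
  have h5 : 0 ≤ ∑ Y ∈ Ioc ⌊x⌋₊ ⌊y⌋₊, 1 * f Y :=
    sum_nonneg fun Y _ => by rw [one_mul]; exact hf.nonneg Y
  have h6 := Nat.floor_le hy.le
  have h7 := Nat.lt_floor_add_one x
  set A := Sm f (fun _ => 1) x
  set D := ∑ Y ∈ Ioc ⌊x⌋₊ ⌊y⌋₊, 1 * f Y
  have e : aS f (fun _ => 1) y - aS f (fun _ => 1) x = (D - A / x * (y - x)) / y := by
    rw [aS, aS, h1]; field_simp; ring
  have h8 : A / x * (y - x) ≤ 1 * (y - x) := by
    gcongr; rwa [div_le_one hx]
  have h9 : 0 ≤ A / x * (y - x) := mul_nonneg (by positivity) (by linarith)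
  rw [e, abs_div, abs_of_pos hy]
  gcongr
  rw [abs_le]; constructor <;> linarith

lemma bb_lip (hf : TInv K f) {u v : ℝ} (huv : u ≤ v) : |bb f v - bb f u| ≤ (v - u) + Real.exp (-u) := by
  refine (count_lip hf (Real.exp_pos u) (Real.exp_le_exp.2 huv)).trans ?_
  rw [div_le_iff₀ (Real.exp_pos v)]
  have h1 := Real.add_one_le_exp (u - v)
  have h2 : Real.exp u = Real.exp (u - v) * Real.exp v := by rw [← Real.exp_add]; ring_nf
  have h3 : 1 ≤ Real.exp (-u) * Real.exp v := by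
    rw [← Real.exp_add]; exact Real.one_le_exp (by linarith)
  have := Real.exp_pos v
  nlinarith

lemma bb_lip' (hf : TInv K f) (u v w : ℝ) (hv : |v| ≤ 1) (hw : |w| ≤ 1) :
    |bb f (u + v) - bb f (u + w)| ≤ |v - w| + Real.exp (1 - u) := by
  rw [abs_le] at hv hw
  rcases le_total v w with h | h
  · have := bb_lip hf (show u + v ≤ u + w by linarith)
    have e : Real.exp (-(u + v)) ≤ Real.exp (1 - u) := Real.exp_le_exp.2 (by linarith)
    rw [abs_sub_comm, abs_sub_comm v, abs_of_nonneg (by linarith : 0 ≤ w - v)]; linarith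
  · have := bb_lip hf (show u + w ≤ u + v by linarith)
    have e : Real.exp (-(u + w)) ≤ Real.exp (1 - u) := Real.exp_le_exp.2 (by linarith)
    rw [abs_of_nonneg (by linarith : 0 ≤ v - w)]; linarith

lemma irr_log : Irrational (Real.log 2 / Real.log 3) := by
  rintro ⟨r, hr⟩
  have l2 : 0 < Real.log 2 := Real.log_pos (by norm_num)
  have l3 : 0 < Real.log 3 := Real.log_pos (by norm_num)
  have hr0 : 0 < r := by
    have : (0 : ℝ) < r := by rw [hr]; positivity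
    exact_mod_cast this
  have hn : 0 < r.num := Rat.num_pos.2 hr0
  obtain ⟨a, ha⟩ := Int.eq_ofNat_of_zero_le hn.le
  have h1 : (r.den : ℝ) * Real.log 2 = a * Real.log 3 := by
    rw [Rat.cast_def, ha, div_eq_div_iff (by exact_mod_cast r.den_nz) l3.ne'] at hr
    push_cast at hr; linarith
  rw [← Real.log_pow, ← Real.log_pow] at h1
  have h2 := Real.log_injOn_pos (Set.mem_Ioi.2 (by positivity)) (Set.mem_Ioi.2 (by positivity)) h1
  have h3 : 2 ^ r.den = 3 ^ a := by exact_mod_cast h2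
  have h4 : 3 ^ a % 2 = 1 := by simp [Nat.pow_mod]
  obtain ⟨d, hd⟩ : ∃ d, r.den = d + 1 := ⟨r.den - 1, by have := r.den_nz; omega⟩
  rw [hd, pow_succ] at h3
  omega

/-- Shifts that asymptotically preserve `bb`. -/
def shifts (f : ℕ → ℝ) : AddSubgroup ℝ where
  carrier := {c | Tendsto (fun u => bb f (u + c) - bb f u) atTop (𝓝 0)}
  zero_mem' := by simp
  add_mem' := by
    intro a b ha hb
    have h1 := (hb.comp (tendsto_atTop_add_const_right atTop a tendsto_id)).add ha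
    simp only [add_zero] at h1
    refine h1.congr fun u => ?_
    simp only [Function.comp, id, add_assoc]; ring
  neg_mem' := by
    intro a ha
    have h1 := (ha.comp (tendsto_atTop_add_const_right atTop (-a) tendsto_id)).neg
    simp only [neg_zero] at h1
    refine h1.congr fun u => ?_
    simp [Function.comp]

lemma shifts_dense (hf : TInv K f) : Dense (shifts f : Set ℝ) := by
  refine (dense_addSubgroupClosure_pair_iff.2 irr_log).mono ?_
  rw [SetLike.coe_subset_coe, AddSubgroup.closure_le, Set.pair_subset_iff]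
  constructor
  · change Tendsto _ _ _
    rw [Metric.tendsto_atTop]
    intro δ hδ
    obtain ⟨U, hU⟩ := core hf (δ / 2) (by positivity)
    refine ⟨U, fun u hu => ?_⟩
    have := (hU (Real.exp u) (Real.exp_pos u) (by rwa [Real.log_exp])).2.1
    rw [Real.dist_eq, sub_zero, bb, bb, Real.exp_add, Real.exp_log (by norm_num), mul_comm]
    linarith
  · change Tendsto _ _ _
    rw [Metric.tendsto_atTop]
    intro δ hδ
    obtain ⟨U, hU⟩ := core hf (δ / 2) (by positivity)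
    refine ⟨U, fun u hu => ?_⟩
    have := (hU (Real.exp u) (Real.exp_pos u) (by rwa [Real.log_exp])).1
    rw [Real.dist_eq, sub_zero, bb, bb, Real.exp_add, Real.exp_log (by norm_num), mul_comm]
    linarith

lemma bb_unif (hf : TInv K f) (δ : ℝ) (hδ : 0 < δ) :
    ∀ᶠ u in atTop, ∀ v : ℝ, |v| ≤ 1 / 2 + 1 / 4 → |bb f (u + v) - bb f u| ≤ δ := by
  obtain ⟨n, hn⟩ := exists_nat_one_div_lt (show 0 < min (δ / 4) (1 / 8) by positivity)
  set η : ℝ := 1 / ((n : ℝ) + 1) with hη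
  have hη0 : 0 < η := by positivity
  have hη1 : η < δ / 4 := hn.trans_le (min_le_left _ _)
  have hη2 : η < 1 / 8 := hn.trans_le (min_le_right _ _)
  have h1 : ∀ k : ℤ, ∃ c ∈ shifts f, |c - k * η| < η := by
    intro k
    obtain ⟨c, hc1, hc2⟩ := (shifts_dense hf).exists_dist_lt (k * η) hη0
    exact ⟨c, hc1, by rwa [dist_comm, Real.dist_eq] at hc2⟩
  choose c hc1 hc2 using h1
  have h2 : ∀ᶠ u in atTop, ∀ k ∈ Icc (-(n + 1 : ℤ)) (n + 1), |bb f (u + c k) - bb f u| ≤ δ / 4 := by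
    rw [eventually_all_finset]
    intro k _
    have := (Metric.tendsto_nhds.1 (hc1 k)) (δ / 4) (by positivity)
    filter_upwards [this] with u hu
    rw [Real.dist_eq, sub_zero] at hu
    exact hu.le
  have h3 : ∀ᶠ u in atTop, Real.exp (1 - u) ≤ δ / 4 := by
    have : Tendsto (fun u : ℝ => Real.exp (1 - u)) atTop (𝓝 0) :=
      Real.tendsto_exp_atBot.comp (tendsto_atBot_add_const_left atTop 1 tendsto_neg_atTop_atBot)
    exact this.eventually (ge_mem_nhds (by positivity))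
  filter_upwards [h2, h3] with u hu1 hu2 v hv
  set k := ⌊v / η⌋ with hk
  have k1 : (k : ℝ) * η ≤ v := by rw [← le_div_iff₀ hη0]; exact Int.floor_le _
  have k2 : v < (k + 1) * η := by rw [← div_lt_iff₀ hη0]; exact Int.lt_floor_add_one _
  have hv' := abs_le.1 hv
  have hnη : ((n : ℝ) + 1) * η = 1 := by rw [hη]; field_simp
  have k3 : k ∈ Icc (-(n + 1 : ℤ)) (n + 1) := by
    rw [mem_Icc]
    constructor
    · have : -((n : ℝ) + 1) * η ≤ k * η := by linarith
      have := le_of_mul_le_mul_right this hη0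
      exact_mod_cast this
    · have : k * η ≤ ((n : ℝ) + 1) * η := by linarith
      have := le_of_mul_le_mul_right this hη0
      exact_mod_cast this
  have a1 := hu1 k k3
  have a2 := abs_lt.1 (hc2 k)
  have a3 := bb_lip' hf u v (c k) (by linarith) (by rw [abs_le]; constructor <;> linarith)
  have a4 : |v - c k| ≤ 2 * η := by rw [abs_le]; constructor <;> linarith
  have := abs_sub_le (bb f (u + v)) (bb f (u + c k)) (bb f u)
  linarith

end Pool.Agent.P.MP_2b866c_nt
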