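import Pool.Agent.P.MP_2b866c_nt.Fourier

/-!
The mixing estimate.
-/

set_option autoImplicit false

open Finset

namespace Pool.Agent.P.MP_2b866c_nt

lemma two_pow_val (N t a : ℕ) :
    2 ^ t * (w N ^ t * (a : ZMod (3 ^ N))).val ≡ a [MOD 3 ^ N] := by
  rw [← ZMod.natCast_eq_natCast_iff]
  push_cast
  rw [ZMod.natCast_zmod_val, ← mul_assoc, two_pow_mul_w, one_mul]

lemma first_L2 {N n t₁ : ℕ} (hn : n ≤ N) (P : List Bool → Prop) [DecidablePred P]
    (hP : ∀ x y, x.length = t₁ → y.length = t₁ → P x → P y → Ft x ≡ Ft y [MOD 3 ^ n] → x = y) :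
    ∑ ξ : ZMod (3 ^ N), (if lev N ξ ≤ n then
      ‖Ex t₁ (fun x => if P x then psi N (ξ * (w N ^ t₁ * Ft x)) else 0)‖ ^ 2 else 0)
      ≤ 3 ^ n / 2 ^ t₁ := by
  set f : ℕ → ℝ := fun Y => Ex t₁ (fun x => (if P x then 1 else 0) *
    if (w N ^ t₁ * (Ft x : ZMod (3 ^ N))).val ≡ Y [MOD 3 ^ n] then 3 ^ n else 0) with hf
  have h1 : ∀ ξ : ZMod (3 ^ N), (if lev N ξ ≤ n then
      ‖Ex t₁ (fun x => if P x then psi N (ξ * (w N ^ t₁ * Ft x)) else 0)‖ ^ 2 else 0)
      ≤ ‖ft N f ξ‖ ^ 2 := by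
    intro ξ
    split_ifs with h
    · rw [lev_le_iff] at h
      rw [hf, ft_Ex]
      simp only [ft_mul, class_sum hn h, ZMod.natCast_zmod_val]
      apply le_of_eq
      congr 2
      refine Ex_congr fun x _ => ?_
      split_ifs <;> simp
    · positivity
  refine (sum_le_sum fun ξ _ => h1 ξ).trans ?_
  rw [plancherel]
  have f0 : ∀ Y, 0 ≤ f Y := fun Y => Ex_nonneg fun x _ => by split_ifs <;> positivity
  have f1 : ∀ Y, f Y ≤ 3 ^ n / 2 ^ t₁ := by
    intro Y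
    have h2 := Ex_le_of_unique t₁
      (fun x => P x ∧ (w N ^ t₁ * (Ft x : ZMod (3 ^ N))).val ≡ Y [MOD 3 ^ n]) (by
        rintro x y hx hy ⟨a1, a2⟩ ⟨b1, b2⟩
        refine hP x y hx hy a1 b1 ?_
        have c1 := (two_pow_val N t₁ (Ft x)).of_dvd (pow_dvd_pow 3 hn)
        have c2 := (two_pow_val N t₁ (Ft y)).of_dvd (pow_dvd_pow 3 hn)
        exact c1.symm.trans (((a2.trans b2.symm).mul_left _).trans c2))
    have h3 : f Y = 3 ^ n * Ex t₁ (fun x => if P x ∧
        (w N ^ t₁ * (Ft x : ZMod (3 ^ N))).val ≡ Y [MOD 3 ^ n] then (1 : ℝ) else 0) := by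
      rw [hf, ← Ex_mul_left]
      refine Ex_congr fun x _ => ?_
      by_cases a1 : P x <;>
        by_cases a2 : (w N ^ t₁ * (Ft x : ZMod (3 ^ N))).val ≡ Y [MOD 3 ^ n] <;> simp [a1, a2]
    rw [h3, div_eq_mul_one_div]
    gcongr
  have f2 : avg N f ≤ 1 := by
    rw [hf, avg_Ex]
    refine Ex_le_const fun x _ => ?_
    rw [avg_mul, class_avg hn]
    split_ifs <;> norm_num
  calc avg N (fun Y => f Y ^ 2) ≤ avg N (fun Y => 3 ^ n / 2 ^ t₁ * f Y) := by
        refine avg_mono fun Y => ?_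
        rw [sq]; exact mul_le_mul_of_nonneg_right (f1 Y) (f0 Y)
    _ ≤ 3 ^ n / 2 ^ t₁ * 1 := by rw [avg_mul]; gcongr
    _ = _ := mul_one _

/-- Oscillation at level `n`. -/
noncomputable def osc (N n : ℕ) (g : ℕ → ℝ) : ℝ :=
  avg N (fun Y => |Pr N n g Y - Pr N (n - 1) g Y|)

lemma level_good {m N n t₁ σ j k : ℕ} (hN : 2 ≤ N) (hn1 : 1 ≤ n) (hn : n ≤ N) (hk : k ≤ n)
    {h : ℕ → ℝ} (hh : Per m h) (h0 : ∀ Y, 0 ≤ h Y) (hj : m + j ≤ N) (V : ℝ) (hV0 : 0 ≤ V)
    (hV : ∀ z, lev N z = n - k → (Pk N)^[σ] (fun y => if lev N y ≤ m then 1 else 0) z ≤ V) :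
    osc N n (Lop (t₁ + 2 * σ) (fun z => (if ones (z.take t₁) = k ∧ Ft (z.take t₁) < 3 ^ n
      then 1 else 0) * if ones z = j then 1 else 0) h) ≤ avg m h * V * √(3 ^ n / 2 ^ t₁) := by
  set G := Lop (t₁ + 2 * σ) (fun z => (if ones (z.take t₁) = k ∧ Ft (z.take t₁) < 3 ^ n
      then (1 : ℝ) else 0) * if ones z = j then 1 else 0) h with hG
  set f : ℕ → ℝ := fun e => if k + e = j then 1 else 0 with hf
  have hM := avg_nonneg (N := m) h0
  have hfs : ∀ e, f e ≠ 0 → m + e ≤ N - k := by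
    intro e he
    have : k + e = j := by by_contra hc; simp [hf, hc] at he
    omega
  have h1 : ∀ ξ, ft N G ξ = Ex t₁ (fun x => if ones x = k ∧ Ft x < 3 ^ n then
      psi N (ξ * (w N ^ t₁ * Ft x)) else 0) * ft N (Gf (2 * σ) f h) (3 ^ k * w N ^ t₁ * ξ) := by
    intro ξ
    have e : G = fun Y => Ex t₁ (fun x => (if ones x = k ∧ Ft x < 3 ^ n then 1 else 0) *
        Wt x (Gf (2 * σ) f h) Y) := by
      funext Y
      rw [hG, Lop_append]
      refine Ex_congr fun x hx => ?_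
      rw [← Wt_mul]
      congr 1
      funext U
      simp only [List.take_left' hx, Gf, Lop, ← Ex_mul_left, ones_append]
      refine Ex_congr fun y _ => ?_
      by_cases hc : ones x = k ∧ Ft x < 3 ^ n
      · simp [hc, hf]
      · simp [hc]
    rw [e, ft_Ex, ← Ex_mul_right]
    refine Ex_congr fun x hx => ?_
    by_cases hc : ones x = k ∧ Ft x < 3 ^ n
    · rw [ft_mul, ft_Wt (Gf_per hh hfs) x (by omega), hx, hc.1]
      simp [hc]
    · rw [ft_mul]; simp [hc]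
  have h2 : ∀ ξ, ‖ft N (fun Y => Pr N n G Y - Pr N (n - 1) G Y) ξ‖ ^ 2 ≤ (avg m h * V) ^ 2 *
      (if lev N ξ ≤ n then ‖Ex t₁ (fun x => if ones x = k ∧ Ft x < 3 ^ n then
        psi N (ξ * (w N ^ t₁ * Ft x)) else 0)‖ ^ 2 else 0) := by
    intro ξ
    rw [ft_sub, ft_Pr hn, ft_Pr (by omega : n - 1 ≤ N)]
    by_cases a1 : lev N ξ ≤ n - 1
    · rw [if_pos a1, if_pos (by omega), sub_self, if_pos (by omega)]
      simp only [norm_zero, ne_eq, OfNat.ofNat_ne_zero, not_false_eq_true, zero_pow]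
      positivity
    · by_cases a2 : lev N ξ ≤ n
      · rw [if_neg a1, if_pos a2, if_pos a2, sub_zero, h1, norm_mul, mul_pow, mul_comm]
        have b1 := ft_Gf_le hN hh h0 σ f (fun e => by simp only [hf]; split_ifs <;> simp)
          (fun e he => by have := hfs e he; omega) (3 ^ k * w N ^ t₁ * ξ)
        have b2 := hV (w N ^ 2 * (3 ^ k * w N ^ t₁ * ξ)) (by
          rw [show w N ^ 2 * (3 ^ k * w N ^ t₁ * ξ) = 3 ^ k * w N ^ (t₁ + 2) * ξ by ring, lev_mul]
          omega)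
        have b3 : ‖ft N (Gf (2 * σ) f h) (3 ^ k * w N ^ t₁ * ξ)‖ ≤ avg m h * V :=
          b1.trans (by gcongr)
        gcongr
      · rw [if_neg a1, if_neg a2, if_neg a2]; simp
  have h3 := first_L2 (t₁ := t₁) hn (fun x => ones x = k ∧ Ft x < 3 ^ n) (by
    rintro x y hx hy ⟨a1, a2⟩ ⟨b1, b2⟩ hxy
    exact Ft_inj t₁ x y hx hy (a1.trans b1.symm) (Nat.ModEq.eq_of_lt_of_lt hxy a2 b2))
  have h4 := sum_le_sum fun ξ (_ : ξ ∈ univ) => h2 ξ
  rw [plancherel, ← mul_sum] at h4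
  refine (avg_abs_le_sqrt N _).trans ?_
  rw [Real.sqrt_le_left (by positivity), mul_pow _ (√_), Real.sq_sqrt (by positivity)]
  exact h4.trans (by gcongr)

lemma V_bound (E : ℕ) : ∃ C : ℝ, 0 ≤ C ∧ ∀ (N t t₁ σ m n : ℕ) (z : ZMod (3 ^ N)), 1 ≤ t →
    m ^ 2 ≤ t → t ≤ n ^ 4 → t₁ + 2 * σ = t → 5 * t₁ ≤ 8 * n → n ≤ 10 * lev N z → lev N z ≤ n →
    (Pk N)^[σ] (fun y => if lev N y ≤ m then 1 else 0) z ≤ C / t ^ E := by
  obtain ⟨C, hC1, hC⟩ := decay (4 * E)
  set K : ℝ := E.factorial / (1 / 4) ^ E with hK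
  have hK0 : 0 ≤ K := by positivity
  refine ⟨C * (10 ^ 4) ^ E + K + C * (16 * 10 ^ 12) ^ E, by positivity, ?_⟩
  intro N t t₁ σ m n z ht hm hn hσ ht₁ hν1 hν2
  set ν := lev N z with hν
  have hn0 : 1 ≤ n := by
    rcases Nat.eq_zero_or_pos n with rfl | h
    · simp at hn; omega
    · exact h
  have hν0 : 1 ≤ ν := by omega
  have ht0 : (0 : ℝ) < t := by exact_mod_cast ht
  have ht1 : (1 : ℝ) ≤ t := by exact_mod_cast ht
  have hν0' : (0 : ℝ) < ν := by exact_mod_cast hν0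
  have hnν : (n : ℝ) ≤ 10 * ν := by exact_mod_cast hν1
  have hn' : (t : ℝ) ≤ n ^ 4 := by exact_mod_cast hn
  have p1 : 0 ≤ C * (10 ^ 4) ^ E / (t : ℝ) ^ E := by positivity
  have p2 : 0 ≤ K / (t : ℝ) ^ E := by positivity
  have p3 : 0 ≤ C * (16 * 10 ^ 12) ^ E / (t : ℝ) ^ E := by positivity
  rw [add_div, add_div]
  by_cases hc : 100 * n ≤ t
  · have h1 : (Pk N)^[σ] (fun y => if lev N y ≤ m then (1 : ℝ) else 0) z
        ≤ (Pk N)^[σ] (fun y => 1 * (if lev N y ≤ 1 then 1 else 0)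
          + 1 * (if 1 < lev N y then 1 else 0)) z := by
      refine Pk_mono N σ _ _ z fun e _ => ?_
      by_cases a : lev N (mv N e σ z) ≤ 1
      · rw [if_pos a, if_neg (by omega : ¬ 1 < lev N (mv N e σ z))]; split_ifs <;> norm_num
      · rw [if_neg a, if_pos (by omega : 1 < lev N (mv N e σ z))]; split_ifs <;> norm_num
    rw [Pk_lin N σ 1 1 (fun y => if lev N y ≤ 1 then 1 else 0)
      (fun y => if 1 < lev N y then 1 else 0)] at h1
    have h2 := hC N 1 σ z le_rfl hν0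
    have h3 := Pk_le_Bn N σ (fun y => if 1 < lev N y then (1 : ℝ) else 0)
      (fun y => by split_ifs <;> norm_num) z
    have h4 := hoeff_down (2 * σ) t (2 * t / 5) (by
        have : 2 * σ ≤ t := by omega
        exact_mod_cast this) ht0 (by positivity) (fun e => 1 < lev N (mv N e σ z)) (fun e he => by
      rw [lev_mv] at he
      have : 10 * e + 4 * t ≤ 10 * σ := by omega
      have : (10 : ℝ) * e + 4 * t ≤ 10 * σ := by exact_mod_cast this
      push_cast; linarith)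
    have h5 : Real.exp (-(2 * (2 * (t : ℝ) / 5) ^ 2 / t)) ≤ Real.exp (-(1 / 4 * t)) := by
      apply Real.exp_le_exp.2
      have : 2 * (2 * (t : ℝ) / 5) ^ 2 / t = 8 / 25 * t := by field_simp; norm_num
      rw [this]; linarith
    have h6 := exp_neg_le (1 / 4) (by norm_num) E t ht0
    rw [← hK] at h6
    have h7 : C * (((1 : ℕ) : ℝ) / ν) ^ (4 * E) ≤ C * (10 ^ 4) ^ E / (t : ℝ) ^ E := by
      rw [pow_mul, mul_div_assoc, ← div_pow]
      gcongr
      rw [div_pow, div_le_div_iff₀ (by positivity) ht0]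
      have : (n : ℝ) ^ 4 ≤ (10 * ν) ^ 4 := by gcongr
      push_cast
      nlinarith
    linarith
  · have h1 : (Pk N)^[σ] (fun y => if lev N y ≤ m then (1 : ℝ) else 0) z
        ≤ (Pk N)^[σ] (fun y => if lev N y ≤ m + 1 then 1 else 0) z := by
      refine Pk_mono N σ _ _ z fun e _ => ?_
      by_cases a : lev N (mv N e σ z) ≤ m
      · rw [if_pos a, if_pos (by omega)]
      · rw [if_neg a]; split_ifs <;> norm_num
    have h2 := hC N (m + 1) σ z (by omega) hν0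
    have h3 : C * (((m + 1 : ℕ) : ℝ) / ν) ^ (4 * E)
        ≤ C * (16 * 10 ^ 12) ^ E / (t : ℝ) ^ E := by
      rw [pow_mul, mul_div_assoc, ← div_pow]
      gcongr
      have a1 : (m + 1) ^ 2 ≤ 4 * t := by nlinarith
      have a2 : (((m + 1 : ℕ) : ℝ)) ^ 2 ≤ 4 * t := by exact_mod_cast a1
      have a3 : (t : ℝ) ≤ 1000 * ν := by
        have : t ≤ 1000 * ν := by omega
        exact_mod_cast this
      have a4 : (((m + 1 : ℕ) : ℝ)) ^ 4 ≤ (4 * t) ^ 2 := by
        rw [show ((m + 1 : ℕ) : ℝ) ^ 4 = (((m + 1 : ℕ) : ℝ) ^ 2) ^ 2 by ring]; gcongr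
      have a5 : (t : ℝ) ^ 4 ≤ (1000 * ν) ^ 4 := by gcongr
      have a6 : (t : ℝ) ^ 3 ≤ t ^ 4 := pow_le_pow_right₀ ht1 (by norm_num)
      rw [div_pow, div_le_div_iff₀ (by positivity) ht0]
      have a7 : (((m + 1 : ℕ) : ℝ)) ^ 4 * t ≤ (4 * t) ^ 2 * t := by gcongr
      nlinarith
    linarith

lemma exists_split (B : ℕ) : ∃ n₁ : ℕ, ∀ n t : ℕ, n₁ ≤ n → 8 * n ≤ 5 * t →
    ∃ t₁ σ : ℕ, t₁ + 2 * σ = t ∧ 5 * t₁ ≤ 8 * n ∧ n ^ (2 * B) * 2 ^ t₁ ≤ 3 ^ n ∧
      3 ^ n ≤ 4 * (n ^ (2 * B) * 2 ^ t₁) := by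
  refine ⟨2 * (2 * B + 1).factorial, fun n t hn ht => ?_⟩
  have hf := Nat.factorial_pos (2 * B + 1)
  have hn0 : 0 < n := by omega
  have h1 : 2 * n ^ (2 * B) ≤ 3 ^ n := by
    have a1 := Real.pow_div_factorial_le_exp (n : ℝ) (by positivity) (2 * B + 1)
    have a2 : Real.exp n ≤ 3 ^ n := by
      rw [← Real.exp_one_pow]
      gcongr
      linarith [Real.exp_one_lt_d9]
    have a3 : (2 : ℝ) * (2 * B + 1).factorial ≤ n := by exact_mod_cast hn
    have a4 : (0 : ℝ) < (2 * B + 1).factorial := by exact_mod_cast hf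
    rw [div_le_iff₀ a4, pow_succ] at a1
    have a5 : (n : ℝ) ^ (2 * B) * (2 * (2 * B + 1).factorial) ≤ n ^ (2 * B) * n := by gcongr
    have a6 : Real.exp n * (2 * B + 1).factorial ≤ 3 ^ n * (2 * B + 1).factorial := by gcongr
    have a7 : (2 * (n : ℝ) ^ (2 * B)) * (2 * B + 1).factorial
        ≤ 3 ^ n * (2 * B + 1).factorial := by linarith
    exact_mod_cast le_of_mul_le_mul_right a7 a4
  set p := n ^ (2 * B) with hp
  have hp0 : 0 < p := by positivity
  set a := 3 ^ n / p with ha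
  have ha2 : 2 ≤ a := (Nat.le_div_iff_mul_le hp0).2 h1
  set s := Nat.log 2 a with hs
  have hs1 : 2 ^ s ≤ a := Nat.pow_log_le_self 2 (by omega)
  have hs2 : a < 2 ^ (s + 1) := Nat.lt_pow_succ_log_self (by norm_num) a
  have hs3 : 1 ≤ s := Nat.le_log_of_pow_le (by norm_num) (by simpa using ha2)
  have b1 : p * a ≤ 3 ^ n := Nat.mul_div_le _ _
  have b2 : 3 ^ n < p * (a + 1) := Nat.lt_mul_div_succ _ hp0
  have b3 : p * 2 ^ s ≤ 3 ^ n := (Nat.mul_le_mul_left p hs1).trans b1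
  have b4 : 3 ^ n ≤ p * 2 ^ (s + 1) := b2.le.trans (Nat.mul_le_mul_left p hs2)
  have b5 : 5 * s ≤ 8 * n := by
    have c1 : 2 ^ s ≤ 3 ^ n := le_trans (Nat.le_mul_of_pos_left _ hp0) b3
    have c2 : 2 ^ (5 * s) ≤ 2 ^ (8 * n) := by
      calc 2 ^ (5 * s) = (2 ^ s) ^ 5 := by ring
        _ ≤ (3 ^ n) ^ 5 := by gcongr
        _ = 3 ^ (5 * n) := by ring
        _ ≤ _ := three_five_le _
    exact (Nat.pow_le_pow_iff_right (by norm_num)).1 c2
  rcases Nat.mod_two_eq_zero_or_one (t - s) with h | h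
  · refine ⟨s, (t - s) / 2, by omega, b5, b3, ?_⟩
    rw [pow_succ] at b4; nlinarith
  · obtain ⟨s', hs'⟩ : ∃ s', s = s' + 1 := ⟨s - 1, by omega⟩
    refine ⟨s', (t - s') / 2, by omega, by omega, ?_, ?_⟩
    · refine le_trans ?_ b3
      gcongr
      · norm_num
      · omega
    · rw [hs', pow_succ, pow_succ] at b4; nlinarith

lemma Lop_add (t : ℕ) (τ τ' : List Bool → ℝ) (h : ℕ → ℝ) (Y : ℕ) :
    Lop t (fun x => τ x + τ' x) h Y = Lop t τ h Y + Lop t τ' h Y := by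
  simp only [Lop, add_mul, Ex_add]

lemma Lop_sum {ι : Type*} (t : ℕ) (s : Finset ι) (τ : ι → List Bool → ℝ) (h : ℕ → ℝ) (Y : ℕ) :
    Lop t (fun x => ∑ i ∈ s, τ i x) h Y = ∑ i ∈ s, Lop t (τ i) h Y := by
  simp only [Lop, sum_mul, Ex_sum]

lemma osc_add (N n : ℕ) (g g' : ℕ → ℝ) :
    osc N n (fun Y => g Y + g' Y) ≤ osc N n g + osc N n g' := by
  unfold osc
  rw [← avg_add]
  refine avg_mono fun Y => ?_
  rw [Pr_add, Pr_add]
  refine le_trans (le_of_eq ?_) (abs_add_le _ _)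
  congr 1; ring

lemma osc_sum {ι : Type*} (N n : ℕ) (s : Finset ι) (g : ι → ℕ → ℝ) :
    osc N n (fun Y => ∑ i ∈ s, g i Y) ≤ ∑ i ∈ s, osc N n (g i) := by
  unfold osc
  rw [← avg_sum]
  refine avg_mono fun Y => ?_
  rw [Pr_sum, Pr_sum, ← sum_sub_distrib]
  exact abs_sum_le_sum_abs _ _

lemma avg_abs_sub_le (N : ℕ) {g g' : ℕ → ℝ} (hg : ∀ Y, 0 ≤ g Y) (hg' : ∀ Y, 0 ≤ g' Y) :
    avg N (fun Y => |g Y - g' Y|) ≤ avg N g + avg N g' := by
  rw [← avg_add]
  refine avg_mono fun Y => ?_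
  rw [abs_le]; constructor <;> linarith [hg Y, hg' Y]

lemma osc_le {N n : ℕ} (hn : n ≤ N) {g : ℕ → ℝ} (hg : ∀ Y, 0 ≤ g Y) :
    osc N n g ≤ 2 * avg N g := by
  have := avg_abs_sub_le N (Pr_nonneg N n hg) (Pr_nonneg N (n - 1) hg)
  rw [avg_Pr hn, avg_Pr (by omega)] at this
  unfold osc; linarith

/-- Transfer over `t` steps with exactly `j` odd steps. -/
noncomputable def gj (t j : ℕ) (h : ℕ → ℝ) : ℕ → ℝ :=
  Lop t (fun x => if ones x = j then 1 else 0) h

lemma gj_nonneg (t j : ℕ) {h : ℕ → ℝ} (h0 : ∀ Y, 0 ≤ h Y) (Y : ℕ) : 0 ≤ gj t j h Y :=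
  Lop_nonneg (fun x => by split_ifs <;> norm_num) h0 Y

lemma gj_per {m t j N : ℕ} {h : ℕ → ℝ} (hh : Per m h) (hj : m + j ≤ N) : Per N (gj t j h) :=
  Lop_per hh fun x _ hx => by
    have : ones x = j := by by_contra hc; simp [hc] at hx
    omega

lemma avg_gj {m t j N : ℕ} {h : ℕ → ℝ} (hh : Per m h) (hj : m + j ≤ N) :
    avg N (gj t j h) = pb t j * avg m h :=
  avg_Lop hh fun x _ hx => by
    have : ones x = j := by by_contra hc; simp [hc] at hx
    omega

lemma level_bound (A : ℕ) : ∃ C : ℝ, 0 ≤ C ∧ ∃ n₁ : ℕ, ∀ (t m n : ℕ) (h : ℕ → ℝ), 2 ≤ t →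
    m ^ 2 ≤ t → t ≤ n ^ 4 → n₁ ≤ n → 8 * n ≤ 5 * t → (∀ Y, 0 ≤ h Y) → Per m h →
    ∑ j ∈ range (t + 1), osc (t + m) n (gj t j h) ≤ C / t ^ A * avg m h := by
  obtain ⟨n₁, hn₁⟩ := exists_split (4 * A)
  obtain ⟨C, hC0, hC⟩ := V_bound (A + 2 + 4 * A)
  set K : ℝ := (4 * A).factorial / (1 / 80) ^ (4 * A) with hK
  have hK0 : 0 ≤ K := by positivity
  refine ⟨8 * C + 2 * (K + 11), by positivity, n₁, ?_⟩
  intro t m n h ht hm hn hn1 hnt h0 hh
  obtain ⟨t₁, σ, e1, e2, e3, e4⟩ := hn₁ n t hn1 hnt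
  set N := t + m with hN
  set M := avg m h with hM
  have hM0 : 0 ≤ M := avg_nonneg h0
  have hn0 : 1 ≤ n := by
    rcases Nat.eq_zero_or_pos n with rfl | h
    · simp at hn; omega
    · exact h
  have ht0 : (0 : ℝ) < t := by positivity
  have ht1 : (1 : ℝ) ≤ t := by exact_mod_cast (by omega : 1 ≤ t)
  have hn0' : (0 : ℝ) < n := by exact_mod_cast hn0
  have hnt' : (n : ℝ) ≤ t := by exact_mod_cast (by omega : n ≤ t)
  set τb : List Bool → ℝ := fun x => if ones x ≤ 9 * n / 10 ∧ Ft x < 3 ^ n then 0 else 1 with hτb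
  have hτb0 : ∀ x, 0 ≤ τb x := fun x => by simp only [hτb]; split_ifs <;> norm_num
  have hsq : √((3 : ℝ) ^ n / 2 ^ t₁) ≤ 2 * t ^ (4 * A) := by
    rw [Real.sqrt_le_left (by positivity), div_le_iff₀ (by positivity)]
    have a1 : (3 : ℝ) ^ n ≤ 4 * (n ^ (2 * (4 * A)) * 2 ^ t₁) := by exact_mod_cast e4
    calc (3 : ℝ) ^ n ≤ 4 * (n ^ (2 * (4 * A)) * 2 ^ t₁) := a1
      _ ≤ 4 * (t ^ (2 * (4 * A)) * 2 ^ t₁) := by gcongr
      _ = _ := by ring
  have hj : ∀ j ∈ range (t + 1), osc N n (gj t j h)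
      ≤ t * (M * (C / t ^ (A + 2 + 4 * A)) * (2 * t ^ (4 * A)))
        + 2 * (Ex t (fun z => τb (z.take t₁) * if ones z = j then 1 else 0) * M) := by
    intro j hj
    have hj' : j ≤ t := by simpa [Nat.lt_succ_iff] using hj
    have d1 : gj t j h = fun Y => (∑ k ∈ range (9 * n / 10 + 1), Lop t (fun z =>
        (if ones (z.take t₁) = k ∧ Ft (z.take t₁) < 3 ^ n then 1 else 0) *
          if ones z = j then 1 else 0) h Y) +
        Lop t (fun z => τb (z.take t₁) * if ones z = j then 1 else 0) h Y := by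
      funext Y
      rw [← Lop_sum, ← Lop_add, gj]
      congr 1
      funext z
      rw [← sum_mul, ← add_mul]
      have : (∑ k ∈ range (9 * n / 10 + 1), (if ones (z.take t₁) = k ∧ Ft (z.take t₁) < 3 ^ n
          then (1 : ℝ) else 0)) + τb (z.take t₁) = 1 := by
        simp only [hτb]
        by_cases a : Ft (z.take t₁) < 3 ^ n
        · simp only [a, and_true, sum_ite_eq, mem_range, Nat.lt_succ_iff]
          split_ifs <;> norm_num
        · simp [a]
      rw [this, one_mul]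
    rw [d1]
    refine (osc_add _ _ _ _).trans (add_le_add ((osc_sum _ _ _ _).trans ?_) ?_)
    · have d2 : ∀ k ∈ range (9 * n / 10 + 1), osc N n (Lop t (fun z =>
          (if ones (z.take t₁) = k ∧ Ft (z.take t₁) < 3 ^ n then 1 else 0) *
            if ones z = j then 1 else 0) h)
          ≤ M * (C / t ^ (A + 2 + 4 * A)) * (2 * t ^ (4 * A)) := by
        intro k hk
        have hk' : k ≤ 9 * n / 10 := by simpa [Nat.lt_succ_iff] using hk
        have := level_good (t₁ := t₁) (σ := σ) (j := j) (k := k) (show 2 ≤ N by omega) hn0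
          (show n ≤ N by omega) (by omega) hh h0 (by omega) (C / t ^ (A + 2 + 4 * A))
          (by positivity) (fun z hz => hC N t t₁ σ m n z (by omega) hm hn e1 e2 (by omega)
            (by omega))
        rw [e1] at this
        exact this.trans (by gcongr)
      refine (sum_le_sum d2).trans ?_
      rw [sum_const, card_range, nsmul_eq_mul]
      gcongr
      exact_mod_cast (by omega : 9 * n / 10 + 1 ≤ t)
    · refine (osc_le (by omega) (Lop_nonneg (fun z => mul_nonneg (hτb0 _)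
        (by split_ifs <;> norm_num)) h0)).trans (le_of_eq ?_)
      rw [avg_Lop hh]
      intro x hx _
      have := ones_le x; omega
  refine (sum_le_sum hj).trans ?_
  rw [sum_add_distrib, sum_const, card_range, nsmul_eq_mul, ← mul_sum, ← sum_mul, ← Ex_sum]
  have b1 : Ex t (fun z => ∑ j ∈ range (t + 1), τb (z.take t₁) * if ones z = j then 1 else 0)
      ≤ (K + 11) / t ^ A := by
    have c1 : Ex t (fun z => ∑ j ∈ range (t + 1), τb (z.take t₁) * if ones z = j then 1 else 0)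
        = Ex t₁ τb := by
      rw [← e1, Ex_append]
      refine Ex_congr fun x hx => ?_
      rw [← Ex_const (2 * σ) (τb x)]
      refine Ex_congr fun y hy => ?_
      rw [← mul_sum, sum_ite_eq, List.take_left' hx, if_pos, mul_one]
      have := ones_le (x ++ y)
      rw [List.length_append] at this
      exact mem_range.2 (by omega)
    have c2 : Ex t₁ τb ≤ Ex t₁ (fun x => (if 9 * n / 10 < ones x then 1 else 0)
        + if 3 ^ n ≤ Ft x then 1 else 0) := by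
      refine Ex_mono fun x _ => ?_
      simp only [hτb]
      split_ifs <;> first | omega | norm_num
    rw [Ex_add] at c2
    have c3 := hoeff_up t₁ (8 * n / 5) (n / 10) (by
        have : (5 : ℝ) * t₁ ≤ 8 * n := by exact_mod_cast e2
        linarith) (by positivity) (by positivity) (fun e => 9 * n / 10 < e) (fun e he => by
        have : 5 * t₁ + n ≤ 10 * e := by omega
        have : (5 : ℝ) * t₁ + n ≤ 10 * e := by exact_mod_cast this
        linarith)
    have c4 : 2 * ((n : ℝ) / 10) ^ 2 / (8 * n / 5) = 1 / 80 * n := by field_simp; norm_num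
    rw [c4] at c3
    have c5 := exp_neg_le (1 / 80) (by norm_num) (4 * A) n hn0'
    rw [← hK] at c5
    have c6 := Ft_tail t₁ ((n : ℝ) ^ (2 * (4 * A))) (by positivity) (fun x => 3 ^ n ≤ Ft x)
      (fun x _ hx => by exact_mod_cast e3.trans hx)
    rw [mul_comm 2, pow_mul, Real.sqrt_sq (by positivity)] at c6
    have c7 : (t : ℝ) ^ A ≤ n ^ (4 * A) := by
      rw [pow_mul]; gcongr; exact_mod_cast hn
    have c8 : (K + 11) / (n : ℝ) ^ (4 * A) ≤ (K + 11) / t ^ A := by gcongr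
    rw [add_div] at c8
    unfold Bn at c3
    linarith
  have b2 : ((t + 1 : ℕ) : ℝ) * (t * (M * (C / t ^ (A + 2 + 4 * A)) * (2 * t ^ (4 * A))))
      ≤ 8 * C / t ^ A * M := by
    have : ((t + 1 : ℕ) : ℝ) ≤ 2 * t := by push_cast; linarith
    calc _ ≤ (2 * t) * (t * (M * (C / t ^ (A + 2 + 4 * A)) * (2 * t ^ (4 * A)))) := by gcongr
      _ = 4 * C / t ^ A * M := by field_simp; ring
      _ ≤ _ := by gcongr; norm_num
  have b3 := mul_le_mul_of_nonneg_right b1 hM0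
  calc _ ≤ 8 * C / t ^ A * M + 2 * ((K + 11) / t ^ A * M) := by linarith
    _ = _ := by ring

lemma telescope {N a b : ℕ} (hab : a ≤ b) (g : ℕ → ℝ) :
    avg N (fun Y => |Pr N b g Y - Pr N a g Y|) ≤ ∑ n ∈ Ioc a b, osc N n g := by
  induction b, hab using Nat.le_induction with
  | base => simp [avg_const]
  | succ b hab ih =>
    rw [sum_Ioc_succ_top hab]
    have : avg N (fun Y => |Pr N (b + 1) g Y - Pr N a g Y|)
        ≤ osc N (b + 1) g + avg N (fun Y => |Pr N b g Y - Pr N a g Y|) := by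
      unfold osc
      rw [← avg_add]
      refine avg_mono fun Y => ?_
      rw [Nat.add_sub_cancel]
      exact abs_sub_le _ _ _
    linarith

lemma osc_nonneg (N n : ℕ) (g : ℕ → ℝ) : 0 ≤ osc N n g := avg_nonneg fun _ => abs_nonneg _

/-- The mixing estimate. -/
theorem mix (A : ℕ) : ∃ C : ℝ, 0 ≤ C ∧ ∀ (t m m' : ℕ) (h : ℕ → ℝ), 1 ≤ t → m ^ 2 ≤ t →
    t ≤ (m' + 1) ^ 4 → m' ≤ t + m → (∀ Y, 0 ≤ h Y) → Per m h →
    ∑ j ∈ range (t + 1), avg (t + m) (fun Y => |gj t j h Y - Pr (t + m) m' (gj t j h) Y|)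
      ≤ C / t ^ A * avg m h := by
  obtain ⟨C, hC0, n₁, hC⟩ := level_bound (A + 1)
  set K : ℝ := A.factorial / (1 / 200) ^ A with hK
  have hK0 : 0 ≤ K := by positivity
  set t₀ : ℕ := 400 + n₁ ^ 4 with ht₀
  refine ⟨2 * t₀ ^ A + C + 2 * K, by positivity, ?_⟩
  intro t m m' h ht hm hm' hm'' h0 hh
  set N := t + m with hN
  set M := avg m h with hM
  have hM0 : 0 ≤ M := avg_nonneg h0
  have ht0 : (0 : ℝ) < t := by positivity
  have triv : ∀ j ∈ range (t + 1), avg N (fun Y => |gj t j h Y - Pr N m' (gj t j h) Y|)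
      ≤ 2 * M * pb t j := by
    intro j hj
    have hj' : j ≤ t := by simpa [Nat.lt_succ_iff] using hj
    have := avg_abs_sub_le N (gj_nonneg t j h0) (Pr_nonneg N m' (gj_nonneg t j h0))
    rw [avg_Pr hm'', avg_gj hh (by omega)] at this
    linarith
  by_cases hsmall : t ≤ t₀
  · refine (sum_le_sum triv).trans ?_
    rw [← mul_sum, sum_pb t _ (by omega), mul_one]
    gcongr
    rw [le_div_iff₀ (by positivity)]
    have : (t : ℝ) ^ A ≤ t₀ ^ A := by gcongr
    linarith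
  push Not at hsmall
  have hm20 : 20 * m ≤ t := by
    have h400 : 400 ≤ t := by omega
    by_contra hc
    push Not at hc
    have : 20 ≤ m := by omega
    nlinarith
  have hj : ∀ j ∈ range (t + 1), avg N (fun Y => |gj t j h Y - Pr N m' (gj t j h) Y|)
      ≤ ∑ n ∈ Ioc m' (3 * t / 5), osc N n (gj t j h)
        + 2 * M * (pb t j * if 3 * t / 5 < m + j then 1 else 0) := by
    intro j hj
    have p1 : 0 ≤ ∑ n ∈ Ioc m' (3 * t / 5), osc N n (gj t j h) :=
      sum_nonneg fun n _ => osc_nonneg _ _ _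
    by_cases hc : 3 * t / 5 < m + j
    · have := triv j hj
      rw [if_pos hc, mul_one]; linarith
    · rw [if_neg hc, mul_zero, mul_zero, add_zero]
      have hp : Per (3 * t / 5) (gj t j h) := gj_per hh (by omega)
      by_cases hd : m' ≤ 3 * t / 5
      · have := telescope (N := N) hd (gj t j h)
        simpa only [Pr_of_per (show 3 * t / 5 ≤ N by omega) hp] using this
      · simp only [Pr_of_per hm'' (hp.mono (by omega)), sub_self, abs_zero, avg_const]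
        exact p1
  refine (sum_le_sum hj).trans ?_
  rw [sum_add_distrib, sum_comm, ← mul_sum, ← Bn_eq_sum t _ (by omega)]
  have b1 : ∑ n ∈ Ioc m' (3 * t / 5), ∑ j ∈ range (t + 1), osc N n (gj t j h)
      ≤ C / t ^ A * M := by
    have c1 : ∀ n ∈ Ioc m' (3 * t / 5), ∑ j ∈ range (t + 1), osc N n (gj t j h)
        ≤ C / t ^ (A + 1) * M := by
      intro n hn
      rw [mem_Ioc] at hn
      have d1 : t ≤ n ^ 4 := hm'.trans (Nat.pow_le_pow_left (by omega) 4)
      have d2 : n₁ ≤ n := by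
        by_contra hc
        have : n ^ 4 ≤ n₁ ^ 4 := Nat.pow_le_pow_left (by omega) 4
        omega
      exact hC t m n h (by omega) hm d1 d2 (by omega) h0 hh
    refine (sum_le_sum c1).trans ?_
    rw [sum_const, Nat.card_Ioc, nsmul_eq_mul]
    have : ((3 * t / 5 - m' : ℕ) : ℝ) ≤ t := by exact_mod_cast (by omega : 3 * t / 5 - m' ≤ t)
    calc _ ≤ t * (C / t ^ (A + 1) * M) := by gcongr
      _ = _ := by field_simp; ring
  have b2 := hoeff_up t t (t / 20) le_rfl ht0 (by positivity) (fun j => 3 * t / 5 < m + j)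
    (fun e he => by
      have : 11 * t ≤ 20 * e := by omega
      have : (11 : ℝ) * t ≤ 20 * e := by exact_mod_cast this
      linarith)
  have b3 : 2 * ((t : ℝ) / 20) ^ 2 / t = 1 / 200 * t := by field_simp; norm_num
  rw [b3] at b2
  have b4 := exp_neg_le (1 / 200) (by norm_num) A t ht0
  rw [← hK] at b4
  have b5 := mul_le_mul_of_nonneg_left (b2.trans b4) (by positivity : 0 ≤ 2 * M)
  have b6 : 0 ≤ 2 * (t₀ : ℝ) ^ A / t ^ A * M := by positivity
  calc _ ≤ 2 * (t₀ : ℝ) ^ A / t ^ A * M + C / t ^ A * M + 2 * M * (K / t ^ A) := by linarith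
    _ = _ := by ring

end Pool.Agent.P.MP_2b866c_nt
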