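import Pool.Agent.P.MP_2b866c_nt.Block

/-!
Almost all orbits descend to a bounded scale using the expected number of odd steps.
-/

set_option autoImplicit false

open Finset

namespace Pool.Agent.P.MP_2b866c_nt

/-- Successful descent into `[3, x₀]` with the expected number of odd steps. -/
def Succ (ε : ℝ) (x₀ N : ℕ) : Prop :=
  ∃ k, 3 ≤ T^[k] N ∧ T^[k] N ≤ x₀ ∧
    |Real.log (4 / 3) * J k N - Real.log N| ≤ ε * Real.log N + Real.log x₀

open Classical in
/-- Indicator of failure. -/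
noncomputable def fl (ε : ℝ) (x₀ N : ℕ) : ℝ := if Succ ε x₀ N then 0 else 1

lemma fl_nonneg (ε : ℝ) (x₀ N : ℕ) : 0 ≤ fl ε x₀ N := by unfold fl; split_ifs <;> norm_num
lemma fl_le_one (ε : ℝ) (x₀ N : ℕ) : fl ε x₀ N ≤ 1 := by unfold fl; split_ifs <;> norm_num

lemma succ_step {ε : ℝ} (hε : 0 < ε) (hε1 : ε ≤ 1) {x₀ t N : ℕ} (ht : 70 ≤ ε * t)
    (hN : 3 ^ t ≤ N) (hj : |(J t N : ℝ) - t / 2| ≤ ε / 100 * t) (h : Succ ε x₀ (T^[t] N)) :
    Succ ε x₀ N := by
  obtain ⟨k, h1, h2, h3⟩ := h
  refine ⟨k + t, by rwa [Function.iterate_add_apply], by rwa [Function.iterate_add_apply], ?_⟩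
  rw [J_add]
  set Y := T^[t] N with hY
  have hN1 : 1 ≤ N := le_trans (Nat.one_le_pow _ _ (by norm_num)) hN
  have hN0 : (0 : ℝ) < N := by exact_mod_cast hN1
  have hY0 : (0 : ℝ) < Y := by exact_mod_cast iter_pos t hN1
  have f1 : (2 : ℝ) ^ t * Y = 3 ^ J t N * N + (Ft (bits t N) : ℕ) := by
    exact_mod_cast iter_formula t N
  have f2 : ((Ft (bits t N) : ℕ) : ℝ) ≤ 3 ^ J t N * N := by
    have : Ft (bits t N) ≤ 3 ^ J t N * N :=
      (Ft_bits_le t N).trans (hN.trans (Nat.le_mul_of_pos_left _ (by positivity)))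
    exact_mod_cast this
  have f3 : Real.log (3 ^ J t N * N) ≤ Real.log (2 ^ t * Y) :=
    Real.log_le_log (by positivity) (by
      rw [f1]; linarith [Nat.cast_nonneg (α := ℝ) (Ft (bits t N))])
  have f4 : Real.log (2 ^ t * Y) ≤ Real.log (2 * (3 ^ J t N * N)) :=
    Real.log_le_log (by positivity) (by rw [f1]; linarith)
  rw [Real.log_mul (by positivity) (by positivity), Real.log_mul (by positivity) (by positivity),
    Real.log_pow, Real.log_pow] at f3
  rw [Real.log_mul (by positivity) (by positivity), Real.log_mul (by positivity) (by positivity),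
    Real.log_mul (by positivity) (by positivity), Real.log_pow, Real.log_pow] at f4
  have l1 := Real.log_two_gt_d9
  have l2 := Real.log_two_lt_d9
  have l3 := lam_ge
  have l4 := lam_le
  rw [log_three_eq] at f3 f4
  set a := Real.log 2
  set b := Real.log (4 / 3)
  set η := (J t N : ℝ) - t / 2 with hη
  have e1 : (J t N : ℝ) = η + t / 2 := by rw [hη]; ring
  rw [abs_le] at hj h3 ⊢
  push_cast
  rw [e1] at f3 f4 ⊢
  have ht0 : (0 : ℝ) ≤ t := Nat.cast_nonneg _
  have g1 : η * a ≤ ε / 100 * t * 0.7 := by nlinarith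
  have g2 : -(ε / 100 * t * 0.7) ≤ η * a := by nlinarith
  have g3 : η * b ≤ ε / 100 * t * (1 / 3) := by nlinarith
  have g4 : -(ε / 100 * t * (1 / 3)) ≤ η * b := by nlinarith
  have g5 : t * (1 / 4) ≤ t * b := by gcongr
  have g6 : ε * t ≤ t := by nlinarith
  have g7 : 0.1 * t - 0.7 ≤ Real.log N - Real.log Y := by nlinarith
  have g8 : ε * (0.1 * t - 0.7) ≤ ε * (Real.log N - Real.log Y) := by gcongr
  constructor <;> nlinarith

lemma gap_le {A : ℕ} (hA : 1 ≤ A) {K L l : ℝ} (hK : 0 ≤ K) (hl : 0 < l) (hlL : l ≤ 99 / 100 * L) :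
    K / L ^ A + K / (99 * L ^ A) ≤ K / l ^ A := by
  have hL : 0 < L := by linarith
  have h1 : l ^ A ≤ 99 / 100 * L ^ A := by
    calc l ^ A ≤ (99 / 100 * L) ^ A := by gcongr
      _ = (99 / 100) ^ A * L ^ A := mul_pow _ _ _
      _ ≤ (99 / 100) ^ 1 * L ^ A := by
          gcongr ?_ * _
          exact pow_le_pow_of_le_one (by norm_num) (by norm_num) hA
      _ = _ := by ring
  calc K / L ^ A + K / (99 * L ^ A) = K / (99 / 100 * L ^ A) := by field_simp; norm_num
    _ ≤ _ := by gcongr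

lemma quarter_root {t : ℕ} : t ≤ (Nat.sqrt (Nat.sqrt t) + 1) ^ 4 := by
  have h1 := Nat.lt_succ_sqrt t
  have h2 := Nat.lt_succ_sqrt (Nat.sqrt t)
  simp only [Nat.succ_eq_add_one] at h1 h2
  have h3 : Nat.sqrt t + 1 ≤ (Nat.sqrt (Nat.sqrt t) + 1) * (Nat.sqrt (Nat.sqrt t) + 1) := h2
  calc t ≤ (Nat.sqrt t + 1) * (Nat.sqrt t + 1) := h1.le
    _ ≤ _ := Nat.mul_le_mul h3 h3
    _ = _ := by ring

theorem descent {ε : ℝ} (hε : 0 < ε) (hε1 : ε ≤ 1) (A : ℕ) (hA : 1 ≤ A) :
    ∃ C : ℝ, 0 ≤ C ∧ ∃ X : ℕ, ∀ x₀ : ℕ, X ≤ x₀ → ∀ x : ℝ, x₀ ≤ x →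
      Sm (fl ε x₀) (fun _ => 1) x ≤ C / Real.log x₀ ^ A * x := by
  obtain ⟨C₁, hC₁0, hC₁⟩ := mix A
  set K₂ : ℝ := A.factorial / (2 * (ε / 100) ^ 2) ^ A with hK₂
  set K₃ : ℝ := A.factorial / (7 / 10) ^ A with hK₃
  have hK₂0 : 0 ≤ K₂ := by positivity
  have hK₃0 : 0 ≤ K₃ := by positivity
  set C₃ : ℝ := 6 * K₃ + (2 * C₁ + 4 * K₂) * 20 ^ A with hC₃
  have hC₃0 : 0 ≤ C₃ := by positivity
  set K := 99 * C₃ with hK
  have hK0 : 0 ≤ K := by positivity
  refine ⟨2 * K * (10 / 9) ^ A, by positivity, ⌈Real.exp (1000 / ε)⌉₊, fun x₀ hx₀ => ?_⟩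
  have hL0 : 1000 / ε ≤ Real.log x₀ := by
    rw [Real.le_log_iff_exp_le]
    · exact (Nat.le_ceil _).trans (by exact_mod_cast hx₀)
    · have : 0 < ⌈Real.exp (1000 / ε)⌉₊ := Nat.ceil_pos.2 (Real.exp_pos _)
      exact_mod_cast (by omega : 0 < x₀)
  have hL1 : 1000 ≤ ε * Real.log x₀ := by rwa [div_le_iff₀' hε] at hL0
  have hL2 : 1000 ≤ Real.log x₀ := by nlinarith
  set L₀ := Real.log x₀ with hL₀
  set δ := 2 * K / (9 / 10 * L₀) ^ A with hδ
  have main : ∀ n : ℕ, ∀ x : ℝ, 0 < x → 9 / 10 * L₀ ≤ Real.log x → Real.log x ≤ n →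
      ∀ (m : ℕ) (h : ℕ → ℝ), (m : ℝ) ^ 2 ≤ Real.log x / 10 → (∀ Y, 0 ≤ h Y) → Per m h →
      Sm (fl ε x₀) h x ≤ (δ - K / Real.log x ^ A) * x * avg m h := by
    intro n
    induction n with
    | zero => intro x _ h1 h2; simp only [Nat.cast_zero] at h2; linarith
    | succ n ih =>
    intro x hx hL hLn m h hm h0 hh
    set L := Real.log x with hLdef
    set M := avg m h with hM
    have hM0 : 0 ≤ M := avg_nonneg h0
    have hxL : x = Real.exp L := (Real.exp_log hx).symm
    have hL9 : 900 ≤ L := by linarith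
    set t := ⌊L / 10⌋₊ with ht
    have ht1 : (t : ℝ) ≤ L / 10 := Nat.floor_le (by linarith)
    have ht2 : L / 10 < t + 1 := Nat.lt_floor_add_one _
    have hmt : m ^ 2 ≤ t := Nat.le_floor (by exact_mod_cast hm)
    have hmt' : m ≤ t := le_trans (Nat.le_self_pow (by norm_num) m) hmt
    set E : ℝ := 2 ^ t * (3 ^ t + 1 + 3 ^ (t + m)) with hE
    have hE1 : E ≤ 3 * Real.exp (3 / 10 * L) := err_le ht1 hmt'
    have hE2 : E ≤ 3 * (K₃ / L ^ A) * x := by
      have a1 := exp_neg_le (7 / 10) (by norm_num) A L (by linarith)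
      rw [← hK₃] at a1
      have a2 : Real.exp (3 / 10 * L) = Real.exp (-(7 / 10 * L)) * x := by
        rw [hxL, ← Real.exp_add]; congr 1; ring
      rw [a2] at hE1
      linarith [mul_le_mul_of_nonneg_right a1 hx.le]
    have hE3 : E ≤ x := by
      have a1 : (3 : ℝ) ≤ Real.exp (7 / 10 * L) := by
        linarith [Real.add_one_le_exp (7 / 10 * L)]
      have a2 : x = Real.exp (7 / 10 * L) * Real.exp (3 / 10 * L) := by
        rw [hxL, ← Real.exp_add]; congr 1; ring
      linarith [mul_le_mul_of_nonneg_right a1 (Real.exp_pos (3 / 10 * L)).le]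
    have p2 : (1 : ℝ) ≤ 2 ^ t := one_le_pow₀ (by norm_num)
    have p3 : (3 : ℝ) ^ m ≤ 3 ^ t := pow_le_pow_right₀ (by norm_num) hmt'
    have p4 : (3 : ℝ) ^ m ≤ 3 ^ (t + m) := pow_le_pow_right₀ (by norm_num) (by omega)
    have hE4 : (3 : ℝ) ^ t + 1 + 3 ^ m ≤ E := by
      have : (3 : ℝ) ^ t + 1 + 3 ^ (t + m) ≤ E := le_mul_of_one_le_left (by positivity) p2
      linarith
    have hδL : ∀ l : ℝ, 9 / 10 * L₀ ≤ l → 2 * (K / l ^ A) ≤ δ := by
      intro l hl
      have : K / l ^ A ≤ K / (9 / 10 * L₀) ^ A := by gcongr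
      have e : δ = 2 * (K / (9 / 10 * L₀) ^ A) := by rw [hδ]; ring
      linarith
    have hK3 : K₃ / L ^ A ≤ K / (99 * 6) / L ^ A := by
      gcongr
      have : 0 ≤ (2 * C₁ + 4 * K₂) * 20 ^ A := by positivity
      rw [hK, hC₃]; linarith
    have hKL : 0 ≤ K / L ^ A := by positivity
    by_cases hbase : x ≤ x₀
    · have b1 : Sm (fl ε x₀) h x ≤ ∑ N ∈ Icc 1 2, h N := by
        unfold Sm
        have c1 : ∀ N ∈ Icc 1 ⌊x⌋₊, h N * fl ε x₀ N ≤ if N ≤ 2 then h N else 0 := by
          intro N hN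
          split_ifs with h2
          · exact mul_le_of_le_one_right (h0 N) (fl_le_one _ _ _)
          · have hNx : N ≤ x₀ := (mem_Icc.1 hN).2.trans (Nat.floor_le_of_le hbase)
            have : Succ ε x₀ N := by
              refine ⟨0, by simpa using (by omega : 3 ≤ N), by simpa using hNx, ?_⟩
              have d1 : (1 : ℝ) ≤ N := by exact_mod_cast (by omega : 1 ≤ N)
              have d2 : 0 ≤ Real.log N := Real.log_nonneg d1
              have d3 : Real.log N ≤ L₀ := Real.log_le_log (by linarith) (by exact_mod_cast hNx)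
              simp only [J, bits, ones_nil, Nat.cast_zero, mul_zero, zero_sub, abs_neg,
                abs_of_nonneg d2]
              nlinarith
            simp [fl, this]
        refine (sum_le_sum c1).trans ?_
        rw [← sum_filter]
        refine sum_le_sum_of_subset_of_nonneg ?_ fun i _ _ => h0 i
        intro N hN
        simp only [mem_filter, mem_Icc] at hN ⊢
        omega
      have b2 : ∑ N ∈ Icc 1 2, h N ≤ E * M := by
        have : ∑ N ∈ Icc 1 2, h N = h 1 + h 2 := by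
          rw [show Icc 1 2 = {1, 2} by rfl, sum_pair (by norm_num)]
        have c1 := le_avg hh h0 1
        have c2 := le_avg hh h0 2
        have c3 : 2 * 3 ^ m * M ≤ E * M := by gcongr; linarith
        linarith
      have b3 : E * M ≤ (δ - K / L ^ A) * x * M := by
        gcongr
        have c1 := hδL L hL
        have c2 : K / (99 * 6) / L ^ A = K / L ^ A / 594 := by ring
        have c3 : 3 * (K₃ / L ^ A) ≤ δ - K / L ^ A := by linarith
        exact hE2.trans (by gcongr)
      linarith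
    push Not at hbase
    have hLL : L₀ ≤ L := Real.log_le_log (by
      rw [← Real.exp_log (x := x₀) (by
        rcases Nat.eq_zero_or_pos x₀ with h | h
        · rw [hL₀, h] at hL2; simp at hL2; linarith
        · exact_mod_cast h)]; exact Real.exp_pos _) hbase.le
    have hεt : 70 ≤ ε * t := by
      linarith [mul_le_mul_of_nonneg_left ht2.le hε.le, mul_le_mul_of_nonneg_left hLL hε.le]
    have ht3 : L / 20 ≤ t := by linarith
    have ht0 : (0 : ℝ) < t := by linarith
    have ht4 : 1 ≤ t := by exact_mod_cast (by linarith : (1 : ℝ) ≤ t)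
    set m' := Nat.sqrt (Nat.sqrt t) with hm'
    have hm'1 : m' ≤ t + m := by
      have := Nat.sqrt_le_self (Nat.sqrt t)
      have := Nat.sqrt_le_self t
      omega
    have hm'2 : 2 * m' ^ 2 ≤ t := by
      have a1 := Nat.sqrt_le' (Nat.sqrt t)
      have a2 := Nat.sqrt_le' t
      have a3 : 4 ≤ t := by exact_mod_cast (by linarith : (4 : ℝ) ≤ t)
      have a4 : 2 ≤ Nat.sqrt t := Nat.le_sqrt'.2 (by omega)
      calc 2 * m' ^ 2 ≤ Nat.sqrt t * Nat.sqrt t := Nat.mul_le_mul a4 a1
        _ ≤ t := by rw [← sq]; exact a2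
    have hmix := hC₁ t m m' h ht4 hmt quarter_root hm'1 h0 hh
    set typ : ℕ → Prop := fun j => |(j : ℝ) - t / 2| ≤ ε / 100 * t with htyp
    set Φ : ℕ → ℕ → ℝ := fun j Y => if typ j then fl ε x₀ Y else 1 with hΦ
    have hΦ0 : ∀ j Y, 0 ≤ Φ j Y := fun j Y => by
      simp only [hΦ]; split_ifs; exacts [fl_nonneg _ _ _, zero_le_one]
    have hΦ1 : ∀ j Y, Φ j Y ≤ 1 := fun j Y => by
      simp only [hΦ]; split_ifs; exacts [fl_le_one _ _ _, le_rfl]
    have s1 : Sm (fl ε x₀) h x ≤ E * M + ∑ j ∈ range (t + 1), ∑ N ∈ Icc 1 ⌊x⌋₊,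
        if J t N = j then h N * Φ j (T^[t] N) else 0 := by
      rw [← sum_split_J t _ (fun j N => h N * Φ j (T^[t] N))]
      have c1 : ∀ N ∈ Icc 1 ⌊x⌋₊, h N * fl ε x₀ N
          ≤ (if N < 3 ^ t then h N else 0) + h N * Φ (J t N) (T^[t] N) := by
        intro N _
        have d0 := mul_nonneg (h0 N) (hΦ0 (J t N) (T^[t] N))
        split_ifs with h3
        · linarith [mul_le_of_le_one_right (h0 N) (fl_le_one ε x₀ N)]
        · rw [zero_add]
          refine mul_le_mul_of_nonneg_left ?_ (h0 N)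
          simp only [hΦ]
          split_ifs with h4
          · unfold fl
            by_cases h5 : Succ ε x₀ (T^[t] N)
            · rw [if_pos (succ_step hε hε1 hεt (by omega) h4 h5), if_pos h5]
            · rw [if_neg h5]; split_ifs <;> norm_num
          · exact fl_le_one _ _ _
      refine (sum_le_sum c1).trans ?_
      rw [sum_add_distrib, ← sum_filter]
      gcongr
      refine (sum_le_of_interval hh h0 _ 0 (3 ^ t) (by positivity) (fun Y hY => ?_)).trans
        (by gcongr)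
      rw [zero_add]
      exact ⟨Nat.cast_nonneg _, by exact_mod_cast (mem_filter.1 hY).2.le⟩
    set l : ℝ := 99 / 100 * L with hl
    have hδl : 0 ≤ δ - K / l ^ A := by
      have := hδL l (by linarith)
      have : 0 ≤ K / l ^ A := by positivity
      linarith
    have s2 : ∀ j ∈ range (t + 1), (∑ N ∈ Icc 1 ⌊x⌋₊,
        if J t N = j then h N * Φ j (T^[t] N) else 0)
        ≤ E * M * pb t j + (δ - K / l ^ A) * x * M * pb t j
          + 2 * x * avg (t + m) (fun Y => |gj t j h Y - Pr (t + m) m' (gj t j h) Y|)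
          + 2 * x * M * (pb t j * if ¬ typ j then 1 else 0) := by
      intro j hj
      have hj' : j ≤ t := by simpa [Nat.lt_succ_iff] using hj
      have c1 := (abs_le.1 (block hj' hh h0 (hΦ0 j) (hΦ1 j) x hx.le)).2
      set y : ℝ := 3 ^ j * x / 2 ^ t with hy
      have hy0 : 0 < y := by positivity
      have c2 : (2 : ℝ) ^ t / 3 ^ j * y = x := by rw [hy]; field_simp
      have c3 : (2 : ℝ) ^ t / 3 ^ j * (y + 1 + 3 ^ (t + m)) ≤ 2 * x := by
        have d1 : (2 : ℝ) ^ t / 3 ^ j ≤ 2 ^ t :=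
          div_le_self (by positivity) (one_le_pow₀ (by norm_num))
        have d2 : (2 : ℝ) ^ t / 3 ^ j * (1 + 3 ^ (t + m)) ≤ E := by
          rw [hE]; gcongr; linarith [show (0 : ℝ) ≤ 3 ^ t by positivity]
        rw [add_assoc, mul_add, c2]; linarith
      have hp := pb_nonneg t j
      have hg := gj_per (t := t) hh (show m + j ≤ t + m by omega)
      have ha := avg_gj (t := t) hh (show m + j ≤ t + m by omega)
      set εj := avg (t + m) (fun Y => |gj t j h Y - Pr (t + m) m' (gj t j h) Y|) with hεj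
      have hεj0 : 0 ≤ εj := avg_nonneg fun _ => abs_nonneg _
      have q1 : 0 ≤ (δ - K / l ^ A) * x * M * pb t j := by positivity
      have q2 : 0 ≤ 2 * x * εj := by positivity
      have q3 : (0 : ℝ) < 2 ^ t / 3 ^ j := by positivity
      by_cases h4 : typ j
      · have e1 : Φ j = fl ε x₀ := by funext Y; simp [hΦ, h4]
        rw [e1] at c1 ⊢
        have d1 := (abs_le.1 (Sm_sub_le hg ((Pr_per (t + m) m' (gj t j h)).mono hm'1)
          (fl_nonneg ε x₀) (fl_le_one ε x₀) y hy0.le)).2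
        have ly := log_scale j t hx
        rw [← hy, ← hLdef, log_three_eq] at ly
        have l1 := Real.log_two_gt_d9
        have l2 := Real.log_two_lt_d9
        have l3 := lam_ge
        have l4 := lam_le
        have hj0 : (0 : ℝ) ≤ j := Nat.cast_nonneg _
        have h5 := (abs_le.1 h4).2
        have h6 : (j : ℝ) ≤ 51 / 100 * t := by
          linarith [mul_le_mul_of_nonneg_right hε1 ht0.le]
        have ly1 : 93 / 100 * L ≤ Real.log y := by
          linarith [mul_nonneg hj0 (show 0 ≤ 2 * Real.log 2 - Real.log (4 / 3) by linarith),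
            mul_le_mul_of_nonneg_left l2.le ht0.le]
        have ly2 : Real.log y ≤ l := by
          have u1 : (j : ℝ) * (2 * Real.log 2 - Real.log (4 / 3))
              ≤ 51 / 100 * t * (2 * Real.log 2 - Real.log (4 / 3)) := by
            gcongr; linarith
          linarith [mul_le_mul_of_nonneg_left l2.le ht0.le, mul_le_mul_of_nonneg_left l3 ht0.le]
        have d2 := ih y hy0 (by linarith) (by push_cast at hLn; linarith) m'
          (Pr (t + m) m' (gj t j h)) (by
            have : (2 : ℝ) * m' ^ 2 ≤ t := by exact_mod_cast hm'2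
            linarith) (Pr_nonneg _ _ (gj_nonneg t j h0)) (Pr_per _ _ _)
        rw [← avg_eq (Pr_per _ _ _) hm'1, avg_Pr hm'1, ha] at d2
        have d3 : δ - K / Real.log y ^ A ≤ δ - K / l ^ A := by
          have : 0 < Real.log y := by linarith
          gcongr
        have d4 : (δ - K / Real.log y ^ A) * y * (pb t j * M)
            ≤ (δ - K / l ^ A) * y * (pb t j * M) := by gcongr
        have d5 : Sm (fl ε x₀) (gj t j h) y
            ≤ (δ - K / l ^ A) * y * (pb t j * M) + (y + 1 + 3 ^ (t + m)) * εj := by linarith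
        have d6 := mul_le_mul_of_nonneg_left d5 q3.le
        have d7 : (2 : ℝ) ^ t / 3 ^ j * ((δ - K / l ^ A) * y * (pb t j * M)
            + (y + 1 + 3 ^ (t + m)) * εj) = (δ - K / l ^ A) * x * M * pb t j
            + 2 ^ t / 3 ^ j * (y + 1 + 3 ^ (t + m)) * εj := by rw [← c2]; ring
        have d8 := mul_le_mul_of_nonneg_right c3 hεj0
        simp only [h4, not_true, if_false, mul_zero, add_zero]
        linarith
      · have d1 := Sm_le hg (gj_nonneg t j h0) (hΦ1 j) y hy0.le
        rw [ha] at d1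
        have d6 := mul_le_mul_of_nonneg_left d1 q3.le
        have d8 := mul_le_mul_of_nonneg_right c3 (mul_nonneg hp hM0)
        simp only [h4, not_false_eq_true, if_true, mul_one]
        linarith
    have s3 := sum_le_sum s2
    rw [sum_add_distrib, sum_add_distrib, sum_add_distrib, ← mul_sum, ← mul_sum, ← mul_sum,
      ← mul_sum, sum_pb t _ (by omega), ← Bn_eq_sum t _ (by omega)] at s3
    have s4 : Bn t (fun j => if ¬ typ j then 1 else 0) ≤ 2 * (K₂ / t ^ A) := by
      have a1 := hoeff_up t t (ε / 100 * t) le_rfl ht0 (by positivity)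
        (fun j => (t : ℝ) / 2 + ε / 100 * t ≤ j) (fun _ h => h)
      have a2 := hoeff_down t t (ε / 100 * t) le_rfl ht0 (by positivity)
        (fun j => (j : ℝ) ≤ (t : ℝ) / 2 - ε / 100 * t) (fun _ h => h)
      have a3 : 2 * (ε / 100 * t) ^ 2 / t = 2 * (ε / 100) ^ 2 * t := by field_simp
      rw [a3] at a1 a2
      have a4 := exp_neg_le (2 * (ε / 100) ^ 2) (by positivity) A t ht0
      rw [← hK₂] at a4
      have a5 : Bn t (fun j => if ¬ typ j then 1 else 0) ≤ Bn t (fun j =>
          (if (t : ℝ) / 2 + ε / 100 * t ≤ j then 1 else 0)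
            + if (j : ℝ) ≤ (t : ℝ) / 2 - ε / 100 * t then 1 else 0) := by
        refine Bn_mono fun e _ => ?_
        by_cases b1 : (t : ℝ) / 2 + ε / 100 * t ≤ e
        · rw [if_pos b1]; split_ifs <;> norm_num
        · by_cases b2 : (e : ℝ) ≤ (t : ℝ) / 2 - ε / 100 * t
          · rw [if_pos b2]; split_ifs <;> norm_num
          · have : typ e := by
              simp only [htyp]; rw [abs_le]; constructor <;> linarith
            simp [this, b1, b2]
      rw [Bn_add] at a5
      linarith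
    have s5 : ∀ c : ℝ, 0 ≤ c → c / (t : ℝ) ^ A ≤ c * 20 ^ A / L ^ A := by
      intro c hc
      calc c / (t : ℝ) ^ A ≤ c / (L / 20) ^ A := by gcongr
        _ = _ := by rw [div_pow]; field_simp
    have s6 := s5 C₁ hC₁0
    have s7 := s5 K₂ hK₂0
    have s8 := gap_le hA hK0 (show 0 < l by linarith) hl.le
    have s9 : K / (99 * L ^ A) = 6 * (K₃ / L ^ A) + 2 * (C₁ * 20 ^ A / L ^ A)
        + 4 * (K₂ * 20 ^ A / L ^ A) := by rw [hK, hC₃]; field_simp; ring
    have xM : 0 ≤ x * M := by positivity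
    have u1 := mul_le_mul_of_nonneg_right hE2 hM0
    have u2 := mul_le_mul_of_nonneg_left (hmix.trans (mul_le_mul_of_nonneg_right s6 hM0))
      (by positivity : 0 ≤ 2 * x)
    have u3 := mul_le_mul_of_nonneg_left (s4.trans (mul_le_mul_of_nonneg_left s7 zero_le_two))
      (by positivity : 0 ≤ 2 * x * M)
    have u4 := mul_le_mul_of_nonneg_right s8 xM
    rw [s9] at u4
    linarith [mul_nonneg (div_nonneg hK₃0 (pow_nonneg (show 0 ≤ L by linarith) A)) xM]
  intro x hx
  have hx₀0 : (0 : ℝ) < x₀ := by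
    rcases Nat.eq_zero_or_pos x₀ with h | h
    · rw [hL₀, h] at hL2; simp at hL2; linarith
    · exact_mod_cast h
  have hx0 : 0 < x := by linarith
  have hLL : L₀ ≤ Real.log x := Real.log_le_log hx₀0 hx
  have := main ⌈Real.log x⌉₊ x hx0 (by linarith) (Nat.le_ceil _) 0 (fun _ => 1)
    (by simp; linarith) (fun _ => zero_le_one) (per_const 1)
  rw [avg_const, mul_one] at this
  refine this.trans ?_
  gcongr
  have a1 : 0 ≤ K / Real.log x ^ A := by
    have : 0 < Real.log x := by linarith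
    positivity
  have a2 : δ = 2 * K * (10 / 9) ^ A / L₀ ^ A := by
    rw [hδ, mul_pow, div_pow, div_pow]; field_simp
  linarith

end Pool.Agent.P.MP_2b866c_nt
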