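import Pool.Agent.P.MP_2b866c_nt.Dyn

/-!
Functions periodic modulo powers of three, their averages, duality for `Wt`.
-/

set_option autoImplicit false

open Finset

namespace Pool.Agent.P.MP_2b866c_nt

section Periodic
variable {E : Type*}

lemma per_mul {q : ℕ} {g : ℕ → E} (h : ∀ Y, g (Y + q) = g Y) (k Y : ℕ) :
    g (Y + k * q) = g Y := by
  induction k with
  | zero => simp
  | succ k ih => rw [add_mul, one_mul, ← add_assoc, h, ih]

lemma per_modEq {q : ℕ} {g : ℕ → E} (h : ∀ Y, g (Y + q) = g Y) {Y Z : ℕ}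
    (hYZ : Y ≡ Z [MOD q]) : g Y = g Z := by
  have e : ∀ U, g U = g (U % q) := fun U => by
    conv_lhs => rw [← Nat.mod_add_div' U q]
    exact per_mul h _ _
  rw [e Y, e Z, hYZ]

variable [AddCommGroup E]

lemma sum_per_shift {q : ℕ} {g : ℕ → E} (h : ∀ Y, g (Y + q) = g Y) (c : ℕ) :
    ∑ i ∈ range q, g (i + c) = ∑ i ∈ range q, g i := by
  induction c with
  | zero => simp
  | succ c ih =>
    rw [← ih]
    have h1 := sum_range_succ (fun i => g (i + c)) q
    have h2 := sum_range_succ' (fun i => g (i + c)) q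
    rw [h1] at h2
    simp only [zero_add] at h2
    rw [add_comm q c, h c] at h2
    have := add_right_cancel h2
    rw [this]
    refine sum_congr rfl fun i _ => ?_
    congr 1; ring

lemma sum_per_mul {q : ℕ} {g : ℕ → E} (h : ∀ Y, g (Y + q) = g Y) (k : ℕ) :
    ∑ i ∈ range (k * q), g i = k • ∑ i ∈ range q, g i := by
  induction k with
  | zero => simp
  | succ k ih =>
    rw [add_mul, one_mul, sum_range_add, ih, succ_nsmul]
    congr 1
    refine sum_congr rfl fun i _ => ?_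
    rw [add_comm]; exact per_mul h k i

lemma sum_per_two {q : ℕ} (hq : q % 2 = 1) {g : ℕ → E} (h : ∀ Y, g (Y + q) = g Y) (c : ℕ) :
    ∑ i ∈ range q, g (2 * i + c) = ∑ i ∈ range q, g i := by
  rw [← sum_per_shift h c]
  have hq0 : 0 < q := by omega
  refine sum_bij (fun i _ => (2 * i) % q) ?_ ?_ ?_ ?_
  · intro i _; exact mem_range.2 (Nat.mod_lt _ hq0)
  · intro i hi j hj hij
    have hc : Nat.Coprime q 2 := by
      rw [Nat.coprime_two_right, Nat.odd_iff]; exact hq
    have := Nat.ModEq.cancel_left_of_coprime hc (show 2 * i ≡ 2 * j [MOD q] from hij)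
    exact Nat.ModEq.eq_of_lt_of_lt this (mem_range.1 hi) (mem_range.1 hj)
  · intro b hb
    have hb' := mem_range.1 hb
    rcases Nat.mod_two_eq_zero_or_one b with h0 | h0
    · exact ⟨b / 2, mem_range.2 (by omega), by
        rw [show 2 * (b / 2) = b by omega]; exact Nat.mod_eq_of_lt hb'⟩
    · exact ⟨(b + q) / 2, mem_range.2 (by omega), by
        rw [show 2 * ((b + q) / 2) = b + q by omega, Nat.add_mod_right]
        exact Nat.mod_eq_of_lt hb'⟩
  · intro i _
    exact per_modEq h ((Nat.mod_modEq _ _).symm.add_right c)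

lemma sum_range_three (q : ℕ) (g : ℕ → E) :
    ∑ Y ∈ range (3 * q), (if Y % 3 = 2 then g Y else 0) = ∑ i ∈ range q, g (3 * i + 2) := by
  induction q with
  | zero => simp
  | succ q ih =>
    rw [show 3 * (q + 1) = 3 * q + 1 + 1 + 1 by ring, sum_range_succ, sum_range_succ,
      sum_range_succ, ih, sum_range_succ, if_neg (by omega), if_neg (by omega),
      if_pos (by omega)]
    simp

end Periodic

/-- Periodic modulo `3^m`. -/
def Per {E : Type*} (m : ℕ) (g : ℕ → E) : Prop := ∀ Y, g (Y + 3 ^ m) = g Y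

lemma Per.mono {E : Type*} {m n : ℕ} {g : ℕ → E} (h : Per m g) (hmn : m ≤ n) : Per n g := by
  intro Y
  obtain ⟨k, rfl⟩ := Nat.exists_eq_add_of_le hmn
  rw [pow_add, mul_comm]; exact per_mul h _ _

lemma Per.modEq {E : Type*} {m : ℕ} {g : ℕ → E} (h : Per m g) {Y Z : ℕ}
    (hYZ : Y ≡ Z [MOD 3 ^ m]) : g Y = g Z := per_modEq h hYZ

/-- Average over residues modulo `3^N`. -/
noncomputable def avg (N : ℕ) (g : ℕ → ℝ) : ℝ := (∑ Y ∈ range (3 ^ N), g Y) / 3 ^ N

lemma avg_eq {m N : ℕ} {g : ℕ → ℝ} (h : Per m g) (hmN : m ≤ N) : avg N g = avg m g := by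
  obtain ⟨k, rfl⟩ := Nat.exists_eq_add_of_le hmN
  unfold avg
  rw [pow_add, mul_comm, sum_per_mul h, nsmul_eq_mul, pow_add]
  push_cast; field_simp

lemma avg_mono {N : ℕ} {g g' : ℕ → ℝ} (h : ∀ Y, g Y ≤ g' Y) : avg N g ≤ avg N g' := by
  unfold avg; gcongr; exact h _

lemma avg_congr {N : ℕ} {g g' : ℕ → ℝ} (h : ∀ Y, g Y = g' Y) : avg N g = avg N g' := by
  rw [funext h]

lemma avg_const (N : ℕ) (c : ℝ) : avg N (fun _ => c) = c := by
  simp [avg]

lemma avg_nonneg {N : ℕ} {g : ℕ → ℝ} (h : ∀ Y, 0 ≤ g Y) : 0 ≤ avg N g := by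
  have := avg_mono (N := N) (g := fun _ => 0) h
  rwa [avg_const] at this

lemma avg_add (N : ℕ) (g g' : ℕ → ℝ) : avg N (fun Y => g Y + g' Y) = avg N g + avg N g' := by
  simp [avg, sum_add_distrib, add_div]

lemma avg_sub (N : ℕ) (g g' : ℕ → ℝ) : avg N (fun Y => g Y - g' Y) = avg N g - avg N g' := by
  simp [avg, sum_sub_distrib, sub_div]

lemma avg_mul (N : ℕ) (c : ℝ) (g : ℕ → ℝ) : avg N (fun Y => c * g Y) = c * avg N g := by
  simp [avg, ← mul_sum, mul_div_assoc]

lemma avg_sum {ι : Type*} (N : ℕ) (s : Finset ι) (g : ι → ℕ → ℝ) :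
    avg N (fun Y => ∑ i ∈ s, g i Y) = ∑ i ∈ s, avg N (g i) := by
  simp only [avg]; rw [sum_comm, sum_div]

lemma avg_Ex (N t : ℕ) (g : List Bool → ℕ → ℝ) :
    avg N (fun Y => Ex t (fun x => g x Y)) = Ex t (fun x => avg N (g x)) := by
  simp only [avg, Ex_div]
  rw [← Ex_sum]

lemma le_avg {m : ℕ} {g : ℕ → ℝ} (h : Per m g) (h0 : ∀ Y, 0 ≤ g Y) (Y : ℕ) :
    g Y ≤ 3 ^ m * avg m g := by
  unfold avg
  rw [mul_div_cancel₀ _ (by positivity), h.modEq (Nat.mod_modEq Y (3 ^ m)).symm]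
  exact single_le_sum (fun i _ => h0 i) (mem_range.2 (Nat.mod_lt _ (by positivity)))

lemma sum_window_le {N : ℕ} {g : ℕ → ℝ} (h : Per N g) (h0 : ∀ Y, 0 ≤ g Y) (a L : ℕ) :
    ∑ i ∈ range L, g (i + a) ≤ (L + 3 ^ N) * avg N g := by
  have hq : 0 < 3 ^ N := by positivity
  set k := L / 3 ^ N + 1 with hk
  have h1 : L ≤ k * 3 ^ N := by
    have := Nat.lt_div_mul_add (a := L) hq
    rw [hk, add_mul, one_mul]; omega
  have h2 : k * 3 ^ N ≤ L + 3 ^ N := by
    have := Nat.div_mul_le_self L (3 ^ N)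
    rw [hk, add_mul, one_mul]; omega
  have hp : ∀ Y, g (Y + 3 ^ N + a) = g (Y + a) := fun Y => by
    rw [add_right_comm]; exact h _
  calc ∑ i ∈ range L, g (i + a) ≤ ∑ i ∈ range (k * 3 ^ N), g (i + a) :=
        sum_le_sum_of_subset_of_nonneg (range_mono h1) fun i _ _ => h0 _
    _ = k * ∑ i ∈ range (3 ^ N), g i := by
        rw [sum_per_mul (g := fun i => g (i + a)) hp, sum_per_shift h, nsmul_eq_mul]
    _ = ((k * 3 ^ N : ℕ) : ℝ) * avg N g := by
        unfold avg; push_cast; field_simp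
    _ ≤ _ := by
        have := avg_nonneg (N := N) h0
        gcongr
        exact_mod_cast h2

/-- Sum of a periodic nonnegative function over a set inside a real interval. -/
lemma sum_le_of_interval {N : ℕ} {g : ℕ → ℝ} (h : Per N g) (h0 : ∀ Y, 0 ≤ g Y)
    (s : Finset ℕ) (a L : ℝ) (hL : 0 ≤ L) (hs : ∀ Y ∈ s, a ≤ Y ∧ (Y : ℝ) ≤ a + L) :
    ∑ Y ∈ s, g Y ≤ (L + 1 + 3 ^ N) * avg N g := by
  have h1 := sum_window_le h h0 ⌈a⌉₊ (⌊L⌋₊ + 1)
  have h2 : ∑ Y ∈ s, g Y ≤ ∑ i ∈ range (⌊L⌋₊ + 1), g (i + ⌈a⌉₊) := by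
    rw [← sum_image (s := range (⌊L⌋₊ + 1)) (g := fun i => i + ⌈a⌉₊) (f := g)
      (fun i _ j _ hij => by simpa using hij)]
    refine sum_le_sum_of_subset_of_nonneg ?_ fun i _ _ => h0 _
    intro Y hY
    obtain ⟨ha, hb⟩ := hs Y hY
    have h3 : ⌈a⌉₊ ≤ Y := Nat.ceil_le.2 ha
    refine mem_image.2 ⟨Y - ⌈a⌉₊, mem_range.2 ?_, by omega⟩
    rw [Nat.lt_add_one_iff, Nat.le_floor_iff hL, Nat.cast_sub h3]
    have := Nat.le_ceil a
    linarith
  have h3 : ((⌊L⌋₊ + 1 : ℕ) : ℝ) ≤ L + 1 := by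
    push_cast; linarith [Nat.floor_le hL]
  have := avg_nonneg (N := N) h0
  calc _ ≤ _ := h2
    _ ≤ _ := h1
    _ ≤ _ := by gcongr

lemma Wt_per {m : ℕ} {h : ℕ → ℝ} (hh : Per m h) (x : List Bool) :
    Per (m + ones x) (Wt x h) := by
  induction x with
  | nil => simpa [Wt] using hh
  | cons b x ih =>
    intro Y
    cases b
    · simp only [Wt, ones_false]
      rw [mul_add]; exact per_mul ih 2 _
    · simp only [Wt, ones_true]
      rw [← add_assoc, pow_succ]
      have e1 : (Y + 3 ^ (m + ones x) * 3) % 3 = Y % 3 := by omega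
      rw [e1]
      split_ifs with h2
      · have e2 : (2 * (Y + 3 ^ (m + ones x) * 3) - 1) / 3
            = (2 * Y - 1) / 3 + 2 * 3 ^ (m + ones x) := by omega
        rw [e2, per_mul ih]
      · rfl

lemma Lop_per {m t N : ℕ} {h : ℕ → ℝ} (hh : Per m h) {τ : List Bool → ℝ}
    (hτ : ∀ x, x.length = t → τ x ≠ 0 → m + ones x ≤ N) : Per N (Lop t τ h) := by
  intro Y
  refine Ex_congr fun x hx => ?_
  by_cases h0 : τ x = 0
  · simp [h0]
  · rw [(Wt_per hh x).mono (hτ x hx h0) Y]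

instance neZero_three_pow (N : ℕ) : NeZero (3 ^ N) := ⟨by positivity⟩

/-- The inverse of two modulo `3^N`. -/
noncomputable def w (N : ℕ) : ZMod (3 ^ N) := (2 : ZMod (3 ^ N))⁻¹

lemma two_mul_w (N : ℕ) : 2 * w N = 1 := by
  have := ZMod.coe_mul_inv_eq_one (n := 3 ^ N) 2 (Nat.Coprime.pow_right _ (by norm_num))
  simpa [w] using this

lemma two_pow_mul_w (N k : ℕ) : 2 ^ k * w N ^ k = 1 := by
  rw [← mul_pow, two_mul_w, one_pow]

/-- The affine map modulo `3^N` attached to a word. -/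
noncomputable def phi (N : ℕ) (x : List Bool) (u : ZMod (3 ^ N)) : ZMod (3 ^ N) :=
  w N ^ x.length * (3 ^ ones x * u + Ft x)

lemma phi_nil (N : ℕ) (u : ZMod (3 ^ N)) : phi N [] u = u := by simp [phi, Ft]

lemma phi_false (N : ℕ) (x : List Bool) (u : ZMod (3 ^ N)) :
    phi N (false :: x) u = w N * phi N x u := by
  simp only [phi, Ft, List.length_cons, ones_false]; ring

lemma phi_true (N : ℕ) (x : List Bool) (u : ZMod (3 ^ N)) :
    phi N (true :: x) u = w N * (3 * phi N x u + 1) := by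
  simp only [phi, Ft, List.length_cons, ones_true]
  push_cast
  have := two_pow_mul_w N x.length
  linear_combination (w N) * this

lemma three_pow_cast (N : ℕ) : (3 : ZMod (3 ^ N)) ^ N = 0 := by
  have := ZMod.natCast_self (3 ^ N)
  rwa [Nat.cast_pow, Nat.cast_ofNat] at this

lemma dual {E : Type*} [AddCommGroup E] [Module ℝ E] {m N : ℕ} {h : ℕ → ℝ} (hh : Per m h)
    (x : List Bool) (hx : m + ones x ≤ N) (χ : ZMod (3 ^ N) → E) :
    ∑ Y ∈ range (3 ^ N), Wt x h Y • χ Y = ∑ U ∈ range (3 ^ N), h U • χ (phi N x U) := by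
  induction x generalizing χ with
  | nil => simp [Wt, phi_nil]
  | cons b x ih =>
    have ho : 3 ^ N % 2 = 1 := by simp [Nat.pow_mod]
    cases b
    · rw [ones_false] at hx
      simp only [phi_false]
      rw [← ih hx (fun z => χ (w N * z))]
      have hp := (Wt_per hh x).mono hx
      have := sum_per_two ho (g := fun U => Wt x h U • χ (w N * U)) (fun Y => by
        simp only [hp Y]; congr 2; push_cast; rw [three_pow_cast, add_zero]) 0
      rw [← this]
      refine sum_congr rfl fun Y _ => ?_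
      simp only [Wt, add_zero]
      congr 2
      push_cast
      rw [← mul_assoc, mul_comm (w N), two_mul_w, one_mul]
    · rw [ones_true] at hx
      simp only [phi_true]
      rw [← ih (by omega) (fun z => χ (w N * (3 * z + 1)))]
      obtain ⟨M, rfl⟩ : ∃ M, N = M + 1 := ⟨N - 1, by omega⟩
      have hp := (Wt_per hh x).mono (show m + ones x ≤ M by omega)
      have ho' : 3 ^ M % 2 = 1 := by simp [Nat.pow_mod]
      set H : ℕ → E := fun U => Wt x h U • χ (w (M + 1) * (3 * U + 1)) with hH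
      have hHp : ∀ Y, H (Y + 3 ^ M) = H Y := fun Y => by
        simp only [hH, hp Y]; congr 3; push_cast
        have : (3 : ZMod (3 ^ (M + 1))) ^ M * 3 = 0 :=
          (pow_succ (3 : ZMod (3 ^ (M + 1))) M).symm.trans (three_pow_cast (M + 1))
        linear_combination this
      have e3 : 3 ^ (M + 1) = 3 * 3 ^ M := by ring
      have h1 : ∑ U ∈ range (3 ^ (M + 1)), H U = 3 • ∑ U ∈ range (3 ^ M), H U := by
        rw [← sum_per_mul hHp, ← e3]
      change _ = ∑ U ∈ range (3 ^ (M + 1)), H U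
      rw [h1, ← sum_per_two ho' hHp 1]
      have h2 := sum_range_three (3 ^ M)
        (fun Y => (3 * Wt x h ((2 * Y - 1) / 3)) • χ (Y : ZMod (3 ^ (M + 1))))
      rw [← e3] at h2
      simp only [Wt, ite_smul, zero_smul]
      rw [h2, smul_sum]
      refine sum_congr rfl fun i _ => ?_
      rw [show (2 * (3 * i + 2) - 1) / 3 = 2 * i + 1 by omega, hH, mul_smul]
      have : w (M + 1) * (3 * ((2 * i + 1 : ℕ) : ZMod (3 ^ (M + 1))) + 1)
          = ((3 * i + 2 : ℕ) : ZMod (3 ^ (M + 1))) := by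
        push_cast
        have := two_mul_w (M + 1)
        linear_combination (3 * i + 2) * this
      simp only [this]
      rw [← Nat.cast_smul_eq_nsmul ℝ]; norm_num

lemma avg_Wt {m N : ℕ} {h : ℕ → ℝ} (hh : Per m h) (x : List Bool) (hx : m + ones x ≤ N) :
    avg N (Wt x h) = avg m h := by
  have := dual hh x hx (fun _ => (1 : ℝ))
  simp only [smul_eq_mul, mul_one] at this
  rw [← avg_eq hh (show m ≤ N by omega)]
  unfold avg; rw [this]

lemma avg_Lop {m t N : ℕ} {h : ℕ → ℝ} (hh : Per m h) {τ : List Bool → ℝ}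
    (hτ : ∀ x, x.length = t → τ x ≠ 0 → m + ones x ≤ N) :
    avg N (Lop t τ h) = Ex t τ * avg m h := by
  unfold Lop
  rw [avg_Ex, ← Ex_mul_right]
  refine Ex_congr fun x hx => ?_
  by_cases h0 : τ x = 0
  · simp [h0, avg_const]
  · rw [avg_mul, avg_Wt hh x (hτ x hx h0)]

end Pool.Agent.P.MP_2b866c_nt
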