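import Pool.Agent.P.MP_2b866c_nt.Trunc

/-!
The conjectured average of the height is equivalent to a tail condition.
-/

set_option autoImplicit false

open Finset Filter Topology

namespace Pool.Agent.P.MP_2b866c_nt

lemma allReach (hfin : ∀ m, Odd m → FiniteHeight m) : AllReach := by
  intro N hN
  obtain ⟨i, c, hc, rfl⟩ := Nat.exists_eq_two_pow_mul_odd (show N ≠ 0 by omega)
  obtain ⟨τ, hτ⟩ := (finite_iff hc).1 (hfin c hc)
  exact ⟨τ + i, by rw [Function.iterate_add_apply, (halve i c).1, hτ]⟩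

lemma Fh_two (hall : AllReach) {N : ℕ} (hN : 1 ≤ N) : Fh (2 * N) = Fh N := by
  have h1 := first_sInf (hall N hN)
  have h2 := halve 1 N
  rw [pow_one] at h2
  have h3 : First (2 * N) (sInf {τ | T^[τ] N = 1} + 1) := by
    refine ⟨by rw [Function.iterate_add_apply, h2.1]; exact h1.1, fun i hi => ?_⟩
    rcases i with _ | i
    · simp
    · rw [Function.iterate_add_apply, h2.1]; exact h1.2 i (by omega)
  rw [Fh_eq h3, Fh_eq h1, J_add, h2.1, h2.2, add_zero]

lemma height_one : height 1 ≤ 1 := by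
  refine Nat.sInf_le ⟨le_rfl, ?_⟩
  have : padicValNat 2 (2 ^ 2) = 2 := padicValNat.prime_pow 2
  simp only [Function.iterate_one, Cmap]
  norm_num at this ⊢
  rw [this]; norm_num

lemma Fh_odd (hfin : ∀ m, Odd m → FiniteHeight m) {m : ℕ} (hm : Odd m) :
    (Fh m : ℝ) ≤ height m ∧ (height m : ℝ) ≤ Fh m + 1 := by
  suffices h : Fh m ≤ height m ∧ height m ≤ Fh m + 1 by exact_mod_cast h
  by_cases h1 : m = 1
  · subst h1
    have := Fh_eq (N := 1) (τ := 0) ⟨rfl, by simp⟩
    have := J_le 0 1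
    have := height_one
    omega
  · obtain ⟨τ, t1, t2⟩ := first_of_finite hm (by have := hm.pos; omega) (hfin m hm)
    rw [Fh_eq t1, t2]; omega

lemma sum_odd_even {f : ℕ → ℝ} (hf : ∀ N, 1 ≤ N → f (2 * N) = f N) (n : ℕ) :
    ∑ N ∈ Icc 1 n, f N = ∑ N ∈ (Icc 1 n).filter (fun m => Odd m), f N
      + ∑ N ∈ Icc 1 (n / 2), f N := by
  rw [sum_filter]
  induction n with
  | zero => simp
  | succ n ih =>
    rw [sum_Icc_succ_top (Nat.le_add_left 1 n), sum_Icc_succ_top (Nat.le_add_left 1 n), ih]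
    rcases Nat.even_or_odd' n with ⟨k, rfl | rfl⟩
    · rw [if_pos (odd_two_mul_add_one k), show (2 * k + 1) / 2 = 2 * k / 2 by omega]; ring
    · rw [show (2 * k + 1 + 1) / 2 = k + 1 by omega, sum_Icc_succ_top (Nat.le_add_left 1 k),
        show (2 * k + 1) / 2 = k by omega, show 2 * k + 1 + 1 = 2 * (k + 1) by ring,
        hf _ (by omega), if_neg fun h => by have := Nat.odd_iff.1 h; omega]
      ring

/-- The contribution of the heights above `(log x)^B`. -/
noncomputable def tl (B : ℕ) (x : ℝ) : ℝ :=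
  ∑ m ∈ (Icc 1 ⌊x⌋₊).filter (fun m => Odd m ∧ Real.log x ^ B < (height m : ℝ)), (height m : ℝ)

lemma tl_eq (B : ℕ) (x : ℝ) : tl B x = ∑ m ∈ (Icc 1 ⌊x⌋₊).filter (fun m => Odd m),
    if Real.log x ^ B < (height m : ℝ) then (height m : ℝ) else 0 := by
  rw [tl, ← sum_filter, filter_filter]

lemma card_odd (n : ℕ) : ((Icc 1 n).filter (fun m => Odd m)).card = (n + 1) / 2 := by
  induction n with
  | zero => simp
  | succ n ih =>
    rw [card_filter, sum_Icc_succ_top (Nat.le_add_left 1 n), ← card_filter, ih]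
    split_ifs with h
    · have := Nat.odd_iff.1 h; omega
    · have := Nat.even_iff.1 (Nat.not_odd_iff_even.1 h); omega

lemma crude (hfin : ∀ m, Odd m → FiniteHeight m) {B : ℕ} (hB : 1 ≤ B)
    (ht : ∀ᶠ x : ℝ in atTop, tl B x ≤ x * Real.log x) : ∃ K : ℝ, 0 ≤ K ∧ ∀ n : ℕ,
    ∑ N ∈ Icc 1 n, (Fh N : ℝ) ≤ K * n * (1 + Real.log n) ^ B := by
  obtain ⟨y₀, hy₀⟩ := eventually_atTop.1 ht
  set K₀ : ℝ := ∑ m ∈ Icc 1 ⌈y₀⌉₊, (height m : ℝ) with hK₀
  have hK₀0 : 0 ≤ K₀ := sum_nonneg fun _ _ => Nat.cast_nonneg _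
  have h1 : ∀ n : ℕ, ∑ m ∈ (Icc 1 n).filter (fun m => Odd m), (Fh m : ℝ)
      ≤ (K₀ + 2) * n * (1 + Real.log n) ^ B := by
    intro n
    refine (sum_le_sum fun m hm => (Fh_odd hfin (mem_filter.1 hm).2).1).trans ?_
    rcases Nat.eq_zero_or_pos n with rfl | hn
    · simp
    have hn1 : (1 : ℝ) ≤ n := by exact_mod_cast hn
    have hL := Real.log_nonneg hn1
    have p1 : 1 + Real.log n ≤ (1 + Real.log n) ^ B := le_self_pow₀ (by linarith) (by omega)
    have p2 : Real.log n ^ B ≤ (1 + Real.log n) ^ B := by gcongr; linarith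
    have p3 : 1 * 1 ≤ n * (1 + Real.log n) ^ B := by gcongr; linarith
    by_cases hn2 : y₀ ≤ n
    · have a1 := hy₀ n hn2
      rw [tl_eq, Nat.floor_natCast] at a1
      have a2 : ∑ m ∈ (Icc 1 n).filter (fun m => Odd m), (height m : ℝ)
          ≤ ∑ m ∈ (Icc 1 n).filter (fun m => Odd m), (Real.log n ^ B +
            if Real.log n ^ B < (height m : ℝ) then (height m : ℝ) else 0) := by
        refine sum_le_sum fun m _ => ?_
        split_ifs with h
        · linarith [pow_nonneg hL B]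
        · linarith
      rw [sum_add_distrib, sum_const, nsmul_eq_mul, card_odd] at a2
      have a3 : (((n + 1) / 2 : ℕ) : ℝ) ≤ n := by exact_mod_cast (by omega)
      have a4 := mul_le_mul a3 p2 (by positivity) (by positivity)
      have a5 := mul_le_mul_of_nonneg_left p1 (show (0 : ℝ) ≤ n by positivity)
      have a6 : 0 ≤ K₀ * n * (1 + Real.log n) ^ B := by positivity
      linarith
    · have a1 : ∑ m ∈ (Icc 1 n).filter (fun m => Odd m), (height m : ℝ) ≤ K₀ := by
        refine sum_le_sum_of_subset_of_nonneg ((filter_subset _ _).trans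
          (Icc_subset_Icc_right ?_)) fun _ _ _ => Nat.cast_nonneg _
        exact_mod_cast (not_le.1 hn2).le.trans (Nat.le_ceil y₀)
      have a2 := mul_le_mul_of_nonneg_left p3 hK₀0
      linarith
  refine ⟨2 * (K₀ + 2), by positivity, fun n => ?_⟩
  induction n using Nat.strong_induction_on with
  | _ n ih =>
  rcases Nat.eq_zero_or_pos n with rfl | hn
  · simp
  rw [sum_odd_even (fun N hN => by rw [Fh_two (allReach hfin) hN])]
  have a1 := ih (n / 2) (by omega)
  have a2 : Real.log (n / 2 : ℕ) ≤ Real.log n := by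
    rcases Nat.eq_zero_or_pos (n / 2) with h | h
    · rw [h]; simpa using Real.log_natCast_nonneg n
    · exact Real.log_le_log (by exact_mod_cast h) (by exact_mod_cast Nat.div_le_self _ _)
  have a3 : 2 * (K₀ + 2) * ((n / 2 : ℕ) : ℝ) * (1 + Real.log (n / 2 : ℕ)) ^ B
      ≤ 2 * (K₀ + 2) * (n / 2) * (1 + Real.log n) ^ B := by
    have := Real.log_natCast_nonneg (n / 2)
    gcongr
    exact Nat.cast_div_le
  linarith [h1 n]

lemma upper (hfin : ∀ m, Odd m → FiniteHeight m) {B : ℕ} (hB : 1 ≤ B)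
    (ht : ∀ᶠ x : ℝ in atTop, tl B x ≤ x * Real.log x) {ε : ℝ} (hε : 0 < ε) :
    ∀ᶠ x : ℝ in atTop, ∑ N ∈ Icc 1 ⌊x⌋₊, min (Fh N : ℝ) (Real.log x ^ B)
      ≤ (Real.log x / Real.log (4 / 3) + ε * Real.log x) * x := by
  obtain ⟨K, hK0, hK⟩ := crude hfin hB ht
  obtain ⟨C, hC0, hC⟩ := trunc (allReach hfin) (2 * B * B) (by nlinarith)
  have hB0 : (0 : ℝ) < B := by exact_mod_cast hB
  have h1 : Tendsto (fun x : ℝ => Real.log x ^ ((2 * B : ℕ) : ℝ)⁻¹) atTop atTop :=
    (tendsto_rpow_atTop (by push_cast; positivity)).comp Real.tendsto_log_atTop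
  filter_upwards [h1.eventually_ge_atTop (1000 + (K * 2 ^ B + C) / ε), eventually_ge_atTop 1]
    with x hr hx
  have hx0 : 0 < x := by linarith
  set L := Real.log x with hL
  have hL0 : 0 ≤ L := Real.log_nonneg hx
  set r := L ^ ((2 * B : ℕ) : ℝ)⁻¹ with hr'
  have hrL : r ^ (2 * B) = L := Real.rpow_inv_natCast_pow hL0 (by omega)
  have p2 : 0 ≤ (K * 2 ^ B + C) / ε := by positivity
  have hr2 : 1000 ≤ r := by linarith
  have hrB : r ≤ r ^ B := le_self_pow₀ (by linarith) (by omega)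
  have hLB : L = r ^ B * r ^ B := by rw [← hrL, two_mul, pow_add]
  have hrr : r ≤ L := by nlinarith
  have hLL : L ≤ L ^ B := le_self_pow₀ (by linarith) (by omega)
  have hM : 0 < L ^ B := by linarith
  have e : ∀ y : ℝ, L ^ B * Sm (Ph (L ^ B) 0) (fun _ => 1) y
      = ∑ N ∈ Icc 1 ⌊y⌋₊, min (Fh N : ℝ) (L ^ B) := by
    intro y
    simp only [Sm, mul_sum, Ph, one_mul, mul_div_cancel₀ _ hM.ne', Nat.cast_zero, zero_add]
  have a1 := hC (L ^ B) r (K * (2 * r) ^ B) hr2 (by positivity) hM (fun y hy h1 h2 => by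
    rw [e]
    refine (sum_le_sum fun N _ => min_le_left _ _).trans ((hK _).trans ?_)
    have b1 : 1 ≤ y := by
      rw [← Real.log_nonneg_iff hy]; linarith
    have b2 : (0 : ℝ) < ⌊y⌋₊ := by exact_mod_cast Nat.floor_pos.2 b1
    have b3 := Nat.floor_le hy.le
    have b4 := Real.log_le_log b2 b3
    have b5 := Real.log_natCast_nonneg ⌊y⌋₊
    rw [mul_right_comm]
    gcongr
    linarith) x hx0 hrr hLL
  rw [e, pow_mul, hrL, mul_div_cancel₀ _ hM.ne', mul_pow] at a1
  refine a1.trans (mul_le_mul_of_nonneg_right ?_ hx0.le)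
  have a2 : K * 2 ^ B + C ≤ ε * r ^ B := by
    rw [← div_le_iff₀' hε]; linarith
  have a3 := mul_le_mul_of_nonneg_right a2 (show 0 ≤ r ^ B by positivity)
  have a4 := mul_le_mul_of_nonneg_left (show 1 ≤ r ^ B by linarith) hC0
  rw [mul_assoc ε, ← hLB] at a3
  linarith

lemma lower (hall : AllReach) {ε : ℝ} (hε : 0 < ε) : ∀ᶠ x : ℝ in atTop,
    ∑ N ∈ Icc 1 ⌊x⌋₊, max (Real.log x / Real.log (4 / 3) - Fh N) 0 ≤ ε * (x * Real.log x) := by
  classical
  set η := min (ε / 32) 1 with hη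
  have hη0 : 0 < η := lt_min (by positivity) one_pos
  have hη1 : η ≤ ε / 32 := min_le_left _ _
  obtain ⟨C, hC0, X, hC⟩ := descent hη0 (min_le_right _ _) 1 le_rfl
  set x₀ := max X ⌈Real.exp (C / η + 1)⌉₊ with hx₀
  have hl : C / η + 1 ≤ Real.log x₀ := by
    have h1 : Real.exp (C / η + 1) ≤ x₀ :=
      (Nat.le_ceil _).trans (by exact_mod_cast le_max_right _ _)
    rwa [Real.le_log_iff_exp_le ((Real.exp_pos _).trans_le h1)]
  have hl0 : 0 < Real.log x₀ := lt_of_lt_of_le (by positivity) hl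
  have h4 : C / Real.log x₀ ≤ η := by
    rw [div_le_iff₀ hl0, ← div_le_iff₀' hη0]; linarith
  filter_upwards [eventually_ge_atTop (x₀ : ℝ), eventually_gt_atTop 0,
    Real.tendsto_log_atTop.eventually_ge_atTop ((Real.log x₀ + |Real.log η|) / η)]
    with x hx1 hx0 hx2
  have h1 := hC x₀ (le_max_left _ _) x hx1
  rw [pow_one] at h1
  set L := Real.log x with hL
  have hL0 : 0 ≤ L := le_trans (by positivity) hx2
  rw [div_le_iff₀' hη0] at hx2
  have l3 := lam_ge
  set b := Real.log (4 / 3)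
  have hb : 0 < b := by linarith
  have f2 : ∀ N ∈ Icc 1 ⌊x⌋₊, max (L / b - Fh N) 0
      ≤ 8 * η * L + 4 * L * ((if (N : ℝ) ≤ η * x then 1 else 0) + 1 * fl η x₀ N) := by
    intro N hN
    rw [mem_Icc] at hN
    have m0 : (0 : ℝ) < N := by exact_mod_cast hN.1
    have m1 : Real.log N ≤ L := Real.log_le_log m0 ((Nat.le_floor_iff hx0.le).1 hN.2)
    have g0 := mul_nonneg hL0 (fl_nonneg η x₀ N)
    have g1 : 0 ≤ η * L := by positivity
    have g3 : max (L / b - Fh N) 0 ≤ 4 * L := by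
      have a2 : L / b ≤ 4 * L := by rw [div_le_iff₀ hb]; nlinarith
      exact max_le (by linarith [Nat.cast_nonneg (α := ℝ) (Fh N)]) (by linarith)
    split_ifs with hs
    · linarith
    by_cases hsu : Succ η x₀ N
    swap
    · simp only [fl, hsu, if_false]; linarith
    obtain ⟨k, k1, _, k3⟩ := hsu
    have a1 : (J k N : ℝ) ≤ Fh N := by exact_mod_cast (by have := Fh_add hall k1; omega)
    have a2 : Real.log η + L ≤ Real.log N := by
      rw [hL, ← Real.log_mul hη0.ne' hx0.ne']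
      exact Real.log_le_log (by positivity) (not_le.1 hs).le
    have a3 := mul_le_mul_of_nonneg_left m1 hη0.le
    have a4 : L / b - J k N ≤ 8 * η * L := by
      rw [sub_le_iff_le_add, div_le_iff₀ hb]
      have := mul_le_mul_of_nonneg_left l3 g1
      linarith [(abs_le.1 k3).1, neg_abs_le (Real.log η)]
    exact max_le (by linarith) (by linarith)
  refine (sum_le_sum f2).trans ?_
  rw [sum_add_distrib, sum_const, ← mul_sum, sum_add_distrib, Nat.card_Icc, nsmul_eq_mul,
    Nat.add_sub_cancel]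
  have f3 : ∑ m ∈ Icc 1 ⌊x⌋₊, (if (m : ℝ) ≤ η * x then (1 : ℝ) else 0) ≤ η * x := by
    rw [← sum_filter, sum_const, nsmul_eq_mul, mul_one]
    have : ((Icc 1 ⌊x⌋₊).filter (fun m : ℕ => (m : ℝ) ≤ η * x)).card
        ≤ (Icc 1 ⌊η * x⌋₊).card := card_le_card fun m hm => by
      rw [mem_filter, mem_Icc] at hm
      exact mem_Icc.2 ⟨hm.1.1, Nat.le_floor hm.2⟩
    rw [Nat.card_Icc, Nat.add_sub_cancel] at this
    exact (Nat.cast_le.2 this).trans (Nat.floor_le (by positivity))
  have f4 := h1.trans (mul_le_mul_of_nonneg_right h4 hx0.le)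
  have f6 := mul_le_mul_of_nonneg_left (add_le_add f3 f4) (show 0 ≤ 4 * L by positivity)
  have f7 := mul_le_mul_of_nonneg_right (Nat.floor_le hx0.le) (show 0 ≤ 8 * η * L by positivity)
  have f8 := mul_le_mul_of_nonneg_right hη1 (mul_nonneg hx0.le hL0)
  have f9 : 0 ≤ ε * (x * L) := by positivity
  unfold Sm at f6
  linarith

lemma count_odd_bounds {x : ℝ} (hx : 0 ≤ x) :
    |2 * (((Icc 1 ⌊x⌋₊).filter (fun m => Odd m)).card : ℝ) - x| ≤ 1 := by
  rw [card_odd]
  have c1 : 2 * (((⌊x⌋₊ + 1) / 2 : ℕ) : ℝ) ≤ ⌊x⌋₊ + 1 := by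
    exact_mod_cast (by omega : 2 * ((⌊x⌋₊ + 1) / 2) ≤ ⌊x⌋₊ + 1)
  have c2 : (⌊x⌋₊ : ℝ) ≤ 2 * (((⌊x⌋₊ + 1) / 2 : ℕ) : ℝ) := by
    exact_mod_cast (by omega : ⌊x⌋₊ ≤ 2 * ((⌊x⌋₊ + 1) / 2))
  have c3 := Nat.floor_le hx
  have c4 := Nat.lt_floor_add_one x
  rw [abs_le]; constructor <;> linarith

theorem tail_iff (hfin : ∀ m, Odd m → FiniteHeight m) {B : ℕ} (hB : 2 ≤ B) :
    Asymptotics.IsEquivalent atTop
      (fun x : ℝ => (2 / x) * ∑ m ∈ (Icc 1 ⌊x⌋₊).filter (fun m => Odd m), (height m : ℝ))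
      (fun x : ℝ => 2 * Real.log x / Real.log (16 / 9)) ↔
    tl B =o[atTop] fun x => x * Real.log x := by
  have l3 := lam_ge
  have l4 := lam_le
  simp only [log_16_9, mul_div_mul_left _ _ (two_ne_zero (α := ℝ))]
  set b := Real.log (4 / 3) with hbdef
  have hb : 0 < b := by linarith
  rw [Asymptotics.IsEquivalent, Asymptotics.isLittleO_iff, Asymptotics.isLittleO_iff]
  have tl0 : ∀ x, 0 ≤ tl B x := fun x => sum_nonneg fun _ _ => Nat.cast_nonneg _
  have common : ∀ ε : ℝ, 0 < ε → ∀ᶠ x : ℝ in atTop, 0 < x ∧ 4 ≤ Real.log x ∧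
      x ≤ ε * (x * Real.log x) ∧ Real.log x ≤ ε * (x * Real.log x) ∧
      3 * Real.log x ≤ Real.log x / b ∧ Real.log x / b ≤ 4 * Real.log x ∧
      Real.log x * Real.log x ≤ Real.log x ^ B ∧
      ∑ N ∈ Icc 1 ⌊x⌋₊, max (Real.log x / b - Fh N) 0 ≤ ε * (x * Real.log x) := by
    intro ε hε
    filter_upwards [lower (allReach hfin) hε, eventually_gt_atTop 0, eventually_ge_atTop (1 / ε),
      Real.tendsto_log_atTop.eventually_ge_atTop (4 + 1 / ε)] with x h1 h2 h3 h4
    have p : 0 < 1 / ε := by positivity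
    have h5 : 1 ≤ ε * Real.log x := by rw [← div_le_iff₀' hε]; linarith
    rw [div_le_iff₀' hε] at h3
    refine ⟨h2, by linarith, by nlinarith, by nlinarith, by rw [le_div_iff₀ hb]; nlinarith,
      by rw [div_le_iff₀ hb]; nlinarith, ?_, h1⟩
    rw [← pow_two]; exact pow_le_pow_right₀ (by linarith) hB
  constructor
  · intro h δ hδ
    set ε := min (δ / 21) 1 with hε
    have hε0 : 0 < ε := lt_min (by positivity) one_pos
    have hε1 : ε ≤ δ / 21 := min_le_left _ _
    have hε2 : ε ≤ 1 := min_le_right _ _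
    filter_upwards [h hε0, common ε hε0] with x h1 ⟨hx0, c1, c2, c3, c4, c5, c6, c7⟩
    simp only [Pi.sub_apply, Real.norm_eq_abs] at h1 ⊢
    set L := Real.log x
    set c := L / b
    have hc0 : 0 ≤ c := by linarith
    have hM : 0 < L ^ B := by positivity
    have xL : 0 ≤ x * L := by positivity
    rw [abs_of_nonneg (tl0 x), abs_of_nonneg xL, tl_eq]
    have a1 : ∀ m ∈ (Icc 1 ⌊x⌋₊).filter (fun m => Odd m),
        (if L ^ B < (height m : ℝ) then (height m : ℝ) else 0)
        ≤ (height m - c) + max (c - Fh m) 0 + c / L ^ B * height m := by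
      intro m hm
      have b1 := (Fh_odd hfin (mem_filter.1 hm).2).1
      have b2 := le_max_left (c - Fh m) 0
      have b3 := le_max_right (c - Fh m) 0
      split_ifs with h
      · have : c ≤ c / L ^ B * height m := by
          rw [div_mul_eq_mul_div, le_div_iff₀ hM]; gcongr
        linarith
      · have : 0 ≤ c / L ^ B * height m := by positivity
        linarith
    refine (sum_le_sum a1).trans ?_
    rw [sum_add_distrib, sum_add_distrib, sum_sub_distrib, sum_const, nsmul_eq_mul, ← mul_sum]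
    have a2 := (sum_le_sum_of_subset_of_nonneg (filter_subset (fun m => Odd m) (Icc 1 ⌊x⌋₊))
      (f := fun N => max (c - Fh N) 0) fun _ _ _ => le_max_right _ _).trans c7
    have a3 := mul_le_mul_of_nonneg_right (abs_le.1 (count_odd_bounds hx0.le)).1 hc0
    set S := ∑ m ∈ (Icc 1 ⌊x⌋₊).filter (fun m => Odd m), (height m : ℝ)
    have a4 : 2 * S ≤ (c + ε * c) * x := by
      rw [abs_of_nonneg hc0] at h1
      rw [← div_le_iff₀ hx0, mul_div_right_comm]
      linarith [(abs_le.1 h1).2]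
    have a5 : ε * c * x ≤ 4 * (ε * (x * L)) := by
      calc _ ≤ ε * (4 * L) * x := by gcongr
        _ = _ := by ring
    have a6 : S ≤ 4 * L * x := by
      have := mul_le_mul_of_nonneg_right hε2 xL
      have := mul_le_mul_of_nonneg_right c5 hx0.le
      linarith
    have a7 : c / L ^ B * S ≤ 16 * x := by
      calc _ ≤ 4 * L / (L * L) * (4 * L * x) := by gcongr
        _ = _ := by field_simp; norm_num
    have a8 := mul_le_mul_of_nonneg_right hε1 xL
    linarith
  · intro h δ hδ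
    have hε0 : 0 < δ / 8 := by positivity
    have ht : ∀ᶠ x : ℝ in atTop, tl B x ≤ x * Real.log x := by
      filter_upwards [h one_pos, common 1 one_pos] with x h1 ⟨hx0, c1, _⟩
      rw [Real.norm_eq_abs, Real.norm_eq_abs, abs_of_nonneg (tl0 x), one_mul,
        abs_of_nonneg (by positivity)] at h1
      exact h1
    filter_upwards [h hε0, common _ hε0, upper hfin (by omega) ht hε0]
      with x h1 ⟨hx0, c1, c2, c3, c4, c5, c6, c7⟩ c8
    simp only [Pi.sub_apply, Real.norm_eq_abs] at h1 ⊢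
    rw [← hbdef] at c8
    set L := Real.log x
    set c := L / b
    have hc0 : 0 ≤ c := by linarith
    have xL : 0 ≤ x * L := by positivity
    have hcM : c ≤ L ^ B := by nlinarith
    rw [abs_of_nonneg (tl0 x), abs_of_nonneg xL, tl_eq] at h1
    have a1 : ∀ m ∈ (Icc 1 ⌊x⌋₊).filter (fun m => Odd m), |(height m : ℝ) - c|
        ≤ |min (Fh m : ℝ) (L ^ B) - c| + 1
          + if L ^ B < (height m : ℝ) then (height m : ℝ) else 0 := by
      intro m hm
      obtain ⟨b1, b2⟩ := Fh_odd hfin (mem_filter.1 hm).2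
      have b3 := abs_nonneg (min (Fh m : ℝ) (L ^ B) - c)
      split_ifs with h
      · rw [abs_of_nonneg (by linarith)]; linarith
      · rw [min_eq_left (by linarith)] at b3 ⊢
        have := le_abs_self ((Fh m : ℝ) - c)
        have := neg_abs_le ((Fh m : ℝ) - c)
        rw [abs_le]; constructor <;> linarith
    have a2 := (abs_sum_le_sum_abs _ _).trans (sum_le_sum a1)
    rw [sum_add_distrib, sum_add_distrib, sum_sub_distrib, sum_const, sum_const, nsmul_eq_mul,
      nsmul_eq_mul, mul_one] at a2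
    have a3 := sum_le_sum_of_subset_of_nonneg (filter_subset (fun m => Odd m) (Icc 1 ⌊x⌋₊))
      (f := fun N => |min (Fh N : ℝ) (L ^ B) - c|) fun _ _ _ => abs_nonneg _
    have a4 : ∑ N ∈ Icc 1 ⌊x⌋₊, |min (Fh N : ℝ) (L ^ B) - c| ≤ ∑ N ∈ Icc 1 ⌊x⌋₊,
        ((min (Fh N : ℝ) (L ^ B) - c) + 2 * max (c - Fh N) 0) := by
      refine sum_le_sum fun N _ => ?_
      have b2 := le_max_left (c - Fh N) 0
      have b3 := le_max_right (c - Fh N) 0
      rw [abs_le]
      rcases le_total (Fh N : ℝ) (L ^ B) with h | h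
      · rw [min_eq_left h]; constructor <;> linarith
      · rw [min_eq_right h]; constructor <;> linarith
    rw [sum_add_distrib, sum_sub_distrib, ← mul_sum, sum_const, Nat.card_Icc, nsmul_eq_mul,
      Nat.add_sub_cancel] at a4
    have a5 := mul_le_mul_of_nonneg_right (Nat.lt_floor_add_one x).le hc0
    obtain ⟨n1, n2⟩ := abs_le.1 (count_odd_bounds hx0.le)
    have a6 := mul_le_mul_of_nonneg_right n1 hc0
    have a7 := mul_le_mul_of_nonneg_right n2 hc0
    set n := (((Icc 1 ⌊x⌋₊).filter (fun m => Odd m)).card : ℝ)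
    set S := ∑ m ∈ (Icc 1 ⌊x⌋₊).filter (fun m => Odd m), (height m : ℝ)
    have e : 2 / x * S - c = (2 * (S - n * c) + (2 * n - x) * c) / x := by field_simp; ring
    rw [e, abs_div, abs_of_pos hx0, abs_of_nonneg hc0, div_le_iff₀ hx0]
    have d1 : δ * (3 * L) * x ≤ δ * c * x := by gcongr
    have d2 : (1 : ℝ) ≤ L := by linarith
    rw [abs_le] at a2 ⊢
    constructor <;> linarith [a2.1, a2.2]

end Pool.Agent.P.MP_2b866c_nt
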