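import Pool.Agent.P.MP_2b866c_nt.Height

/-!
A root whose backward tree keeps a positive mass in every generation.
-/

set_option autoImplicit false

open Finset

namespace Pool.Agent.P.MP_2b866c_nt

/-- Good words. -/
def Gd (s₀ s : ℕ) (x : List Bool) : Prop :=
  Ft (x.take s₀) ≤ 1936 * 2 ^ s₀ ∧ ∀ i, s₀ ≤ i → i ≤ s → 5 * ones (x.take i) ≤ 3 * i

open Classical in
/-- Indicator of good words. -/
noncomputable def gd (s₀ s : ℕ) (x : List Bool) : ℝ := if Gd s₀ s x then 1 else 0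

lemma gd_nonneg (s₀ s : ℕ) (x : List Bool) : 0 ≤ gd s₀ s x := by
  unfold gd; split_ifs <;> norm_num

lemma gd_le_one (s₀ s : ℕ) (x : List Bool) : gd s₀ s x ≤ 1 := by
  unfold gd; split_ifs <;> norm_num

lemma gd_append {s₀ s : ℕ} (hs : s₀ ≤ s) {x : List Bool} (hx : x.length = s) (y : List Bool) :
    gd s₀ s (x ++ y) = gd s₀ s x := by
  have : Gd s₀ s (x ++ y) ↔ Gd s₀ s x := by
    unfold Gd
    rw [List.take_append_of_le_length (by omega)]
    refine and_congr Iff.rfl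
      (forall_congr' fun i => forall_congr' fun _ => forall_congr' fun hi => ?_)
    rw [List.take_append_of_le_length (by omega)]
  unfold gd; rw [propext this]

lemma three_pow_le_two_pow {a b : ℕ} (h : 8 * a ≤ 5 * b) : 3 ^ a ≤ 2 ^ b := by
  have h1 : (3 ^ a) ^ 5 ≤ (2 ^ b) ^ 5 := by
    calc (3 ^ a) ^ 5 = 3 ^ (5 * a) := by ring
      _ ≤ 2 ^ (8 * a) := three_five_le _
      _ ≤ 2 ^ (5 * b) := Nat.pow_le_pow_right (by norm_num) h
      _ = _ := by ring
  exact (Nat.pow_le_pow_iff_left (by norm_num)).1 h1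

lemma Gd.Ft_le {s₀ s : ℕ} (hs : s₀ ≤ s) {x : List Bool} (hx : x.length = s) (h : Gd s₀ s x) :
    Ft x ≤ (1936 + s) * 2 ^ s := by
  have key : ∀ i, s₀ ≤ i → i ≤ s → Ft (x.take i) ≤ (1936 + i) * 2 ^ i := by
    intro i hi
    induction i, hi using Nat.le_induction with
    | base => intro _; exact h.1.trans (by gcongr; omega)
    | succ i hi ih =>
      intro his
      have a1 := ih (by omega)
      have a2 : 3 ^ ones (x.take i) ≤ 2 ^ i :=
        three_pow_le_two_pow (by have := h.2 i hi (by omega); omega)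
      rw [List.take_add, Ft_append]
      have a3 : ((x.drop i).take 1).length = 1 := by simp; omega
      have a4 := MP_2b866c_nt.Ft_le ((x.drop i).take 1)
      rw [a3] at a4 ⊢
      have a5 : Ft ((x.drop i).take 1) ≤ 1 := by omega
      have a6 : 3 ^ ones (x.take i) * Ft ((x.drop i).take 1) ≤ 2 ^ i * 1 := Nat.mul_le_mul a2 a5
      rw [pow_succ 2 i]
      nlinarith
  have := key s hs le_rfl
  rwa [List.take_of_length_le hx.le] at this

/-- Root independent sup bound. -/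
lemma Lop_gd_le {s₀ s n : ℕ} (hs : s₀ ≤ s) (hn : 40 * n ≤ s) {g : ℕ → ℝ} (hg : Per n g)
    (h0 : ∀ Y, 0 ≤ g Y) (a : ℕ) :
    Lop s (gd s₀ s) g a ≤ (s + 1) * (1938 + s) * avg n g := by
  classical
  have hM := avg_nonneg (N := n) h0
  rw [Lop_eq_sum s _ g a (2 ^ s * a + 1) (by omega),
    sum_split_J s _ (fun j N => if T^[s] N = a then gd s₀ s (bits s N) * (3 ^ j / 2 ^ s) * g N
      else 0)]
  have h1 : ∀ j ∈ range (s + 1), (∑ N ∈ range (2 ^ s * a + 1), if J s N = j then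
      (if T^[s] N = a then gd s₀ s (bits s N) * (3 ^ j / 2 ^ s) * g N else 0) else 0)
      ≤ (1938 + s) * avg n g := by
    intro j _
    set S := (range (2 ^ s * a + 1)).filter
      (fun N => J s N = j ∧ T^[s] N = a ∧ Gd s₀ s (bits s N)) with hS
    have e1 : (∑ N ∈ range (2 ^ s * a + 1), if J s N = j then
        (if T^[s] N = a then gd s₀ s (bits s N) * (3 ^ j / 2 ^ s) * g N else 0) else 0)
        = 3 ^ j / 2 ^ s * ∑ N ∈ S, g N := by
      rw [hS, sum_filter, mul_sum]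
      refine sum_congr rfl fun N _ => ?_
      by_cases a1 : J s N = j <;> by_cases a2 : T^[s] N = a <;>
        by_cases a3 : Gd s₀ s (bits s N) <;> simp [a1, a2, a3, gd]
    rw [e1]
    rcases S.eq_empty_or_nonempty with h | ⟨N₀, hN₀⟩
    · rw [h, sum_empty, mul_zero]; positivity
    have hj : 5 * j ≤ 3 * s := by
      obtain ⟨_, b1, _, b3⟩ := mem_filter.1 hN₀
      have := b3.2 s hs le_rfl
      rwa [List.take_of_length_le (by simp), show ones (bits s N₀) = j from b1] at this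
    have h2 := sum_le_of_interval hg h0 S ((2 ^ s * a - (1936 + s) * 2 ^ s) / 3 ^ j)
      ((1936 + s) * 2 ^ s / 3 ^ j) (by positivity) (fun N hN => by
        obtain ⟨_, b1, b2, b3⟩ := mem_filter.1 hN
        have c1 := iter_formula s N
        rw [b1, b2] at c1
        have c2 : (2 : ℝ) ^ s * a = 3 ^ j * N + (Ft (bits s N) : ℕ) := by exact_mod_cast c1
        have c3 : ((Ft (bits s N) : ℕ) : ℝ) ≤ (1936 + s) * 2 ^ s := by
          exact_mod_cast b3.Ft_le hs (length_bits s N)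
        rw [← add_div, div_le_iff₀ (by positivity), le_div_iff₀ (by positivity)]
        constructor <;> linarith [Nat.cast_nonneg (α := ℝ) (Ft (bits s N))])
    have h3 : (3 : ℝ) ^ (j + n) ≤ 2 ^ s := by exact_mod_cast three_pow_le_two_pow (by omega)
    have h4 : (3 : ℝ) ^ j ≤ 2 ^ s := by exact_mod_cast three_pow_le_two_pow (by omega)
    have h5 : (3 : ℝ) ^ j / 2 ^ s * ((1936 + s) * 2 ^ s / 3 ^ j + 1 + 3 ^ n) ≤ 1938 + s := by
      have : (3 : ℝ) ^ j / 2 ^ s * ((1936 + s) * 2 ^ s / 3 ^ j + 1 + 3 ^ n)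
          = 1936 + s + 3 ^ j / 2 ^ s + 3 ^ (j + n) / 2 ^ s := by rw [pow_add]; field_simp
      rw [this]
      have := (div_le_one (by positivity : (0 : ℝ) < 2 ^ s)).2 h3
      have := (div_le_one (by positivity : (0 : ℝ) < 2 ^ s)).2 h4
      linarith
    calc _ ≤ (3 : ℝ) ^ j / 2 ^ s * (((1936 + s) * 2 ^ s / 3 ^ j + 1 + 3 ^ n) * avg n g) := by
          gcongr
      _ ≤ _ := by rw [← mul_assoc]; gcongr
  refine (sum_le_sum h1).trans (le_of_eq ?_)
  rw [sum_const, card_range, nsmul_eq_mul]; push_cast; ring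

lemma Lop_split {s t : ℕ} {α β : List Bool → ℝ} (hα : ∀ x y, x.length = s → α (x ++ y) = α x)
    (g : ℕ → ℝ) (Y : ℕ) :
    Lop (s + t) (fun x => α x * β (x.drop s)) g Y = Lop s α (Lop t β g) Y := by
  rw [Lop_append]
  refine Ex_congr fun x hx => ?_
  rw [← Wt_mul]
  congr 1
  funext U
  simp only [Lop, ← Ex_mul_left, hα x _ hx, List.drop_left' hx, mul_assoc]

lemma Lop_mono_left {t : ℕ} {τ τ' : List Bool → ℝ} (hτ : ∀ x, x.length = t → τ x ≤ τ' x)
    {g : ℕ → ℝ} (h0 : ∀ Y, 0 ≤ g Y) (Y : ℕ) : Lop t τ g Y ≤ Lop t τ' g Y :=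
  Ex_mono fun x hx => mul_le_mul_of_nonneg_right (hτ x hx) (Wt_nonneg x h0 Y)

lemma Lop_le_add {t : ℕ} {τ : List Bool → ℝ} (hτ : ∀ x, 0 ≤ τ x) (g g' : ℕ → ℝ) (Y : ℕ) :
    Lop t τ g Y ≤ Lop t τ g' Y + Lop t τ (fun U => |g' U - g U|) Y := by
  unfold Lop
  rw [← Ex_add]
  refine Ex_mono fun x _ => ?_
  rw [← mul_add, ← Wt_add]
  refine mul_le_mul_of_nonneg_left (Wt_mono x (fun U => ?_) Y) (hτ x)
  linarith [neg_abs_le (g' U - g U)]

lemma pos_step : ∃ C : ℝ, 0 ≤ C ∧ ∀ s₀ s a : ℕ, 2000 ≤ s₀ → 2 * s₀ ≤ s →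
    Lop s (gd s₀ s) (sig (s / 100)) a - C / s ^ 2
      ≤ Lop (s + 1) (gd s₀ (s + 1)) (sig ((s + 1) / 100)) a := by
  obtain ⟨C₁, hC₁0, hC₁⟩ := sig_close 4
  set K : ℝ := (4 : ℕ).factorial / (1 / 50) ^ 4 with hK
  have hK0 : 0 ≤ K := by positivity
  refine ⟨4 * (2 * C₁ + K) * 200 ^ 4, by positivity, fun s₀ s a hs₀ hs => ?_⟩
  set m := s / 100 with hm
  set m₁ := (s + 1) / 100 with hm₁
  have hm0 : (0 : ℝ) < m := by exact_mod_cast (by omega : 0 < m)
  have hs0 : (0 : ℝ) < s := by exact_mod_cast (by omega : 0 < s)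
  have hsm : (s : ℝ) ≤ 200 * m := by exact_mod_cast (by omega : s ≤ 200 * m)
  obtain ⟨s', hs'⟩ : ∃ s', s + 1 = s' + m := ⟨s + 1 - m, by omega⟩
  set β : List Bool → ℝ := fun y => if 3 * m < 5 * ones y then 1 else 0 with hβ
  have hβ0 : ∀ y, 0 ≤ β y := fun y => by simp only [hβ]; split_ifs <;> norm_num
  have h1 : Lop (s + 1) (gd s₀ s) (sig m₁) a ≤ Lop (s + 1) (gd s₀ (s + 1)) (sig m₁) a
      + Lop (s + 1) (fun x => gd s₀ s' x * β (x.drop s')) (sig m₁) a := by
    rw [← Lop_add]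
    refine Lop_mono_left (fun x hx => ?_) (sig_nonneg m₁) a
    have p1 := gd_nonneg s₀ (s + 1) x
    have p2 := mul_nonneg (gd_nonneg s₀ s' x) (hβ0 (x.drop s'))
    by_cases a1 : Gd s₀ s x
    · by_cases a2 : Gd s₀ (s + 1) x
      · simp only [gd, a1, a2, if_true] at p2 ⊢; linarith
      · have a3 : Gd s₀ s' x := ⟨a1.1, fun i h1 h2 => a1.2 i h1 (by omega)⟩
        have a4 : 3 * m < 5 * ones (x.drop s') := by
          by_contra hc
          refine a2 ⟨a1.1, fun i h1 h2 => ?_⟩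
          rcases Nat.lt_or_ge i (s + 1) with h3 | h3
          · exact a1.2 i h1 (by omega)
          · have b1 := a3.2 s' (by omega) le_rfl
            have b2 := ones_append (x.take s') (x.drop s')
            rw [List.take_append_drop] at b2
            rw [List.take_of_length_le (by omega)]
            omega
        simp [gd, a1, a2, a3, a4, hβ]
    · simp only [gd, a1, if_false] at p1 p2 ⊢; linarith
  have h2 : Lop (s + 1) (gd s₀ s) (sig m₁) a = Lop s (gd s₀ s) (sig (m₁ + 1)) a := by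
    have := Lop_split (s := s) (t := 1) (α := gd s₀ s) (β := fun _ => 1)
      (fun x y hx => gd_append (by omega) hx y) (sig m₁) a
    simp only [mul_one] at this
    rw [this, add_comm m₁, sig_add]; rfl
  have lam : ∀ u : ℕ, u ≤ s → ((u : ℝ) + 1) * (1938 + u) ≤ 4 * s ^ 2 := by
    intro u hu
    have b1 : (u : ℝ) ≤ s := by exact_mod_cast hu
    have b2 : (4000 : ℝ) ≤ s := by exact_mod_cast (by omega : 4000 ≤ s)
    have b0 : (0 : ℝ) ≤ u := Nat.cast_nonneg _
    calc ((u : ℝ) + 1) * (1938 + u) ≤ (2 * s) * (2 * s) := by gcongr <;> linarith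
      _ = _ := by ring
  have h3 : Lop (s + 1) (fun x => gd s₀ s' x * β (x.drop s')) (sig m₁) a
      ≤ 4 * s ^ 2 * (K / m ^ 4) := by
    rw [hs', Lop_split (fun x y hx => gd_append (by omega) hx y)]
    have hp : ∀ y : List Bool, y.length = m → β y ≠ 0 → m₁ + ones y ≤ m₁ + m := fun y hy _ => by
      have := ones_le y; omega
    have b1 := Lop_gd_le (s₀ := s₀) (s := s') (n := m₁ + m) (by omega) (by omega)
      (Lop_per (sig_per m₁) hp) (Lop_nonneg hβ0 (sig_nonneg m₁)) a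
    rw [avg_Lop (sig_per m₁) hp, avg_sig, mul_one] at b1
    have b2 := hoeff_up m m (m / 10) le_rfl hm0 (by positivity) (fun e => 3 * m < 5 * e)
      (fun e he => by
        have : (3 : ℝ) * m < 5 * e := by exact_mod_cast he
        linarith)
    have b3 : 2 * ((m : ℝ) / 10) ^ 2 / m = 1 / 50 * m := by field_simp; norm_num
    rw [b3] at b2
    have b4 := exp_neg_le (1 / 50) (by norm_num) 4 m hm0
    rw [← hK] at b4
    have b5 : Ex m β ≤ K / m ^ 4 := b2.trans b4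
    exact b1.trans (mul_le_mul (lam s' (by omega)) b5 (Ex_nonneg fun y _ => hβ0 y) (by positivity))
  have h4 : Lop s (gd s₀ s) (fun U => |sig (m₁ + 1) U - sig m U|) a
      ≤ 4 * s ^ 2 * (2 * C₁ / m ^ 4) := by
    have hp : Per (m + 2) (fun U => |sig (m₁ + 1) U - sig m U|) := fun U => by
      simp only [(sig_per (m₁ + 1)).mono (show m₁ + 1 ≤ m + 2 by omega) U,
        (sig_per m).mono (show m ≤ m + 2 by omega) U]
    have b1 := Lop_gd_le (s₀ := s₀) (s := s) (n := m + 2) (by omega) (by omega) hp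
      (fun _ => abs_nonneg _) a
    have hq : ∀ k, Per (k + 1) (fun U => |sig (k + 1) U - sig k U|) := fun k U => by
      simp only [sig_per (k + 1) U, (sig_per k).mono (Nat.le_succ k) U]
    have c1 := hC₁ m (by omega)
    have c2 := hC₁ (m + 1) (by omega)
    rw [← avg_eq (hq m) (show m + 1 ≤ m + 2 by omega)] at c1
    have c3 : C₁ / ((m + 1 : ℕ) : ℝ) ^ 4 ≤ C₁ / m ^ 4 := by
      gcongr; omega
    have c4 : 0 ≤ C₁ / (m : ℝ) ^ 4 := by positivity
    have b2 : avg (m + 2) (fun U => |sig (m₁ + 1) U - sig m U|) ≤ 2 * C₁ / m ^ 4 := by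
      rw [mul_div_assoc]
      rcases (by omega : m₁ = m ∨ m₁ = m + 1) with h | h
      · rw [h]; linarith
      · rw [h]
        have : avg (m + 2) (fun U => |sig (m + 1 + 1) U - sig m U|)
            ≤ avg (m + 2) (fun U => |sig (m + 1 + 1) U - sig (m + 1) U|)
              + avg (m + 2) (fun U => |sig (m + 1) U - sig m U|) := by
          rw [← avg_add]
          exact avg_mono fun U => abs_sub_le _ _ _
        linarith
    exact b1.trans (mul_le_mul (lam s le_rfl) b2 (avg_nonneg fun _ => abs_nonneg _)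
      (by positivity))
  have h5 := Lop_le_add (t := s) (gd_nonneg s₀ s) (sig m) (sig (m₁ + 1)) a
  have h6 : 4 * (s : ℝ) ^ 2 * (K / m ^ 4) + 4 * s ^ 2 * (2 * C₁ / m ^ 4)
      ≤ 4 * (2 * C₁ + K) * 200 ^ 4 / s ^ 2 := by
    calc _ = 4 * (2 * C₁ + K) * 200 ^ 4 * s ^ 2 / (200 * m) ^ 4 := by field_simp; ring
      _ ≤ 4 * (2 * C₁ + K) * 200 ^ 4 * s ^ 2 / s ^ 4 := by gcongr
      _ = _ := by field_simp
  linarith

lemma Ex_gd_ge : ∃ S : ℕ, ∀ s₀, S ≤ s₀ → 1 / 2 ≤ Ex (2 * s₀) (gd s₀ (2 * s₀)) := by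
  set K : ℝ := (2 : ℕ).factorial / (1 / 50) ^ 2 with hK
  have hK0 : 0 ≤ K := by positivity
  refine ⟨⌈8 * K⌉₊ + 1, fun s₀ hs₀ => ?_⟩
  have hs0 : (0 : ℝ) < s₀ := by exact_mod_cast (by omega : 0 < s₀)
  have hs1 : (1 : ℝ) ≤ s₀ := by exact_mod_cast (by omega : 1 ≤ s₀)
  have hs2 : 8 * K ≤ s₀ := (Nat.le_ceil _).trans (by exact_mod_cast (by omega))
  have take : ∀ i ≤ 2 * s₀, ∀ F : List Bool → ℝ,
      Ex (2 * s₀) (fun x => F (x.take i)) = Ex i F := by
    intro i hi F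
    obtain ⟨d, hd⟩ := Nat.exists_eq_add_of_le hi
    rw [hd, Ex_append]
    refine Ex_congr fun x hx => ?_
    simp only [List.take_left' hx, Ex_const]
  have h1 : Ex (2 * s₀) (fun x => 1 - ((if 1936 * 2 ^ s₀ ≤ Ft (x.take s₀) then 1 else 0)
      + ∑ i ∈ Icc s₀ (2 * s₀), if 3 * i < 5 * ones (x.take i) then (1 : ℝ) else 0))
      ≤ Ex (2 * s₀) (gd s₀ (2 * s₀)) := by
    refine Ex_mono fun x _ => ?_
    have p1 : (0 : ℝ) ≤ if 1936 * 2 ^ s₀ ≤ Ft (x.take s₀) then 1 else 0 := by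
      split_ifs <;> norm_num
    have p2 : ∀ i ∈ Icc s₀ (2 * s₀), (0 : ℝ) ≤ if 3 * i < 5 * ones (x.take i) then 1 else 0 :=
      fun i _ => by split_ifs <;> norm_num
    have p3 := sum_nonneg p2
    by_cases a : Gd s₀ (2 * s₀) x
    · simp only [gd, a, if_true]; linarith
    · simp only [gd, a, if_false]
      by_cases b : 1936 * 2 ^ s₀ ≤ Ft (x.take s₀)
      · rw [if_pos b]; linarith
      · have : ∃ i, s₀ ≤ i ∧ i ≤ 2 * s₀ ∧ 3 * i < 5 * ones (x.take i) := by
          by_contra hc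
          push Not at hc
          exact a ⟨by omega, hc⟩
        obtain ⟨i, i1, i2, i3⟩ := this
        have := single_le_sum p2 (mem_Icc.2 ⟨i1, i2⟩)
        rw [if_pos i3] at this
        linarith
  rw [Ex_sub, Ex_const, Ex_add, Ex_sum,
    take s₀ (by omega) (fun y => if 1936 * 2 ^ s₀ ≤ Ft y then 1 else 0)] at h1
  have h2 := Ft_tail s₀ 1936 (by norm_num) (fun y => 1936 * 2 ^ s₀ ≤ Ft y)
    (fun x _ hx => by exact_mod_cast hx)
  rw [show (1936 : ℝ) = 44 ^ 2 by norm_num, Real.sqrt_sq (by norm_num)] at h2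
  have h3 : ∀ i ∈ Icc s₀ (2 * s₀), Ex (2 * s₀)
      (fun x => if 3 * i < 5 * ones (x.take i) then (1 : ℝ) else 0) ≤ K / s₀ ^ 2 := by
    intro i hi
    rw [mem_Icc] at hi
    rw [take i hi.2 (fun y => if 3 * i < 5 * ones y then 1 else 0)]
    have hi0 : (0 : ℝ) < i := by exact_mod_cast (by omega : 0 < i)
    have b2 := hoeff_up i i (i / 10) le_rfl hi0 (by positivity) (fun e => 3 * i < 5 * e)
      (fun e he => by
        have : (3 : ℝ) * i < 5 * e := by exact_mod_cast he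
        linarith)
    have b3 : 2 * ((i : ℝ) / 10) ^ 2 / i = 1 / 50 * i := by field_simp; norm_num
    rw [b3] at b2
    have b4 := exp_neg_le (1 / 50) (by norm_num) 2 i hi0
    rw [← hK] at b4
    refine (b2.trans b4).trans ?_
    gcongr
    exact hi.1
  have h4 := sum_le_sum h3
  rw [sum_const, Nat.card_Icc, nsmul_eq_mul] at h4
  have h5 : ((2 * s₀ + 1 - s₀ : ℕ) : ℝ) * (K / s₀ ^ 2) ≤ 1 / 4 := by
    rw [show 2 * s₀ + 1 - s₀ = s₀ + 1 by omega, ← mul_div_assoc, div_le_iff₀ (by positivity)]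
    push_cast
    have hK8 : K ≤ s₀ / 8 := by rw [le_div_iff₀ (by norm_num), mul_comm]; exact hs2
    have : ((s₀ : ℝ) + 1) * K ≤ (2 * s₀) * (s₀ / 8) := by gcongr; linarith
    calc _ ≤ _ := this
      _ = _ := by ring
  linarith

/-- The numbers `(4^i (3c+1) - 1)/3`. -/
def rt (c : ℕ) : ℕ → ℕ
  | 0 => c
  | i + 1 => 4 * rt c i + 1

lemma rt_eq (c i : ℕ) : 3 * rt c i + 1 = 4 ^ i * (3 * c + 1) := by
  induction i with
  | zero => simp [rt]
  | succ i ih => rw [rt, pow_succ', mul_assoc, ← ih]; ring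

lemma rt_modEq {c k i j : ℕ} : rt c i ≡ rt c j [MOD 3 ^ k] ↔
    (4 : ZMod (3 ^ (k + 1))) ^ i = 4 ^ j := by
  have : (4 : ZMod (3 ^ (k + 1))) ^ i = 4 ^ j ↔ 4 ^ i ≡ 4 ^ j [MOD 3 ^ (k + 1)] := by
    rw [← ZMod.natCast_eq_natCast_iff]; push_cast; rfl
  have hc : Nat.Coprime (3 ^ (k + 1)) (3 * c + 1) := by
    apply Nat.Coprime.pow_left
    rw [Nat.coprime_mul_left_add_right]; simp
  have h2 : 4 ^ i ≡ 4 ^ j [MOD 3 ^ (k + 1)] ↔
      4 ^ i * (3 * c + 1) ≡ 4 ^ j * (3 * c + 1) [MOD 3 ^ (k + 1)] :=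
    ⟨fun h => h.mul_right _, fun h => Nat.ModEq.cancel_right_of_coprime hc h⟩
  rw [this, h2, ← rt_eq, ← rt_eq, pow_succ']
  exact ⟨fun h => (h.mul_left' 3).add_right 1, fun h =>
    Nat.ModEq.mul_left_cancel' (by norm_num) (Nat.ModEq.add_right_cancel' 1 h)⟩

lemma rt_surj (c k Y I : ℕ) : ∃ i, I ≤ i ∧ rt c i ≡ Y [MOD 3 ^ k] := by
  have ho : orderOf (4 : ZMod (3 ^ (k + 1))) = 3 ^ k := by
    have := ZMod.orderOf_one_add_prime Nat.prime_three (by norm_num) k
    norm_num at this ⊢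
    exact this
  have hinj : Function.Injective (fun i : Fin (3 ^ k) => (rt c i : ZMod (3 ^ k))) := by
    intro i j hij
    simp only [ZMod.natCast_eq_natCast_iff, rt_modEq] at hij
    exact Fin.ext (pow_injOn_Iio_orderOf (x := (4 : ZMod (3 ^ (k + 1))))
      (by rw [ho]; exact i.2) (by rw [ho]; exact j.2) hij)
  have hb := (Fintype.bijective_iff_injective_and_card _).2 ⟨hinj, by simp⟩
  obtain ⟨i, hi⟩ := hb.2 (Y : ZMod (3 ^ k))
  simp only [ZMod.natCast_eq_natCast_iff] at hi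
  refine ⟨i + 3 ^ k * I, by have : 0 < 3 ^ k := by positivity
                            nlinarith, Nat.ModEq.trans ?_ hi⟩
  have h1 : (4 : ZMod (3 ^ (k + 1))) ^ 3 ^ k = 1 := by
    have := pow_orderOf_eq_one (4 : ZMod (3 ^ (k + 1)))
    rwa [ho] at this
  rw [rt_modEq, pow_add (4 : ZMod (3 ^ (k + 1))), pow_mul, h1]; simp

lemma le_rt (c i : ℕ) : i ≤ rt c i := by
  induction i with
  | zero => omega
  | succ i ih => rw [rt]; omega

lemma rt_reach (c : ℕ) {i : ℕ} (hi : 1 ≤ i) : ∃ τ, T^[τ] (rt c i) = 3 * c + 1 := by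
  obtain ⟨j, rfl⟩ : ∃ j, i = j + 1 := ⟨i - 1, by omega⟩
  refine ⟨(2 * j + 1) + 1, ?_⟩
  have h1 := rt_eq c (j + 1)
  have h2 : T (rt c (j + 1)) = 2 ^ (2 * j + 1) * (3 * c + 1) := by
    unfold T
    rw [if_neg (by rw [rt]; omega), h1, show (4 : ℕ) = 2 ^ 2 by norm_num, ← pow_mul,
      show 2 * (j + 1) = (2 * j + 1) + 1 by ring, pow_succ, mul_right_comm]
    omega
  rw [Function.iterate_succ_apply, h2, (halve _ _).1]

lemma not_reach (b e : ℕ) : ∃ M, ∀ a, M ≤ a → (∃ τ, T^[τ] a = b) → ∀ i, T^[i] e ≠ a := by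
  by_cases he : ∃ σ, T^[σ] e = b
  swap
  · refine ⟨0, fun a _ ⟨τ, hτ⟩ i hi => he ⟨τ + i, ?_⟩⟩
    rw [Function.iterate_add_apply, hi, hτ]
  obtain ⟨σ, hσ⟩ := he
  suffices h : ∃ n, ∀ i, (∃ τ, T^[τ] (T^[i] e) = b) → ∃ k < n, T^[i] e = T^[k] e by
    obtain ⟨n, hn⟩ := h
    refine ⟨∑ k ∈ range n, T^[k] e + 1, fun a ha hr i hi => ?_⟩
    obtain ⟨k, hk, hk'⟩ := hn i (hi ▸ hr)
    have := single_le_sum (f := fun k => T^[k] e) (fun _ _ => Nat.zero_le _) (mem_range.2 hk)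
    omega
  by_cases hb : ∃ p, T^[p + 1] b = b
  · obtain ⟨p, hp⟩ := hb
    refine ⟨p + 1 + σ, fun i _ => ?_⟩
    by_cases hi : i < σ
    · exact ⟨i, by omega, rfl⟩
    · obtain ⟨d, rfl⟩ : ∃ d, i = d + σ := ⟨i - σ, by omega⟩
      refine ⟨d % (p + 1) + σ, by have := Nat.mod_lt d (show 0 < p + 1 by omega); omega, ?_⟩
      rw [Function.iterate_add_apply, Function.iterate_add_apply, hσ,
        Function.IsPeriodicPt.iterate_mod_apply (f := T) hp]
  · refine ⟨σ + 1, fun i ⟨τ, hτ⟩ => ⟨i, ?_, rfl⟩⟩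
    by_contra hc
    obtain ⟨d, rfl⟩ : ∃ d, i = d + 1 + σ := ⟨i - σ - 1, by omega⟩
    refine hb ⟨τ + d, ?_⟩
    rwa [Function.iterate_add_apply, hσ, ← Function.iterate_add_apply] at hτ

lemma not_periodic (b : ℕ) : ∃ M, ∀ a, M ≤ a → (∃ τ, T^[τ] a = b) → ∀ d, T^[d + 1] a ≠ a := by
  obtain ⟨M, hM⟩ := not_reach b b
  refine ⟨M, fun a ha ⟨τ, hτ⟩ d hd => hM a ha ⟨τ, hτ⟩ (d * τ) ?_⟩
  have b1 : T^[(d + 1) * τ] a = a := by
    rw [Function.iterate_mul]; exact Function.iterate_fixed hd τ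
  rwa [show (d + 1) * τ = d * τ + τ by ring, Function.iterate_add_apply, hτ] at b1

theorem exists_root (c M : ℕ) : ∃ a s₁ : ℕ, M < a ∧ (∃ τ, T^[τ] a = 3 * c + 1) ∧
    ∀ s, s₁ ≤ s → 1 / 4 ≤ sig (s + s / 100) a := by
  obtain ⟨C, hC0, hC⟩ := pos_step
  obtain ⟨S, hS⟩ := Ex_gd_ge
  set s₀ := S + 2000 + ⌈4 * C⌉₊ with hs₀
  have h1 := hS s₀ (by omega)
  set n₀ := 2 * s₀ / 100 + 2 * s₀ with hn₀
  have hp : ∀ y : List Bool, y.length = 2 * s₀ → gd s₀ (2 * s₀) y ≠ 0 →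
      2 * s₀ / 100 + ones y ≤ n₀ := fun y hy _ => by have := ones_le y; omega
  have h2 := avg_Lop (sig_per (2 * s₀ / 100)) hp
  rw [avg_sig, mul_one] at h2
  obtain ⟨Y, hY⟩ : ∃ Y, 1 / 2 ≤ Lop (2 * s₀) (gd s₀ (2 * s₀)) (sig (2 * s₀ / 100)) Y := by
    by_contra hc
    push Not at hc
    have : avg n₀ (Lop (2 * s₀) (gd s₀ (2 * s₀)) (sig (2 * s₀ / 100)))
        < avg n₀ (fun _ => 1 / 2) := by
      unfold avg
      gcongr with i
      · exact ⟨0, mem_range.2 (by positivity)⟩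
      · exact hc i
    rw [avg_const] at this
    linarith
  obtain ⟨i, hi, hiY⟩ := rt_surj c n₀ Y (M + 1)
  rw [← (Lop_per (sig_per (2 * s₀ / 100)) hp).modEq hiY] at hY
  refine ⟨rt c i, 2 * s₀, by have := le_rt c i; omega, rt_reach c (by omega), fun s hs => ?_⟩
  have key : ∀ s, 2 * s₀ ≤ s → 1 / 4 + 2 * C / s ≤ Lop s (gd s₀ s) (sig (s / 100)) (rt c i) := by
    intro s hs
    induction s, hs using Nat.le_induction with
    | base =>
      refine le_trans ?_ hY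
      have a1 : 4 * C ≤ s₀ := (Nat.le_ceil _).trans (by exact_mod_cast (by omega))
      have a2 : (0 : ℝ) < s₀ := by exact_mod_cast (by omega : 0 < s₀)
      have : 2 * C / ((2 * s₀ : ℕ) : ℝ) ≤ 1 / 4 := by
        push_cast; rw [div_le_iff₀ (by positivity)]; linarith
      linarith
    | succ s hs ih =>
      have a1 := hC s₀ s (rt c i) (by omega) hs
      have a2 : (1 : ℝ) ≤ s := by exact_mod_cast (by omega : 1 ≤ s)
      have a3 : 2 * C / ((s + 1 : ℕ) : ℝ) + C / s ^ 2 ≤ 2 * C / s := by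
        push_cast
        rw [div_add_div _ _ (by positivity) (by positivity),
          div_le_div_iff₀ (by positivity) (by positivity)]
        have : 0 ≤ C * s * s * (s - 1) := by
          have : 0 ≤ (s : ℝ) - 1 := by linarith
          positivity
        nlinarith
      linarith
  have h3 := key s hs
  have h4 := Lop_split (s := s) (t := s / 100) (α := gd s₀ s) (β := fun _ => 1)
    (fun x y hx => gd_append (by omega) hx y) (fun _ => 1) (rt c i)
  have h5 := Lop_mono_left (t := s + s / 100) (τ := fun x => gd s₀ s x * 1) (τ' := fun _ => 1)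
    (fun x _ => by simpa using gd_le_one s₀ s x) (g := fun _ => 1) (fun _ => zero_le_one) (rt c i)
  have h6 : 0 ≤ 2 * C / (s : ℝ) := by positivity
  unfold sig Lf at *
  linarith

/-- Functions with values in `[0, 1]` that are invariant under `T` from `K` on. -/
structure TInv (K : ℕ) (f : ℕ → ℝ) : Prop where
  nonneg : ∀ N, 0 ≤ f N
  le_one : ∀ N, f N ≤ 1
  step : ∀ N, K ≤ N → f (T N) = f N

lemma TInv.iter' {K : ℕ} {f : ℕ → ℝ} (hf : TInv K f) (t N : ℕ) (h : ∀ i < t, K ≤ T^[i] N) :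
    f (T^[t] N) = f N := by
  induction t with
  | zero => rfl
  | succ t ih =>
    rw [Function.iterate_succ_apply', hf.step _ (h t (by omega)), ih fun i hi => h i (by omega)]

lemma TInv.iter {K : ℕ} {f : ℕ → ℝ} (hf : TInv K f) (t N : ℕ) (h : 2 ^ t * K ≤ N) :
    f (T^[t] N) = f N := hf.iter' t N fun i hi => by
  have h1 := pre_le i N
  have h2 : 2 ^ i * K ≤ 2 ^ t * K :=
    Nat.mul_le_mul_right _ (Nat.pow_le_pow_right (by norm_num) hi.le)
  exact Nat.le_of_mul_le_mul_left (h2.trans (h.trans h1)) (by positivity)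

lemma TInv.tree {K : ℕ} {f : ℕ → ℝ} (hf : TInv K f) {m : ℕ} (hm : K ≤ m)
    (h1 : f (3 * m + 1) = 1) : ∃ c, ∀ τ N, T^[τ] N = 3 * c + 1 → f N = 1 := by
  choose M hM using not_reach (3 * m + 1)
  set I := ∑ e ∈ range K, M e with hI
  have e1 : 3 * rt m I + 1 = 2 ^ (2 * I) * (3 * m + 1) := by rw [rt_eq, pow_mul]; norm_num
  have e2 : T^[2 * I] (3 * rt m I + 1) = 3 * m + 1 := by rw [e1, (halve _ _).1]
  have e3 : f (3 * rt m I + 1) = 1 := by
    rw [← h1, ← e2, hf.iter' (2 * I) _ fun i hi => ?_]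
    obtain ⟨d, hd⟩ : ∃ d, 2 * I = i + d := ⟨2 * I - i, by omega⟩
    rw [e1, hd, pow_add, mul_assoc, (halve _ _).1]
    have : 1 * (3 * m + 1) ≤ 2 ^ d * (3 * m + 1) := Nat.mul_le_mul_right _ Nat.one_le_two_pow
    omega
  refine ⟨rt m I, fun τ N hN => ?_⟩
  rw [← hf.iter' τ N fun i hi => ?_, hN, e3]
  by_contra hc
  have a1 : M (T^[i] N) ≤ I :=
    single_le_sum (f := M) (fun _ _ => Nat.zero_le _) (mem_range.2 (not_le.1 hc))
  have a2 := le_rt m I
  refine hM (T^[i] N) (3 * rt m I + 1) (by omega) ⟨_, e2⟩ (τ - i) ?_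
  rw [← Function.iterate_add_apply, Nat.sub_add_cancel hi.le, hN]

theorem log_mass {f : ℕ → ℝ} (hf : ∀ N, 0 ≤ f N) {c : ℕ}
    (hc1 : ∀ τ N, T^[τ] N = 3 * c + 1 → f N = 1) :
    ∃ a k : ℕ, 0 < a ∧ ∀ n : ℕ,
    (n : ℝ) / (4 * a) ≤ ∑ N ∈ range (2 ^ (2 * n + k)), f N / N := by
  obtain ⟨M, hM⟩ := not_periodic (3 * c + 1)
  obtain ⟨a, s₁, ha, ⟨τ, hτ⟩, h⟩ := exists_root c M
  refine ⟨a, 2 * s₁ + a, by omega, fun n => ?_⟩
  set B := 2 ^ (2 * n + (2 * s₁ + a)) with hB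
  have ha0 : (0 : ℝ) < a := by exact_mod_cast (by omega : 0 < a)
  have h1 : ∀ s ∈ Ico s₁ (s₁ + n), (1 : ℝ) / 4
      ≤ ∑ N ∈ range B, if T^[s + s / 100] N = a then (a : ℝ) / N else 0 := by
    intro s hs
    rw [mem_Ico] at hs
    refine (h s hs.1).trans ?_
    rw [sig, Lf, Lop_eq_sum _ _ _ a B (by
      calc 2 ^ (s + s / 100) * a < 2 ^ (s + s / 100) * 2 ^ a := by
            gcongr; exact Nat.lt_two_pow_self
        _ = 2 ^ (s + s / 100 + a) := by ring
        _ ≤ B := Nat.pow_le_pow_right (by norm_num) (by omega))]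
    refine sum_le_sum fun N _ => ?_
    split_ifs with hN
    · have b1 := iter_formula (s + s / 100) N
      rw [hN] at b1
      have hN0 : 0 < N := by
        rcases Nat.eq_zero_or_pos N with rfl | h
        · rw [iter_zero] at hN; omega
        · exact h
      have b2 : (3 : ℝ) ^ J (s + s / 100) N * N ≤ 2 ^ (s + s / 100) * a := by
        exact_mod_cast (by omega : 3 ^ J (s + s / 100) N * N ≤ 2 ^ (s + s / 100) * a)
      rw [one_mul, mul_one, div_le_div_iff₀ (by positivity) (by exact_mod_cast hN0)]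
      linarith
    · rfl
  have h2 := sum_le_sum h1
  rw [sum_const, Nat.card_Ico, Nat.add_sub_cancel_left, nsmul_eq_mul, sum_comm] at h2
  have h3 : ∀ N ∈ range B, (∑ s ∈ Ico s₁ (s₁ + n),
      if T^[s + s / 100] N = a then (a : ℝ) / N else 0) ≤ a * (f N / N) := by
    intro N _
    rw [← sum_filter, sum_const, nsmul_eq_mul]
    set F := (Ico s₁ (s₁ + n)).filter (fun s => T^[s + s / 100] N = a) with hF
    rcases F.eq_empty_or_nonempty with he | ⟨s, hs⟩
    · rw [he]; simp only [card_empty, Nat.cast_zero, zero_mul]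
      have := hf N
      positivity
    have aux : ∀ u v, u < v → T^[u + u / 100] N = a → T^[v + v / 100] N = a → False := by
      intro u v huv hu hv
      obtain ⟨d, hd⟩ : ∃ d, v + v / 100 = (d + 1) + (u + u / 100) :=
        ⟨v + v / 100 - (u + u / 100) - 1, by omega⟩
      rw [hd, Function.iterate_add_apply, hu] at hv
      exact hM a ha.le ⟨τ, hτ⟩ d hv
    have hc : F.card ≤ 1 := card_le_one.2 fun u hu v hv => by
      have a1 := (mem_filter.1 hu).2
      have a2 := (mem_filter.1 hv).2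
      rcases lt_trichotomy u v with c | c | c
      · exact (aux u v c a1 a2).elim
      · exact c
      · exact (aux v u c a2 a1).elim
    have hS : f N = 1 := hc1 (τ + (s + s / 100)) N (by
      rw [Function.iterate_add_apply, (mem_filter.1 hs).2, hτ])
    have hc' : (F.card : ℝ) ≤ 1 := by exact_mod_cast hc
    rw [hS]
    calc (F.card : ℝ) * (a / N) ≤ 1 * (a / N) := by gcongr
      _ = _ := by ring
  have h4 := h2.trans (sum_le_sum h3)
  rw [← mul_sum] at h4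
  rw [div_le_iff₀ (by positivity)]
  linarith

end Pool.Agent.P.MP_2b866c_nt
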