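import Pool.Agent.P.MP_2b866c_nt.Forget

/-!
A renewal inequality for the truncated height.
-/

set_option autoImplicit false

open Finset

namespace Pool.Agent.P.MP_2b866c_nt

lemma J_mono {s t : ℕ} (h : s ≤ t) (N : ℕ) : J s N ≤ J t N := by
  obtain ⟨d, rfl⟩ : ∃ d, t = d + s := ⟨t - s, by omega⟩
  rw [J_add]; omega

/-- Number of odd steps before the first visit to `1`. -/
noncomputable def Fh (N : ℕ) : ℕ := J (sInf {τ | T^[τ] N = 1}) N

/-- Every positive integer reaches `1`. -/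
def AllReach : Prop := ∀ N, 1 ≤ N → ∃ τ, T^[τ] N = 1

lemma first_sInf {N : ℕ} (h : ∃ τ, T^[τ] N = 1) : First N (sInf {τ | T^[τ] N = 1}) :=
  ⟨Nat.sInf_mem h, fun _ hi hc => Nat.notMem_of_lt_sInf hi hc⟩

lemma Fh_eq {N τ : ℕ} (h : First N τ) : Fh N = J τ N := by
  have h1 := first_sInf ⟨τ, h.1⟩
  have : sInf {τ | T^[τ] N = 1} = τ := by
    rcases lt_trichotomy (sInf {τ | T^[τ] N = 1}) τ with c | c | c
    · exact (h.2 _ c h1.1).elim
    · exact c
    · exact (h1.2 _ c h.1).elim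
  rw [Fh, this]

lemma Fh_le (hall : AllReach) (t : ℕ) {N : ℕ} (hN : 1 ≤ N) : Fh N ≤ J t N + Fh (T^[t] N) := by
  have h1 := first_sInf (hall _ (iter_pos t hN))
  rw [Fh_eq h1, add_comm, ← J_add]
  exact J_mono (Nat.sInf_le (by rw [Set.mem_ofPred_eq, Function.iterate_add_apply]; exact h1.1)) N

lemma Fh_add (hall : AllReach) {t N : ℕ} (hN : 3 ≤ T^[t] N) : Fh N = J t N + Fh (T^[t] N) := by
  have h0 : 1 ≤ N := by
    rcases Nat.eq_zero_or_pos N with rfl | h
    · rw [iter_zero] at hN; omega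
    · exact h
  have h1 := first_sInf (hall _ h0)
  obtain ⟨d, hd, h2⟩ := first_split h1 hN
  rw [Fh_eq h1, Fh_eq h2, hd, J_add, add_comm]

/-- The normalised truncated height. -/
noncomputable def Ph (M : ℝ) (j N : ℕ) : ℝ := min ((j : ℝ) + Fh N) M / M

lemma Ph_nonneg {M : ℝ} (hM : 0 < M) (j N : ℕ) : 0 ≤ Ph M j N :=
  div_nonneg (le_min (by positivity) hM.le) hM.le

lemma Ph_le_one {M : ℝ} (hM : 0 < M) (j N : ℕ) : Ph M j N ≤ 1 :=
  (div_le_one hM).2 (min_le_right _ _)

lemma forget_Ph (hall : AllReach) (A : ℕ) : ∃ C : ℝ, 0 ≤ C ∧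
    ∀ (t m : ℕ) (h : ℕ → ℝ) (y M : ℝ), 1 ≤ t → m ^ 2 ≤ t → 0 < y →
    (t : ℝ) ≤ Real.log y / 10 → (∀ Y, 0 ≤ h Y) → Per m h → 0 < M →
    Sm (Ph M 0) h y ≤ avg m h * (Sm (Ph M 0) (fun _ => 1) y + C / t ^ A * y) := by
  obtain ⟨C, hC0, hC⟩ := forget A
  obtain ⟨K, hK0, hK⟩ := Er_pow A
  refine ⟨C + K, by positivity, fun t m h y M ht hm hy hL h0 hh hM => ?_⟩
  have a1 := hC t m h y (Ph M) ht hm hy hL h0 hh (Ph_nonneg hM) (Ph_le_one hM)
  have a2 : Sm (Ph M 0) h y ≤ ∑ N ∈ Icc 1 ⌊y⌋₊, h N * Ph M (J t N) (T^[t] N) := by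
    refine sum_le_sum fun N hN => mul_le_mul_of_nonneg_left ?_ (h0 N)
    refine div_le_div_of_nonneg_right (min_le_min ?_ le_rfl) hM.le
    exact_mod_cast (by have := Fh_le hall t (mem_Icc.1 hN).1; omega)
  have a3 : ∑ N ∈ Icc 1 ⌊y⌋₊, Ph M (J t N) (T^[t] N)
      ≤ ∑ N ∈ Icc 1 ⌊y⌋₊, (1 * Ph M 0 N + if N < 2 ^ t * 3 then 1 else 0) := by
    refine sum_le_sum fun N _ => ?_
    split_ifs with hN
    · linarith [Ph_le_one hM (J t N) (T^[t] N), Ph_nonneg hM 0 N]
    · have b1 := pre_le t N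
      have b2 : 3 ≤ T^[t] N :=
        Nat.le_of_mul_le_mul_left ((not_lt.1 hN).trans b1) (by positivity)
      simp [Ph, Fh_add hall b2]
  have a4 : ∑ N ∈ Icc 1 ⌊y⌋₊, (if N < 2 ^ t * 3 then (1 : ℝ) else 0) ≤ Er t 0 := by
    rw [← sum_filter, sum_const, nsmul_eq_mul, mul_one]
    have : ((Icc 1 ⌊y⌋₊).filter (fun N => N < 2 ^ t * 3)).card ≤ (range (2 ^ t * 3)).card :=
      card_le_card fun N hN => mem_range.2 (mem_filter.1 hN).2
    rw [card_range] at this
    refine (Nat.cast_le.2 this).trans ?_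
    push_cast
    unfold Er
    gcongr
    linarith [one_le_pow₀ (n := t) (show (1 : ℝ) ≤ 3 by norm_num),
      one_le_pow₀ (n := t + 0) (show (1 : ℝ) ≤ 3 by norm_num)]
  have a5 := (hK t 0 y ht (by omega) hy hL).1
  rw [sum_add_distrib] at a3
  refine a2.trans (a1.trans (mul_le_mul_of_nonneg_left ?_ (avg_nonneg h0)))
  rw [add_div]
  unfold Sm
  linarith

lemma Bn_id (t : ℕ) : Bn t (fun e => (e : ℝ)) = t / 2 := by
  rcases t with _ | t
  · simp
  · have := Bn_size_one t (fun _ => 1)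
    simp only [one_mul, Bn_const, mul_one] at this
    rw [this]; push_cast; ring

theorem trunc (hall : AllReach) (A : ℕ) (hA : 1 ≤ A) : ∃ C : ℝ, 0 ≤ C ∧
    ∀ M L₀ W : ℝ, 1000 ≤ L₀ → 0 ≤ W → 0 < M →
    (∀ y : ℝ, 0 < y → 9 / 10 * L₀ ≤ Real.log y → Real.log y ≤ L₀ →
      M * Sm (Ph M 0) (fun _ => 1) y ≤ W * y) →
    ∀ x : ℝ, 0 < x → L₀ ≤ Real.log x → Real.log x ≤ M → M * Sm (Ph M 0) (fun _ => 1) x
      ≤ (W + Real.log x / Real.log (4 / 3) + M * (C / L₀ ^ A)) * x := by
  obtain ⟨C₁, hC₁0, hC₁⟩ := mix A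
  obtain ⟨C₂, hC₂0, hC₂⟩ := forget_Ph hall A
  obtain ⟨K₃, hK₃0, hK₃⟩ := Er_pow A
  set K₂ : ℝ := A.factorial / (2 * (1 / 100) ^ 2) ^ A with hK₂
  have hK₂0 : 0 ≤ K₂ := by positivity
  set C₃ : ℝ := (3 * K₃ + 2 * C₁ + C₂ + 4 * K₂) * 20 ^ A with hC₃
  have hC₃0 : 0 ≤ C₃ := by positivity
  set K := 99 * C₃ with hK
  have hK0 : 0 ≤ K := by positivity
  refine ⟨K * (10 / 9) ^ A, by positivity, fun M L₀ W hL2 hW hM hbase => ?_⟩
  set δ := K / (9 / 10 * L₀) ^ A with hδ
  have l3 := lam_ge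
  have l4 := lam_le
  set b := Real.log (4 / 3) with hb
  have hb0 : 0 < b := by linarith
  have hδL : ∀ l : ℝ, 9 / 10 * L₀ ≤ l → 0 ≤ δ - K / l ^ A := by
    intro l hl
    have : K / l ^ A ≤ K / (9 / 10 * L₀) ^ A := by gcongr
    linarith
  have main : ∀ n : ℕ, ∀ x : ℝ, 0 < x → 9 / 10 * L₀ ≤ Real.log x → Real.log x ≤ n →
      Real.log x ≤ M → M * Sm (Ph M 0) (fun _ => 1) x
        ≤ (W + Real.log x / b + M * (δ - K / Real.log x ^ A)) * x := by
    intro n
    induction n with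
    | zero => intro x _ h1 h2; simp only [Nat.cast_zero] at h2; linarith
    | succ n ih =>
    intro x hx hL hLn hLM
    set L := Real.log x with hLdef
    have hL9 : 900 ≤ L := by linarith
    by_cases hLL : L ≤ L₀
    · refine (hbase x hx hL hLL).trans ?_
      have := hδL L hL
      gcongr
      have : 0 ≤ L / b := by positivity
      have : 0 ≤ M * (δ - K / L ^ A) := by positivity
      linarith
    push Not at hLL
    set t := ⌊L / 10⌋₊ with ht
    have ht1 : (t : ℝ) ≤ L / 10 := Nat.floor_le (by linarith)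
    have ht2 : L / 10 < t + 1 := Nat.lt_floor_add_one _
    have ht3 : L / 20 ≤ t := by linarith
    have ht0 : (0 : ℝ) < t := by linarith
    have ht4 : 1 ≤ t := by exact_mod_cast (by linarith : (1 : ℝ) ≤ t)
    obtain ⟨hE2, hE3⟩ := hK₃ t 0 x ht4 (by omega) hx ht1
    set E := Er t 0 with hE
    have hE0 : 0 ≤ E := by rw [hE, Er]; positivity
    set m' := Nat.sqrt (Nat.sqrt t) with hm'
    have hm'1 : m' ≤ t + 0 := by
      have := Nat.sqrt_le_self (Nat.sqrt t)
      have := Nat.sqrt_le_self t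
      omega
    have hm'2 : 2 * m' ^ 2 ≤ t := by
      have a1 := Nat.sqrt_le' (Nat.sqrt t)
      have a2 := Nat.sqrt_le' t
      have a3 : 4 ≤ t := by exact_mod_cast (by linarith : (4 : ℝ) ≤ t)
      have a4 : 2 ≤ Nat.sqrt t := Nat.le_sqrt'.2 (by omega)
      nlinarith
    have h0 : ∀ Y : ℕ, 0 ≤ (fun _ : ℕ => (1 : ℝ)) Y := fun _ => zero_le_one
    have hh := per_const 1
    have hmix := hC₁ t 0 m' _ ht4 (by simp) quarter_root hm'1 h0 hh
    rw [avg_const, mul_one] at hmix
    set typ : ℕ → Prop := fun j => |(j : ℝ) - t / 2| ≤ 1 / 100 * t with htyp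
    have s1 : M * Sm (Ph M 0) (fun _ => 1) x ≤ ∑ j ∈ range (t + 1), ∑ N ∈ Icc 1 ⌊x⌋₊,
        if J t N = j then (j : ℝ) + M * Ph M 0 (T^[t] N) else 0 := by
      rw [← sum_split_J t _ (fun j N => (j : ℝ) + M * Ph M 0 (T^[t] N)), Sm, mul_sum]
      refine sum_le_sum fun N hN => ?_
      have c1 : (Fh N : ℝ) ≤ J t N + Fh (T^[t] N) := by
        exact_mod_cast Fh_le hall t (mem_Icc.1 hN).1
      have c2 : (0 : ℝ) ≤ J t N := Nat.cast_nonneg _
      simp only [Ph, one_mul, mul_div_cancel₀ _ hM.ne', Nat.cast_zero, zero_add]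
      rw [← min_add_add_left]
      exact min_le_min c1 (by linarith)
    set l : ℝ := 99 / 100 * L with hl
    have hδl := hδL l (by linarith)
    have s5 : ∀ (c : ℝ) (u : ℕ), 0 ≤ c → L / 20 ≤ u → c / (u : ℝ) ^ A ≤ c * 20 ^ A / L ^ A := by
      intro c u hc hu
      calc c / (u : ℝ) ^ A ≤ c / (L / 20) ^ A := by gcongr
        _ = _ := by rw [div_pow]; field_simp
    have l1 := Real.log_two_gt_d9
    have l2 := Real.log_two_lt_d9
    set R : ℝ := W + (L - t * Real.log 2) / b + M * (δ - K / l ^ A)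
      + M * (C₂ * 20 ^ A / L ^ A) with hR
    have s2 : ∀ j ∈ range (t + 1), (∑ N ∈ Icc 1 ⌊x⌋₊,
        if J t N = j then (j : ℝ) + M * Ph M 0 (T^[t] N) else 0)
        ≤ (x * R + 3 * M * E) * pb t j + x * (1 + Real.log 3 / b) * (pb t j * j)
          + 2 * x * M * avg (t + 0) (fun Y =>
            |gj t j (fun _ => 1) Y - Pr (t + 0) m' (gj t j (fun _ => 1)) Y|)
          + 2 * x * M * (pb t j * if ¬ typ j then 1 else 0) := by
      intro j hj
      have hj' : j ≤ t := by simpa [Nat.lt_succ_iff] using hj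
      have hj0 : (0 : ℝ) ≤ j := Nat.cast_nonneg _
      have hjM : (j : ℝ) ≤ M := by
        have : (j : ℝ) ≤ t := by exact_mod_cast hj'
        linarith
      have c0 := (abs_le.1 (block (Φ := fun _ => 1) hj' hh h0 h0 (fun _ => le_rfl) x hx.le)).2
      have c1 := (abs_le.1 (block hj' hh h0 (Ph_nonneg hM 0) (Ph_le_one hM 0) x hx.le)).2
      rw [avg_const] at c0 c1
      have c3 := scale_le t j 0 x
      change _ ≤ E * _ at c0 c1
      simp only [one_mul, mul_one] at c0 c1
      rw [← hE] at c3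
      set y : ℝ := 3 ^ j * x / 2 ^ t with hy
      have hy0 : 0 < y := by positivity
      have c2 : (2 : ℝ) ^ t / 3 ^ j * y = x := by rw [hy]; field_simp
      have hp := pb_nonneg t j
      have hg := gj_per (t := t) hh (show 0 + j ≤ t + 0 by omega)
      have ha := avg_gj (t := t) hh (show 0 + j ≤ t + 0 by omega)
      rw [avg_const, mul_one] at ha
      set εj := avg (t + 0) (fun Y =>
        |gj t j (fun _ => 1) Y - Pr (t + 0) m' (gj t j (fun _ => 1)) Y|) with hεj
      have hεj0 : 0 ≤ εj := avg_nonneg fun _ => abs_nonneg _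
      have q3 : (0 : ℝ) < 2 ^ t / 3 ^ j := by positivity
      have triv : ∀ Φ : ℕ → ℝ, (∀ Y, Φ Y ≤ 1) →
          2 ^ t / 3 ^ j * Sm Φ (gj t j (fun _ => 1)) y ≤ (x + E) * pb t j := by
        intro Φ hΦ
        have d1 := Sm_le hg (gj_nonneg t j h0) hΦ y hy0.le
        rw [ha] at d1
        have d6 := mul_le_mul_of_nonneg_left d1 q3.le
        have d8 := mul_le_mul_of_nonneg_right c3 hp
        linarith
      have e0 : (∑ N ∈ Icc 1 ⌊x⌋₊, if J t N = j then (j : ℝ) + M * Ph M 0 (T^[t] N) else 0)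
          = j * (∑ N ∈ Icc 1 ⌊x⌋₊, if J t N = j then 1 else 0)
            + M * ∑ N ∈ Icc 1 ⌊x⌋₊, if J t N = j then Ph M 0 (T^[t] N) else 0 := by
        rw [mul_sum, mul_sum, ← sum_add_distrib]
        refine sum_congr rfl fun N _ => ?_
        split_ifs <;> ring
      have e1 := mul_le_mul_of_nonneg_left (show (∑ N ∈ Icc 1 ⌊x⌋₊,
        if J t N = j then (1 : ℝ) else 0) ≤ (x + 2 * E) * pb t j by
          linarith [triv (fun _ => 1) (fun _ => le_rfl)]) hj0
      have e2 := mul_le_mul_of_nonneg_right hjM (mul_nonneg hE0 hp)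
      have e3 := mul_le_mul_of_nonneg_left c1 hM.le
      have q2 : 0 ≤ x * M * εj := by positivity
      rw [e0]
      by_cases h4 : typ j
      · have d1 := (abs_le.1 (Sm_sub_le hg ((Pr_per (t + 0) m' _).mono hm'1)
          (g' := Pr (t + 0) m' (gj t j (fun _ => 1)))
          (Ph_nonneg hM 0) (Ph_le_one hM 0) y hy0.le)).2
        have ly' := log_scale j t hx
        rw [← hy, ← hLdef] at ly'
        have ly := ly'
        rw [log_three_eq, ← hb] at ly
        have h5 := (abs_le.1 h4).2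
        have h6 : (j : ℝ) ≤ 51 / 100 * t := by linarith
        have ly1 : 93 / 100 * L ≤ Real.log y := by nlinarith
        have ly2 : Real.log y ≤ l := by
          have u1 : (j : ℝ) * (2 * Real.log 2 - b) ≤ 51 / 100 * t * (2 * Real.log 2 - b) := by
            gcongr; linarith
          nlinarith
        have d2 := ih y hy0 (by linarith) (by push_cast at hLn; linarith) (by linarith)
        have t1 : ((⌊Real.log y / 10⌋₊ : ℕ) : ℝ) ≤ Real.log y / 10 := Nat.floor_le (by linarith)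
        have t2 := Nat.lt_floor_add_one (Real.log y / 10)
        have d2' := hC₂ ⌊Real.log y / 10⌋₊ m' (Pr (t + 0) m' (gj t j (fun _ => 1))) y M
          (Nat.le_floor (by push_cast; linarith)) (Nat.le_floor (by
            have : (2 : ℝ) * m' ^ 2 ≤ t := by exact_mod_cast hm'2
            push_cast; linarith)) hy0 t1 (Pr_nonneg _ _ (gj_nonneg t j h0)) (Pr_per _ _ _) hM
        rw [← avg_eq (Pr_per _ _ _) hm'1, avg_Pr hm'1, ha] at d2'
        have d3 : K / l ^ A ≤ K / Real.log y ^ A := by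
          have : 0 < Real.log y := by linarith
          gcongr
        have d4 := s5 C₂ ⌊Real.log y / 10⌋₊ hC₂0 (by linarith)
        have d5 : M * (Sm (Ph M 0) (fun _ => 1) y + C₂ / (⌊Real.log y / 10⌋₊ : ℝ) ^ A * y)
            ≤ (R + j * (Real.log 3 / b)) * y := by
          have f1 := mul_le_mul_of_nonneg_left d3 (mul_nonneg hM.le hy0.le)
          have f2 := mul_le_mul_of_nonneg_left d4 (mul_nonneg hM.le hy0.le)
          have f3 : Real.log y / b = (L - t * Real.log 2) / b + j * (Real.log 3 / b) := by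
            rw [ly']; ring
          rw [f3] at d2
          rw [hR]; linarith
        have d6 : M * Sm (Ph M 0) (gj t j (fun _ => 1)) y ≤ pb t j *
            ((R + j * (Real.log 3 / b)) * y) + M * ((y + 1 + 3 ^ (t + 0)) * εj) := by
          have f1 := mul_le_mul_of_nonneg_left d1 hM.le
          have f2 := mul_le_mul_of_nonneg_left d2' hM.le
          have f3 := mul_le_mul_of_nonneg_left d5 hp
          linarith
        have d7 := mul_le_mul_of_nonneg_left d6 q3.le
        have d8 := mul_le_mul_of_nonneg_right (c3.trans (by linarith : _ ≤ 2 * x))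
          (mul_nonneg hM.le hεj0)
        have d9 : (2 : ℝ) ^ t / 3 ^ j * (pb t j * ((R + j * (Real.log 3 / b)) * y))
            = pb t j * ((R + j * (Real.log 3 / b)) * x) := by rw [← c2]; ring
        simp only [h4, not_true, if_false, mul_zero, add_zero]
        linarith
      · have d1 := mul_le_mul_of_nonneg_left (triv _ (Ph_le_one hM 0)) hM.le
        have d2 := mul_le_mul_of_nonneg_left hE3 (mul_nonneg hM.le hp)
        have d3 : 0 ≤ R := by
          have : 0 ≤ L - t * Real.log 2 := by nlinarith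
          rw [hR]; positivity
        have d4 : 0 ≤ x * R * pb t j := by positivity
        have d5 : 0 ≤ Real.log 3 := Real.log_nonneg (by norm_num)
        have d6 : 0 ≤ x * (Real.log 3 / b) * (pb t j * j) := by positivity
        simp only [h4, not_false_eq_true, if_true, mul_one]
        linarith
    have s3 := sum_le_sum s2
    rw [sum_add_distrib, sum_add_distrib, sum_add_distrib, ← mul_sum, ← mul_sum, ← mul_sum,
      ← mul_sum, sum_pb t _ (by omega), ← Bn_eq_sum t _ (by omega), ← Bn_eq_sum t _ (by omega),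
      Bn_id] at s3
    have s4 : Bn t (fun j => if ¬ typ j then 1 else 0) ≤ 2 * (K₂ / t ^ A) := by
      have a1 := hoeff_up t t (1 / 100 * t) le_rfl ht0 (by positivity)
        (fun j => (t : ℝ) / 2 + 1 / 100 * t ≤ j) (fun _ h => h)
      have a2 := hoeff_down t t (1 / 100 * t) le_rfl ht0 (by positivity)
        (fun j => (j : ℝ) ≤ (t : ℝ) / 2 - 1 / 100 * t) (fun _ h => h)
      have a3 : 2 * (1 / 100 * (t : ℝ)) ^ 2 / t = 2 * (1 / 100) ^ 2 * t := by field_simp
      rw [a3] at a1 a2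
      have a4 := exp_neg_le (2 * (1 / 100) ^ 2) (by positivity) A t ht0
      rw [← hK₂] at a4
      have a5 : Bn t (fun j => if ¬ typ j then 1 else 0) ≤ Bn t (fun j =>
          (if (t : ℝ) / 2 + 1 / 100 * t ≤ j then 1 else 0)
            + if (j : ℝ) ≤ (t : ℝ) / 2 - 1 / 100 * t then 1 else 0) := by
        refine Bn_mono fun e _ => ?_
        by_cases b1 : (t : ℝ) / 2 + 1 / 100 * t ≤ e
        · rw [if_pos b1]; split_ifs <;> norm_num
        · by_cases b2 : (e : ℝ) ≤ (t : ℝ) / 2 - 1 / 100 * t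
          · rw [if_pos b2]; split_ifs <;> norm_num
          · have : typ e := by
              simp only [htyp]; rw [abs_le]; constructor <;> linarith
            rw [if_neg (not_not.2 this), if_neg b1, if_neg b2]; norm_num
      rw [Bn_add] at a5
      linarith
    have s6 := s5 C₁ t hC₁0 ht3
    have s7 := s5 K₂ t hK₂0 ht3
    have s7' := s5 K₃ t hK₃0 ht3
    have s8 := gap_le hA hK0 (show 0 < l by linarith) hl.le
    have s9 : K / (99 * L ^ A) = 3 * (K₃ * 20 ^ A / L ^ A) + 2 * (C₁ * 20 ^ A / L ^ A)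
        + C₂ * 20 ^ A / L ^ A + 4 * (K₂ * 20 ^ A / L ^ A) := by rw [hK, hC₃]; field_simp
    have xM : 0 ≤ x * M := by positivity
    have u1 := mul_le_mul_of_nonneg_left (hE2.trans (mul_le_mul_of_nonneg_right s7' hx.le)) hM.le
    have u2 := mul_le_mul_of_nonneg_left (hmix.trans s6) xM
    have u3 := mul_le_mul_of_nonneg_left (s4.trans (mul_le_mul_of_nonneg_left s7 zero_le_two)) xM
    have u4 := mul_le_mul_of_nonneg_left s8 xM
    have u5 : (L - t * Real.log 2) / b + (1 + Real.log 3 / b) * (t / 2) = L / b := by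
      rw [log_three_eq, ← hb]; field_simp; ring
    rw [s9] at u4
    rw [hR] at s3
    rw [← u5]
    linarith
  intro x hx hL hLM
  refine (main ⌈Real.log x⌉₊ x hx (by linarith) (Nat.le_ceil _) hLM).trans ?_
  have e : δ = K * (10 / 9) ^ A / L₀ ^ A := by
    rw [hδ, mul_pow, show (10 / 9 : ℝ) = (9 / 10)⁻¹ by norm_num, inv_pow]; field_simp
  have : 0 ≤ K / Real.log x ^ A := by
    have : 0 ≤ Real.log x := by linarith
    positivity
  rw [← e]
  gcongr
  linarith

end Pool.Agent.P.MP_2b866c_nt
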