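import Pool.Agent.P.MP_2b866c_nt.Per

/-!
The killed walk on frequencies modulo `3^N` and the arithmetic of black states.
-/

set_option autoImplicit false

open Finset

namespace Pool.Agent.P.MP_2b866c_nt

/-- The standard character modulo `3^N`. -/
noncomputable def psi (N : ℕ) (z : ZMod (3 ^ N)) : ℂ := ZMod.stdAddChar z

lemma psi_add (N : ℕ) (a b : ZMod (3 ^ N)) : psi N (a + b) = psi N a * psi N b :=
  AddChar.map_add_eq_mul _ a b

lemma psi_zero (N : ℕ) : psi N 0 = 1 := AddChar.map_zero_eq_one _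

lemma norm_psi (N : ℕ) (a : ZMod (3 ^ N)) : ‖psi N a‖ = 1 := by
  simp [psi, ZMod.stdAddChar_apply]

/-- Survival factor. -/
noncomputable def kap (N : ℕ) (z : ZMod (3 ^ N)) : ℝ := ‖1 + psi N z‖ / 2

lemma kap_nonneg (N : ℕ) (z : ZMod (3 ^ N)) : 0 ≤ kap N z := by unfold kap; positivity

lemma kap_le_one (N : ℕ) (z : ZMod (3 ^ N)) : kap N z ≤ 1 := by
  unfold kap
  have := norm_add_le (1 : ℂ) (psi N z)
  rw [norm_psi, norm_one] at this
  linarith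

/-- A state is black when its frequency is close to an integer. -/
def black (N : ℕ) (ε : ℝ) (z : ZMod (3 ^ N)) : Prop := |(z.valMinAbs : ℝ)| ≤ ε * 3 ^ N

lemma abs_valMinAbs_le (N : ℕ) (z : ZMod (3 ^ N)) : |(z.valMinAbs : ℝ)| ≤ 3 ^ N / 2 := by
  have h := ZMod.natAbs_valMinAbs_le z
  have h2 : 2 * z.valMinAbs.natAbs ≤ 3 ^ N := by omega
  have h3 : (2 : ℝ) * z.valMinAbs.natAbs ≤ 3 ^ N := by exact_mod_cast h2
  rw [Nat.cast_natAbs, Int.cast_abs] at h3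
  linarith

lemma kap_white (N : ℕ) (ε : ℝ) (hε : 0 ≤ ε) (z : ZMod (3 ^ N)) (hz : ¬ black N ε z) :
    kap N z ≤ 1 - 2 * ε ^ 2 := by
  unfold black at hz
  push Not at hz
  set r := z.valMinAbs with hr
  have hq : (0 : ℝ) < 3 ^ N := by positivity
  set θ : ℝ := 2 * Real.pi * r / 3 ^ N with hθ
  have h1 : psi N z = Complex.exp (θ * Complex.I) := by
    rw [psi, ← ZMod.coe_valMinAbs z, ZMod.stdAddChar_coe, hθ]
    congr 1; push_cast; ring
  have h2 : ‖1 + psi N z‖ ^ 2 = 2 + 2 * Real.cos θ := by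
    rw [h1, Complex.exp_mul_I, Complex.sq_norm, Complex.normSq_apply]
    simp only [Complex.add_re, Complex.one_re, Complex.cos_ofReal_re, Complex.mul_re,
      Complex.sin_ofReal_re, Complex.I_re, Complex.sin_ofReal_im, Complex.I_im, Complex.add_im,
      Complex.one_im, Complex.cos_ofReal_im, Complex.mul_im]
    nlinarith [Real.cos_sq_add_sin_sq θ]
  have hpi := Real.pi_pos
  have h3 : |θ| ≤ Real.pi := by
    rw [hθ, abs_div, abs_mul, abs_of_pos (by positivity : 0 < 2 * Real.pi), abs_of_pos hq,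
      div_le_iff₀ hq]
    have := abs_valMinAbs_le N z
    nlinarith
  have h4 := Real.cos_le_one_sub_mul_cos_sq h3
  have h5 : 2 / Real.pi ^ 2 * θ ^ 2 = 8 * (|(r : ℝ)| / 3 ^ N) ^ 2 := by
    rw [hθ, div_pow, div_pow, sq_abs]; field_simp; ring
  have h6 : ε ≤ |(r : ℝ)| / 3 ^ N := by rw [le_div_iff₀ hq]; exact hz.le
  have h7 : ε ^ 2 ≤ (|(r : ℝ)| / 3 ^ N) ^ 2 := by gcongr
  unfold kap
  nlinarith [sq_nonneg (‖1 + psi N z‖ - 2)]

/-- One pair-step of the killed walk. -/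
noncomputable def Pk (N : ℕ) (f : ZMod (3 ^ N) → ℝ) (z : ZMod (3 ^ N)) : ℝ :=
  f (w N ^ 2 * z) / 4 + kap N z * f (3 * w N ^ 2 * z) / 2 + f (9 * w N ^ 2 * z) / 4

/-- Position after `k` pair-steps containing `e` ones. -/
noncomputable def mv (N e k : ℕ) (z : ZMod (3 ^ N)) : ZMod (3 ^ N) := 3 ^ e * w N ^ (2 * k) * z

lemma mv_zero (N : ℕ) (z : ZMod (3 ^ N)) : mv N 0 0 z = z := by simp [mv]
lemma mv_a (N e k : ℕ) (z : ZMod (3 ^ N)) : mv N e k (w N ^ 2 * z) = mv N e (k + 1) z := by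
  simp only [mv]; ring
lemma mv_b (N e k : ℕ) (z : ZMod (3 ^ N)) :
    mv N e k (3 * w N ^ 2 * z) = mv N (e + 1) (k + 1) z := by
  simp only [mv]; ring
lemma mv_c (N e k : ℕ) (z : ZMod (3 ^ N)) :
    mv N e k (9 * w N ^ 2 * z) = mv N (e + 2) (k + 1) z := by
  simp only [mv]; ring

lemma Pk_succ (N k : ℕ) (f : ZMod (3 ^ N) → ℝ) (z : ZMod (3 ^ N)) :
    (Pk N)^[k + 1] f z = (Pk N)^[k] f (w N ^ 2 * z) / 4
      + kap N z * (Pk N)^[k] f (3 * w N ^ 2 * z) / 2 + (Pk N)^[k] f (9 * w N ^ 2 * z) / 4 := by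
  rw [Function.iterate_succ_apply', Pk]

lemma Pk_mono (N k : ℕ) (f g : ZMod (3 ^ N) → ℝ) (z : ZMod (3 ^ N))
    (h : ∀ e ≤ 2 * k, f (mv N e k z) ≤ g (mv N e k z)) :
    (Pk N)^[k] f z ≤ (Pk N)^[k] g z := by
  induction k generalizing z with
  | zero => simpa [mv_zero] using h 0 le_rfl
  | succ k ih =>
    rw [Pk_succ, Pk_succ]
    have h1 := ih (w N ^ 2 * z) fun e he => by rw [mv_a]; exact h e (by omega)
    have h2 := ih (3 * w N ^ 2 * z) fun e he => by rw [mv_b]; exact h _ (by omega)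
    have h3 := ih (9 * w N ^ 2 * z) fun e he => by rw [mv_c]; exact h _ (by omega)
    have := kap_nonneg N z
    gcongr

lemma Pk_lin (N k : ℕ) (a b : ℝ) (f g : ZMod (3 ^ N) → ℝ) (z : ZMod (3 ^ N)) :
    (Pk N)^[k] (fun y => a * f y + b * g y) z = a * (Pk N)^[k] f z + b * (Pk N)^[k] g z := by
  induction k generalizing z with
  | zero => simp
  | succ k ih => simp only [Pk_succ, ih]; ring

lemma Pk_nonneg (N k : ℕ) (f : ZMod (3 ^ N) → ℝ) (hf : ∀ y, 0 ≤ f y) (z : ZMod (3 ^ N)) :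
    0 ≤ (Pk N)^[k] f z := by
  induction k generalizing z with
  | zero => simpa using hf z
  | succ k ih =>
    rw [Pk_succ]
    have := kap_nonneg N z
    have := ih (w N ^ 2 * z)
    have := ih (3 * w N ^ 2 * z)
    have := ih (9 * w N ^ 2 * z)
    positivity

lemma Pk_le_Bn (N k : ℕ) (f : ZMod (3 ^ N) → ℝ) (hf : ∀ y, 0 ≤ f y) (z : ZMod (3 ^ N)) :
    (Pk N)^[k] f z ≤ Bn (2 * k) (fun e => f (mv N e k z)) := by
  induction k generalizing z with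
  | zero => simp [mv_zero]
  | succ k ih =>
    rw [Pk_succ, show 2 * (k + 1) = 2 * k + 1 + 1 by ring, Bn_succ, Bn_succ, Bn_succ]
    have h1 := ih (w N ^ 2 * z)
    have h2 := ih (3 * w N ^ 2 * z)
    have h3 := ih (9 * w N ^ 2 * z)
    simp only [mv_a, mv_b, mv_c] at h1 h2 h3
    have h4 := Pk_nonneg N k f hf (3 * w N ^ 2 * z)
    have h5 := kap_le_one N z
    have h6 : kap N z * (Pk N)^[k] f (3 * w N ^ 2 * z) ≤ (Pk N)^[k] f (3 * w N ^ 2 * z) := by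
      nlinarith
    simp only [add_assoc] at *
    linarith

lemma Pk_le_const (N k : ℕ) (f : ZMod (3 ^ N) → ℝ) (hf : ∀ y, 0 ≤ f y) (c : ℝ)
    (hc : ∀ y, f y ≤ c) (z : ZMod (3 ^ N)) : (Pk N)^[k] f z ≤ c :=
  (Pk_le_Bn N k f hf z).trans (Bn_le_const fun _ _ => hc _)

/-- Survival probability after `k` pair-steps. -/
noncomputable def sv (N k : ℕ) (z : ZMod (3 ^ N)) : ℝ := (Pk N)^[k] (fun _ => 1) z

lemma sv_nonneg (N k : ℕ) (z : ZMod (3 ^ N)) : 0 ≤ sv N k z :=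
  Pk_nonneg N k _ (fun _ => zero_le_one) z

lemma sv_le_one (N k : ℕ) (z : ZMod (3 ^ N)) : sv N k z ≤ 1 :=
  Pk_le_const N k _ (fun _ => zero_le_one) 1 (fun _ => le_rfl) z

lemma sv_add (N k l : ℕ) (z : ZMod (3 ^ N)) : sv N (k + l) z = (Pk N)^[k] (sv N l) z := by
  unfold sv; rw [Function.iterate_add_apply]

lemma sv_anti (N : ℕ) {k l : ℕ} (h : k ≤ l) (z : ZMod (3 ^ N)) : sv N l z ≤ sv N k z := by
  obtain ⟨d, rfl⟩ := Nat.exists_eq_add_of_le h
  rw [sv_add]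
  exact Pk_mono N k _ _ z fun e _ => sv_le_one N d _

lemma Pk_le_mul_sv (N k : ℕ) (f : ZMod (3 ^ N) → ℝ) (z : ZMod (3 ^ N)) (M : ℝ)
    (h : ∀ e ≤ 2 * k, f (mv N e k z) ≤ M) : (Pk N)^[k] f z ≤ M * sv N k z := by
  have h1 := Pk_lin N k M 0 (fun _ => 1) (fun _ => 1) z
  have h2 := Pk_mono N k f (fun _ => M * 1 + 0 * 1) z fun e he => by simpa using h e he
  unfold sv
  linarith

/-- The level of a frequency. -/
noncomputable def lev (N : ℕ) (z : ZMod (3 ^ N)) : ℕ :=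
  Nat.find (⟨N, by rw [three_pow_cast, zero_mul]⟩ : ∃ n, (3 : ZMod (3 ^ N)) ^ n * z = 0)

lemma lev_le_iff {N : ℕ} {z : ZMod (3 ^ N)} {n : ℕ} :
    lev N z ≤ n ↔ (3 : ZMod (3 ^ N)) ^ n * z = 0 := by
  constructor
  · intro h
    obtain ⟨d, rfl⟩ := Nat.exists_eq_add_of_le h
    have := Nat.find_spec
      (⟨N, by rw [three_pow_cast, zero_mul]⟩ : ∃ n, (3 : ZMod (3 ^ N)) ^ n * z = 0)
    rw [pow_add, mul_comm (3 ^ _), mul_assoc]
    unfold lev
    rw [this, mul_zero]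
  · intro h; exact Nat.find_min' _ h

lemma lev_mul (N e k : ℕ) (z : ZMod (3 ^ N)) : lev N (3 ^ e * w N ^ k * z) = lev N z - e := by
  refine eq_of_forall_ge_iff fun n => ?_
  rw [Nat.sub_le_iff_le_add, lev_le_iff, lev_le_iff]
  have := two_pow_mul_w N k
  constructor
  · intro h
    linear_combination 2 ^ k * h - 3 ^ (n + e) * z * this
  · intro h
    linear_combination w N ^ k * h

lemma lev_mv (N e k : ℕ) (z : ZMod (3 ^ N)) : lev N (mv N e k z) = lev N z - e := lev_mul _ _ _ _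

lemma three_five_le (k : ℕ) : 3 ^ (5 * k) ≤ 2 ^ (8 * k) := by
  rw [pow_mul, pow_mul]
  exact Nat.pow_le_pow_left (by norm_num) k

lemma exists_odd_part (N : ℕ) (z : ZMod (3 ^ N)) (hz : 1 ≤ lev N z) :
    ∃ (u : ℕ) (r : ℤ), Odd r ∧ z.valMinAbs = 2 ^ u * r ∧ 5 * u ≤ 8 * lev N z := by
  have hz0 : z ≠ 0 := by
    rintro rfl
    have : lev N (0 : ZMod (3 ^ N)) ≤ 0 := lev_le_iff.2 (by simp)
    omega
  have h0 : z.valMinAbs.natAbs ≠ 0 := by
    rwa [Ne, Int.natAbs_eq_zero, ZMod.valMinAbs_eq_zero]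
  obtain ⟨u, m, hm, hum⟩ := Nat.exists_eq_two_pow_mul_odd h0
  obtain ⟨r, hr, hzr, hrm⟩ : ∃ r : ℤ, Odd r ∧ z.valMinAbs = 2 ^ u * r ∧ r.natAbs = m := by
    rcases Int.natAbs_eq z.valMinAbs with h | h
    · exact ⟨m, by exact_mod_cast hm, by rw [h, hum]; push_cast; ring, by simp⟩
    · exact ⟨-m, Odd.neg (by exact_mod_cast hm), by rw [h, hum]; push_cast; ring, by simp⟩
  refine ⟨u, r, hr, hzr, ?_⟩
  have h1 : (3 : ZMod (3 ^ N)) ^ lev N z * z = 0 := lev_le_iff.1 le_rfl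
  have h2 : z = 2 ^ u * (r : ZMod (3 ^ N)) := by
    rw [← ZMod.coe_valMinAbs z, hzr]; push_cast; ring
  have h3 : (((3 ^ lev N z * r : ℤ)) : ZMod (3 ^ N)) = 0 := by
    push_cast
    have := two_pow_mul_w N u
    linear_combination w N ^ u * h1 - 3 ^ lev N z * r * this - 3 ^ lev N z * w N ^ u * h2
  rw [ZMod.intCast_zmod_eq_zero_iff_dvd, ← Int.natAbs_dvd_natAbs, Int.natAbs_mul, hrm] at h3
  simp only [Int.natAbs_natCast, Int.natAbs_pow] at h3
  have hm0 : 0 < m := hm.pos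
  have h4 : 3 ^ N ≤ 3 ^ lev N z * m := Nat.le_of_dvd (by positivity) (by simpa using h3)
  have h5 := ZMod.natAbs_valMinAbs_le z
  rw [hum] at h5
  have h6 : 2 ^ u * m ≤ 3 ^ lev N z * m := by omega
  have h7 : 2 ^ u ≤ 3 ^ lev N z := Nat.le_of_mul_le_mul_right h6 hm0
  have h8 : 2 ^ (5 * u) ≤ 2 ^ (8 * lev N z) := by
    calc 2 ^ (5 * u) = (2 ^ u) ^ 5 := by ring
      _ ≤ (3 ^ lev N z) ^ 5 := by gcongr
      _ = 3 ^ (5 * lev N z) := by ring
      _ ≤ _ := three_five_le _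
  exact (Nat.pow_le_pow_iff_right (by norm_num)).1 h8

/-- After leaving the top of a triangle, a black state forces a congruence modulo `2^t`. -/
lemma key_cong (N : ℕ) (ε : ℝ) (z : ZMod (3 ^ N)) (hz : black N ε z) (u : ℕ) (r : ℤ)
    (hr : Odd r) (hzr : z.valMinAbs = 2 ^ u * r) (i t e : ℕ) (hi : 2 * i = u + t) (ht : 1 ≤ t)
    (he : 3 ^ e ≤ 4 ^ i) (hb : black N ε (mv N e i z)) :
    ∃ C : ℤ, Odd C ∧ |(C : ℝ)| ≤ 2 * ε * 2 ^ t ∧ (2 : ℤ) ^ t ∣ 3 ^ N * C + 3 ^ e * r := by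
  set R := (mv N e i z).valMinAbs with hR
  have h2 : z = 2 ^ u * (r : ZMod (3 ^ N)) := by
    rw [← ZMod.coe_valMinAbs z, hzr]; push_cast; ring
  have h3 : (R : ZMod (3 ^ N)) = 3 ^ e * w N ^ (u + t) * z := by
    rw [hR, ZMod.coe_valMinAbs, mv, hi]
  have h4 : (((2 ^ t * R - 3 ^ e * r : ℤ)) : ZMod (3 ^ N)) = 0 := by
    push_cast
    have := two_pow_mul_w N (u + t)
    rw [h3]
    linear_combination 3 ^ e * r * this + 2 ^ t * 3 ^ e * w N ^ (u + t) * h2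
  rw [ZMod.intCast_zmod_eq_zero_iff_dvd] at h4
  obtain ⟨C, hC⟩ := h4
  push_cast at hC
  refine ⟨C, ?_, ?_, ⟨R, by linarith⟩⟩
  · have h5 : Odd (3 ^ N * C) := by
      rw [← hC]
      obtain ⟨s, rfl⟩ := Nat.exists_eq_add_of_le ht
      refine Even.sub_odd ⟨2 ^ s * R, by ring⟩ (Odd.mul (Odd.pow (by decide)) hr)
    exact (Int.odd_mul.1 h5).2
  · have hq : (0 : ℝ) < 3 ^ N := by positivity
    have hC' : (3 : ℝ) ^ N * C = 2 ^ t * R - 3 ^ e * r := by exact_mod_cast hC.symm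
    unfold black at hz hb
    rw [← hR] at hb
    rw [hzr] at hz
    push_cast at hz
    rw [abs_mul, abs_of_pos (by positivity : (0 : ℝ) < 2 ^ u)] at hz
    have he' : (3 : ℝ) ^ e ≤ 2 ^ u * 2 ^ t := by
      rw [← pow_add, ← hi, pow_mul]; norm_num; exact_mod_cast he
    have h6 : (3 : ℝ) ^ e * |(r : ℝ)| ≤ 2 ^ t * (ε * 3 ^ N) := by
      calc (3 : ℝ) ^ e * |(r : ℝ)| ≤ 2 ^ u * 2 ^ t * |(r : ℝ)| := by gcongr
        _ = 2 ^ t * (2 ^ u * |(r : ℝ)|) := by ring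
        _ ≤ _ := by gcongr
    have h7 : (3 : ℝ) ^ N * |(C : ℝ)| ≤ 2 ^ t * |(R : ℝ)| + 3 ^ e * |(r : ℝ)| := by
      have := abs_sub (2 ^ t * (R : ℝ)) (3 ^ e * r)
      rwa [← hC', abs_mul, abs_mul, abs_mul, abs_of_pos hq,
        abs_of_pos (by positivity : (0 : ℝ) < 2 ^ t),
        abs_of_pos (by positivity : (0 : ℝ) < 3 ^ e)] at this
    have h8 : (2 : ℝ) ^ t * |(R : ℝ)| ≤ 2 ^ t * (ε * 3 ^ N) := by gcongr
    have : (3 : ℝ) ^ N * |(C : ℝ)| ≤ 3 ^ N * (2 * ε * 2 ^ t) := by nlinarith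
    exact le_of_mul_le_mul_left this hq

/-- The set of exponents allowed by the congruence is sparse in every window. -/
lemma window_count (N n : ℕ) (ε : ℝ) (hε : 0 ≤ ε) (r : ℤ) (hr : Odd r) (e₀ : ℕ)
    (P : ℕ → Prop) [DecidablePred P]
    (hP : ∀ e, P e → ∃ C : ℤ, Odd C ∧ |(C : ℝ)| ≤ 2 * ε * 2 ^ (n + 2) ∧
      (2 : ℤ) ^ (n + 2) ∣ 3 ^ N * C + 3 ^ e * r) :
    (((range (2 ^ n)).filter (fun i => P (i + e₀))).card : ℝ) ≤ 16 * ε * ((2 ^ n : ℕ) : ℝ) := by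
  classical
  choose! C hC using hP
  set M : ℕ := ⌊2 * ε * 2 ^ (n + 2)⌋₊ with hM
  have hcard : (((Icc (-(M : ℤ)) M).erase 0).card : ℝ) ≤ 16 * ε * ((2 ^ n : ℕ) : ℝ) := by
    rw [card_erase_of_mem (by simp), Int.card_Icc]
    have : ((M : ℤ) + 1 - -(M : ℤ)).toNat - 1 = 2 * M := by omega
    rw [this]
    have h1 : (M : ℝ) ≤ 2 * ε * 2 ^ (n + 2) := Nat.floor_le (by positivity)
    push_cast
    rw [pow_add] at h1
    linarith
  refine le_trans ?_ hcard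
  have : ((range (2 ^ n)).filter (fun i => P (i + e₀))).card
      ≤ ((Icc (-(M : ℤ)) M).erase 0).card := by
    refine card_le_card_of_injOn (fun i => (-1) ^ (i + e₀) * C (i + e₀)) ?_ ?_
    · intro i hi
      obtain ⟨h1, h2, _⟩ := hC _ (mem_filter.1 (mem_coe.1 hi)).2
      have h3 : |C (i + e₀)| ≤ M := by
        have : ((|C (i + e₀)|.toNat : ℕ) : ℝ) ≤ 2 * ε * 2 ^ (n + 2) := by
          have e : ((|C (i + e₀)|.toNat : ℕ) : ℤ) = |C (i + e₀)| := Int.toNat_of_nonneg (abs_nonneg _)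
          have e' : ((|C (i + e₀)|.toNat : ℕ) : ℝ) = |(C (i + e₀) : ℝ)| := by
            rw [← Int.cast_abs]; exact_mod_cast e
          rwa [e']
        have := Nat.le_floor this
        have e : ((|C (i + e₀)|.toNat : ℕ) : ℤ) = |C (i + e₀)| := Int.toNat_of_nonneg (abs_nonneg _)
        omega
      have h0 : C (i + e₀) ≠ 0 := by rintro h; rw [h] at h1; exact absurd h1 (by decide)
      simp only [coe_erase, coe_Icc, Set.mem_sdiff, Set.mem_Icc, Set.mem_singleton_iff]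
      rw [← abs_le, abs_mul, abs_pow, abs_neg, abs_one, one_pow, one_mul]
      exact ⟨h3, mul_ne_zero (pow_ne_zero _ (by norm_num)) h0⟩
    · intro i hi j hj hij
      have hi' := mem_filter.1 (mem_coe.1 hi)
      have hj' := mem_filter.1 (mem_coe.1 hj)
      obtain ⟨_, _, a3⟩ := hC _ hi'.2
      obtain ⟨_, _, b3⟩ := hC _ hj'.2
      simp only at hij
      have h1 : (2 : ℤ) ^ (n + 2) ∣ ((-3) ^ i - (-3) ^ j) * ((-3) ^ e₀ * r) := by
        have := (a3.mul_left ((-1) ^ (i + e₀))).sub (b3.mul_left ((-1) ^ (j + e₀)))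
        have e1 : ∀ k : ℕ, (-3 : ℤ) ^ k = (-1) ^ k * 3 ^ k := fun k => by
          rw [← mul_pow]; norm_num
        have e2 : ((-3 : ℤ) ^ i - (-3) ^ j) * ((-3) ^ e₀ * r)
            = (-3) ^ (i + e₀) * r - (-3) ^ (j + e₀) * r := by ring
        have e4 : ((-3 : ℤ) ^ i - (-3) ^ j) * ((-3) ^ e₀ * r)
            = (-1) ^ (i + e₀) * (3 ^ N * C (i + e₀) + 3 ^ (i + e₀) * r) -
              (-1) ^ (j + e₀) * (3 ^ N * C (j + e₀) + 3 ^ (j + e₀) * r) := by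
          rw [e2, e1, e1]
          linear_combination (-3 ^ N) * hij
        rwa [e4]
      have hcop : IsCoprime ((2 : ℤ) ^ (n + 2)) ((-3) ^ e₀ * r) := by
        apply IsCoprime.pow_left
        rw [Int.isCoprime_two_left]
        exact Odd.mul (Odd.pow (by decide)) hr
      have h2 := hcop.dvd_of_dvd_mul_right h1
      have h3 : ((-3 : ZMod (2 ^ (n + 2)))) ^ j = (-3) ^ i := by
        have := (ZMod.intCast_eq_intCast_iff_dvd_sub ((-3) ^ j) ((-3) ^ i) (2 ^ (n + 2))).2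
          (by exact_mod_cast h2)
        exact_mod_cast this
      have ho := ZMod.orderOf_one_add_four_mul (-1) (by decide) n
      have e3 : (1 + 4 * ((-1 : ℤ) : ZMod (2 ^ (n + 2)))) = -3 := by push_cast; norm_num
      rw [e3] at ho
      exact pow_injOn_Iio_orderOf (x := (-3 : ZMod (2 ^ (n + 2))))
        (by rw [ho]; exact mem_range.1 hi'.1) (by rw [ho]; exact mem_range.1 hj'.1) h3.symm
  exact_mod_cast this

end Pool.Agent.P.MP_2b866c_nt
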