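import Mathlib

/-!
Uniform random bit words, binomial averages, Hoeffding bound, shift bound.
-/

set_option autoImplicit false

open Finset

namespace Pool.Agent.P.MP_2b866c_nt

/-- All bit words of length `t`. -/
def W : ℕ → Finset (List Bool)
  | 0 => {[]}
  | t + 1 => (W t).image (fun x => false :: x) ∪ (W t).image (fun x => true :: x)

lemma mem_W {t : ℕ} {x : List Bool} : x ∈ W t ↔ x.length = t := by
  induction t generalizing x with
  | zero => simp [W]
  | succ t ih =>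
    cases x with
    | nil => simp [W]
    | cons b y => cases b <;> simp [W, ih]

lemma sum_W_succ {E : Type*} [AddCommMonoid E] (t : ℕ) (F : List Bool → E) :
    ∑ x ∈ W (t + 1), F x = ∑ x ∈ W t, F (false :: x) + ∑ x ∈ W t, F (true :: x) := by
  rw [W, sum_union, sum_image, sum_image]
  · intro a _ b _ h; simpa using h
  · intro a _ b _ h; simpa using h
  · rw [disjoint_left]
    intro a ha hb
    simp only [mem_image] at ha hb
    obtain ⟨x, _, rfl⟩ := ha
    obtain ⟨y, _, h⟩ := hb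
    simp at h

/-- Expectation over a uniform word of length `t`. -/
noncomputable def Ex {E : Type*} [Field E] (t : ℕ) (F : List Bool → E) : E :=
  (∑ x ∈ W t, F x) / 2 ^ t

section Field
variable {E : Type*} [Field E]

@[simp] lemma Ex_zero (F : List Bool → E) : Ex 0 F = F [] := by simp [Ex, W]

lemma Ex_succ (t : ℕ) (F : List Bool → E) :
    Ex (t + 1) F = (Ex t (fun x => F (false :: x)) + Ex t (fun x => F (true :: x))) / 2 := by
  simp only [Ex, sum_W_succ, pow_succ]
  rw [← add_div, div_div]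

lemma Ex_congr {t : ℕ} {F G : List Bool → E} (h : ∀ x, x.length = t → F x = G x) :
    Ex t F = Ex t G := by
  unfold Ex
  rw [sum_congr rfl (fun x hx => h x (mem_W.1 hx))]

lemma Ex_add (t : ℕ) (F G : List Bool → E) :
    Ex t (fun x => F x + G x) = Ex t F + Ex t G := by
  simp [Ex, sum_add_distrib, add_div]

lemma Ex_sub (t : ℕ) (F G : List Bool → E) :
    Ex t (fun x => F x - G x) = Ex t F - Ex t G := by
  simp [Ex, sum_sub_distrib, sub_div]

lemma Ex_mul_left (t : ℕ) (c : E) (F : List Bool → E) :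
    Ex t (fun x => c * F x) = c * Ex t F := by
  simp [Ex, ← mul_sum, mul_div_assoc]

lemma Ex_mul_right (t : ℕ) (c : E) (F : List Bool → E) :
    Ex t (fun x => F x * c) = Ex t F * c := by
  simp only [mul_comm _ c, Ex_mul_left]

lemma Ex_div (t : ℕ) (c : E) (F : List Bool → E) :
    Ex t (fun x => F x / c) = Ex t F / c := by
  simp only [div_eq_mul_inv, Ex_mul_right]

lemma Ex_sum {ι : Type*} (t : ℕ) (s : Finset ι) (F : ι → List Bool → E) :
    Ex t (fun x => ∑ i ∈ s, F i x) = ∑ i ∈ s, Ex t (F i) := by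
  simp only [Ex]
  rw [sum_comm, sum_div]

lemma Ex_append (s t : ℕ) (F : List Bool → E) :
    Ex (s + t) F = Ex s (fun x => Ex t (fun y => F (x ++ y))) := by
  induction s generalizing F with
  | zero => simp
  | succ s ih =>
    rw [show s + 1 + t = (s + t) + 1 by ring, Ex_succ, Ex_succ, ih, ih]
    simp

lemma Ex_const [CharZero E] (t : ℕ) (c : E) : Ex t (fun _ => c) = c := by
  induction t with
  | zero => simp
  | succ t ih => rw [Ex_succ, ih]; ring

end Field

lemma Ex_mono {t : ℕ} {F G : List Bool → ℝ} (h : ∀ x, x.length = t → F x ≤ G x) :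
    Ex t F ≤ Ex t G := by
  unfold Ex
  gcongr with x hx
  exact h x (mem_W.1 hx)

lemma Ex_nonneg {t : ℕ} {F : List Bool → ℝ} (h : ∀ x, x.length = t → 0 ≤ F x) :
    0 ≤ Ex t F := by
  have := Ex_mono (F := fun _ => (0 : ℝ)) h
  rwa [Ex_const] at this

lemma Ex_le_const {t : ℕ} {F : List Bool → ℝ} {c : ℝ} (h : ∀ x, x.length = t → F x ≤ c) :
    Ex t F ≤ c := by
  have := Ex_mono (G := fun _ => c) h
  rwa [Ex_const] at this

lemma abs_Ex_le (t : ℕ) (F : List Bool → ℝ) : |Ex t F| ≤ Ex t (fun x => |F x|) := by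
  unfold Ex
  rw [abs_div, abs_of_pos (by positivity : (0 : ℝ) < 2 ^ t)]
  gcongr
  exact abs_sum_le_sum_abs _ _

lemma norm_Ex_le (t : ℕ) (F : List Bool → ℂ) : ‖Ex t F‖ ≤ Ex t (fun x => ‖F x‖) := by
  unfold Ex
  rw [norm_div, norm_pow, Complex.norm_ofNat]
  gcongr
  exact norm_sum_le _ _

lemma ofReal_Ex (t : ℕ) (F : List Bool → ℝ) :
    ((Ex t F : ℝ) : ℂ) = Ex t (fun x => (F x : ℂ)) := by
  simp [Ex]

/-- At most one word satisfies `P`: probability at most `2^{-t}`. -/
lemma Ex_le_of_unique (t : ℕ) (P : List Bool → Prop) [DecidablePred P]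
    (h : ∀ x y, x.length = t → y.length = t → P x → P y → x = y) :
    Ex t (fun x => if P x then (1 : ℝ) else 0) ≤ 1 / 2 ^ t := by
  unfold Ex
  gcongr
  rw [← sum_filter]
  simp only [sum_const, nsmul_eq_mul, mul_one, Nat.cast_le_one]
  rw [card_le_one]
  intro a ha b hb
  simp only [mem_filter, mem_W] at ha hb
  exact h a b ha.1 hb.1 ha.2 hb.2

/-- Number of ones. -/
def ones (x : List Bool) : ℕ := x.count true

@[simp] lemma ones_nil : ones [] = 0 := rfl
@[simp] lemma ones_false (x : List Bool) : ones (false :: x) = ones x := by simp [ones]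
@[simp] lemma ones_true (x : List Bool) : ones (true :: x) = ones x + 1 := by simp [ones]
lemma ones_append (x y : List Bool) : ones (x ++ y) = ones x + ones y := by simp [ones]
lemma ones_le (x : List Bool) : ones x ≤ x.length := List.count_le_length

/-- Binomial average. -/
noncomputable def Bn (t : ℕ) (f : ℕ → ℝ) : ℝ := Ex t (fun x => f (ones x))

@[simp] lemma Bn_zero (f : ℕ → ℝ) : Bn 0 f = f 0 := by simp [Bn]

lemma Bn_succ (t : ℕ) (f : ℕ → ℝ) :
    Bn (t + 1) f = (Bn t f + Bn t (fun e => f (e + 1))) / 2 := by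
  simp [Bn, Ex_succ]

lemma Bn_mono {t : ℕ} {f g : ℕ → ℝ} (h : ∀ e, e ≤ t → f e ≤ g e) : Bn t f ≤ Bn t g :=
  Ex_mono fun x hx => h _ (hx ▸ ones_le x)

lemma Bn_congr {t : ℕ} {f g : ℕ → ℝ} (h : ∀ e, e ≤ t → f e = g e) : Bn t f = Bn t g :=
  Ex_congr fun x hx => h _ (hx ▸ ones_le x)

lemma Bn_const (t : ℕ) (c : ℝ) : Bn t (fun _ => c) = c := Ex_const t c

lemma Bn_nonneg {t : ℕ} {f : ℕ → ℝ} (h : ∀ e, e ≤ t → 0 ≤ f e) : 0 ≤ Bn t f :=
  Ex_nonneg fun x hx => h _ (hx ▸ ones_le x)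

lemma Bn_le_const {t : ℕ} {f : ℕ → ℝ} {c : ℝ} (h : ∀ e, e ≤ t → f e ≤ c) : Bn t f ≤ c :=
  Ex_le_const fun x hx => h _ (hx ▸ ones_le x)

lemma Bn_add (t : ℕ) (f g : ℕ → ℝ) : Bn t (fun e => f e + g e) = Bn t f + Bn t g :=
  Ex_add t _ _

lemma Bn_sub (t : ℕ) (f g : ℕ → ℝ) : Bn t (fun e => f e - g e) = Bn t f - Bn t g :=
  Ex_sub t _ _

lemma Bn_mul_left (t : ℕ) (c : ℝ) (f : ℕ → ℝ) : Bn t (fun e => c * f e) = c * Bn t f :=
  Ex_mul_left t _ _

lemma Bn_sum {ι : Type*} (t : ℕ) (s : Finset ι) (f : ι → ℕ → ℝ) :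
    Bn t (fun e => ∑ i ∈ s, f i e) = ∑ i ∈ s, Bn t (f i) :=
  Ex_sum t s (fun i x => f i (ones x))

lemma abs_Bn_le (t : ℕ) (f : ℕ → ℝ) : |Bn t f| ≤ Bn t (fun e => |f e|) := abs_Ex_le t _

lemma Bn_append (s t : ℕ) (f : ℕ → ℝ) :
    Bn (s + t) f = Bn s (fun i => Bn t (fun e => f (i + e))) := by
  simp only [Bn, Ex_append, ones_append]

lemma Bn_exp (t : ℕ) (θ : ℝ) :
    Bn t (fun e => Real.exp (θ * (e - t / 2))) = Real.cosh (θ / 2) ^ t := by
  induction t with
  | zero => simp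
  | succ t ih =>
    rw [Bn_succ]
    have h1 : Bn t (fun e => Real.exp (θ * (e - ((t + 1 : ℕ) : ℝ) / 2)))
        = Real.exp (-(θ / 2)) * Real.cosh (θ / 2) ^ t := by
      rw [← ih, ← Bn_mul_left]
      refine Bn_congr fun e _ => ?_
      rw [← Real.exp_add]; congr 1; push_cast; ring
    have h2 : Bn t (fun e => Real.exp (θ * (((e + 1 : ℕ) : ℝ) - ((t + 1 : ℕ) : ℝ) / 2)))
        = Real.exp (θ / 2) * Real.cosh (θ / 2) ^ t := by
      rw [← ih, ← Bn_mul_left]
      refine Bn_congr fun e _ => ?_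
      rw [← Real.exp_add]; congr 1; push_cast; ring
    rw [h1, h2, pow_succ, Real.cosh_eq]; ring

lemma Bn_exp_le (t : ℕ) (θ s : ℝ) (hs : (t : ℝ) ≤ s) :
    Bn t (fun e => Real.exp (θ * (e - t / 2))) ≤ Real.exp (θ ^ 2 * s / 8) := by
  rw [Bn_exp]
  calc Real.cosh (θ / 2) ^ t ≤ Real.exp ((θ / 2) ^ 2 / 2) ^ t := by
        gcongr
        exact Real.cosh_le_exp_half_sq _
    _ = Real.exp (θ ^ 2 * t / 8) := by rw [← Real.exp_nat_mul]; congr 1; ring
    _ ≤ _ := by gcongr

/-- Hoeffding, upper tail. -/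
lemma hoeff_up (t : ℕ) (s D : ℝ) (hs : (t : ℝ) ≤ s) (hs0 : 0 < s) (hD : 0 ≤ D)
    (P : ℕ → Prop) [DecidablePred P] (hP : ∀ e : ℕ, P e → (t : ℝ) / 2 + D ≤ e) :
    Bn t (fun e => if P e then 1 else 0) ≤ Real.exp (-(2 * D ^ 2 / s)) := by
  set θ := 4 * D / s with hθ
  have hθ0 : 0 ≤ θ := by positivity
  calc Bn t (fun e => if P e then 1 else 0)
      ≤ Bn t (fun e => Real.exp (-(θ * D)) * Real.exp (θ * (e - t / 2))) := by
        refine Bn_mono fun e _ => ?_
        split_ifs with h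
        · rw [← Real.exp_add]
          apply Real.one_le_exp
          have := hP e h
          nlinarith
        · positivity
    _ ≤ Real.exp (-(θ * D)) * Real.exp (θ ^ 2 * s / 8) := by
        rw [Bn_mul_left]
        gcongr
        exact Bn_exp_le t θ s hs
    _ = _ := by
        rw [← Real.exp_add]; congr 1; rw [hθ]; field_simp; ring

/-- Hoeffding, lower tail. -/
lemma hoeff_down (t : ℕ) (s D : ℝ) (hs : (t : ℝ) ≤ s) (hs0 : 0 < s) (hD : 0 ≤ D)
    (P : ℕ → Prop) [DecidablePred P] (hP : ∀ e : ℕ, P e → (e : ℝ) ≤ (t : ℝ) / 2 - D) :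
    Bn t (fun e => if P e then 1 else 0) ≤ Real.exp (-(2 * D ^ 2 / s)) := by
  set θ := 4 * D / s with hθ
  have hθ0 : 0 ≤ θ := by positivity
  calc Bn t (fun e => if P e then 1 else 0)
      ≤ Bn t (fun e => Real.exp (-(θ * D)) * Real.exp ((-θ) * (e - t / 2))) := by
        refine Bn_mono fun e _ => ?_
        split_ifs with h
        · rw [← Real.exp_add]
          apply Real.one_le_exp
          have := hP e h
          nlinarith
        · positivity
    _ ≤ Real.exp (-(θ * D)) * Real.exp ((-θ) ^ 2 * s / 8) := by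
        rw [Bn_mul_left]
        gcongr
        exact Bn_exp_le t (-θ) s hs
    _ = _ := by
        rw [← Real.exp_add]; congr 1; rw [hθ]; field_simp; ring

lemma Bn_size_one (t : ℕ) (f : ℕ → ℝ) :
    Bn (t + 1) (fun e => f e * e) = (t + 1) / 2 * Bn t (fun e => f (e + 1)) := by
  induction t generalizing f with
  | zero => simp [Bn_succ]; ring
  | succ t ih =>
    rw [Bn_succ (t + 1), ih]
    have : Bn (t + 1) (fun e => f (e + 1) * ((e + 1 : ℕ) : ℝ))
        = Bn (t + 1) (fun e => f (e + 1) * e) + Bn (t + 1) (fun e => f (e + 1)) := by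
      rw [← Bn_add]; refine Bn_congr fun e _ => ?_; push_cast; ring
    rw [this, ih (fun e => f (e + 1)), Bn_succ t (fun e => f (e + 1))]
    push_cast; ring

lemma Bn_var (t : ℕ) : Bn t (fun e => (2 * (e : ℝ) - t) ^ 2) = t := by
  induction t with
  | zero => simp
  | succ t ih =>
    rw [Bn_succ, ← Bn_add]
    have : Bn t (fun e => (2 * (e : ℝ) - ((t + 1 : ℕ) : ℝ)) ^ 2
        + (2 * ((e + 1 : ℕ) : ℝ) - ((t + 1 : ℕ) : ℝ)) ^ 2)
        = Bn t (fun e => 2 * (2 * (e : ℝ) - t) ^ 2 + 2) := by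
      refine Bn_congr fun e _ => ?_; push_cast; ring
    rw [this, Bn_add, Bn_mul_left, ih, Bn_const]; push_cast; ring

/-- Total variation of a unit shift of the binomial law. -/
lemma Bn_shift (t : ℕ) (f : ℕ → ℝ) (B : ℝ) (hf : ∀ e, |f e| ≤ B) :
    |Bn t (fun e => f (e + 1)) - Bn t f| ≤ 2 * B / √(t + 1) := by
  have hB : 0 ≤ B := (abs_nonneg _).trans (hf 0)
  have ht : (0 : ℝ) < t + 1 := by positivity
  set c := √((t : ℝ) + 1) with hc
  have hc0 : 0 < c := Real.sqrt_pos.2 ht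
  have hcc : c * c = t + 1 := Real.mul_self_sqrt ht.le
  have h1 := Bn_size_one t f
  have h2 := Bn_succ t f
  have h3 : Bn t (fun e => f (e + 1)) - Bn t f
      = 2 / (t + 1) * Bn (t + 1) (fun e => f e * (2 * (e : ℝ) - ((t + 1 : ℕ) : ℝ))) := by
    have : Bn (t + 1) (fun e => f e * (2 * (e : ℝ) - ((t + 1 : ℕ) : ℝ)))
        = 2 * Bn (t + 1) (fun e => f e * e) - (t + 1) * Bn (t + 1) f := by
      rw [← Bn_mul_left, ← Bn_mul_left, ← Bn_sub]
      refine Bn_congr fun e _ => ?_; push_cast; ring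
    rw [this, h1, h2]; field_simp; ring
  rw [h3, abs_mul, abs_of_pos (by positivity : (0 : ℝ) < 2 / (t + 1))]
  have h4 : |Bn (t + 1) (fun e => f e * (2 * (e : ℝ) - ((t + 1 : ℕ) : ℝ)))| ≤ B * c := by
    refine (abs_Bn_le _ _).trans ?_
    calc Bn (t + 1) (fun e => |f e * (2 * (e : ℝ) - ((t + 1 : ℕ) : ℝ))|)
        ≤ Bn (t + 1) (fun e => B / (2 * c) * (2 * (e : ℝ) - ((t + 1 : ℕ) : ℝ)) ^ 2
            + B * c / 2) := by
          refine Bn_mono fun e _ => ?_
          rw [abs_mul]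
          set y := 2 * (e : ℝ) - ((t + 1 : ℕ) : ℝ)
          have : |y| ≤ y ^ 2 / (2 * c) + c / 2 := by
            rw [← sq_abs y, div_add_div _ _ (by positivity) (by positivity),
              le_div_iff₀ (by positivity)]
            nlinarith [sq_nonneg (|y| - c)]
          calc |f e| * |y| ≤ B * (y ^ 2 / (2 * c) + c / 2) := by
                gcongr; exact hf e
            _ = _ := by ring
      _ = B * c := by
          rw [Bn_add, Bn_mul_left, Bn_var, Bn_const]
          push_cast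
          rw [← hcc]; field_simp; ring
  calc 2 / ((t : ℝ) + 1) * |_| ≤ 2 / (t + 1) * (B * c) := by gcongr
    _ = 2 * B / c := by rw [← hcc]; field_simp

lemma Bn_shift_iter (t i : ℕ) (f : ℕ → ℝ) (B : ℝ) (hf : ∀ e, |f e| ≤ B) :
    |Bn t (fun e => f (i + e)) - Bn t f| ≤ i * (2 * B / √(t + 1)) := by
  induction i with
  | zero => simp
  | succ i ih =>
    have h := Bn_shift t (fun e => f (i + e)) B (fun e => hf _)
    have e1 : (fun e => f (i + 1 + e)) = fun e => f (i + (e + 1)) := by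
      funext e; congr 1; ring
    rw [e1]
    have := abs_sub_le (Bn t (fun e => f (i + (e + 1)))) (Bn t (fun e => f (i + e))) (Bn t f)
    push_cast
    linarith

/-- A set meeting every window of length `Q` in at most `d Q` points. -/
lemma Bn_window (t Q : ℕ) (hQ : 0 < Q) (P : ℕ → Prop) [DecidablePred P] (d : ℝ)
    (hP : ∀ e, (((range Q).filter (fun i => P (i + e))).card : ℝ) ≤ d * Q) :
    Bn t (fun e => if P e then 1 else 0) ≤ d + Q * (2 / √(t + 1)) := by
  have hQ' : (0 : ℝ) < Q := by exact_mod_cast hQ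
  set f : ℕ → ℝ := fun e => if P e then 1 else 0 with hf
  have hf1 : ∀ e, |f e| ≤ 1 := by intro e; simp only [hf]; split_ifs <;> simp
  have h1 : ∀ i ∈ range Q, Bn t f ≤ Bn t (fun e => f (i + e)) + Q * (2 / √(t + 1)) := by
    intro i hi
    have := Bn_shift_iter t i f 1 hf1
    have hi' : (i : ℝ) ≤ Q := by exact_mod_cast (mem_range.1 hi).le
    have h2 : (i : ℝ) * (2 * 1 / √(t + 1)) ≤ Q * (2 / √(t + 1)) := by
      rw [mul_one]; gcongr
    linarith [(abs_le.1 this).1]
  have h2 := sum_le_sum h1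
  simp only [sum_const, card_range, nsmul_eq_mul, sum_add_distrib] at h2
  rw [← Bn_sum] at h2
  have h3 : Bn t (fun e => ∑ i ∈ range Q, f (i + e)) ≤ d * Q := by
    refine Bn_le_const fun e _ => ?_
    simp only [hf]
    rw [← sum_filter]
    simpa using hP e
  have : (Q : ℝ) * Bn t f ≤ Q * (d + Q * (2 / √(t + 1))) := by nlinarith
  exact le_of_mul_le_mul_left this hQ'

/-- Point mass of the binomial law. -/
noncomputable def pb (t j : ℕ) : ℝ := Bn t (fun e => if e = j then 1 else 0)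

lemma pb_nonneg (t j : ℕ) : 0 ≤ pb t j := Bn_nonneg fun e _ => by split_ifs <;> norm_num

lemma Bn_eq_sum (t K : ℕ) (hK : t < K) (f : ℕ → ℝ) :
    Bn t f = ∑ j ∈ range K, pb t j * f j := by
  simp only [pb, mul_comm (Bn _ _), ← Bn_mul_left]
  rw [← Bn_sum]
  refine Bn_congr fun e he => ?_
  simp only [mul_ite, mul_one, mul_zero]
  rw [sum_ite_eq]
  simp [show e < K by omega]

lemma sum_pb (t K : ℕ) (hK : t < K) : ∑ j ∈ range K, pb t j = 1 := by
  have := Bn_eq_sum t K hK (fun _ => 1)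
  simpa [Bn_const] using this.symm

end Pool.Agent.P.MP_2b866c_nt
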